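import Mathlib

set_option autoImplicit false

namespace Pool.Agent.H20.AffineED

open MvPolynomial

/-- Index set of tensors of format `m 0 × ⋯ × m (d-1)`. -/
abbrev Idx {d : ℕ} (m : Fin d → ℕ) : Type := (k : Fin d) → Fin (m k)

/-- Complex tensors of format `m`. -/
abbrev Tensor {d : ℕ} (m : Fin d → ℕ) : Type := Idx m → ℂ

/-- The rank-one tensor `a⁽¹⁾ ⊗ ⋯ ⊗ a⁽ᵈ⁾`. -/
def segre {d : ℕ} {m : Fin d → ℕ} (a : (k : Fin d) → Fin (m k) → ℂ) : Tensor m :=
  fun I => ∏ k, a k (I k)

/-- The tangent space of the Segre cone at the rank-one tensor `segre a`: it is spanned by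
the tensors obtained by replacing one of the factors of `segre a` by an arbitrary vector. -/
def tangentCone {d : ℕ} {m : Fin d → ℕ} (a : (k : Fin d) → Fin (m k) → ℂ) :
    Submodule ℂ (Tensor m) :=
  Submodule.span ℂ {y | ∃ (k : Fin d) (b : Fin (m k) → ℂ), y = segre (Function.update a k b)}

/-- `x` is a critical point of the squared distance from `T` on the rank-one tensors with
coordinate sum one: `x - T` is orthogonal to the tangent space of that affine variety at `x`. -/
def IsCriticalPoint {d : ℕ} {m : Fin d → ℕ} (T x : Tensor m) : Prop :=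
  ∃ a : (k : Fin d) → Fin (m k) → ℂ, x = segre a ∧ ∑ I, x I = 1 ∧
    ∀ y ∈ tangentCone a, ∑ I, y I = 0 → ∑ I, (x I - T I) * y I = 0

/-- all entries are real -/
def IsRealTensor {d : ℕ} {m : Fin d → ℕ} (x : Tensor m) : Prop := ∀ I, (x I).im = 0

/-- a probability tensor with nonnegative entries -/
def IsNonnegProbability {d : ℕ} {m : Fin d → ℕ} (T : Tensor m) : Prop :=
  IsRealTensor T ∧ (∀ I, 0 ≤ (T I).re) ∧ ∑ I, T I = 1

/-- `N` is the number of complex critical points for generic data `T` with coordinate sum one: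
outside the zero set of a polynomial not vanishing identically on the hyperplane `H`, there are
exactly `N` critical points. -/
def IsGenericNumber {d : ℕ} (m : Fin d → ℕ) (N : ℕ) : Prop :=
  ∃ P : MvPolynomial (Idx m) ℂ, (∃ T : Tensor m, ∑ I, T I = 1 ∧ eval T P ≠ 0) ∧
    ∀ T : Tensor m, ∑ I, T I = 1 → eval T P ≠ 0 → {x | IsCriticalPoint T x}.encard = N

/-- the format `2 × 2 × 2` -/
abbrev m222 : Fin 3 → ℕ := fun _ => 2

end Pool.Agent.H20.AffineED
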