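import Pool.Agent.H20.AffineEDDefs

set_option autoImplicit false

namespace Pool.Agent.H20.AffineED

open MvPolynomial

section aux

/-- real version of the coordinates of a rank-one tensor -/
noncomputable def al (t : ℝ) : Fin 2 → ℝ := ![1 / 2 + t, 1 / 2 - t]
def ee : Fin 2 → ℝ := ![1, -1]

noncomputable def xr (p : Fin 3 → ℝ) (I : Idx m222) : ℝ := ∏ k, al (p k) (I k)

noncomputable def rest (p : Fin 3 → ℝ) (k : Fin 3) (I : Idx m222) : ℝ :=
  ∏ l ∈ Finset.univ.erase k, al (p l) (I l)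

theorem xr_rest (p : Fin 3 → ℝ) (k : Fin 3) (I : Idx m222) :
    xr p I = al (p k) (I k) * rest p k I :=
  (Finset.mul_prod_erase Finset.univ (fun l => al (p l) (I l)) (Finset.mem_univ k)).symm

theorem al_add (s t : ℝ) (i : Fin 2) : al (s + t) i = al s i + t * ee i := by
  fin_cases i
  · show 1 / 2 + (s + t) = 1 / 2 + s + t * 1
    ring
  · show 1 / 2 - (s + t) = 1 / 2 - s + t * (-1)
    ring

theorem xr_update (p : Fin 3 → ℝ) (k : Fin 3) (t : ℝ) (I : Idx m222) :
    xr (Function.update p k (p k + t)) I = xr p I + t * (ee (I k) * rest p k I) := by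
  rw [xr_rest _ k, xr_rest _ k]
  have h1 : rest (Function.update p k (p k + t)) k I = rest p k I := by
    unfold rest
    refine Finset.prod_congr rfl fun l hl => ?_
    rw [Function.update_of_ne (Finset.ne_of_mem_erase hl)]
  rw [h1, Function.update_self, al_add]
  ring

theorem sum_prod (f : (k : Fin 3) → Fin 2 → ℝ) :
    ∑ I : Idx m222, ∏ k, f k (I k) = ∏ k, ∑ i, f k i := by
  rw [Finset.prod_univ_sum, Fintype.piFinset_univ]

theorem sum_xr (p : Fin 3 → ℝ) : ∑ I, xr p I = 1 := by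
  unfold xr
  rw [sum_prod (fun k => al (p k))]
  apply Finset.prod_eq_one
  intro k _
  rw [Fin.sum_univ_two]
  show 1 / 2 + p k + (1 / 2 - p k) = 1
  ring

theorem sum_xr_sq (p : Fin 3 → ℝ) : ∑ I, xr p I ^ 2 = ∏ k, (1 / 2 + 2 * p k ^ 2) := by
  unfold xr
  simp_rw [← Finset.prod_pow]
  rw [sum_prod (fun k i => al (p k) i ^ 2)]
  refine Finset.prod_congr rfl fun k _ => ?_
  rw [Fin.sum_univ_two]
  show (1 / 2 + p k) ^ 2 + (1 / 2 - p k) ^ 2 = _
  ring

/-- the marginal, to recover the parameters -/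
theorem marginal (p : Fin 3 → ℝ) (k : Fin 3) :
    ∑ I : Idx m222, xr p I * (if I k = 0 then 1 else 0) = 1 / 2 + p k := by
  have h1 : ∀ I : Idx m222, xr p I * (if I k = 0 then 1 else 0) =
      ∏ l, (al (p l) (I l) * (if l = k then (if I l = 0 then 1 else 0) else 1)) := by
    intro I
    rw [Finset.prod_mul_distrib]
    unfold xr
    congr 1
    rw [Finset.prod_ite_eq' Finset.univ k (fun l => if I l = 0 then (1 : ℝ) else 0)]
    simp
  simp_rw [h1]
  rw [sum_prod (fun l i => al (p l) i * (if l = k then (if i = 0 then 1 else 0) else 1)),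
    ← Finset.mul_prod_erase Finset.univ _ (Finset.mem_univ k)]
  have h2 : ∏ l ∈ Finset.univ.erase k, ∑ i : Fin 2, al (p l) i *
      (if l = k then (if i = 0 then 1 else 0) else 1) = 1 := by
    apply Finset.prod_eq_one
    intro l hl
    rw [Fin.sum_univ_two, if_neg (Finset.ne_of_mem_erase hl), if_neg (Finset.ne_of_mem_erase hl)]
    show (1 / 2 + p l) * 1 + (1 / 2 - p l) * 1 = 1
    ring
  rw [h2, Fin.sum_univ_two]
  simp [al]

/-- the centre of the ball of data -/
noncomputable def T0 : Idx m222 → ℝ := fun I => if I = 0 then 1 / 2 else if I = 1 then 1 / 2 else 0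

theorem sum_T0_mul (f : Idx m222 → ℝ) : ∑ I, f I * T0 I = (f 0 + f 1) / 2 := by
  have h01 : (1 : Idx m222) ≠ 0 := by decide
  have h1 : ∀ I : Idx m222, f I * T0 I =
      (if I = 0 then f I / 2 else 0) + (if I = 1 then f I / 2 else 0) := by
    intro I
    unfold T0
    by_cases h : I = 0
    · subst h; simp [h01.symm]; ring
    · by_cases h' : I = 1
      · subst h'; simp [h01]; ring
      · simp [h, h']
  simp_rw [h1]
  rw [Finset.sum_add_distrib, Finset.sum_ite_eq' Finset.univ, Finset.sum_ite_eq' Finset.univ]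
  simp
  ring

noncomputable def FF (T : Idx m222 → ℝ) (p : Fin 3 → ℝ) : ℝ := ∑ I, (xr p I - T I) ^ 2

theorem FF0 (p : Fin 3 → ℝ) : FF T0 p = (1 / 2 + 2 * p 0 ^ 2) * (1 / 2 + 2 * p 1 ^ 2) *
    (1 / 2 + 2 * p 2 ^ 2) + 1 / 4 - (p 0 * p 1 + p 1 * p 2 + p 0 * p 2) := by
  have h1 : FF T0 p = ∑ I, xr p I ^ 2 - 2 * ∑ I, xr p I * T0 I + ∑ I, T0 I * T0 I := by
    unfold FF
    rw [Finset.mul_sum, ← Finset.sum_sub_distrib, ← Finset.sum_add_distrib]
    refine Finset.sum_congr rfl fun I _ => ?_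
    ring
  rw [h1, sum_xr_sq, sum_T0_mul, sum_T0_mul, Fin.prod_univ_three]
  have h2 : xr p 0 = (1 / 2 + p 0) * (1 / 2 + p 1) * (1 / 2 + p 2) := by
    unfold xr
    rw [Fin.prod_univ_three]
    simp [al]
  have h3 : xr p 1 = (1 / 2 - p 0) * (1 / 2 - p 1) * (1 / 2 - p 2) := by
    unfold xr
    rw [Fin.prod_univ_three]
    simp [al]
  have h4 : T0 0 = 1 / 2 := by simp [T0]
  have h5 : T0 1 = 1 / 2 := by
    have h01 : (1 : Idx m222) ≠ 0 := by decide
    simp [T0]
  rw [h2, h3, h4, h5]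
  ring

theorem FF0_boundary (p : Fin 3 → ℝ) (h : p 0 + p 1 + p 2 = 0) : 3 / 8 ≤ FF T0 p := by
  rw [FF0]
  have h2 : p 2 = -(p 0 + p 1) := by linarith
  have h3 : -(p 0 * p 1 + p 1 * p 2 + p 0 * p 2) = (p 0 ^ 2 + p 1 ^ 2 + p 2 ^ 2) / 2 := by
    rw [h2]; ring
  have h4 : (1 / 8 : ℝ) ≤ (1 / 2 + 2 * p 0 ^ 2) * (1 / 2 + 2 * p 1 ^ 2) * (1 / 2 + 2 * p 2 ^ 2) := by
    have a := sq_nonneg (p 0)
    have b := sq_nonneg (p 1)
    have c := sq_nonneg (p 2)
    have ab := mul_nonneg a b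
    have bc := mul_nonneg b c
    have ac := mul_nonneg a c
    have abc := mul_nonneg ab c
    nlinarith
  nlinarith [sq_nonneg (p 0), sq_nonneg (p 1), sq_nonneg (p 2)]

/-- the two good points -/
noncomputable def gp (σ : ℝ) : Fin 3 → ℝ := fun _ => σ * (8 / 25)

theorem FF0_gp (σ : ℝ) (hσ : σ ^ 2 = 1) : FF T0 (gp σ) ≤ 293 / 1000 := by
  rw [FF0]
  unfold gp
  have h1 : (σ * (8 / 25)) ^ 2 = 64 / 625 := by rw [mul_pow, hσ]; norm_num
  have h2 : σ * (8 / 25) * (σ * (8 / 25)) = 64 / 625 := by rw [← pow_two]; exact h1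
  rw [h1, h2]
  norm_num

theorem FF_le (T S : Idx m222 → ℝ) (p : Fin 3 → ℝ) :
    FF T p ≤ 11 / 10 * FF S p + 11 * ∑ I, (T I - S I) ^ 2 := by
  unfold FF
  rw [Finset.mul_sum, Finset.mul_sum, ← Finset.sum_add_distrib]
  apply Finset.sum_le_sum
  intro I _
  nlinarith [sq_nonneg ((xr p I - S I) + 10 * (T I - S I))]

theorem FF_boundary (T : Idx m222 → ℝ) (hT : ∑ I, (T I - T0 I) ^ 2 ≤ 1 / 2000)
    (p : Fin 3 → ℝ) (h : p 0 + p 1 + p 2 = 0) (σ : ℝ) (hσ : σ ^ 2 = 1) :
    FF T (gp σ) < FF T p := by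
  have h1 := FF_le T T0 (gp σ)
  have h2 := FF_le T0 T p
  have h3 := FF0_boundary p h
  have h4 := FF0_gp σ hσ
  have h5 : ∑ I, (T0 I - T I) ^ 2 = ∑ I, (T I - T0 I) ^ 2 :=
    Finset.sum_congr rfl fun I _ => by ring
  rw [h5] at h2
  linarith

theorem FF_coercive (T : Idx m222 → ℝ) (p : Fin 3 → ℝ) (c : ℝ) (h : FF T p ≤ c) (k : Fin 3) :
    p k ^ 2 ≤ 4 * (c + ∑ I, T I ^ 2) := by
  have h1 : ∑ I, xr p I ^ 2 ≤ 2 * FF T p + 2 * ∑ I, T I ^ 2 := by
    unfold FF
    rw [Finset.mul_sum, Finset.mul_sum, ← Finset.sum_add_distrib]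
    apply Finset.sum_le_sum
    intro I _
    nlinarith [sq_nonneg (xr p I - 2 * T I)]
  rw [sum_xr_sq, Fin.prod_univ_three] at h1
  have a := sq_nonneg (p 0)
  have b := sq_nonneg (p 1)
  have c' := sq_nonneg (p 2)
  have ab := mul_nonneg a b
  have bc := mul_nonneg b c'
  have ac := mul_nonneg a c'
  have abc := mul_nonneg ab c'
  fin_cases k
  · show p 0 ^ 2 ≤ _
    nlinarith
  · show p 1 ^ 2 ≤ _
    nlinarith
  · show p 2 ^ 2 ≤ _
    nlinarith

theorem FF_cont (T : Idx m222 → ℝ) : Continuous (FF T) := by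
  unfold FF xr
  refine continuous_finsetSum _ fun I _ => ?_
  refine ((continuous_finsetProd _ fun k _ => ?_).sub continuous_const).pow 2
  have : ∀ i : Fin 2, Continuous (fun t => al t i) := by
    intro i
    fin_cases i
    · show Continuous (fun t : ℝ => 1 / 2 + t); fun_prop
    · show Continuous (fun t : ℝ => 1 / 2 - t); fun_prop
  exact (this (I k)).comp (continuous_apply k)

/-- minimisers over the two half spaces -/
theorem exists_min (T : Idx m222 → ℝ) (hT : ∑ I, (T I - T0 I) ^ 2 ≤ 1 / 2000)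
    (σ : ℝ) (hσ : σ ^ 2 = 1) : ∃ p : Fin 3 → ℝ, 0 < σ * (p 0 + p 1 + p 2) ∧
      ∀ q : Fin 3 → ℝ, 0 ≤ σ * (q 0 + q 1 + q 2) → FF T p ≤ FF T q := by
  have hgp : 0 ≤ σ * (gp σ 0 + gp σ 1 + gp σ 2) := by
    unfold gp; nlinarith
  set c := FF T (gp σ) with hc
  set B := {q : Fin 3 → ℝ | 0 ≤ σ * (q 0 + q 1 + q 2) ∧ FF T q ≤ c} with hB
  have hcl : IsClosed B := by
    have h1 : IsClosed {q : Fin 3 → ℝ | 0 ≤ σ * (q 0 + q 1 + q 2)} :=
      isClosed_le continuous_const (by fun_prop)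
    have h2 : IsClosed {q : Fin 3 → ℝ | FF T q ≤ c} := isClosed_le (FF_cont T) continuous_const
    exact h1.inter h2
  have hbd : Bornology.IsBounded B := by
    set M := 4 * (c + ∑ I, T I ^ 2) + 1 with hM
    refine (Metric.isBounded_Icc (fun _ => -M : Fin 3 → ℝ) (fun _ => M)).subset ?_
    rintro q ⟨-, hq⟩
    have h1 : ∀ k, q k ^ 2 ≤ 4 * (c + ∑ I, T I ^ 2) := fun k => FF_coercive T q c hq k
    constructor
    · intro k
      have := h1 k
      show -M ≤ q k
      nlinarith [sq_nonneg (q k + 1)]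
    · intro k
      have := h1 k
      show q k ≤ M
      nlinarith [sq_nonneg (q k - 1)]
  have hcpt : IsCompact B := Metric.isCompact_of_isClosed_isBounded hcl hbd
  obtain ⟨p, hp, hmin⟩ := hcpt.exists_isMinOn ⟨gp σ, hgp, le_refl _⟩ (FF_cont T).continuousOn
  have hle : ∀ q : Fin 3 → ℝ, 0 ≤ σ * (q 0 + q 1 + q 2) → FF T p ≤ FF T q := by
    intro q hq
    by_cases h : FF T q ≤ c
    · exact hmin ⟨hq, h⟩
    · exact hp.2.trans (le_of_not_ge h)
  refine ⟨p, lt_of_le_of_ne hp.1 ?_, hle⟩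
  intro h0
  have h1 : p 0 + p 1 + p 2 = 0 := by
    rcases mul_eq_zero.1 h0.symm with h | h
    · rw [h] at hσ; norm_num at hσ
    · exact h
  have h2 := FF_boundary T hT p h1 σ hσ
  have h3 := hle (gp σ) hgp
  linarith

/-- vanishing of the partial derivatives -/
theorem grad_zero (T : Idx m222 → ℝ) (σ : ℝ) (p : Fin 3 → ℝ)
    (hp : 0 < σ * (p 0 + p 1 + p 2))
    (hmin : ∀ q : Fin 3 → ℝ, 0 ≤ σ * (q 0 + q 1 + q 2) → FF T p ≤ FF T q) (k : Fin 3) :
    ∑ I, (xr p I - T I) * (ee (I k) * rest p k I) = 0 := by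
  set g := ∑ I, (xr p I - T I) * (ee (I k) * rest p k I) with hg
  set Q := ∑ I, (ee (I k) * rest p k I) ^ 2 with hQ
  have hQ0 : 0 ≤ Q := Finset.sum_nonneg fun I _ => sq_nonneg _
  have hexp : ∀ t : ℝ, FF T (Function.update p k (p k + t)) = FF T p + 2 * t * g + t ^ 2 * Q := by
    intro t
    unfold FF
    rw [hg, hQ, Finset.mul_sum, Finset.mul_sum, ← Finset.sum_add_distrib,
      ← Finset.sum_add_distrib]
    refine Finset.sum_congr rfl fun I _ => ?_
    rw [xr_update]
    ring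
  have hsum : ∀ t : ℝ, (Function.update p k (p k + t)) 0 + (Function.update p k (p k + t)) 1 +
      (Function.update p k (p k + t)) 2 = p 0 + p 1 + p 2 + t := by
    intro t
    fin_cases k <;> simp [Function.update] <;> ring
  set s := σ * (p 0 + p 1 + p 2) with hs
  have hkey : ∀ t : ℝ, 0 ≤ s + σ * t → 0 ≤ 2 * t * g + t ^ 2 * Q := by
    intro t ht
    have h1 := hmin (Function.update p k (p k + t)) (by rw [hsum, mul_add]; exact ht)
    rw [hexp] at h1
    linarith
  by_contra hne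
  -- choose a small `t` of sign opposite to `g`
  have hG : 0 < g ^ 2 := by positivity
  set r := min (1 / (Q + 1)) (s / ((|σ| + 1) * (|g| + 1))) with hr
  have hden : 0 < (|σ| + 1) * (|g| + 1) := by positivity
  have hr0 : 0 < r := lt_min (by positivity) (div_pos hp hden)
  have hr1 : r * (Q + 1) ≤ 1 := by
    have := min_le_left (1 / (Q + 1)) (s / ((|σ| + 1) * (|g| + 1)))
    rw [← hr] at this
    calc r * (Q + 1) ≤ 1 / (Q + 1) * (Q + 1) := mul_le_mul_of_nonneg_right this (by positivity)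
      _ = 1 := by field_simp
  have hr2 : r * ((|σ| + 1) * (|g| + 1)) ≤ s := by
    have := min_le_right (1 / (Q + 1)) (s / ((|σ| + 1) * (|g| + 1)))
    rw [← hr] at this
    calc r * ((|σ| + 1) * (|g| + 1)) ≤ s / ((|σ| + 1) * (|g| + 1)) * ((|σ| + 1) * (|g| + 1)) :=
          mul_le_mul_of_nonneg_right this hden.le
      _ = s := by field_simp
  have h1 : 0 ≤ s + σ * (-(r * g)) := by
    have h2 : σ * (r * g) ≤ r * ((|σ| + 1) * (|g| + 1)) := by
      have h3 : σ * g ≤ |σ| * |g| := by rw [← abs_mul]; exact le_abs_self _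
      have h4 : |σ| * |g| ≤ (|σ| + 1) * (|g| + 1) := by
        nlinarith [abs_nonneg σ, abs_nonneg g]
      calc σ * (r * g) = r * (σ * g) := by ring
        _ ≤ r * ((|σ| + 1) * (|g| + 1)) := mul_le_mul_of_nonneg_left (h3.trans h4) hr0.le
    linarith
  have h2 := hkey _ h1
  have h3 : 2 * (-(r * g)) * g + (-(r * g)) ^ 2 * Q = r * g ^ 2 * (r * Q - 2) := by ring
  rw [h3] at h2
  have h4 : r * Q - 2 < 0 := by nlinarith
  have h5 : 0 < r * g ^ 2 := by positivity
  nlinarith [mul_neg_of_pos_of_neg h5 h4]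

/-- complexification -/
noncomputable def cx (p : Fin 3 → ℝ) : Tensor m222 := fun I => ((xr p I : ℝ) : ℂ)

theorem cx_real (p : Fin 3 → ℝ) : IsRealTensor (cx p) := fun I => Complex.ofReal_im _

theorem critical_of_grad (T : Idx m222 → ℝ) (p : Fin 3 → ℝ)
    (h : ∀ k, ∑ I, (xr p I - T I) * (ee (I k) * rest p k I) = 0) :
    IsCriticalPoint (fun I => (T I : ℂ)) (cx p) := by
  have hsum : ∑ I, cx p I = 1 := by
    unfold cx
    rw [← Complex.ofReal_sum, sum_xr, Complex.ofReal_one]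
  refine ⟨fun k i => (al (p k) i : ℂ), ?_, hsum, ?_⟩
  · funext I
    unfold cx xr segre
    rw [Complex.ofReal_prod]
  -- the linear relation on the whole tangent space of the cone
  set c : ℂ := ∑ I, (cx p I - (T I : ℂ)) * cx p I with hc
  have key : ∀ y ∈ tangentCone (m := m222) (fun k i => (al (p k) i : ℂ)),
      ∑ I, (cx p I - (T I : ℂ)) * y I = c * ∑ I, y I := by
    intro y hy
    refine Submodule.span_induction ?_ ?_ ?_ ?_ hy
    · rintro _ ⟨k, b, rfl⟩
      set s : ℂ := b 0 + b 1 with hs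
      set r : ℂ := b 0 - s * (1 / 2 + (p k : ℂ)) with hr
      have hb : ∀ i : Fin 2, b i = s * (al (p k) i : ℂ) + r * (ee i : ℂ) := by
        intro i
        fin_cases i
        · show b 0 = s * ((1 / 2 + p k : ℝ) : ℂ) + r * ((1 : ℝ) : ℂ)
          rw [hr]; push_cast; ring
        · show b 1 = s * ((1 / 2 - p k : ℝ) : ℂ) + r * ((-1 : ℝ) : ℂ)
          rw [hr, hs]; push_cast; ring
      have hseg : ∀ I : Idx m222, segre (m := m222)
          (Function.update (fun k i => (al (p k) i : ℂ)) k b) I =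
          s * cx p I + r * ((ee (I k) * rest p k I : ℝ) : ℂ) := by
        intro I
        unfold segre
        rw [← Finset.mul_prod_erase Finset.univ _ (Finset.mem_univ k), Function.update_self]
        have h1 : ∏ l ∈ Finset.univ.erase k,
            (Function.update (fun k i => (al (p k) i : ℂ)) k b : (k : Fin 3) → Fin 2 → ℂ) l (I l) =
            ((rest p k I : ℝ) : ℂ) := by
          unfold rest
          rw [Complex.ofReal_prod]
          refine Finset.prod_congr rfl fun l hl => ?_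
          rw [Function.update_of_ne (Finset.ne_of_mem_erase hl)]
        rw [h1, hb]
        unfold cx
        rw [xr_rest p k]
        push_cast
        ring
      simp_rw [hseg]
      have h2 : ∑ I, (cx p I - (T I : ℂ)) * ((ee (I k) * rest p k I : ℝ) : ℂ) = 0 := by
        have h3 : ∀ I, (cx p I - (T I : ℂ)) * ((ee (I k) * rest p k I : ℝ) : ℂ) =
            (((xr p I - T I) * (ee (I k) * rest p k I) : ℝ) : ℂ) := by
          intro I
          unfold cx
          push_cast
          ring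
        simp_rw [h3]
        rw [← Complex.ofReal_sum, h k, Complex.ofReal_zero]
      have h4 : ∑ I, ((ee (I k) * rest p k I : ℝ) : ℂ) = 0 := by
        rw [← Complex.ofReal_sum]
        have h5 : ∑ I, ee (I k) * rest p k I = 0 := by
          have h6 := sum_xr (Function.update p k (p k + 1))
          simp_rw [xr_update] at h6
          rw [Finset.sum_add_distrib, sum_xr, ← Finset.mul_sum] at h6
          linarith
        rw [h5, Complex.ofReal_zero]
      have h7 : ∑ I, (cx p I - (T I : ℂ)) * (s * cx p I + r * ((ee (I k) * rest p k I : ℝ) : ℂ)) =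
          s * c + r * ∑ I, (cx p I - (T I : ℂ)) * ((ee (I k) * rest p k I : ℝ) : ℂ) := by
        rw [hc, Finset.mul_sum, Finset.mul_sum, ← Finset.sum_add_distrib]
        refine Finset.sum_congr rfl fun I _ => ?_
        ring
      rw [h7, h2, Finset.sum_add_distrib, ← Finset.mul_sum, ← Finset.mul_sum, hsum, h4]
      ring
    · simp
    · intro x y _ _ hx hy
      have h1 : ∑ I, (cx p I - (T I : ℂ)) * (x + y) I =
          ∑ I, (cx p I - (T I : ℂ)) * x I + ∑ I, (cx p I - (T I : ℂ)) * y I := by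
        rw [← Finset.sum_add_distrib]
        refine Finset.sum_congr rfl fun I _ => ?_
        rw [Pi.add_apply]; ring
      rw [h1, hx, hy]
      simp_rw [Pi.add_apply]
      rw [Finset.sum_add_distrib]
      ring
    · intro a x _ hx
      have h1 : ∑ I, (cx p I - (T I : ℂ)) * (a • x) I =
          a * ∑ I, (cx p I - (T I : ℂ)) * x I := by
        rw [Finset.mul_sum]
        refine Finset.sum_congr rfl fun I _ => ?_
        rw [Pi.smul_apply, smul_eq_mul]; ring
      rw [h1, hx]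
      simp_rw [Pi.smul_apply, smul_eq_mul]
      rw [← Finset.mul_sum]
      ring
  intro y hy hy0
  rw [key y hy, hy0, mul_zero]

theorem two_real (T : Idx m222 → ℝ) (hT : ∑ I, (T I - T0 I) ^ 2 ≤ 1 / 2000) :
    2 ≤ {x : Tensor m222 | IsCriticalPoint (fun I => (T I : ℂ)) x ∧ IsRealTensor x}.encard := by
  obtain ⟨p, hp, hpm⟩ := exists_min T hT 1 (by norm_num)
  obtain ⟨q, hq, hqm⟩ := exists_min T hT (-1) (by norm_num)
  have h1 := critical_of_grad T p (fun k => grad_zero T 1 p hp hpm k)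
  have h2 := critical_of_grad T q (fun k => grad_zero T (-1) q hq hqm k)
  have hne : cx p ≠ cx q := by
    intro h
    have h3 : xr p = xr q := by
      funext I
      have := congrFun h I
      exact Complex.ofReal_injective this
    have h4 : ∀ k, p k = q k := by
      intro k
      have h5 := marginal p k
      rw [h3, marginal q k] at h5
      linarith
    have := h4 0
    have := h4 1
    have := h4 2
    linarith
  have hsub : ({cx p, cx q} : Set (Tensor m222)) ⊆
      {x : Tensor m222 | IsCriticalPoint (fun I => (T I : ℂ)) x ∧ IsRealTensor x} := by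
    rintro x (rfl | hx)
    · exact ⟨h1, cx_real p⟩
    · rw [Set.mem_singleton_iff.1 hx]; exact ⟨h2, cx_real q⟩
  calc (2 : ℕ∞) = ({cx p, cx q} : Set (Tensor m222)).encard := (Set.encard_pair hne).symm
    _ ≤ _ := Set.encard_le_encard hsub

/-- a centre with positive entries -/
noncomputable def Tc : Idx m222 → ℝ := fun I => (1 - 8 / 1000) * T0 I + 1 / 1000

theorem sum_T0 : ∑ I, T0 I = 1 := by
  have h := sum_T0_mul (fun _ => 1)
  simp only [one_mul] at h
  rw [h]; norm_num

theorem T0_cases (I : Idx m222) : T0 I = 0 ∨ T0 I = 1 / 2 := by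
  unfold T0
  by_cases h : I = 0
  · right; rw [if_pos h]
  · by_cases h' : I = 1
    · right; rw [if_neg h, if_pos h']
    · left; rw [if_neg h, if_neg h']

noncomputable def Ts (s : Idx m222 → ℝ) : Idx m222 → ℝ :=
  fun I => Tc I + s I - (∑ J, s J) / 8

theorem card_Idx : Fintype.card (Idx m222) = 8 := by
  simp [Idx]

theorem sum_Ts (s : Idx m222 → ℝ) : ∑ I, Ts s I = 1 := by
  unfold Ts Tc
  rw [Finset.sum_sub_distrib, Finset.sum_add_distrib, Finset.sum_add_distrib, ← Finset.mul_sum,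
    sum_T0]
  simp only [Finset.sum_const, Finset.card_univ, card_Idx, nsmul_eq_mul]
  push_cast
  ring

theorem Ts_bounds (s : Idx m222 → ℝ) (hs : ∀ I, 0 ≤ s I ∧ s I ≤ 1 / 4000) (I : Idx m222) :
    0 ≤ Ts s I ∧ (Ts s I - T0 I) ^ 2 ≤ 1 / 16000 := by
  have h1 : 0 ≤ ∑ J, s J := Finset.sum_nonneg fun J _ => (hs J).1
  have h2 : ∑ J, s J ≤ 8 * (1 / 4000) := by
    have := Finset.sum_le_card_nsmul Finset.univ s (1 / 4000) (fun J _ => (hs J).2)
    rw [Finset.card_univ, card_Idx, nsmul_eq_mul] at this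
    exact_mod_cast this
  have h3 := (hs I).1
  have h4 := (hs I).2
  unfold Ts Tc
  rcases T0_cases I with h | h
  · rw [h]
    constructor
    · nlinarith
    · nlinarith
  · rw [h]
    constructor
    · nlinarith
    · nlinarith

theorem dense_part (P : MvPolynomial (Idx m222) ℂ)
    (hP : ∃ T : Tensor m222, ∑ I, T I = 1 ∧ eval T P ≠ 0) :
    ∃ T : Tensor m222, IsNonnegProbability T ∧ eval T P ≠ 0 ∧
      2 ≤ {x : Tensor m222 | IsCriticalPoint T x ∧ IsRealTensor x}.encard := by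
  obtain ⟨T₁, hT₁, hne⟩ := hP
  let f : Idx m222 → MvPolynomial (Idx m222) ℂ := fun I =>
    C ((Tc I : ℝ) : ℂ) + X I - C (1 / 8) * ∑ J, X J
  have hQ : ∀ s : Idx m222 → ℂ, eval s (bind₁ f P) =
      eval (fun I => ((Tc I : ℝ) : ℂ) + s I - (∑ J, s J) / 8) P := by
    intro s
    have h1 : eval s (bind₁ f P) = eval (fun I => eval s (f I)) P := by
      simp only [eval, eval₂Hom_bind₁]
    rw [h1]
    congr 2
    funext I
    simp [f]
    ring
  have hex : ∃ s : Idx m222 → ℝ, (∀ I, 0 ≤ s I ∧ s I ≤ 1 / 4000) ∧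
      eval (fun I => ((s I : ℝ) : ℂ)) (bind₁ f P) ≠ 0 := by
    by_contra hcon
    push Not at hcon
    have h1 : bind₁ f P = 0 := by
      apply MvPolynomial.funext_set (fun _ => (fun r : ℝ => (r : ℂ)) '' Set.Icc 0 (1 / 4000))
      · intro I
        exact (Set.Icc_infinite (by norm_num)).image Complex.ofReal_injective.injOn
      · intro x hx
        have h2 : ∀ I, ∃ r : ℝ, r ∈ Set.Icc (0 : ℝ) (1 / 4000) ∧ (r : ℂ) = x I :=
          fun I => hx I (Set.mem_univ I)
        choose s hs hsx using h2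
        have h3 := hcon s hs
        have h4 : (fun I => ((s I : ℝ) : ℂ)) = x := funext hsx
        rw [h4] at h3
        rw [h3, map_zero]
    apply hne
    have h2 := hQ (fun I => T₁ I - ((Tc I : ℝ) : ℂ))
    rw [h1, map_zero] at h2
    have h3 : ∑ J, (T₁ J - ((Tc J : ℝ) : ℂ)) = 0 := by
      rw [Finset.sum_sub_distrib, hT₁, ← Complex.ofReal_sum]
      have h4 : ∑ J, Tc J = 1 := by
        have := sum_Ts 0
        simpa [Ts] using this
      rw [h4, Complex.ofReal_one, sub_self]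
    rw [h3] at h2
    have h5 : (fun I => ((Tc I : ℝ) : ℂ) + (T₁ I - ((Tc I : ℝ) : ℂ)) - 0 / 8) = T₁ := by
      funext I; ring
    rw [h5] at h2
    exact h2.symm
  obtain ⟨s, hs, hsP⟩ := hex
  refine ⟨fun I => ((Ts s I : ℝ) : ℂ), ⟨fun I => Complex.ofReal_im _, fun I => ?_, ?_⟩, ?_, ?_⟩
  · rw [Complex.ofReal_re]
    exact (Ts_bounds s hs I).1
  · rw [← Complex.ofReal_sum, sum_Ts, Complex.ofReal_one]
  · rw [hQ] at hsP
    have : (fun I => ((Ts s I : ℝ) : ℂ)) =
        (fun I => ((Tc I : ℝ) : ℂ) + ((s I : ℝ) : ℂ) - (∑ J, ((s J : ℝ) : ℂ)) / 8) := by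
      funext I
      unfold Ts
      push_cast
      rfl
    rw [this]
    exact hsP
  · apply two_real
    have h1 := Finset.sum_le_card_nsmul Finset.univ (fun I => (Ts s I - T0 I) ^ 2) (1 / 16000)
      (fun I _ => (Ts_bounds s hs I).2)
    rw [Finset.card_univ, card_Idx, nsmul_eq_mul] at h1
    refine h1.trans ?_
    norm_num

end aux

end Pool.Agent.H20.AffineED
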