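import Mathlib

/-!
# Ranks and connectivity of evaluation vectors of Reed–Muller codes
-/

namespace Pool.Agent.H20.RM

def rmv (a : ℕ) (x : Finset ℕ) : Finset ℕ → ZMod 2 := fun S => if S ⊆ x ∧ S.card ≤ a then 1 else 0

noncomputable def rk (a : ℕ) (X : Finset (Finset ℕ)) : ℕ :=
  Module.finrank (ZMod 2) (Submodule.span (ZMod 2) (rmv a '' (X : Set (Finset ℕ))))

instance fdX (a : ℕ) (X : Finset (Finset ℕ)) :
    FiniteDimensional (ZMod 2) (Submodule.span (ZMod 2) (rmv a '' (X : Set (Finset ℕ)))) :=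
  FiniteDimensional.span_of_finite _ (X.finite_toSet.image _)

/-- derivative in direction `i` -/
def dm (i : ℕ) : (Finset ℕ → ZMod 2) →ₗ[ZMod 2] (Finset ℕ → ZMod 2) where
  toFun g := fun S => if i ∈ S then 0 else g (insert i S)
  map_add' f g := by
    ext S; by_cases h : i ∈ S <;> simp [h]
  map_smul' c g := by
    ext S; by_cases h : i ∈ S <;> simp [h]

theorem dm_apply (i : ℕ) (g : Finset ℕ → ZMod 2) (S : Finset ℕ) :
    dm i g S = if i ∈ S then 0 else g (insert i S) := rfl

theorem dm_mem {i : ℕ} {x : Finset ℕ} (hi : i ∈ x) (a : ℕ) :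
    dm i (rmv (a + 1) x) = rmv a (x.erase i) := by
  ext S
  rw [dm_apply]
  by_cases h : i ∈ S
  · have : ¬ (S ⊆ x.erase i) := fun hs => Finset.notMem_erase i x (hs h)
    simp [h, rmv, this]
  · simp only [h, if_false, rmv]
    rw [Finset.card_insert_of_notMem h]
    have h1 : insert i S ⊆ x ↔ S ⊆ x.erase i := by
      rw [Finset.insert_subset_iff, Finset.subset_erase]
      tauto
    have h2 : S.card + 1 ≤ a + 1 ↔ S.card ≤ a := by omega
    simp only [h1, h2]

theorem dm_not {i : ℕ} {x : Finset ℕ} (hi : i ∉ x) (a : ℕ) : dm i (rmv a x) = 0 := by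
  ext S
  rw [dm_apply]
  by_cases h : i ∈ S
  · simp [h]
  · have h1 : ¬ insert i S ⊆ x := fun hs => hi (hs (Finset.mem_insert_self _ _))
    simp [h, rmv, h1]

def p0 (i : ℕ) (X : Finset (Finset ℕ)) : Finset (Finset ℕ) := X.filter (fun x => i ∉ x)
def p1 (i : ℕ) (X : Finset (Finset ℕ)) : Finset (Finset ℕ) :=
  (X.filter (fun x => i ∈ x)).image (fun x => x.erase i)

theorem rk_split (i a : ℕ) (X : Finset (Finset ℕ)) :
    rk (a + 1) (p0 i X) + rk a (p1 i X) ≤ rk (a + 1) X := by
  set U := Submodule.span (ZMod 2) (rmv (a + 1) '' (X : Set (Finset ℕ))) with hU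
  set W := Submodule.span (ZMod 2) (rmv (a + 1) '' (p0 i X : Set (Finset ℕ))) with hW
  have hWU : W ≤ U := by
    apply Submodule.span_mono
    apply Set.image_mono
    intro x hx
    exact (Finset.mem_filter.1 hx).1
  have hWk : ∀ w ∈ W, dm i w = 0 := by
    intro w hw
    have : W ≤ LinearMap.ker (dm i) := by
      rw [hW, Submodule.span_le]
      rintro _ ⟨x, hx, rfl⟩
      exact dm_not (Finset.mem_filter.1 hx).2 _
    exact this hw
  let f := (dm i).domRestrict U
  have h1 := LinearMap.finrank_range_add_finrank_ker f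
  have h2 : Module.finrank (ZMod 2) W ≤ Module.finrank (ZMod 2) (LinearMap.ker f) := by
    let g : W →ₗ[ZMod 2] LinearMap.ker f :=
      LinearMap.codRestrict (LinearMap.ker f) (Submodule.inclusion hWU) (fun w => hWk w w.2)
    apply LinearMap.finrank_le_finrank_of_injective (f := g)
    intro u v huv
    have h3 : Submodule.inclusion hWU u = Submodule.inclusion hWU v := congrArg Subtype.val huv
    exact Submodule.inclusion_injective hWU h3
  have h3 : rk a (p1 i X) ≤ Module.finrank (ZMod 2) (LinearMap.range f) := by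
    apply Submodule.finrank_mono
    rw [Submodule.span_le]
    rintro _ ⟨y, hy, rfl⟩
    obtain ⟨x, hx, rfl⟩ := Finset.mem_image.1 (Finset.mem_coe.1 hy)
    obtain ⟨hx1, hx2⟩ := Finset.mem_filter.1 hx
    refine ⟨⟨rmv (a + 1) x, Submodule.subset_span ⟨x, hx1, rfl⟩⟩, ?_⟩
    exact dm_mem hx2 a
  change Module.finrank (ZMod 2) W + rk a (p1 i X) ≤ Module.finrank (ZMod 2) U
  omega

theorem rk_pos {a : ℕ} {X : Finset (Finset ℕ)} (h : X.Nonempty) : 1 ≤ rk a X := by
  obtain ⟨x, hx⟩ := h
  have hne : rmv a x ≠ 0 := by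
    intro h0
    have := congrFun h0 ∅
    simp [rmv] at this
  have h1 : Nontrivial (Submodule.span (ZMod 2) (rmv a '' (X : Set (Finset ℕ)))) :=
    ⟨⟨⟨rmv a x, Submodule.subset_span ⟨x, hx, rfl⟩⟩, 0, fun h => hne (congrArg Subtype.val h)⟩⟩
  exact Module.finrank_pos

theorem rk_mono_of {a : ℕ} {X Y : Finset (Finset ℕ)}
    (h : ∀ x ∈ X, rmv a x ∈ Submodule.span (ZMod 2) (rmv a '' (Y : Set (Finset ℕ)))) :
    rk a X ≤ rk a Y := by
  apply Submodule.finrank_mono
  rw [Submodule.span_le]
  rintro _ ⟨x, hx, rfl⟩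
  exact h x hx

theorem rk_union (a : ℕ) (X Y : Finset (Finset ℕ)) : rk a (X ∪ Y) ≤ rk a X + rk a Y := by
  have h := Submodule.finrank_add_le_finrank_add_finrank
    (Submodule.span (ZMod 2) (rmv a '' (X : Set (Finset ℕ))))
    (Submodule.span (ZMod 2) (rmv a '' (Y : Set (Finset ℕ))))
  rw [← Submodule.span_union, ← Set.image_union, ← Finset.coe_union] at h
  exact h

theorem powerset_p0 {i : ℕ} {J : Finset ℕ} (hi : i ∉ J) : p0 i (insert i J).powerset = J.powerset := by
  ext x
  simp only [p0, Finset.mem_filter, Finset.mem_powerset]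
  constructor
  · rintro ⟨h1, h2⟩ y hy
    rcases Finset.mem_insert.1 (h1 hy) with h | h
    · exact absurd (h ▸ hy) h2
    · exact h
  · intro h
    exact ⟨h.trans (Finset.subset_insert _ _), fun h' => hi (h h')⟩

theorem powerset_p1 {i : ℕ} {J : Finset ℕ} (hi : i ∉ J) : p1 i (insert i J).powerset = J.powerset := by
  ext x
  simp only [p1, Finset.mem_image, Finset.mem_filter, Finset.mem_powerset]
  constructor
  · rintro ⟨z, ⟨h1, h2⟩, rfl⟩ y hy
    rcases Finset.mem_insert.1 (h1 (Finset.mem_of_mem_erase hy)) with h | h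
    · exact absurd h (Finset.ne_of_mem_erase hy)
    · exact h
  · intro h
    refine ⟨insert i x, ⟨Finset.insert_subset_insert _ h, Finset.mem_insert_self _ _⟩, ?_⟩
    exact Finset.erase_insert fun h' => hi (h h')

theorem pascal (n a : ℕ) : ∑ j ∈ Finset.range (a + 1 + 1), (n + 1).choose j =
    ∑ j ∈ Finset.range (a + 1 + 1), n.choose j + ∑ j ∈ Finset.range (a + 1), n.choose j := by
  rw [Finset.sum_range_succ' _ (a + 1), Finset.sum_range_succ' (fun j => n.choose j) (a + 1)]
  simp only [Nat.choose_succ_succ, Finset.sum_add_distrib, Nat.choose_zero_right]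
  ring

theorem rk_le (a : ℕ) (I : Finset ℕ) :
    rk a I.powerset ≤ ∑ j ∈ Finset.range (a + 1), I.card.choose j := by
  classical
  set B : Finset (Finset ℕ) := (Finset.range (a + 1)).biUnion fun j => Finset.powersetCard j I
    with hB
  have hcard : B.card ≤ ∑ j ∈ Finset.range (a + 1), I.card.choose j := by
    refine Finset.card_biUnion_le.trans (Finset.sum_le_sum fun j _ => ?_)
    rw [Finset.card_powersetCard]
  set E : Finset (Finset ℕ → ZMod 2) := B.image fun S => Pi.single S (1 : ZMod 2) with hE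
  have h1 : Submodule.span (ZMod 2) (rmv a '' (I.powerset : Set (Finset ℕ))) ≤
      Submodule.span (ZMod 2) (E : Set (Finset ℕ → ZMod 2)) := by
    rw [Submodule.span_le]
    rintro _ ⟨x, hx, rfl⟩
    have hx' : x ⊆ I := Finset.mem_powerset.1 (Finset.mem_coe.1 hx)
    have h2 : rmv a x = ∑ S ∈ B.filter (fun S => S ⊆ x), Pi.single S (1 : ZMod 2) := by
      ext S
      rw [Finset.sum_apply]
      simp only [Pi.single_apply]
      rw [Finset.sum_ite_eq (B.filter (fun S => S ⊆ x)) S (fun _ => (1 : ZMod 2))]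
      unfold rmv
      have h3 : (S ⊆ x ∧ S.card ≤ a) ↔ S ∈ B.filter (fun S => S ⊆ x) := by
        rw [Finset.mem_filter, hB, Finset.mem_biUnion]
        constructor
        · rintro ⟨h4, h5⟩
          exact ⟨⟨S.card, Finset.mem_range.2 (by omega),
            Finset.mem_powersetCard.2 ⟨h4.trans hx', rfl⟩⟩, h4⟩
        · rintro ⟨⟨j, h4, h5⟩, h6⟩
          refine ⟨h6, ?_⟩
          rw [(Finset.mem_powersetCard.1 h5).2]
          have := Finset.mem_range.1 h4
          omega
      by_cases h : S ⊆ x ∧ S.card ≤ a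
      · rw [if_pos h, if_pos (h3.1 h)]
      · rw [if_neg h, if_neg fun h' => h (h3.2 h')]
    rw [h2]
    apply Submodule.sum_mem
    intro S hS
    apply Submodule.subset_span
    rw [hE, Finset.coe_image]
    exact ⟨S, (Finset.mem_filter.1 hS).1, rfl⟩
  have : FiniteDimensional (ZMod 2) (Submodule.span (ZMod 2) (E : Set (Finset ℕ → ZMod 2))) :=
    FiniteDimensional.span_of_finite _ E.finite_toSet
  calc rk a I.powerset ≤ Module.finrank (ZMod 2) (Submodule.span (ZMod 2) (E : Set (Finset ℕ → ZMod 2))) :=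
        Submodule.finrank_mono h1
    _ ≤ E.card := finrank_span_finset_le_card E
    _ ≤ B.card := Finset.card_image_le
    _ ≤ _ := hcard

theorem rk_ge (I : Finset ℕ) : ∀ a : ℕ,
    ∑ j ∈ Finset.range (a + 1), I.card.choose j ≤ rk a I.powerset := by
  induction I using Finset.induction_on with
  | empty =>
    intro a
    have h : ∑ j ∈ Finset.range (a + 1), (∅ : Finset ℕ).card.choose j = 1 := by
      rw [Finset.sum_range_succ']
      simp
    rw [h]
    exact rk_pos ⟨∅, by simp⟩
  | insert i J hi ih =>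
    intro a
    cases a with
    | zero =>
      have h : ∑ j ∈ Finset.range (0 + 1), (insert i J).card.choose j = 1 := by simp
      rw [h]
      exact rk_pos ⟨∅, by simp⟩
    | succ a =>
      have h := rk_split i a (insert i J).powerset
      rw [powerset_p0 hi, powerset_p1 hi] at h
      rw [Finset.card_insert_of_notMem hi, pascal]
      have h1 := ih (a + 1)
      have h2 := ih a
      omega

theorem rm_total (a : ℕ) (I : Finset ℕ) :
    rk a I.powerset = ∑ j ∈ Finset.range (a + 1), I.card.choose j :=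
  le_antisymm (rk_le a I) (rk_ge I a)

theorem total_add {i : ℕ} {J : Finset ℕ} (hi : i ∉ J) (a : ℕ) :
    rk (a + 1) (insert i J).powerset = rk (a + 1) J.powerset + rk a J.powerset := by
  rw [rm_total, rm_total, rm_total, Finset.card_insert_of_notMem hi, pascal]

/-- connectivity at least `k` -/
def L (a : ℕ) (I : Finset ℕ) (k : ℕ) (X : Finset (Finset ℕ)) : Prop :=
  rk a I.powerset + k ≤ rk a X + rk a (I.powerset \ X)

theorem L_symm {a : ℕ} {I : Finset ℕ} {k : ℕ} {X : Finset (Finset ℕ)} (hX : X ⊆ I.powerset)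
    (h : L a I k (I.powerset \ X)) : L a I k X := by
  unfold L at *
  rw [Finset.sdiff_sdiff_eq_self hX] at h
  omega

theorem L_zero {a : ℕ} {I : Finset ℕ} {X : Finset (Finset ℕ)} (hX : X ⊆ I.powerset) :
    L a I 0 X := by
  unfold L
  have h := rk_union a X (I.powerset \ X)
  rw [Finset.union_sdiff_of_subset hX] at h
  omega

theorem p0_sub {i : ℕ} {J : Finset ℕ} (hi : i ∉ J) {X : Finset (Finset ℕ)}
    (hX : X ⊆ (insert i J).powerset) : p0 i X ⊆ J.powerset := by
  rw [← powerset_p0 hi]
  exact Finset.filter_subset_filter _ hX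

theorem p1_sub {i : ℕ} {J : Finset ℕ} (hi : i ∉ J) {X : Finset (Finset ℕ)}
    (hX : X ⊆ (insert i J).powerset) : p1 i X ⊆ J.powerset := by
  rw [← powerset_p1 hi]
  exact Finset.image_subset_image (Finset.filter_subset_filter _ hX)

theorem p0_sdiff {i : ℕ} {J : Finset ℕ} (hi : i ∉ J) (X : Finset (Finset ℕ)) :
    J.powerset \ p0 i X = p0 i ((insert i J).powerset \ X) := by
  rw [← powerset_p0 hi]
  ext x
  simp only [p0, Finset.mem_sdiff, Finset.mem_filter]
  tauto

theorem p1_sdiff {i : ℕ} {J : Finset ℕ} (hi : i ∉ J) (X : Finset (Finset ℕ)) :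
    J.powerset \ p1 i X = p1 i ((insert i J).powerset \ X) := by
  rw [← powerset_p1 hi]
  ext x
  simp only [p1, Finset.mem_sdiff, Finset.mem_filter, Finset.mem_image]
  constructor
  · rintro ⟨⟨z, ⟨h1, h2⟩, rfl⟩, h3⟩
    exact ⟨z, ⟨⟨h1, fun h4 => h3 ⟨z, ⟨h4, h2⟩, rfl⟩⟩, h2⟩, rfl⟩
  · rintro ⟨z, ⟨⟨h1, h4⟩, h2⟩, rfl⟩
    refine ⟨⟨z, ⟨h1, h2⟩, rfl⟩, ?_⟩
    rintro ⟨w, ⟨h5, h6⟩, h7⟩
    have : w = z := by rw [← Finset.insert_erase h6, h7, Finset.insert_erase h2]
    exact h4 (this ▸ h5)

theorem L_step {i : ℕ} {J : Finset ℕ} (hi : i ∉ J) {a k k' : ℕ} {X : Finset (Finset ℕ)}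
    (h0 : L (a + 1) J k (p0 i X)) (h1 : L a J k' (p1 i X)) : L (a + 1) (insert i J) (k + k') X := by
  unfold L at *
  rw [p0_sdiff hi] at h0
  rw [p1_sdiff hi] at h1
  have h2 := rk_split i a X
  have h3 := rk_split i a ((insert i J).powerset \ X)
  rw [total_add hi]
  omega

theorem sum_zero {a : ℕ} {T : Finset ℕ} (hT : a < T.card) :
    ∑ x ∈ T.powerset, rmv a x = 0 := by
  ext S
  rw [Finset.sum_apply, Pi.zero_apply]
  by_cases hS : S.card ≤ a
  · have : ∃ t ∈ T, t ∉ S := by
      by_contra hcon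
      push Not at hcon
      have := Finset.card_le_card (show T ⊆ S from hcon)
      omega
    obtain ⟨t, htT, htS⟩ := this
    rw [← Finset.insert_erase htT, Finset.sum_powerset_insert (Finset.notMem_erase t T),
      ← Finset.sum_add_distrib]
    apply Finset.sum_eq_zero
    intro x _
    have h1 : S ⊆ insert t x ↔ S ⊆ x := by
      rw [Finset.subset_insert_iff, Finset.erase_eq_of_notMem htS]
    unfold rmv
    simp only [h1]
    exact CharTwo.add_self_eq_zero _
  · apply Finset.sum_eq_zero
    intro x _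
    simp [rmv, hS]

theorem rk_empty {a : ℕ} {I : Finset ℕ} (h : a < I.card) :
    rk a I.powerset ≤ rk a (I.powerset \ {∅}) := by
  apply rk_mono_of
  intro x hx
  by_cases hx0 : x = ∅
  · subst hx0
    have h1 := sum_zero h
    rw [← Finset.add_sum_erase _ _ (Finset.empty_mem_powerset I)] at h1
    have h2 : rmv a ∅ = ∑ x ∈ I.powerset.erase ∅, rmv a x := by
      have h3 : rmv a ∅ = -∑ x ∈ I.powerset.erase ∅, rmv a x := eq_neg_of_add_eq_zero_left h1
      rw [h3]
      ext S
      rw [Pi.neg_apply, ZMod.neg_eq_self_mod_two]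
    rw [h2]
    apply Submodule.sum_mem
    intro y hy
    apply Submodule.subset_span
    refine ⟨y, ?_, rfl⟩
    rw [Finset.coe_sdiff]
    refine ⟨(Finset.mem_erase.1 hy).2, ?_⟩
    simpa using (Finset.mem_erase.1 hy).1
  · apply Submodule.subset_span
    refine ⟨x, ?_, rfl⟩
    rw [Finset.coe_sdiff]
    exact ⟨hx, by simpa using hx0⟩

theorem L_top {a : ℕ} {I : Finset ℕ} (h : a < I.card) {X : Finset (Finset ℕ)}
    (hX : X ⊆ I.powerset) (hY : (I.powerset \ X).Nonempty) (hI : ∀ y ∈ I.powerset \ X, y = ∅) :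
    L a I 1 X := by
  have h1 : I.powerset \ X = {∅} := Finset.eq_singleton_iff_nonempty_unique_mem.2 ⟨hY, hI⟩
  have h2 : X = I.powerset \ {∅} := by rw [← h1, Finset.sdiff_sdiff_eq_self hX]
  unfold L
  rw [h1]
  have h3 := rk_empty h
  rw [← h2] at h3
  have h4 : 1 ≤ rk a {∅} := rk_pos ⟨∅, by simp⟩
  omega

theorem L_one (a : ℕ) : ∀ (I : Finset ℕ), a + 1 ≤ I.card → ∀ X : Finset (Finset ℕ),
    X ⊆ I.powerset → X.Nonempty → (I.powerset \ X).Nonempty → L a I 1 X := by
  induction a with
  | zero =>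
    intro I hI X hX h1 h2
    unfold L
    rw [rm_total]
    have h3 : 1 ≤ rk 0 X := rk_pos h1
    have h4 : 1 ≤ rk 0 (I.powerset \ X) := rk_pos h2
    simp
    omega
  | succ a ih =>
    intro I hI X hX h1 h2
    by_cases hex : ∃ i ∈ I, (∃ x ∈ X, i ∈ x) ∧ ∃ y ∈ I.powerset \ X, i ∈ y
    · obtain ⟨i, hi, ⟨x, hx, hix⟩, ⟨y, hy, hiy⟩⟩ := hex
      set J := I.erase i with hJ
      have hiJ : i ∉ J := Finset.notMem_erase i I
      have hIJ : I = insert i J := (Finset.insert_erase hi).symm
      have hcard : J.card + 1 = I.card := Finset.card_erase_add_one hi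
      rw [hIJ] at hX hy ⊢
      have e1 : L (a + 1) J 0 (p0 i X) := L_zero (p0_sub hiJ hX)
      have e2 : L a J 1 (p1 i X) := by
        apply ih J (by omega) _ (p1_sub hiJ hX)
        · exact ⟨x.erase i, Finset.mem_image.2 ⟨x, Finset.mem_filter.2 ⟨hx, hix⟩, rfl⟩⟩
        · rw [p1_sdiff hiJ]
          exact ⟨y.erase i, Finset.mem_image.2 ⟨y, Finset.mem_filter.2 ⟨hy, hiy⟩, rfl⟩⟩
      have := L_step hiJ e1 e2
      rwa [zero_add] at this
    · push Not at hex
      have hIne : I.Nonempty := Finset.card_pos.1 (by omega)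
      have hIP : I ∈ I.powerset := Finset.mem_powerset_self I
      by_cases hIX : I ∈ X
      · apply L_top (by omega) hX h2
        intro y hy
        rw [Finset.eq_empty_iff_forall_notMem]
        intro i hi
        have hiI : i ∈ I := Finset.mem_powerset.1 (Finset.mem_sdiff.1 hy).1 hi
        exact hex i hiI ⟨I, hIX, hiI⟩ y hy hi
      · have hIY : I ∈ I.powerset \ X := Finset.mem_sdiff.2 ⟨hIP, hIX⟩
        apply L_symm hX
        apply L_top (by omega) Finset.sdiff_subset
        · rw [Finset.sdiff_sdiff_eq_self hX]; exact h1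
        · rw [Finset.sdiff_sdiff_eq_self hX]
          intro x hx
          rw [Finset.eq_empty_iff_forall_notMem]
          intro i hi
          have hiI : i ∈ I := Finset.mem_powerset.1 (hX hx) hi
          exact hex i hiI ⟨x, hx, hi⟩ I hIY hiI

theorem card_p0 (i : ℕ) (X : Finset (Finset ℕ)) : (p0 i X).card = (X.filter fun x => i ∉ x).card := rfl

theorem card_p1 (i : ℕ) (X : Finset (Finset ℕ)) : (p1 i X).card = (X.filter fun x => i ∈ x).card := by
  apply Finset.card_image_of_injOn
  intro x hx y hy hxy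
  have h1 := (Finset.mem_filter.1 (Finset.mem_coe.1 hx)).2
  have h2 := (Finset.mem_filter.1 (Finset.mem_coe.1 hy)).2
  simp only at hxy
  rw [← Finset.insert_erase h1, hxy, Finset.insert_erase h2]

theorem card_p (i : ℕ) (X : Finset (Finset ℕ)) : (p0 i X).card + (p1 i X).card = X.card := by
  rw [card_p0, card_p1, add_comm]
  exact Finset.card_filter_add_card_filter_not _

theorem quarter {i j : ℕ} {I : Finset ℕ} (hi : i ∈ I) (hj : j ∈ I) (hij : i ≠ j)
    (Z : Finset ℕ) (hZ : Z ⊆ {i, j}) (X Y : Finset (Finset ℕ)) (hXY : X ∪ Y = I.powerset) :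
    2 ^ (I.card - 2) ≤ (X.filter fun x => (j ∈ x ↔ j ∈ Z)).card +
      (Y.filter fun x => (i ∈ x ↔ i ∈ Z)).card := by
  set K := (I.erase i).erase j with hK
  have hcK : K.card = I.card - 2 := by
    rw [hK, Finset.card_erase_of_mem (Finset.mem_erase.2 ⟨hij.symm, hj⟩), Finset.card_erase_of_mem hi]
    omega
  have hiK : i ∉ K := by simp [hK]
  have hjK : j ∉ K := by simp [hK]
  have h1 : K.powerset.card = 2 ^ (I.card - 2) := by rw [Finset.card_powerset, hcK]
  rw [← h1]
  refine le_trans ?_ (Finset.card_union_le _ _)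
  apply Finset.card_le_card_of_injOn (fun x => x ∪ Z)
  · intro x hx
    have hxK : x ⊆ K := Finset.mem_powerset.1 (Finset.mem_coe.1 hx)
    have hmem : x ∪ Z ∈ X ∪ Y := by
      rw [hXY, Finset.mem_powerset]
      apply Finset.union_subset
      · exact hxK.trans ((Finset.erase_subset _ _).trans (Finset.erase_subset _ _))
      · refine hZ.trans ?_
        intro z hz
        rcases Finset.mem_insert.1 hz with rfl | hz
        · exact hi
        · rw [Finset.mem_singleton.1 hz]; exact hj
    have hix : i ∈ x ∪ Z ↔ i ∈ Z := by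
      rw [Finset.mem_union]
      exact ⟨fun h => h.resolve_left fun h' => hiK (hxK h'), Or.inr⟩
    have hjx : j ∈ x ∪ Z ↔ j ∈ Z := by
      rw [Finset.mem_union]
      exact ⟨fun h => h.resolve_left fun h' => hjK (hxK h'), Or.inr⟩
    rw [Finset.coe_union]
    rcases Finset.mem_union.1 hmem with h | h
    · left; exact Finset.mem_filter.2 ⟨h, hjx⟩
    · right; exact Finset.mem_filter.2 ⟨h, hix⟩
  · intro x hx y hy hxy
    have hxK : x ⊆ K := Finset.mem_powerset.1 (Finset.mem_coe.1 hx)
    have hyK : y ⊆ K := Finset.mem_powerset.1 (Finset.mem_coe.1 hy)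
    have key : ∀ w : Finset ℕ, w ⊆ K → w = (w ∪ Z) ∩ K := by
      intro w hw
      ext z
      rw [Finset.mem_inter, Finset.mem_union]
      constructor
      · intro h; exact ⟨Or.inl h, hw h⟩
      · rintro ⟨h | h, h'⟩
        · exact h
        · exfalso
          rcases Finset.mem_insert.1 (hZ h) with rfl | h2
          · exact hiK h'
          · rw [Finset.mem_singleton.1 h2] at h'; exact hjK h'
    simp only at hxy
    rw [key x hxK, key y hyK, hxy]

theorem L_all (k : ℕ) : ∀ (a : ℕ) (I : Finset ℕ), k ≤ a → k + a + 1 ≤ I.card →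
    ∀ X : Finset (Finset ℕ), X ⊆ I.powerset → k ≤ X.card → k ≤ (I.powerset \ X).card →
    L a I k X := by
  induction k using Nat.strong_induction_on with
  | _ k ih =>
    -- reduction once a good coordinate is found
    have good : ∀ (a : ℕ) (I : Finset ℕ), k ≤ a → k + a + 1 ≤ I.card →
        ∀ X Y : Finset (Finset ℕ), X ⊆ I.powerset → Y = I.powerset \ X → ∀ i ∈ I,
        1 ≤ (p0 i X).card → 1 ≤ (p1 i X).card → 1 ≤ (p0 i Y).card →
        1 ≤ (p1 i Y).card → 2 ≤ k →
        k ≤ min (p0 i X).card (p0 i Y).card +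
          min (p1 i X).card (p1 i Y).card → L a I k X := by
      intro a I hka hI X Y hX hY i hi hx0 hx1 hy0 hy1 hk hmin
      subst hY
      obtain ⟨a, rfl⟩ : ∃ b, a = b + 1 := ⟨a - 1, by omega⟩
      set J := I.erase i with hJ
      have hiJ : i ∉ J := Finset.notMem_erase i I
      have hIJ : I = insert i J := (Finset.insert_erase hi).symm
      have hcard : J.card + 1 = I.card := Finset.card_erase_add_one hi
      obtain ⟨k1, k2, e1, e2, e3, e4, e5, e6, e7⟩ : ∃ k1 k2 : ℕ, 1 ≤ k1 ∧ 1 ≤ k2 ∧ k1 + k2 = k ∧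
          k1 ≤ (p0 i X).card ∧ k1 ≤ (p0 i (I.powerset \ X)).card ∧ k2 ≤ (p1 i X).card ∧
          k2 ≤ (p1 i (I.powerset \ X)).card := by
        refine ⟨max 1 (k - min (p1 i X).card (p1 i (I.powerset \ X)).card),
          k - max 1 (k - min (p1 i X).card (p1 i (I.powerset \ X)).card), ?_, ?_, ?_, ?_, ?_, ?_, ?_⟩
          <;> omega
      rw [hIJ] at hX e5 e7 ⊢
      have f1 : L (a + 1) J k1 (p0 i X) := by
        apply ih k1 (by omega) (a + 1) J (by omega) (by omega) _ (p0_sub hiJ hX) e4
        rw [p0_sdiff hiJ]; exact e5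
      have f2 : L a J k2 (p1 i X) := by
        apply ih k2 (by omega) a J (by omega) (by omega) _ (p1_sub hiJ hX) e6
        rw [p1_sdiff hiJ]; exact e7
      rw [← e3]
      exact L_step hiJ f1 f2
    -- the case |X| ≤ |Y|
    have half : ∀ (a : ℕ) (I : Finset ℕ), k ≤ a → k + a + 1 ≤ I.card →
        ∀ X : Finset (Finset ℕ), X ⊆ I.powerset → k ≤ X.card → X.card ≤ (I.powerset \ X).card →
        2 ≤ k → L a I k X := by
      intro a I hka hI X hX hkX hXY hk
      obtain ⟨u, hu, v, hv, huv⟩ := Finset.one_lt_card.1 (show 1 < X.card by omega)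
      obtain ⟨i, hiI, hx0, hx1⟩ : ∃ i ∈ I, 1 ≤ (p0 i X).card ∧ 1 ≤ (p1 i X).card := by
        have : ∃ i, ¬ (i ∈ u ↔ i ∈ v) := by
          by_contra hcon
          push Not at hcon
          exact huv (Finset.ext hcon)
        obtain ⟨i, hi⟩ := this
        have huI := Finset.mem_powerset.1 (hX hu)
        have hvI := Finset.mem_powerset.1 (hX hv)
        by_cases hiu : i ∈ u
        · have hiv : i ∉ v := fun h => hi ⟨fun _ => h, fun _ => hiu⟩
          refine ⟨i, huI hiu, Finset.card_pos.2 ⟨v, Finset.mem_filter.2 ⟨hv, hiv⟩⟩,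
            Finset.card_pos.2 ⟨u.erase i, Finset.mem_image.2 ⟨u, Finset.mem_filter.2 ⟨hu, hiu⟩, rfl⟩⟩⟩
        · have hiv : i ∈ v := by
            by_contra h
            exact hi ⟨fun h' => absurd h' hiu, fun h' => absurd h' h⟩
          refine ⟨i, hvI hiv, Finset.card_pos.2 ⟨u, Finset.mem_filter.2 ⟨hu, hiu⟩⟩,
            Finset.card_pos.2 ⟨v.erase i, Finset.mem_image.2 ⟨v, Finset.mem_filter.2 ⟨hv, hiv⟩, rfl⟩⟩⟩
      obtain ⟨Y, hY⟩ : ∃ Y, Y = I.powerset \ X := ⟨_, rfl⟩
      rw [← hY] at hXY
      -- halves have equal size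
      have hsum : ∀ i ∈ I, (p0 i X).card + (p0 i Y).card = 2 ^ (I.card - 1) ∧
          (p1 i X).card + (p1 i Y).card = 2 ^ (I.card - 1) := by
        intro i hi
        set J := I.erase i with hJ
        have hiJ : i ∉ J := Finset.notMem_erase i I
        have hIJ : I = insert i J := (Finset.insert_erase hi).symm
        have hcard : J.card = I.card - 1 := Finset.card_erase_of_mem hi
        rw [← hcard, ← Finset.card_powerset]
        have hX' : X ⊆ (insert i J).powerset := by rw [← hIJ]; exact hX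
        have hY' : Y = (insert i J).powerset \ X := by rw [← hIJ]; exact hY
        constructor
        · rw [hY', ← p0_sdiff hiJ, add_comm]
          exact Finset.card_sdiff_add_card_eq_card (p0_sub hiJ hX')
        · rw [hY', ← p1_sdiff hiJ, add_comm]
          exact Finset.card_sdiff_add_card_eq_card (p1_sub hiJ hX')
      obtain ⟨s0, s1⟩ := hsum i hiI
      have cX := card_p i X
      have cY := card_p i Y
      by_cases hmin : k ≤ min (p0 i X).card (p0 i Y).card + min (p1 i X).card (p1 i Y).card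
      · exact good a I hka hI X Y hX hY i hiI hx0 hx1 (by omega) (by omega) hk hmin
      · -- near half
        obtain ⟨j, hj, hji⟩ : ∃ j ∈ I, j ≠ i := by
          have : 1 < I.card := by omega
          obtain ⟨u, hu, v, hv, huv⟩ := Finset.one_lt_card.1 this
          by_cases h : u = i
          · exact ⟨v, hv, fun h' => huv (h.trans h'.symm)⟩
          · exact ⟨u, hu, h⟩
        have hU1 : X ∪ Y = I.powerset := by rw [hY]; exact Finset.union_sdiff_of_subset hX
        have hU2 : Y ∪ X = I.powerset := by rw [Finset.union_comm]; exact hU1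
        have hN : 2 * k ≤ 2 ^ (I.card - 2) := by
          have h1 : I.card - 2 < 2 ^ (I.card - 2) := Nat.lt_two_pow_self
          omega
        have q1 := quarter hiI hj hji.symm ∅ (by simp) X Y hU1
        have q2 := quarter hiI hj hji.symm {i} (by simp) X Y hU1
        have q3 := quarter hiI hj hji.symm {j} (by simp) X Y hU1
        have q4 := quarter hiI hj hji.symm {i, j} (by simp) X Y hU1
        have q5 := quarter hiI hj hji.symm ∅ (by simp) Y X hU2
        have q6 := quarter hiI hj hji.symm {i} (by simp) Y X hU2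
        have q7 := quarter hiI hj hji.symm {j} (by simp) Y X hU2
        have q8 := quarter hiI hj hji.symm {i, j} (by simp) Y X hU2
        have nij : i ≠ j := hji.symm
        simp only [Finset.notMem_empty, iff_false, Finset.mem_singleton, Finset.mem_insert, hji, nij,
          true_or, or_true, iff_true] at q1 q2 q3 q4 q5 q6 q7 q8
        simp only [← card_p0, ← card_p1] at q1 q2 q3 q4 q5 q6 q7 q8
        exact good a I hka hI X Y hX hY j hj (by omega) (by omega) (by omega) (by omega) hk (by omega)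
    intro a I hka hI X hX hkX hkY
    rcases Nat.lt_or_ge k 2 with hk | hk
    · rcases Nat.eq_zero_or_pos k with h0 | h0
      · subst h0; exact L_zero hX
      · obtain rfl : k = 1 := by omega
        exact L_one a I (by omega) X hX (Finset.card_pos.1 hkX) (Finset.card_pos.1 hkY)
    · rcases le_total X.card (I.powerset \ X).card with h | h
      · exact half a I hka hI X hX hkX h hk
      · apply L_symm hX
        apply half a I hka hI _ Finset.sdiff_subset hkY _ hk
        rw [Finset.sdiff_sdiff_eq_self hX]; exact h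

theorem rm_conn (k a : ℕ) (I : Finset ℕ) (h1 : k ≤ a) (h2 : k + a + 1 ≤ I.card)
    (X : Finset (Finset ℕ)) (hX : X ⊆ I.powerset) (hk : k ≤ X.card)
    (hk' : k ≤ (I.powerset \ X).card) :
    rk a I.powerset + k ≤ rk a X + rk a (I.powerset \ X) :=
  L_all k a I h1 h2 X hX hk hk'

end Pool.Agent.H20.RM
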