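import Mathlib

set_option autoImplicit false

open Set

namespace Pool.Agent.H20.Relax

variable {E : Type} [Finite E] {W : Type} [AddCommGroup W] [Module (ZMod 2) W]


/-- circuit-hyperplane data for a vector configuration -/
structure CH (v : E → W) (Z : Set E) (r : ℕ) : Prop where
  c : Z.ncard = r
  i : ∀ x ∈ Z, LinearIndepOn (ZMod 2) v (Z \ {x})
  d : ¬ LinearIndepOn (ZMod 2) v Z
  f : ∀ y, y ∉ Z → v y = 0 ∨ v y ∉ Submodule.span (ZMod 2) (v '' Z)

theorem fin_span {v : E → W} {S : Set E} (h : LinearIndepOn (ZMod 2) v S) :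
    Module.finrank (ZMod 2) (Submodule.span (ZMod 2) (v '' S)) = S.ncard := by
  haveI : Fintype S := Fintype.ofFinite S
  have h1 := finrank_span_eq_card (R := (ZMod 2)) (b := fun x : S => v x) h
  rw [show v '' S = Set.range (fun x : S => v x) by rw [Set.image_eq_range], h1]
  rw [Set.ncard_eq_toFinset_card', Set.toFinset_card]

theorem ne_zero_of_LI {v : E → W} {S : Set E} (h : LinearIndepOn (ZMod 2) v S) {x : E} (hx : x ∈ S) :
    v x ≠ 0 := by
  have := LinearIndependent.ne_zero (⟨x, hx⟩ : S) h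
  exact this

theorem exch_LI_LI [FiniteDimensional (ZMod 2) W] {v : E → W} {r : ℕ} (hr : Module.finrank (ZMod 2) W = r)
    {X Y : Set E}
    (hXc : X.ncard = r) (hX : LinearIndepOn (ZMod 2) v X) (hYc : Y.ncard = r)
    (hY : LinearIndepOn (ZMod 2) v Y) (a : E) (haX : a ∈ X) (haY : a ∉ Y) :
    ∃ b ∈ Y \ X, LinearIndepOn (ZMod 2) v (insert b (X \ {a})) := by
  have hX' : LinearIndepOn (ZMod 2) v (X \ {a}) := hX.mono Set.sdiff_subset
  have h1 : (X \ {a}).ncard + 1 = r := by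
    rw [← hXc]; exact Set.ncard_sdiff_singleton_add_one haX
  have h2 : ∃ b ∈ Y, v b ∉ Submodule.span (ZMod 2) (v '' (X \ {a})) := by
    by_contra hcon
    push Not at hcon
    have h3 : Submodule.span (ZMod 2) (v '' Y) ≤ Submodule.span (ZMod 2) (v '' (X \ {a})) := by
      rw [Submodule.span_le]
      rintro _ ⟨b, hb, rfl⟩
      exact hcon b hb
    have h4 := Submodule.finrank_mono h3
    rw [fin_span hY, fin_span hX'] at h4
    omega
  obtain ⟨b, hbY, hb⟩ := h2
  refine ⟨b, ⟨hbY, fun hbX => hb (Submodule.subset_span ⟨b, ⟨hbX, ?_⟩, rfl⟩)⟩, hX'.insert hb⟩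
  rintro rfl
  exact haY hbY

theorem exch_LI_Z [FiniteDimensional (ZMod 2) W] {v : E → W} {r : ℕ}
    {X Z : Set E} (h2r : 2 ≤ r)
    (hXc : X.ncard = r) (hX : LinearIndepOn (ZMod 2) v X) (hZ : CH v Z r)
    (a : E) (haX : a ∈ X) (haZ : a ∉ Z) :
    ∃ b ∈ Z \ X, LinearIndepOn (ZMod 2) v (insert b (X \ {a})) ∨ insert b (X \ {a}) = Z := by
  have hX' : LinearIndepOn (ZMod 2) v (X \ {a}) := hX.mono Set.sdiff_subset
  have h1 : (X \ {a}).ncard + 1 = r := by
    rw [← hXc]; exact Set.ncard_sdiff_singleton_add_one haX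
  by_cases h2 : ∃ b ∈ Z, v b ∉ Submodule.span (ZMod 2) (v '' (X \ {a}))
  · obtain ⟨b, hbY, hb⟩ := h2
    refine ⟨b, ⟨hbY, fun hbX => hb (Submodule.subset_span ⟨b, ⟨hbX, ?_⟩, rfl⟩)⟩,
      Or.inl (hX'.insert hb)⟩
    rintro rfl
    exact haZ hbY
  · push Not at h2
    have h3 : Submodule.span (ZMod 2) (v '' Z) ≤ Submodule.span (ZMod 2) (v '' (X \ {a})) := by
      rw [Submodule.span_le]
      rintro _ ⟨b, hb, rfl⟩
      exact h2 b hb
    obtain ⟨z, hz⟩ : Z.Nonempty := by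
      rw [← Set.ncard_pos, hZ.c]; omega
    have h4 : Submodule.span (ZMod 2) (v '' (Z \ {z})) ≤ Submodule.span (ZMod 2) (v '' Z) :=
      Submodule.span_mono (Set.image_mono Set.sdiff_subset)
    have h5 : (Z \ {z}).ncard + 1 = r := by
      rw [← hZ.c]; exact Set.ncard_sdiff_singleton_add_one hz
    have h6 : Submodule.span (ZMod 2) (v '' Z) = Submodule.span (ZMod 2) (v '' (X \ {a})) := by
      apply Submodule.eq_of_le_of_finrank_le h3
      have h7 := Submodule.finrank_mono h4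
      rw [fin_span (hZ.i z hz)] at h7
      rw [fin_span hX']
      omega
    have h8 : X \ {a} ⊆ Z := by
      intro x hx
      by_contra hxZ
      rcases hZ.f x hxZ with h | h
      · exact ne_zero_of_LI hX hx.1 h
      · apply h
        rw [h6]
        exact Submodule.subset_span ⟨x, hx, rfl⟩
    obtain ⟨b, hbZ, hb⟩ : ∃ b ∈ Z, b ∉ X \ {a} := by
      by_contra hcon
      push Not at hcon
      have : Z.ncard ≤ (X \ {a}).ncard := Set.ncard_le_ncard hcon
      rw [hZ.c] at this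
      omega
    have hbX : b ∉ X := by
      intro h
      apply hb
      refine ⟨h, ?_⟩
      rintro rfl
      exact haZ hbZ
    refine ⟨b, ⟨hbZ, hbX⟩, Or.inr ?_⟩
    apply Set.eq_of_subset_of_ncard_le
    · rintro x (rfl | hx)
      · exact hbZ
      · exact h8 hx
    · rw [Set.ncard_insert_of_notMem hb, hZ.c]
      omega
    · exact Set.toFinite _

theorem exch_Z {v : E → W} {r : ℕ} {Z : Set E} (hZ : CH v Z r) (a : E) (ha : a ∈ Z) (b : E)
    (hb : b ∉ Z) (hb0 : v b ≠ 0) : LinearIndepOn (ZMod 2) v (insert b (Z \ {a})) := by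
  apply (hZ.i a ha).insert
  intro h
  rcases hZ.f b hb with h1 | h1
  · exact hb0 h1
  · exact h1 (Submodule.span_mono (Set.image_mono Set.sdiff_subset) h)

theorem CH.ne_zero {v : E → W} {r : ℕ} {Z : Set E} (hZ : CH v Z r) (h2r : 2 ≤ r) {b : E}
    (hb : b ∈ Z) : v b ≠ 0 := by
  obtain ⟨x, hx, hxb⟩ : ∃ x ∈ Z, x ≠ b := by
    by_contra hcon
    push Not at hcon
    have : Z ⊆ {b} := hcon
    have := Set.ncard_le_ncard this
    rw [hZ.c, Set.ncard_singleton] at this
    omega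
  exact ne_zero_of_LI (hZ.i x hx) ⟨hb, fun h => hxb h.symm⟩

/-- the data defining the doubly relaxed matroid -/
structure Cfg (v : E → W) (C D : Set E) (r : ℕ) : Prop where
  fr : Module.finrank (ZMod 2) W = r
  fd : FiniteDimensional (ZMod 2) W
  two : 2 ≤ r
  dis : Disjoint C D
  hC : CH v C r
  hD : CH v D r
  far : ∃ B1 B2 : Set E, LinearIndepOn (ZMod 2) v B1 ∧ LinearIndepOn (ZMod 2) v B2 ∧ B1.ncard = r ∧
    B2.ncard = r ∧ 2 < (symmDiff B1 C).ncard ∧ 2 < (symmDiff B1 D).ncard ∧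
    2 < (symmDiff B2 C).ncard ∧ 2 < (symmDiff B2 D).ncard ∧ 4 < (symmDiff B1 B2).ncard

/-- the matroid obtained from the linear matroid of `v` by relaxing the circuit-hyperplanes
`C` and `D` -/
def relaxM {v : E → W} {C D : Set E} {r : ℕ} (h : Cfg v C D r) : Matroid E :=
  Matroid.ofExistsFiniteIsBase Set.univ
    (fun B => B.ncard = r ∧ (LinearIndepOn (ZMod 2) v B ∨ B = C ∨ B = D))
    (by
      obtain ⟨B1, _, h1, _, h2, _⟩ := h.far
      exact ⟨B1, ⟨h2, Or.inl h1⟩, Set.toFinite _⟩)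
    (by
      haveI := h.fd
      have hsize : ∀ X : Set E, X.ncard = r → ∀ a ∈ X, ∀ b ∉ X, (insert b (X \ {a})).ncard = r := by
        intro X hX a ha b hb
        rw [Set.ncard_insert_of_notMem (fun h => hb h.1), Set.ncard_sdiff_singleton_add_one ha, hX]
      have hZcase : ∀ Z Z' : Set E, CH v Z r → CH v Z' r → Disjoint Z Z' → ∀ Y : Set E,
          (Y.ncard = r ∧ (LinearIndepOn (ZMod 2) v Y ∨ Y = Z ∨ Y = Z')) → ∀ a ∈ Z \ Y,
          ∃ b ∈ Y \ Z, (insert b (Z \ {a})).ncard = r ∧ LinearIndepOn (ZMod 2) v (insert b (Z \ {a})) := by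
        rintro Z Z' hZ hZ' hdis Y ⟨hYc, hY⟩ a ⟨haZ, haY⟩
        rcases hY with hY | rfl | rfl
        · obtain ⟨b, hbY, hbZ⟩ : ∃ b ∈ Y, b ∉ Z := by
            by_contra hcon
            push Not at hcon
            have h1 : Y = Z := Set.eq_of_subset_of_ncard_le hcon (by rw [hZ.c, hYc])
            exact haY (h1 ▸ haZ)
          exact ⟨b, ⟨hbY, hbZ⟩, hsize Z hZ.c a haZ b hbZ,
            exch_Z hZ a haZ b hbZ (ne_zero_of_LI hY hbY)⟩
        · exact absurd haZ haY
        · obtain ⟨b, hbY⟩ : Y.Nonempty := by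
            rw [← Set.ncard_pos, hYc]; have := h.two; omega
          have hbZ : b ∉ Z := fun hb => Set.disjoint_left.mp hdis hb hbY
          exact ⟨b, ⟨hbY, hbZ⟩, hsize Z hZ.c a haZ b hbZ,
            exch_Z hZ a haZ b hbZ (hZ'.ne_zero h.two hbY)⟩
      rintro X Y ⟨hXc, hX⟩ hYY a ha
      rcases hX with hX | hX | hX
      · obtain ⟨hYc, hY⟩ := hYY
        rcases hY with hY | hY | hY
        · obtain ⟨b, hb, hb2⟩ := exch_LI_LI h.fr hXc hX hYc hY a ha.1 ha.2
          exact ⟨b, hb, hsize X hXc a ha.1 b hb.2, Or.inl hb2⟩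
        · subst hY
          obtain ⟨b, hb, hb2⟩ := exch_LI_Z h.two hXc hX h.hC a ha.1 ha.2
          refine ⟨b, hb, hsize X hXc a ha.1 b hb.2, ?_⟩
          rcases hb2 with h1 | h1
          · exact Or.inl h1
          · exact Or.inr (Or.inl h1)
        · subst hY
          obtain ⟨b, hb, hb2⟩ := exch_LI_Z h.two hXc hX h.hD a ha.1 ha.2
          refine ⟨b, hb, hsize X hXc a ha.1 b hb.2, ?_⟩
          rcases hb2 with h1 | h1
          · exact Or.inl h1
          · exact Or.inr (Or.inr h1)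
      · subst hX
        obtain ⟨b, hb, h1, h2⟩ := hZcase _ _ h.hC h.hD h.dis Y hYY a ha
        exact ⟨b, hb, h1, Or.inl h2⟩
      · subst hX
        obtain ⟨b, hb, h1, h2⟩ := hZcase _ _ h.hD h.hC h.dis.symm Y
          ⟨hYY.1, by rcases hYY.2 with h | h | h; exacts [Or.inl h, Or.inr (Or.inr h), Or.inr (Or.inl h)]⟩ a ha
        exact ⟨b, hb, h1, Or.inl h2⟩)
    (fun _ _ => Set.subset_univ _)

section
variable {v : E → W} {C D : Set E} {r : ℕ} (h : Cfg v C D r)

theorem relaxM_isBase (B : Set E) : (relaxM h).IsBase B ↔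
    B.ncard = r ∧ (LinearIndepOn (ZMod 2) v B ∨ B = C ∨ B = D) := Iff.rfl

theorem relaxM_E : (relaxM h).E = Set.univ := rfl

include h in
theorem extend_LI {S : Set E} (hS : LinearIndepOn (ZMod 2) v S) :
    ∃ B, S ⊆ B ∧ LinearIndepOn (ZMod 2) v B ∧ B.ncard = r := by
  haveI := h.fd
  obtain ⟨B, _, hSB, hsp, hB⟩ := exists_linearIndepOn_extension hS (Set.subset_univ S)
  refine ⟨B, hSB, hB, ?_⟩
  obtain ⟨B1, _, h1, _, h2, _⟩ := h.far
  have h3 : Submodule.span (ZMod 2) (v '' B1) ≤ Submodule.span (ZMod 2) (v '' B) := by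
    rw [Submodule.span_le]
    rintro _ ⟨b, hb, rfl⟩
    exact hsp ⟨b, Set.mem_univ _, rfl⟩
  have h4 := Submodule.finrank_mono h3
  rw [fin_span h1, fin_span hB, h2] at h4
  have h5 := Submodule.finrank_le (Submodule.span (ZMod 2) (v '' B))
  rw [fin_span hB, h.fr] at h5
  omega

theorem relaxM_indep (S : Set E) : (relaxM h).Indep S ↔
    (LinearIndepOn (ZMod 2) v S ∨ S = C ∨ S = D) := by
  rw [Matroid.indep_iff]
  constructor
  · rintro ⟨B, hB, hSB⟩
    obtain ⟨hBc, hB⟩ := hB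
    have hz : ∀ Z : Set E, CH v Z r → S ⊆ Z → (LinearIndepOn (ZMod 2) v S ∨ S = Z) := by
      intro Z hZ hSZ
      by_cases hSe : S = Z
      · exact Or.inr hSe
      · left
        obtain ⟨x, hx, hxS⟩ : ∃ x ∈ Z, x ∉ S := by
          by_contra hcon
          push Not at hcon
          exact hSe (Set.Subset.antisymm hSZ hcon)
        refine (hZ.i x hx).mono ?_
        intro y hy
        refine ⟨hSZ hy, ?_⟩
        rintro rfl
        exact hxS hy
    rcases hB with hB | rfl | rfl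
    · exact Or.inl (hB.mono hSB)
    · rcases hz _ h.hC hSB with h1 | h1
      · exact Or.inl h1
      · exact Or.inr (Or.inl h1)
    · rcases hz _ h.hD hSB with h1 | h1
      · exact Or.inl h1
      · exact Or.inr (Or.inr h1)
  · rintro (hS | rfl | rfl)
    · obtain ⟨B, h1, h2, h3⟩ := extend_LI h hS
      exact ⟨B, ⟨h3, Or.inl h2⟩, h1⟩
    · exact ⟨_, ⟨h.hC.c, Or.inr (Or.inl rfl)⟩, subset_rfl⟩
    · exact ⟨_, ⟨h.hD.c, Or.inr (Or.inr rfl)⟩, subset_rfl⟩

theorem relaxM_eRank : (relaxM h).eRank = r := by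
  have h1 : (relaxM h).IsBase C := ⟨h.hC.c, Or.inr (Or.inl rfl)⟩
  rw [← h1.encard_eq_eRank, ← h.hC.c, Set.Finite.cast_ncard_eq (Set.toFinite _)]

theorem relaxM_indep_card {S : Set E} (hS : (relaxM h).Indep S) : S.ncard ≤ r := by
  have h1 := hS.encard_le_eRank
  rw [relaxM_eRank, ← Set.Finite.cast_ncard_eq (Set.toFinite _)] at h1
  exact_mod_cast h1

theorem le_relaxM_eRk (X : Set E) :
    (Module.finrank (ZMod 2) (Submodule.span (ZMod 2) (v '' X)) : ℕ∞) ≤ (relaxM h).eRk X := by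
  haveI := h.fd
  obtain ⟨B, hBX, _, hsp, hB⟩ := exists_linearIndepOn_extension (K := (ZMod 2)) (v := v)
    (linearIndepOn_empty (ZMod 2) v) (Set.empty_subset X)
  have h1 : Submodule.span (ZMod 2) (v '' X) ≤ Submodule.span (ZMod 2) (v '' B) := by
    rw [Submodule.span_le]; exact hsp
  have h2 := Submodule.finrank_mono h1
  rw [fin_span hB] at h2
  have h3 : (relaxM h).Indep B := (relaxM_indep h B).mpr (Or.inl hB)
  refine le_trans ?_ (h3.encard_le_eRk_of_subset hBX)
  rw [← Set.Finite.cast_ncard_eq (Set.toFinite B)]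
  exact_mod_cast h2

end

end Pool.Agent.H20.Relax
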