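import Mathlib
import Pool.Agent.H20.Relax

set_option autoImplicit false

open Set

namespace Pool.Agent.H20.Relax


theorem zmod2_cases (a : ZMod 2) : a = 0 ∨ a = 1 := by
  revert a; decide

variable {E : Type} [Finite E] {W : Type} [AddCommGroup W] [Module (ZMod 2) W]

/-- representation of a vector in the span of an independent set over `F_2` -/
theorem rep {v : E → W} {B : Finset E} (hB : LinearIndepOn (ZMod 2) v (B : Set E)) {y : E}
    (hy : v y ∈ Submodule.span (ZMod 2) (v '' (B : Set E))) (S : Finset E)
    (hS : ∀ x, x ∈ S ↔ x ∈ B ∧ v y ∉ Submodule.span (ZMod 2) (v '' ((B : Set E) \ {x}))) :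
    v y = ∑ x ∈ S, v x := by
  classical
  obtain ⟨c, hc⟩ := (Submodule.mem_span_image_finset_iff_exists_fun' (ZMod 2)).mp hy
  have hkey : ∀ x ∈ B, (c x ≠ 0 ↔ x ∈ S) := by
    intro x hx
    rw [hS]
    have hmem : ∑ i ∈ B.erase x, c i • v i ∈ Submodule.span (ZMod 2) (v '' ((B : Set E) \ {x})) := by
      apply Submodule.sum_mem
      intro i hi
      apply Submodule.smul_mem
      apply Submodule.subset_span
      exact ⟨i, ⟨Finset.mem_of_mem_erase hi, by simpa using Finset.ne_of_mem_erase hi⟩, rfl⟩
    have hsum : c x • v x + ∑ i ∈ B.erase x, c i • v i = v y := by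
      rw [← hc, Finset.add_sum_erase B (fun i => c i • v i) hx]
    constructor
    · intro hcx
      refine ⟨hx, fun h => ?_⟩
      have h1 : c x = 1 := (zmod2_cases (c x)).resolve_left hcx
      rw [h1, one_smul] at hsum
      have h2 : v x ∈ Submodule.span (ZMod 2) (v '' ((B : Set E) \ {x})) := by
        have h3 : v x = v y - ∑ i ∈ B.erase x, c i • v i := by rw [← hsum]; abel
        rw [h3]
        exact Submodule.sub_mem _ h hmem
      exact (linearIndepOn_iff_notMem_span.mp hB x hx) h2
    · rintro ⟨_, h⟩ hcx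
      apply h
      rw [hcx, zero_smul, zero_add] at hsum
      rw [← hsum]
      exact hmem
  have hSB : S ⊆ B := fun x hx => ((hS x).mp hx).1
  rw [← hc, ← Finset.sum_subset hSB]
  · refine Finset.sum_congr rfl ?_
    intro x hx
    have h1 : c x = 1 := (zmod2_cases (c x)).resolve_left ((hkey x (hSB hx)).mpr hx)
    rw [h1, one_smul]
  · intro x hx hxS
    have h1 : c x = 0 := by
      by_contra hcon
      exact hxS ((hkey x hx).mp hcon)
    rw [h1, zero_smul]

/-- two configurations with the same fundamental graph at `B` have the same independent sets -/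
theorem same_indep {v : E → W} {Q : Type} [AddCommGroup Q] [Module (ZMod 2) Q] {w : E → Q}
    {B : Set E} (hv : LinearIndepOn (ZMod 2) v B) (hw : LinearIndepOn (ZMod 2) w B)
    (hsv : ∀ y, v y ∈ Submodule.span (ZMod 2) (v '' B)) (hsw : ∀ y, w y ∈ Submodule.span (ZMod 2) (w '' B))
    (hfund : ∀ x ∈ B, ∀ y, (v y ∈ Submodule.span (ZMod 2) (v '' (B \ {x})) ↔
      w y ∈ Submodule.span (ZMod 2) (w '' (B \ {x}))))
    (J : Set E) : LinearIndepOn (ZMod 2) w J → LinearIndepOn (ZMod 2) v J := by
  classical
  haveI : Fintype E := Fintype.ofFinite E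
  intro hJ
  let Bf : Finset E := B.toFinset
  have hBf : (Bf : Set E) = B := Set.coe_toFinset B
  -- linear map from span of w to W
  let bw : Module.Basis B (ZMod 2) (Submodule.span (ZMod 2) (Set.range fun x : B => w x)) :=
    Module.Basis.span hw
  let θ : Submodule.span (ZMod 2) (Set.range fun x : B => w x) →ₗ[(ZMod 2)] W :=
    bw.constr (ZMod 2) (fun x : B => v x)
  have hrange : Set.range (fun x : B => w x) = w '' B := by rw [Set.image_eq_range]
  have hmem : ∀ y, w y ∈ Submodule.span (ZMod 2) (Set.range fun x : B => w x) := by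
    intro y; rw [hrange]; exact hsw y
  have hθB : ∀ x (hx : x ∈ B), θ ⟨w x, hmem x⟩ = v x := by
    intro x hx
    have h1 : (⟨w x, hmem x⟩ : Submodule.span (ZMod 2) (Set.range fun x : B => w x)) = bw ⟨x, hx⟩ := by
      exact (Module.Basis.span_apply hw ⟨x, hx⟩).symm
    rw [h1]
    exact Module.Basis.constr_basis _ _ _ _
  have hθ : ∀ y, θ ⟨w y, hmem y⟩ = v y := by
    intro y
    let S : Finset E := Bf.filter (fun x => v y ∉ Submodule.span (ZMod 2) (v '' ((Bf : Set E) \ {x})))
    have hv' : v y = ∑ x ∈ S, v x := by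
      refine rep (B := Bf) (by rw [hBf]; exact hv) (by rw [hBf]; exact hsv y) S ?_
      intro x
      simp only [S, Finset.mem_filter]
    have hw' : w y = ∑ x ∈ S, w x := by
      refine rep (B := Bf) (by rw [hBf]; exact hw) (by rw [hBf]; exact hsw y) S ?_
      intro x
      simp only [S, Finset.mem_filter]
      constructor
      · rintro ⟨h1, h2⟩
        refine ⟨h1, fun h => h2 ?_⟩
        rw [hBf] at h ⊢
        exact (hfund x (by rw [← hBf]; exact h1) y).mpr h
      · rintro ⟨h1, h2⟩
        refine ⟨h1, fun h => h2 ?_⟩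
        rw [hBf] at h ⊢
        exact (hfund x (by rw [← hBf]; exact h1) y).mp h
    have h1 : (⟨w y, hmem y⟩ : Submodule.span (ZMod 2) (Set.range fun x : B => w x)) =
        ∑ x ∈ S, ⟨w x, hmem x⟩ := by
      apply Subtype.ext
      have h0 : ((∑ x ∈ S, (⟨w x, hmem x⟩ : Submodule.span (ZMod 2) (Set.range fun x : B => w x)) :
          Submodule.span (ZMod 2) (Set.range fun x : B => w x)) : Q) = ∑ x ∈ S, w x := by simp
      exact hw'.trans h0.symm
    rw [h1, map_sum, hv']
    refine Finset.sum_congr rfl ?_
    intro x hx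
    apply hθB
    have : x ∈ Bf := (Finset.mem_filter.mp hx).1
    rw [← hBf]
    exact this
  have hinj : Function.Injective θ := by
    have h1 : LinearIndependent (ZMod 2) (fun x : B => v x) := hv
    exact bw.injective_constr_of_linearIndependent h1
  -- transfer
  have hJ' : LinearIndepOn (ZMod 2) (fun y => (⟨w y, hmem y⟩ :
      Submodule.span (ZMod 2) (Set.range fun x : B => w x))) J := by
    have := hJ
    apply LinearIndepOn.of_comp (Submodule.subtype _)
    exact this
  have h2 := hJ'.map_injOn θ hinj.injOn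
  have h3 : (θ ∘ fun y => (⟨w y, hmem y⟩ :
      Submodule.span (ZMod 2) (Set.range fun x : B => w x))) = v := by
    funext y
    exact hθ y
  rw [h3] at h2
  exact h2

end Pool.Agent.H20.Relax
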