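import Mathlib
import Pool.Agent.H20.Relax2

set_option autoImplicit false

open Set

namespace Pool.Agent.H20.Relax


/-- `N` and `M` are isomorphic matroids (on possibly different types) -/
def IsIso {α β : Type} (N : Matroid α) (M : Matroid β) : Prop :=
  ∃ f : α → β, Set.BijOn f N.E M.E ∧ ∀ I ⊆ N.E, (N.Indep I ↔ M.Indep (f '' I))

/-- `N` is isomorphic to a minor of `M` -/
def IsoMinor {α β : Type} (N : Matroid α) (M : Matroid β) : Prop :=
  ∃ M' : Matroid β, M' ≤m M ∧ IsIso N M'

theorem minor_key {β : Type} {M' M : Matroid β} (h : M' ≤m M) :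
    ∃ I : Set β, Disjoint M'.E I ∧ M'.E ⊆ M.E ∧ ∀ S ⊆ M'.E, (M'.Indep S ↔ M.Indep (S ∪ I)) := by
  obtain ⟨C, D, hC, hD, hdis, rfl⟩ := h.exists_eq_contract_delete_disjoint
  obtain ⟨I, hI⟩ := M.exists_isBasis C
  refine ⟨I, ?_, ?_, ?_⟩
  · rw [Set.disjoint_left]
    rintro x hx hxI
    exact hx.1.2 (hI.subset hxI)
  · intro x hx
    exact hx.1.1
  · intro S hS
    rw [Matroid.delete_indep_iff, hI.contract_indep_iff]
    constructor
    · rintro ⟨⟨h1, _⟩, _⟩
      exact h1
    · intro h1
      refine ⟨⟨h1, ?_⟩, ?_⟩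
      · rw [Set.disjoint_left]
        intro x hxC hxS
        exact (hS hxS).1.2 hxC
      · rw [Set.disjoint_left]
        intro x hxS hxD
        exact (hS hxS).2 hxD

theorem iso_minor_key {α β : Type} {N : Matroid α} {M : Matroid β} (h : IsoMinor N M)
    (hN : N.E = Set.univ) : ∃ f : α → β, Function.Injective f ∧ ∃ I : Set β,
      Disjoint (Set.range f) I ∧ ∀ J : Set α, (N.Indep J ↔ M.Indep (f '' J ∪ I)) := by
  obtain ⟨M', hM', f, hf, hfI⟩ := h
  obtain ⟨I, h1, _, h2⟩ := minor_key hM'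
  rw [hN] at hf hfI
  refine ⟨f, fun a b hab => hf.injOn (Set.mem_univ a) (Set.mem_univ b) hab, I, ?_, ?_⟩
  · refine h1.mono_left ?_
    rintro _ ⟨x, rfl⟩
    exact hf.mapsTo (Set.mem_univ x)
  · intro J
    rw [hfI J (Set.subset_univ J), h2]
    rintro _ ⟨x, _, rfl⟩
    exact hf.mapsTo (Set.mem_univ x)

variable {E : Type} [Finite E] {W : Type} [AddCommGroup W] [Module (ZMod 2) W]

theorem rigid {v : E → W} {C D : Set E} {r : ℕ} (h : Cfg v C D r) {Q : Type} [AddCommGroup Q]
    [Module (ZMod 2) Q] (w : E → Q) (F0 : Set E)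
    (hJ : ∀ J : Set E, J ≠ F0 →
      ((LinearIndepOn (ZMod 2) v J ∨ J = C ∨ J = D) ↔ LinearIndepOn (ZMod 2) w J)) : False := by
  have hfd := h.fd
  obtain ⟨B, hBv, hBr, hBC, hBD, hBF⟩ : ∃ B : Set E, LinearIndepOn (ZMod 2) v B ∧ B.ncard = r ∧
      2 < (symmDiff B C).ncard ∧ 2 < (symmDiff B D).ncard ∧ 2 < (symmDiff B F0).ncard := by
    obtain ⟨B1, B2, h1, h2, h3, h4, h5, h6, h7, h8, h9⟩ := h.far
    by_cases hc : 2 < (symmDiff B1 F0).ncard
    · exact ⟨B1, h1, h3, h5, h6, hc⟩
    · refine ⟨B2, h2, h4, h7, h8, ?_⟩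
      by_contra hc2
      have h10 : symmDiff B1 B2 ⊆ symmDiff B1 F0 ∪ symmDiff B2 F0 := by
        intro x hx
        rw [Set.mem_symmDiff] at hx
        simp only [Set.mem_union, Set.mem_symmDiff]
        by_cases hxF : x ∈ F0 <;> tauto
      have h11 := Set.ncard_le_ncard h10 (Set.toFinite _)
      have h12 := Set.ncard_union_le (symmDiff B1 F0) (symmDiff B2 F0)
      omega
  have hfar : ∀ B' : Set E, (symmDiff B B').ncard ≤ 2 → B' ≠ C ∧ B' ≠ D ∧ B' ≠ F0 := by
    intro B' hB'
    refine ⟨?_, ?_, ?_⟩ <;> (rintro rfl; omega)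
  have hJ' : ∀ B' : Set E, (symmDiff B B').ncard ≤ 2 →
      (LinearIndepOn (ZMod 2) v B' ↔ LinearIndepOn (ZMod 2) w B') := by
    intro B' hB'
    obtain ⟨h1, h2, h3⟩ := hfar B' hB'
    rw [← hJ B' h3]
    constructor
    · exact fun h => Or.inl h
    · rintro (h | h | h)
      · exact h
      · exact absurd h h1
      · exact absurd h h2
  have hBw : LinearIndepOn (ZMod 2) w B := by
    apply (hJ' B _).mp hBv
    rw [symmDiff_self]
    simp
  have hnI : ∀ y, y ∉ B → ¬ LinearIndepOn (ZMod 2) v (insert y B) := by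
    intro y hy hcon
    have h5 := Submodule.finrank_le (Submodule.span (ZMod 2) (v '' (insert y B)))
    rw [fin_span hcon, h.fr, Set.ncard_insert_of_notMem hy, hBr] at h5
    omega
  have hs1 : ∀ y, y ∉ B → (symmDiff B (insert y B)).ncard ≤ 2 := by
    intro y hy
    have : symmDiff B (insert y B) ⊆ {y} := by
      intro x hx
      rw [Set.mem_symmDiff] at hx
      rcases hx with ⟨h1, h2⟩ | ⟨h1, h2⟩
      · exact absurd (Set.mem_insert_of_mem y h1) h2
      · rcases h1 with h1 | h1
        · exact h1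
        · exact absurd h1 h2
    have := Set.ncard_le_ncard this (Set.toFinite _)
    rw [Set.ncard_singleton] at this
    omega
  have hs2 : ∀ x y, (symmDiff B (insert y (B \ {x}))).ncard ≤ 2 := by
    intro x y
    have : symmDiff B (insert y (B \ {x})) ⊆ {x, y} := by
      intro z hz
      rw [Set.mem_symmDiff] at hz
      rcases hz with ⟨h1, h2⟩ | ⟨h1, h2⟩
      · by_cases hzx : z = x
        · exact Or.inl hzx
        · exact absurd (Set.mem_insert_of_mem y (show z ∈ B \ {x} from ⟨h1, hzx⟩)) h2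
      · rcases h1 with h1 | h1
        · exact Or.inr h1
        · exact absurd h1.1 h2
    have h1 := Set.ncard_le_ncard this (Set.toFinite _)
    have h2 := Set.ncard_insert_le x {y}
    rw [Set.ncard_singleton] at h2
    omega
  have hsv : ∀ y, v y ∈ Submodule.span (ZMod 2) (v '' B) := by
    intro y
    by_cases hy : y ∈ B
    · exact Submodule.subset_span ⟨y, hy, rfl⟩
    · by_contra hcon
      exact hnI y hy (hBv.insert hcon)
  have hsw : ∀ y, w y ∈ Submodule.span (ZMod 2) (w '' B) := by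
    intro y
    by_cases hy : y ∈ B
    · exact Submodule.subset_span ⟨y, hy, rfl⟩
    · by_contra hcon
      exact hnI y hy ((hJ' _ (hs1 y hy)).mpr (hBw.insert hcon))
  have hfund : ∀ x ∈ B, ∀ y, (v y ∈ Submodule.span (ZMod 2) (v '' (B \ {x})) ↔
      w y ∈ Submodule.span (ZMod 2) (w '' (B \ {x}))) := by
    intro x hx y
    by_cases hyx : y = x
    · subst hyx
      have h1 := linearIndepOn_iff_notMem_span.mp hBv y hx
      have h2 := linearIndepOn_iff_notMem_span.mp hBw y hx
      exact ⟨fun h => absurd h h1, fun h => absurd h h2⟩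
    by_cases hy : y ∈ B
    · exact ⟨fun _ => Submodule.subset_span ⟨y, ⟨hy, hyx⟩, rfl⟩,
        fun _ => Submodule.subset_span ⟨y, ⟨hy, hyx⟩, rfl⟩⟩
    · have hy' : y ∉ B \ {x} := fun h => hy h.1
      have h1 := linearIndepOn_insert (K := (ZMod 2)) (f := v) hy'
      have h2 := linearIndepOn_insert (K := (ZMod 2)) (f := w) hy'
      have h3 := hJ' _ (hs2 x y)
      have h4 : LinearIndepOn (ZMod 2) v (B \ {x}) := hBv.mono Set.sdiff_subset
      have h5 : LinearIndepOn (ZMod 2) w (B \ {x}) := hBw.mono Set.sdiff_subset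
      tauto
  have hfin := same_indep hBv hBw hsv hsw hfund
  have hCD : C ≠ D := by
    rintro rfl
    have h1 := h.dis
    rw [disjoint_self] at h1
    have h2 := h.hC.c
    have h3 := h.two
    rw [show C = ∅ from h1, Set.ncard_empty] at h2
    omega
  by_cases hCF : C = F0
  · have h1 : LinearIndepOn (ZMod 2) w D := (hJ D (fun hh => hCD (hCF.trans hh.symm))).mp
      (Or.inr (Or.inr rfl))
    exact h.hD.d (hfin D h1)
  · have h1 : LinearIndepOn (ZMod 2) w C := (hJ C hCF).mp (Or.inr (Or.inl rfl))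
    exact h.hC.d (hfin C h1)

theorem no_minor {E' : Type} [Finite E'] {W' : Type} [AddCommGroup W'] [Module (ZMod 2) W']
    {v : E → W} {C D : Set E} {r : ℕ} (h : Cfg v C D r)
    {v' : E' → W'} {C' D' : Set E'} {r' : ℕ} (h' : Cfg v' C' D' r') (hr : r ≠ r') :
    ¬ IsoMinor (relaxM h) (relaxM h') := by
  intro hm
  obtain ⟨f, hf, I, hdis, hkey⟩ := iso_minor_key hm rfl
  have hlt : r < r' := by
    rcases lt_or_gt_of_ne hr with h1 | h1
    · exact h1
    · exfalso
      have h2 := (hkey C).mp ((relaxM_indep h C).mpr (Or.inr (Or.inl rfl)))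
      have h3 := relaxM_indep_card h' h2
      have h4 := Set.ncard_le_ncard (Set.subset_union_left : f '' C ⊆ f '' C ∪ I) (Set.toFinite _)
      rw [Set.ncard_image_of_injective C hf, h.hC.c] at h4
      omega
  have hpre : ∀ J : Set E, f ⁻¹' (f '' J ∪ I) = J := by
    intro J
    ext x
    constructor
    · rintro (⟨y, hy, hxy⟩ | hx)
      · rw [← hf hxy]; exact hy
      · exact absurd hx (Set.disjoint_left.mp hdis ⟨x, rfl⟩)
    · intro hx
      exact Or.inl ⟨x, hx, rfl⟩
  obtain ⟨F0, hF0⟩ : ∃ F0 : Set E, ∀ J : Set E, J ≠ F0 →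
      ((LinearIndepOn (ZMod 2) v J ∨ J = C ∨ J = D) ↔ LinearIndepOn (ZMod 2) v' (f '' J ∪ I)) := by
    by_cases hI : I = ∅
    · refine ⟨∅, fun J _ => ?_⟩
      have h1 := hkey J
      rw [relaxM_indep, relaxM_indep] at h1
      rw [h1]
      constructor
      · intro h2
        have h2' := h2
        rw [← relaxM_indep h', ← hkey J] at h2'
        have h3 := relaxM_indep_card h h2'
        have h4 : (f '' J ∪ I).ncard = J.ncard := by
          rw [hI, Set.union_empty, Set.ncard_image_of_injective J hf]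
        rcases h2 with h2 | h2 | h2
        · exact h2
        · rw [h2, h'.hC.c] at h4; omega
        · rw [h2, h'.hD.c] at h4; omega
      · exact fun h => Or.inl h
    · obtain ⟨e, he⟩ := Set.nonempty_iff_ne_empty.mpr hI
      by_cases heD : e ∈ D'
      · have heC : e ∉ C' := fun hc => Set.disjoint_left.mp h'.dis hc heD
        refine ⟨f ⁻¹' D', fun J hJ => ?_⟩
        have h1 := hkey J
        rw [relaxM_indep, relaxM_indep] at h1
        rw [h1]
        constructor
        · rintro (h2 | h2 | h2)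
          · exact h2
          · exact absurd (h2 ▸ (Or.inr he : e ∈ f '' J ∪ I)) heC
          · exact absurd (by rw [← h2, hpre]) hJ
        · exact fun h => Or.inl h
      · refine ⟨f ⁻¹' C', fun J hJ => ?_⟩
        have h1 := hkey J
        rw [relaxM_indep, relaxM_indep] at h1
        rw [h1]
        constructor
        · rintro (h2 | h2 | h2)
          · exact h2
          · exact absurd (by rw [← h2, hpre]) hJ
          · exact absurd (h2 ▸ (Or.inr he : e ∈ f '' J ∪ I)) heD
        · exact fun h => Or.inl h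
  have hILI : LinearIndepOn (ZMod 2) v' I := by
    obtain ⟨B1, B2, h1, h2, _, _, _, _, _, _, h9⟩ := h.far
    have h12 : B1 ≠ B2 := by
      rintro rfl
      rw [symmDiff_self] at h9
      simp at h9
    by_cases hc : B1 = F0
    · exact ((hF0 B2 (fun hh => h12 (hc.trans hh.symm))).mp (Or.inl h2)).mono
        Set.subset_union_right
    · exact ((hF0 B1 hc).mp (Or.inl h1)).mono Set.subset_union_right
  refine rigid h (Q := W' ⧸ Submodule.span (ZMod 2) (v' '' I))
    ((Submodule.mkQ (Submodule.span (ZMod 2) (v' '' I)) ∘ v') ∘ f) F0 ?_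
  intro J hJ
  rw [hF0 J hJ]
  have hd : Disjoint I (f '' J) := (hdis.mono_left (Set.image_subset_range f J)).symm
  rw [Set.union_comm, linearIndepOn_union_iff_quotient hd, and_iff_right hILI]
  exact ⟨fun h1 => h1.comp_of_image hf.injOn, fun h1 => LinearIndepOn.image_of_comp f _ h1⟩

end Pool.Agent.H20.Relax
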