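import Mathlib
import Pool.Agent.H20.Relax3
import Pool.Agent.H20.RM

set_option autoImplicit false

open Set

namespace Pool.Agent.H20.Config

open Pool.Agent.H20.Relax Pool.Agent.H20.RM


section
variable {E : Type} {W : Type} [AddCommGroup W] [Module (ZMod 2) W]

theorem li_iff (v : E → W) (S : Set E) : LinearIndepOn (ZMod 2) v S ↔
    ∀ T : Finset E, (T : Set E) ⊆ S → ∑ x ∈ T, v x = 0 → T = ∅ := by
  classical
  rw [linearIndepOn_iff']
  constructor
  · intro h T hT h0
    by_contra hne
    obtain ⟨x, hx⟩ := Finset.nonempty_iff_ne_empty.mpr hne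
    have := h T (fun _ => 1) hT (by simpa using h0) x hx
    exact one_ne_zero this
  · intro h t g ht h0 i hi
    have h1 : ∑ x ∈ t.filter (fun x => g x ≠ 0), v x = 0 := by
      rw [← h0, Finset.sum_filter]
      refine Finset.sum_congr rfl ?_
      intro x _
      rcases zmod2_cases (g x) with hg | hg
      · rw [hg]; simp
      · rw [hg]; simp
    have h2 := h _ (fun x hx => ht (Finset.mem_of_mem_filter x hx)) h1
    by_contra hgi
    have : i ∈ t.filter (fun x => g x ≠ 0) := Finset.mem_filter.mpr ⟨hi, hgi⟩
    rw [h2] at this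
    exact absurd this (Finset.notMem_empty i)

theorem two_zero (w : W) : w + w = 0 := by
  have : (2 : ZMod 2) • w = w + w := by rw [two_smul]
  rw [← this, show (2 : ZMod 2) = 0 from rfl, zero_smul]

/-- criterion for a circuit-hyperplane -/
theorem CH_of [Finite E] {ι : Type} [Fintype ι] [Nonempty ι] (v : E → W) (c : ι → E)
    (hc : Function.Injective c) (φ : W →ₗ[ZMod 2] ZMod 2)
    (hsum : ∀ B : Finset ι, ∑ i ∈ B, v (c i) = 0 ↔ (B = ∅ ∨ B = Finset.univ))
    (h0 : ∀ i, φ (v (c i)) = 0) (h1 : ∀ y, y ∉ Set.range c → v y = 0 ∨ φ (v y) = 1) :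
    CH v (Set.range c) (Fintype.card ι) := by
  classical
  have hpre : ∀ T : Finset E, (T : Set E) ⊆ Set.range c →
      T = (Finset.univ.filter (fun i => c i ∈ T)).image c := by
    intro T hT
    ext x
    simp only [Finset.mem_image, Finset.mem_filter, Finset.mem_univ, true_and]
    constructor
    · intro hx
      obtain ⟨i, rfl⟩ := hT hx
      exact ⟨i, hx, rfl⟩
    · rintro ⟨i, hi, rfl⟩
      exact hi
  have hsumT : ∀ T : Finset E, (T : Set E) ⊆ Set.range c → ∑ x ∈ T, v x = 0 →
      (T = ∅ ∨ ∀ i, c i ∈ T) := by
    intro T hT h0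
    rw [hpre T hT, Finset.sum_image (fun a _ b _ h => hc h)] at h0
    rcases (hsum _).mp h0 with h | h
    · left
      rw [hpre T hT, h]
      simp
    · right
      intro i
      have : i ∈ Finset.univ.filter (fun i => c i ∈ T) := by rw [h]; exact Finset.mem_univ i
      exact (Finset.mem_filter.mp this).2
  refine ⟨?_, ?_, ?_, ?_⟩
  · rw [← Set.image_univ, Set.ncard_image_of_injective _ hc, Set.ncard_univ, Nat.card_eq_fintype_card]
  · rintro x ⟨i, rfl⟩
    rw [li_iff]
    intro T hT hs
    rcases hsumT T (fun y hy => (hT hy).1) hs with h | h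
    · exact h
    · exact absurd rfl (hT (h i)).2
  · intro hcon
    rw [li_iff] at hcon
    have h2 := hcon (Finset.univ.image c) (by
      intro x hx
      simp only [Finset.coe_image, Finset.coe_univ, Set.image_univ] at hx
      exact hx) (by
      rw [Finset.sum_image (fun a _ b _ h => hc h)]
      exact (hsum _).mpr (Or.inr rfl))
    rw [Finset.image_eq_empty] at h2
    exact absurd h2 (Finset.univ_nonempty.ne_empty)
  · intro y hy
    rcases h1 y hy with h | h
    · exact Or.inl h
    · right
      intro hcon
      have h3 : Submodule.span (ZMod 2) (v '' Set.range c) ≤ LinearMap.ker φ := by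
        rw [Submodule.span_le]
        rintro _ ⟨_, ⟨i, rfl⟩, rfl⟩
        exact h0 i
      have h4 := h3 hcon
      rw [LinearMap.mem_ker, h] at h4
      exact one_ne_zero h4
end

/-- the projective frame: `0`, the basis, and the sum of the basis -/
def pfr {K : Type} [Field K] {m : ℕ} (b : Fin m → K) : Option (Option (Fin m)) → K
  | none => 0
  | some none => ∑ i, b i
  | some (some i) => b i

theorem pfr_sum {K : Type} [Field K] [Algebra (ZMod 2) K] {m : ℕ} (b : Fin m → K)
    (hb : LinearIndependent (ZMod 2) b) (B : Finset (Option (Option (Fin m))))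
    (h : ∑ i ∈ B, pfr b i = 0) : B ⊆ {none} ∨ Finset.univ.erase none ⊆ B := by
  classical
  let B1 : Finset (Fin m) := Finset.univ.filter (fun i => some (some i) ∈ B)
  have hli := (li_iff b Set.univ).mp (by rw [linearIndepOn_univ_iff]; exact hb)
  have hsplit : ∑ i ∈ B, pfr b i = (if some none ∈ B then ∑ i, b i else 0) + ∑ i ∈ B1, b i := by
    have h1 : ∑ i ∈ B, pfr b i = ∑ i : Option (Option (Fin m)), if i ∈ B then pfr b i else 0 := by
      rw [← Finset.sum_filter]
      congr 1
      ext x; simp
    rw [h1, Fintype.sum_option, Fintype.sum_option]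
    have h2 : (if (none : Option (Option (Fin m))) ∈ B then pfr b none else 0) = 0 := by
      split_ifs <;> rfl
    rw [h2, zero_add]
    congr 1
    rw [Finset.sum_filter]
    rfl
  rw [hsplit] at h
  by_cases hs : some none ∈ B
  · right
    rw [if_pos hs] at h
    have h3 : ∑ i ∈ B1ᶜ, b i = 0 := by
      have h4 := Finset.sum_add_sum_compl B1 b
      rw [← h4] at h
      have h5 := two_zero (∑ i ∈ B1, b i)
      calc ∑ i ∈ B1ᶜ, b i = (∑ i ∈ B1, b i + ∑ i ∈ B1ᶜ, b i + ∑ i ∈ B1, b i) -
            (∑ i ∈ B1, b i + ∑ i ∈ B1, b i) := by ring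
        _ = 0 := by rw [h, h5, sub_zero]
    have h6 := hli _ (Set.subset_univ _) h3
    have h7 : B1 = Finset.univ := by
      rw [← compl_compl B1, h6]; simp
    intro x hx
    rcases x with _ | _ | i
    · simp at hx
    · exact hs
    · have : i ∈ B1 := by rw [h7]; exact Finset.mem_univ i
      exact (Finset.mem_filter.mp this).2
  · left
    rw [if_neg hs, zero_add] at h
    have h6 := hli _ (Set.subset_univ _) h
    intro x hx
    rcases x with _ | _ | i
    · simp
    · exact absurd hx hs
    · exfalso
      have : i ∈ B1 := Finset.mem_filter.mpr ⟨Finset.mem_univ i, hx⟩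
      rw [h6] at this
      exact absurd this (Finset.notMem_empty i)

/-- sums of `(t p_i + q, x1, x2)` -/
theorem sumchar {K : Type} [Field K] [Algebra (ZMod 2) K] {m : ℕ} (hm : Even m) (b : Fin m → K)
    (hb : LinearIndependent (ZMod 2) b) (t q : K) (ht : t ≠ 0) (x1 x2 : ZMod 2)
    (hx : x1 = 1 ∨ x2 = 1) (B : Finset (Option (Option (Fin m)))) :
    ∑ i ∈ B, ((t * pfr b i + q, x1, x2) : K × ZMod 2 × ZMod 2) = 0 ↔
      (B = ∅ ∨ B = Finset.univ) := by
  classical
  haveI : CharP K 2 := charP_of_injective_algebraMap (algebraMap (ZMod 2) K).injective 2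
  have hfst : (∑ i ∈ B, ((t * pfr b i + q, x1, x2) : K × ZMod 2 × ZMod 2)).1 =
      t * ∑ i ∈ B, pfr b i + (B.card : K) * q := by
    rw [Prod.fst_sum]
    simp only
    rw [Finset.sum_add_distrib, ← Finset.mul_sum, Finset.sum_const, nsmul_eq_mul]
  have hs1 : (∑ i ∈ B, ((t * pfr b i + q, x1, x2) : K × ZMod 2 × ZMod 2)).2.1 =
      (B.card : ZMod 2) * x1 := by
    rw [Prod.snd_sum, Prod.fst_sum]
    simp
  have hs2 : (∑ i ∈ B, ((t * pfr b i + q, x1, x2) : K × ZMod 2 × ZMod 2)).2.2 =
      (B.card : ZMod 2) * x2 := by
    rw [Prod.snd_sum, Prod.snd_sum]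
    simp
  constructor
  · intro h
    have hev : Even B.card := by
      rw [← ZMod.natCast_eq_zero_iff_even]
      rcases hx with hx | hx
      · rw [h, hx, mul_one] at hs1
        exact hs1.symm
      · rw [h, hx, mul_one] at hs2
        exact hs2.symm
    have hK : (B.card : K) = 0 := by
      rw [CharP.cast_eq_zero_iff K 2]
      exact hev.two_dvd
    rw [h, hK, zero_mul, add_zero] at hfst
    have h0 : ∑ i ∈ B, pfr b i = 0 := by
      rcases mul_eq_zero.mp hfst.symm with h' | h'
      · exact absurd h' ht
      · exact h'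
    rcases pfr_sum b hb B h0 with h1 | h1
    · left
      rcases Finset.subset_singleton_iff.mp h1 with h2 | h2
      · exact h2
      · rw [h2] at hev
        simp at hev
    · right
      by_contra hne
      have h2 : none ∉ B := by
        intro hn
        apply hne
        rw [Finset.eq_univ_iff_forall]
        intro x
        by_cases hx : x = none
        · rw [hx]; exact hn
        · exact h1 (Finset.mem_erase.mpr ⟨hx, Finset.mem_univ x⟩)
      have h3 : B = Finset.univ.erase none := by
        apply Finset.Subset.antisymm _ h1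
        intro x hx
        refine Finset.mem_erase.mpr ⟨?_, Finset.mem_univ x⟩
        rintro rfl
        exact h2 hx
      rw [h3, Finset.card_erase_of_mem (Finset.mem_univ _), Finset.card_univ, Fintype.card_option,
        Fintype.card_option, Fintype.card_fin] at hev
      have : m + 1 + 1 - 1 = m + 1 := rfl
      rw [this] at hev
      rw [Nat.even_add_one] at hev
      exact hev hm
  · rintro (h | h)
    · rw [h]; simp
    · have hc : B.card = m + 2 := by
        rw [h, Finset.card_univ, Fintype.card_option, Fintype.card_option, Fintype.card_fin]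
      have hev : Even B.card := by
        rw [hc]; exact hm.add (by norm_num)
      have hK : (B.card : K) = 0 := by
        rw [CharP.cast_eq_zero_iff K 2]
        exact hev.two_dvd
      have h2 : (B.card : ZMod 2) = 0 := ZMod.natCast_eq_zero_iff_even.mpr hev
      have hp : ∑ i ∈ B, pfr b i = 0 := by
        rw [h, Fintype.sum_option, Fintype.sum_option]
        show (0 : K) + (∑ i, b i + ∑ i, b i) = 0
        rw [zero_add]
        exact two_zero _
      rw [hp, hK] at hfst
      rw [h2] at hs1 hs2
      apply Prod.ext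
      · rw [hfst]; simp
      · apply Prod.ext
        · rw [hs1]; simp
        · rw [hs2]; simp

end Pool.Agent.H20.Config
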