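import Mathlib
import Pool.Agent.H20.ConfigA

set_option autoImplicit false

open Set

namespace Pool.Agent.H20.Config

open Pool.Agent.H20.Relax Pool.Agent.H20.RM


/-- the Reed-Muller vectors transported to `K × F_2 × F_2` -/
theorem exists_kappa {K : Type} [Field K] [Algebra (ZMod 2) K] [FiniteDimensional (ZMod 2) K]
    (a : ℕ) (I : Finset ℕ) (hK : Module.finrank (ZMod 2) K + 1 = rk a I.powerset) :
    ∃ κ : Finset ℕ → K, ∀ X : Finset (Finset ℕ), X ⊆ I.powerset →
      Module.finrank (ZMod 2) (Submodule.span (ZMod 2)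
        ((fun x => ((κ x, 1, 1) : K × ZMod 2 × ZMod 2)) '' (X : Set (Finset ℕ)))) = rk a X := by
  classical
  let R : Submodule (ZMod 2) (Finset ℕ → ZMod 2) :=
    Submodule.span (ZMod 2) (rmv a '' (I.powerset : Set (Finset ℕ)))
  haveI : FiniteDimensional (ZMod 2) R := FiniteDimensional.span_of_finite _ (Set.toFinite _)
  have hR : Module.finrank (ZMod 2) R = rk a I.powerset := rfl
  let ε : R →ₗ[ZMod 2] ZMod 2 := (LinearMap.proj (∅ : Finset ℕ)).comp R.subtype
  have hmem : ∀ x ∈ I.powerset, rmv a x ∈ R := fun x hx => Submodule.subset_span ⟨x, hx, rfl⟩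
  have hε : ∀ x (hx : x ∈ I.powerset), ε ⟨rmv a x, hmem x hx⟩ = 1 := by
    intro x hx
    show rmv a x ∅ = 1
    simp [rmv]
  have h0 : (∅ : Finset ℕ) ∈ I.powerset := Finset.empty_mem_powerset I
  let f0 : R := ⟨rmv a ∅, hmem ∅ h0⟩
  have hf0 : ε f0 = 1 := hε ∅ h0
  have hsurj : LinearMap.range ε = ⊤ := by
    rw [LinearMap.range_eq_top]
    intro y
    exact ⟨y • f0, by rw [map_smul, hf0]; simp⟩
  have hker : Module.finrank (ZMod 2) (LinearMap.ker ε) = Module.finrank (ZMod 2) K := by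
    have h1 := LinearMap.finrank_range_add_finrank_ker ε
    rw [hsurj, finrank_top, Module.finrank_self, hR] at h1
    omega
  let κ0 : LinearMap.ker ε ≃ₗ[ZMod 2] K := LinearEquiv.ofFinrankEq _ _ hker
  let A : R →ₗ[ZMod 2] LinearMap.ker ε :=
    LinearMap.codRestrict (LinearMap.ker ε) (LinearMap.id - ε.smulRight f0) (by
      intro g
      rw [LinearMap.mem_ker, LinearMap.sub_apply, map_sub, LinearMap.smulRight_apply, map_smul,
        hf0]
      simp)
  let κl : R →ₗ[ZMod 2] K := κ0.toLinearMap.comp A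
  let J : R →ₗ[ZMod 2] (K × ZMod 2 × ZMod 2) := κl.prod (ε.prod ε)
  have hJinj : Function.Injective J := by
    rw [← LinearMap.ker_eq_bot, LinearMap.ker_eq_bot']
    intro g hg
    have h1 : κl g = 0 := congrArg Prod.fst hg
    have h2 : ε g = 0 := congrArg (fun z => z.2.1) hg
    have h3 : A g = 0 := by
      have : κ0 (A g) = 0 := h1
      exact (LinearEquiv.map_eq_zero_iff κ0).mp this
    have h4 : ((A g : LinearMap.ker ε) : R) = g - ε g • f0 := rfl
    rw [h3, h2, zero_smul, sub_zero] at h4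
    exact h4.symm
  refine ⟨fun x => if hx : x ∈ I.powerset then κl ⟨rmv a x, hmem x hx⟩ else 0, ?_⟩
  intro X hX
  -- span of image
  let Y : Set R := (fun x : X => (⟨rmv a x, hmem x (hX x.2)⟩ : R)) '' Set.univ
  have hY1 : (fun x => ((if hx : x ∈ I.powerset then κl ⟨rmv a x, hmem x hx⟩ else 0, 1, 1) :
      K × ZMod 2 × ZMod 2)) '' (X : Set (Finset ℕ)) = J '' Y := by
    ext z
    constructor
    · rintro ⟨x, hx, rfl⟩
      refine ⟨⟨rmv a x, hmem x (hX hx)⟩, ⟨⟨x, hx⟩, Set.mem_univ _, rfl⟩, ?_⟩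
      simp only [dif_pos (hX hx)]
      show (κl _, ε _, ε _) = _
      rw [hε x (hX hx)]
    · rintro ⟨_, ⟨⟨x, hx⟩, _, rfl⟩, rfl⟩
      refine ⟨x, hx, ?_⟩
      simp only [dif_pos (hX hx)]
      show _ = (κl _, ε _, ε _)
      rw [hε x (hX hx)]
  have hY2 : R.subtype '' Y = rmv a '' (X : Set (Finset ℕ)) := by
    ext z
    constructor
    · rintro ⟨_, ⟨⟨x, hx⟩, _, rfl⟩, rfl⟩
      exact ⟨x, hx, rfl⟩
    · rintro ⟨x, hx, rfl⟩
      exact ⟨⟨rmv a x, hmem x (hX hx)⟩, ⟨⟨x, hx⟩, Set.mem_univ _, rfl⟩, rfl⟩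
  rw [hY1, ← Submodule.map_span, rk, ← hY2, ← Submodule.map_span]
  rw [← (Submodule.equivMapOfInjective J hJinj _).finrank_eq,
    ← (Submodule.equivMapOfInjective R.subtype R.injective_subtype _).finrank_eq]

end Pool.Agent.H20.Config
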