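import Mathlib
import Pool.Agent.H20.ConfigB

set_option autoImplicit false

open Set

namespace Pool.Agent.H20.Config

open Pool.Agent.H20.Relax Pool.Agent.H20.RM

abbrev Fn (n : ℕ) : Type := {x : Finset ℕ // x ∈ (Finset.range n).powerset}
abbrev Io (m : ℕ) : Type := Option (Option (Fin m))
abbrev E0 (n m : ℕ) : Type := Fn n ⊕ (Io m ⊕ Io m)
abbrev EE (n m : ℕ) : Type := Option (E0 n m)
abbrev WW (K : Type) : Type := K × ZMod 2 × ZMod 2

variable {K : Type} [Field K] [Algebra (ZMod 2) K] {n m : ℕ}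

/-- the vectors: Reed-Muller part, first circuit, second circuit -/
def v0 (κ : Finset ℕ → K) (b : Fin m → K) (t p s q : K) : E0 n m → WW K
  | Sum.inl x => (κ x, 1, 1)
  | Sum.inr (Sum.inl i) => (t * pfr b i + p, 0, 1)
  | Sum.inr (Sum.inr i) => (s * pfr b i + q, 1, 0)

/-- one further vector, the sum of the vectors in `T0` -/
def vv (κ : Finset ℕ → K) (b : Fin m → K) (t p s q : K) (T0 : Finset (E0 n m)) :
    EE n m → WW K
  | none => ∑ e ∈ T0, v0 κ b t p s q e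
  | some e => v0 κ b t p s q e

def αα (K : Type) [Field K] [Algebra (ZMod 2) K] : WW K →ₗ[ZMod 2] ZMod 2 :=
  (LinearMap.fst (ZMod 2) (ZMod 2) (ZMod 2)).comp (LinearMap.snd (ZMod 2) K (ZMod 2 × ZMod 2))
def ββ (K : Type) [Field K] [Algebra (ZMod 2) K] : WW K →ₗ[ZMod 2] ZMod 2 :=
  (LinearMap.snd (ZMod 2) (ZMod 2) (ZMod 2)).comp (LinearMap.snd (ZMod 2) K (ZMod 2 × ZMod 2))

/-- the two circuit-hyperplanes -/
def cC (n m : ℕ) : Io m → EE n m := fun i => some (Sum.inr (Sum.inl i))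
def cD (n m : ℕ) : Io m → EE n m := fun i => some (Sum.inr (Sum.inr i))

/-- all hypotheses on the parameters -/
structure Par (k a n m : ℕ) (κ : Finset ℕ → K) (b : Fin m → K) (t p s q : K)
    (T0 : Finset (E0 n m)) : Prop where
  hk : 1 ≤ k
  ha : 2 * k + 1 ≤ a
  hn : 4 * k + a + 4 ≤ n
  hm : Even m
  hrk : rk a (Finset.range n).powerset = m + 1
  hkm : 2 * k + 2 < m
  hfin : Module.finrank (ZMod 2) K = m
  hb : LinearIndependent (ZMod 2) b
  hκ : ∀ X : Finset (Finset ℕ), X ⊆ (Finset.range n).powerset →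
      Module.finrank (ZMod 2) (Submodule.span (ZMod 2)
        ((fun x => ((κ x, 1, 1) : WW K)) '' (X : Set (Finset ℕ)))) = rk a X
  ht : t ≠ 0
  hs : s ≠ 0
  hpar : ∀ (A : Finset (Fn n)) (B D : Finset (Io m)), A.card ≤ 2 * k → B.card ≤ 2 * k →
      D.card ≤ 2 * k → (∑ i ∈ B, pfr b i ≠ 0 ∨ ∑ i ∈ D, pfr b i ≠ 0 ∨ Odd B.card ∨ Odd D.card) →
      ∑ x ∈ A, κ x + ∑ i ∈ B, (t * pfr b i + p) + ∑ i ∈ D, (s * pfr b i + q) ≠ 0
  hT0 : T0.card = k - 1
  hT0' : T0 = ∅ ∨ (αα K (∑ e ∈ T0, v0 κ b t p s q e) = 1 ∧ ββ K (∑ e ∈ T0, v0 κ b t p s q e) = 1)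

end Pool.Agent.H20.Config
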