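import Mathlib
import Pool.Agent.H20.ConfigC

set_option autoImplicit false

open Set

namespace Pool.Agent.H20.Config

open Pool.Agent.H20.Relax Pool.Agent.H20.RM

variable {K : Type} [Field K] [Algebra (ZMod 2) K] {k a n m : ℕ} {κ : Finset ℕ → K}
  {b : Fin m → K} {t p s q : K} {T0 : Finset (E0 n m)}

theorem rk_mono' {a : ℕ} {X Y : Finset (Finset ℕ)} (h : X ⊆ Y) : rk a X ≤ rk a Y :=
  rk_mono_of fun x hx => Submodule.subset_span ⟨x, h hx, rfl⟩

theorem rk_small {k a n : ℕ} (ha : 2 * k ≤ a) (hn : 4 * k + a + 4 ≤ n) (X : Finset (Finset ℕ))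
    (hX : X ⊆ (Finset.range n).powerset) (hc : X.card ≤ 2 * k) : X.card ≤ rk a X := by
  have h1 : ((Finset.range n).powerset \ X).card = 2 ^ n - X.card := by
    rw [Finset.card_sdiff_of_subset hX, Finset.card_powerset, Finset.card_range]
  have h2 : n < 2 ^ n := Nat.lt_two_pow_self
  have h3 := rm_conn X.card a (Finset.range n) (by omega) (by rw [Finset.card_range]; omega) X hX
    le_rfl (by rw [h1]; omega)
  have h4 : rk a ((Finset.range n).powerset \ X) ≤ rk a (Finset.range n).powerset :=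
    rk_mono' Finset.sdiff_subset
  omega

theorem pfr_zero {m : ℕ} (b : Fin m → K) (hb : LinearIndependent (ZMod 2) b)
    (B : Finset (Io m)) (hc : B.card < m + 1) (hev : ¬ Odd B.card) (h : ∑ i ∈ B, pfr b i = 0) :
    B = ∅ := by
  classical
  rcases pfr_sum b hb B h with h1 | h1
  · rcases Finset.subset_singleton_iff.mp h1 with h2 | h2
    · exact h2
    · rw [h2] at hev
      exact absurd (by simp) hev
  · exfalso
    have h2 := Finset.card_le_card h1
    rw [Finset.card_erase_of_mem (Finset.mem_univ _), Finset.card_univ, Fintype.card_option,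
      Fintype.card_option, Fintype.card_fin] at h2
    omega

theorem girth0 (h : Par k a n m κ b t p s q T0) (T : Finset (E0 n m)) (hT : T.card ≤ 2 * k)
    (h0 : ∑ e ∈ T, v0 κ b t p s q e = 0) : T = ∅ := by
  classical
  obtain ⟨A, hA⟩ : ∃ A, A = T.toLeft := ⟨_, rfl⟩
  obtain ⟨B, hB⟩ : ∃ B, B = T.toRight.toLeft := ⟨_, rfl⟩
  obtain ⟨D, hD⟩ : ∃ D, D = T.toRight.toRight := ⟨_, rfl⟩
  have e1 : T = A.disjSum (B.disjSum D) := by
    rw [hA, hB, hD, Finset.toLeft_disjSum_toRight, Finset.toLeft_disjSum_toRight]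
  have hcard : A.card + (B.card + D.card) ≤ 2 * k := by
    rw [e1, Finset.card_disjSum, Finset.card_disjSum] at hT
    exact hT
  rw [e1, Finset.sum_disjSum, Finset.sum_disjSum] at h0
  have hfst := congrArg Prod.fst h0
  rw [Prod.fst_add, Prod.fst_add, Prod.fst_sum, Prod.fst_sum, Prod.fst_sum] at hfst
  have hfst' : ∑ x ∈ A, κ x + ∑ i ∈ B, (t * pfr b i + p) + ∑ i ∈ D, (s * pfr b i + q) = 0 := by
    rw [add_assoc]; exact hfst
  have hnot : ¬ (∑ i ∈ B, pfr b i ≠ 0 ∨ ∑ i ∈ D, pfr b i ≠ 0 ∨ Odd B.card ∨ Odd D.card) :=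
    fun hh => h.hpar A B D (by omega) (by omega) (by omega) hh hfst'
  push Not at hnot
  obtain ⟨n1, n2, n3, n4⟩ := hnot
  have hkm := h.hkm
  have hB0 : B = ∅ := pfr_zero b h.hb B (by omega) (by simpa using n3) n1
  have hD0 : D = ∅ := pfr_zero b h.hb D (by omega) (by simpa using n4) n2
  rw [hB0, hD0, Finset.sum_empty, Finset.sum_empty, add_zero, add_zero] at h0
  -- the Reed–Muller part
  obtain ⟨X, hX⟩ : ∃ X : Finset (Finset ℕ), X = A.image Subtype.val := ⟨_, rfl⟩
  have hXsub : X ⊆ (Finset.range n).powerset := by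
    rw [hX]
    intro x hx
    obtain ⟨y, _, rfl⟩ := Finset.mem_image.1 hx
    exact y.2
  have hXcard : X.card = A.card := by
    rw [hX, Finset.card_image_of_injective _ Subtype.val_injective]
  have ha := h.ha
  have hrk : X.card ≤ rk a X := rk_small (k := k) (by omega) h.hn X hXsub (by omega)
  rw [← h.hκ X hXsub] at hrk
  have hli : LinearIndepOn (ZMod 2) (fun x => ((κ x, 1, 1) : WW K)) (X : Set (Finset ℕ)) := by
    have : LinearIndependent (ZMod 2) (fun x : X => ((κ x, 1, 1) : WW K)) := by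
      rw [linearIndependent_iff_card_le_finrank_span]
      have hr : Set.range (fun x : X => ((κ x, 1, 1) : WW K)) =
          (fun x => ((κ x, 1, 1) : WW K)) '' (X : Set (Finset ℕ)) := by
        ext w
        constructor
        · rintro ⟨x, rfl⟩; exact ⟨x.1, x.2, rfl⟩
        · rintro ⟨x, hx, rfl⟩; exact ⟨⟨x, hx⟩, rfl⟩
      rw [hr, Fintype.card_coe]
      exact hrk
    exact this
  have hX0 : X = ∅ := by
    apply (li_iff _ _).1 hli X (subset_refl _)
    rw [hX, Finset.sum_image (fun x _ y _ hxy => Subtype.ext hxy)]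
    exact h0
  have hA0 : A = ∅ := by
    rw [← Finset.card_eq_zero, ← hXcard, hX0, Finset.card_empty]
  rw [e1, hA0, hB0, hD0]
  rfl

theorem sum_symmDiff {E W : Type} [DecidableEq E] [AddCommGroup W] [Module (ZMod 2) W] (v : E → W)
    (S T : Finset E) : ∑ e ∈ symmDiff S T, v e = ∑ e ∈ S, v e + ∑ e ∈ T, v e := by
  have h1 : ∑ e ∈ S, v e = ∑ e ∈ S \ T, v e + ∑ e ∈ S ∩ T, v e := by
    rw [← Finset.sum_union (Finset.disjoint_sdiff_inter S T)]
    rw [Finset.sdiff_union_inter]
  have h2 : ∑ e ∈ T, v e = ∑ e ∈ T \ S, v e + ∑ e ∈ S ∩ T, v e := by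
    rw [Finset.inter_comm, ← Finset.sum_union (Finset.disjoint_sdiff_inter T S)]
    rw [Finset.sdiff_union_inter]
  have h3 : ∑ e ∈ symmDiff S T, v e = ∑ e ∈ S \ T, v e + ∑ e ∈ T \ S, v e := by
    rw [← Finset.sum_union disjoint_sdiff_sdiff]
    rfl
  have h4 := two_zero (∑ e ∈ S ∩ T, v e)
  rw [h1, h2, h3]
  calc ∑ e ∈ S \ T, v e + ∑ e ∈ T \ S, v e =
        ∑ e ∈ S \ T, v e + ∑ e ∈ T \ S, v e + (∑ e ∈ S ∩ T, v e + ∑ e ∈ S ∩ T, v e) := by
          rw [h4, add_zero]
    _ = _ := by abel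

theorem girth (h : Par k a n m κ b t p s q T0) (T : Finset (EE n m)) (hT : T.card ≤ k - 1)
    (h0 : ∑ e ∈ T, vv κ b t p s q T0 e = 0) : T = ∅ := by
  classical
  have hk := h.hk
  by_cases hn : none ∈ T
  · exfalso
    have e1 : T = Finset.insertNone T.eraseNone := by
      rw [Finset.insertNone_eraseNone]
      exact (Finset.insert_eq_of_mem hn).symm
    have hc : T.card = T.eraseNone.card + 1 := by
      conv_lhs => rw [e1]
      rw [Finset.card_insertNone]
    rw [e1, Finset.sum_insertNone] at h0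
    have h1 : ∑ e ∈ symmDiff T0 T.eraseNone, v0 κ b t p s q e = 0 := by
      rw [sum_symmDiff]
      exact h0
    have h2 : (symmDiff T0 T.eraseNone).card ≤ T0.card + T.eraseNone.card := by
      have : symmDiff T0 T.eraseNone = (T0 \ T.eraseNone) ∪ (T.eraseNone \ T0) := rfl
      rw [this]
      refine (Finset.card_union_le _ _).trans ?_
      exact Nat.add_le_add (Finset.card_le_card Finset.sdiff_subset)
        (Finset.card_le_card Finset.sdiff_subset)
    have hT0 := h.hT0
    have h3 := girth0 h _ (by omega) h1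
    have h4 : T0 = T.eraseNone := by
      have : symmDiff T0 T.eraseNone = ⊥ := h3
      exact symmDiff_eq_bot.1 this
    rw [h4] at hT0
    omega
  · have e1 : T = T.eraseNone.map Function.Embedding.some := by
      ext x
      rw [Finset.mem_map]
      constructor
      · intro hx
        rcases x with _ | x
        · exact absurd hx hn
        · exact ⟨x, Finset.mem_eraseNone.2 hx, rfl⟩
      · rintro ⟨y, hy, rfl⟩
        exact Finset.mem_eraseNone.1 hy
    have hc : T.card = T.eraseNone.card := by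
      conv_lhs => rw [e1]
      rw [Finset.card_map]
    rw [e1, Finset.sum_map] at h0
    have h3 := girth0 h T.eraseNone (by omega) h0
    rw [e1, h3]
    rfl

end Pool.Agent.H20.Config
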