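import Mathlib
import Pool.Agent.H20.ConfigC

set_option autoImplicit false

open Set

namespace Pool.Agent.H20.Config

open Pool.Agent.H20.Relax Pool.Agent.H20.RM


variable {K : Type} [Field K] [Algebra (ZMod 2) K] {k a n m : ℕ} {κ : Finset ℕ → K} {b : Fin m → K}
  {t p s q : K} {T0 : Finset (E0 n m)}

theorem mkB (h : Par k a n m κ b t p s q T0) (X : Finset (Finset ℕ))
    (hX : X ⊆ (Finset.range n).powerset) (hrk : rk a X = m + 1) :
    ∃ Bf : Set (EE n m), (∀ e ∈ Bf, ∃ x : Fn n, x.1 ∈ X ∧ e = some (Sum.inl x)) ∧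
      Bf.ncard = m + 1 ∧ LinearIndepOn (ZMod 2) (vv κ b t p s q T0) (insert (cC n m none) Bf) := by
  classical
  let S : Set (EE n m) := {e | ∃ x : Fn n, x.1 ∈ X ∧ e = some (Sum.inl x)}
  obtain ⟨B, hBS, _, hsp, hB⟩ := exists_linearIndepOn_extension (K := (ZMod 2)) (v := vv κ b t p s q T0)
    (linearIndepOn_empty (ZMod 2) _) (Set.empty_subset S)
  have hspan : Submodule.span (ZMod 2) (vv κ b t p s q T0 '' B) =
      Submodule.span (ZMod 2) (vv κ b t p s q T0 '' S) :=
    le_antisymm (Submodule.span_mono (Set.image_mono hBS)) (Submodule.span_le.mpr hsp)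
  have himg : vv κ b t p s q T0 '' S =
      (fun x => ((κ x, 1, 1) : WW K)) '' (X : Set (Finset ℕ)) := by
    ext y
    constructor
    · rintro ⟨_, ⟨x, hx, rfl⟩, rfl⟩
      exact ⟨x.1, hx, rfl⟩
    · rintro ⟨x, hx, rfl⟩
      exact ⟨some (Sum.inl ⟨x, hX hx⟩), ⟨⟨x, hX hx⟩, hx, rfl⟩, rfl⟩
  refine ⟨B, fun e he => hBS he, ?_, ?_⟩
  · rw [← fin_span hB, hspan, himg, h.hκ X hX, hrk]
  · apply hB.insert
    intro hcon
    have h1 : Submodule.span (ZMod 2) (vv κ b t p s q T0 '' B) ≤ LinearMap.ker (αα K + ββ K) := by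
      rw [Submodule.span_le]
      rintro _ ⟨e, he, rfl⟩
      obtain ⟨x, -, rfl⟩ := hBS he
      show (αα K + ββ K) (κ x.1, 1, 1) = 0
      show (1 : ZMod 2) + 1 = 0
      rfl
    have h2 := h1 hcon
    rw [LinearMap.mem_ker] at h2
    have h3 : (αα K + ββ K) (vv κ b t p s q T0 (cC n m none)) = (0 : ZMod 2) + 1 := rfl
    rw [h3, zero_add] at h2
    exact one_ne_zero h2

theorem rk_le_card (a : ℕ) (X : Finset (Finset ℕ)) : rk a X ≤ X.card := by
  classical
  unfold rk
  have h1 : (rmv a '' (X : Set (Finset ℕ))) = ((X.image (rmv a) : Finset (Finset ℕ → ZMod 2)) :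
      Set (Finset ℕ → ZMod 2)) := by simp
  rw [h1]
  exact (finrank_span_finset_le_card _).trans Finset.card_image_le

theorem big_sd {A B1 B2 : Set (EE n m)} (h1 : A ⊆ B1) (h2 : Disjoint A B2) (r : ℕ) (h3 : r < A.ncard) :
    r < (symmDiff B1 B2).ncard := by
  refine lt_of_lt_of_le h3 (Set.ncard_le_ncard ?_ (Set.toFinite _))
  intro x hx
  rw [Set.mem_symmDiff]
  exact Or.inl ⟨h1 hx, Set.disjoint_left.mp h2 hx⟩

theorem far (h : Par k a n m κ b t p s q T0) : ∃ B1 B2 : Set (EE n m),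
    LinearIndepOn (ZMod 2) (vv κ b t p s q T0) B1 ∧ LinearIndepOn (ZMod 2) (vv κ b t p s q T0) B2 ∧
    B1.ncard = m + 2 ∧ B2.ncard = m + 2 ∧ 2 < (symmDiff B1 (Set.range (cC n m))).ncard ∧
    2 < (symmDiff B1 (Set.range (cD n m))).ncard ∧ 2 < (symmDiff B2 (Set.range (cC n m))).ncard ∧
    2 < (symmDiff B2 (Set.range (cD n m))).ncard ∧ 4 < (symmDiff B1 B2).ncard := by
  classical
  have hk := h.hk
  have ha := h.ha
  have hn := h.hn
  have hkm := h.hkm
  obtain ⟨Bf1, hf1, hc1, hl1⟩ := mkB h _ (Finset.Subset.refl _) h.hrk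
  -- three elements
  have hR3 : 3 ≤ Bf1.ncard := by omega
  obtain ⟨T, hT, hTc⟩ := Set.exists_subset_card_eq hR3
  obtain ⟨e1, e2, e3, h12, h13, h23, rfl⟩ := Set.ncard_eq_three.mp hTc
  obtain ⟨x1, -, hx1⟩ := hf1 e1 (hT (by simp))
  obtain ⟨x2, -, hx2⟩ := hf1 e2 (hT (by simp))
  obtain ⟨x3, -, hx3⟩ := hf1 e3 (hT (by simp))
  have hx12 : x1.1 ≠ x2.1 := fun hh => h12 (by rw [hx1, hx2, Subtype.ext hh])
  have hx13 : x1.1 ≠ x3.1 := fun hh => h13 (by rw [hx1, hx3, Subtype.ext hh])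
  have hx23 : x2.1 ≠ x3.1 := fun hh => h23 (by rw [hx2, hx3, Subtype.ext hh])
  let X3 : Finset (Finset ℕ) := {x1.1, x2.1, x3.1}
  have hX3c : X3.card = 3 := Finset.card_eq_three.mpr ⟨_, _, _, hx12, hx13, hx23, rfl⟩
  have hX3s : X3 ⊆ (Finset.range n).powerset := by
    intro y hy
    simp only [X3, Finset.mem_insert, Finset.mem_singleton] at hy
    rcases hy with rfl | rfl | rfl
    · exact x1.2
    · exact x2.2
    · exact x3.2
  have hpc : ((Finset.range n).powerset \ X3).card = 2 ^ n - 3 := by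
    rw [Finset.card_sdiff_of_subset hX3s, Finset.card_powerset, Finset.card_range, hX3c]
  have h2n : 8 ≤ 2 ^ n := by
    calc 8 = 2 ^ 3 := by norm_num
      _ ≤ 2 ^ n := Nat.pow_le_pow_right (by norm_num) (by omega)
  have hrk2 : rk a ((Finset.range n).powerset \ X3) = m + 1 := by
    have h1 := rm_conn 3 a (Finset.range n) (by omega) (by rw [Finset.card_range]; omega) X3 hX3s
      (by rw [hX3c]) (by rw [hpc]; omega)
    have h2 := rk_le_card a X3
    rw [hX3c] at h2
    rw [h.hrk] at h1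
    have h3 : rk a ((Finset.range n).powerset \ X3) ≤ rk a (Finset.range n).powerset := by
      unfold rk
      haveI : FiniteDimensional (ZMod 2) (Submodule.span (ZMod 2)
        (rmv a '' ((Finset.range n).powerset : Set (Finset ℕ)))) :=
        FiniteDimensional.span_of_finite _ (Set.toFinite _)
      apply Submodule.finrank_mono
      apply Submodule.span_mono
      apply Set.image_mono
      exact_mod_cast Finset.sdiff_subset
    rw [h.hrk] at h3
    omega
  obtain ⟨Bf2, hf2, hc2, hl2⟩ := mkB h _ Finset.sdiff_subset hrk2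
  have hnot : ∀ (Bf : Set (EE n m)) (X : Finset (Finset ℕ)),
      (∀ e ∈ Bf, ∃ x : Fn n, x.1 ∈ X ∧ e = some (Sum.inl x)) →
      cC n m none ∉ Bf ∧ Disjoint Bf (Set.range (cC n m)) ∧ Disjoint Bf (Set.range (cD n m)) := by
    intro Bf X hf
    refine ⟨?_, ?_, ?_⟩
    · intro he
      obtain ⟨x, -, hx⟩ := hf _ he
      simp [cC] at hx
    · rw [Set.disjoint_left]
      rintro _ he ⟨i, rfl⟩
      obtain ⟨x, -, hx⟩ := hf _ he
      simp [cC] at hx
    · rw [Set.disjoint_left]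
      rintro _ he ⟨i, rfl⟩
      obtain ⟨x, -, hx⟩ := hf _ he
      simp [cD] at hx
  obtain ⟨n1, d1, d1'⟩ := hnot Bf1 _ hf1
  obtain ⟨n2, d2, d2'⟩ := hnot Bf2 _ hf2
  have hB1 : (insert (cC n m none) Bf1).ncard = m + 2 := by
    rw [Set.ncard_insert_of_notMem n1, hc1]
  have hB2 : (insert (cC n m none) Bf2).ncard = m + 2 := by
    rw [Set.ncard_insert_of_notMem n2, hc2]
  refine ⟨insert (cC n m none) Bf1, insert (cC n m none) Bf2, hl1, hl2, hB1, hB2,
    big_sd (Set.subset_insert _ _) d1 2 (by omega), big_sd (Set.subset_insert _ _) d1' 2 (by omega),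
    big_sd (Set.subset_insert _ _) d2 2 (by omega), big_sd (Set.subset_insert _ _) d2' 2 (by omega), ?_⟩
  -- the two bases are far apart
  have hsub : ({e1, e2, e3} : Set (EE n m)) ⊆ insert (cC n m none) Bf1 \ insert (cC n m none) Bf2 := by
    intro e he
    refine ⟨Or.inr (hT he), ?_⟩
    have hex : ∃ x : Fn n, x.1 ∈ X3 ∧ e = some (Sum.inl x) := by
      rcases he with rfl | rfl | rfl
      · exact ⟨x1, by simp [X3], hx1⟩
      · exact ⟨x2, by simp [X3], hx2⟩
      · exact ⟨x3, by simp [X3], hx3⟩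
    obtain ⟨x, hxX, rfl⟩ := hex
    rintro (hh | hh)
    · simp [cC] at hh
    · obtain ⟨y, hy, hxy⟩ := hf2 _ hh
      have : x = y := by
        have := Option.some_injective _ hxy
        exact Sum.inl_injective this
      subst this
      rw [Finset.mem_sdiff] at hy
      exact hy.2 hxX
  have hs3 : 3 ≤ (insert (cC n m none) Bf1 \ insert (cC n m none) Bf2).ncard := by
    rw [← hTc]
    exact Set.ncard_le_ncard hsub (Set.toFinite _)
  have e4 := Set.ncard_inter_add_ncard_sdiff_eq_ncard (insert (cC n m none) Bf1) (insert (cC n m none) Bf2)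
  have e5 := Set.ncard_inter_add_ncard_sdiff_eq_ncard (insert (cC n m none) Bf2) (insert (cC n m none) Bf1)
  rw [Set.inter_comm] at e5
  rw [Set.symmDiff_def, Set.ncard_union_eq (by
    rw [Set.disjoint_left]
    rintro x hx hy
    exact hx.2 hy.1)]
  omega

end Pool.Agent.H20.Config
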