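import Mathlib
import Pool.Agent.H20.ConfigC

set_option autoImplicit false

open Set

namespace Pool.Agent.H20.Config

open Pool.Agent.H20.Relax Pool.Agent.H20.RM


variable {K : Type} [Field K] [Algebra (ZMod 2) K] {k a n m : ℕ} {κ : Finset ℕ → K}
  {b : Fin m → K} {t p s q : K} {T0 : Finset (E0 n m)}

theorem cC_inj : Function.Injective (cC n m) := by
  intro i j h
  simpa [cC] using h

theorem cD_inj : Function.Injective (cD n m) := by
  intro i j h
  simpa [cD] using h

theorem vv_none_or (h : Par k a n m κ b t p s q T0) :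
    vv κ b t p s q T0 none = 0 ∨ (αα K (vv κ b t p s q T0 none) = 1 ∧
      ββ K (vv κ b t p s q T0 none) = 1) := by
  rcases h.hT0' with h1 | h1
  · left
    show ∑ e ∈ T0, v0 κ b t p s q e = 0
    rw [h1]; simp
  · exact Or.inr h1

theorem CH_C (h : Par k a n m κ b t p s q T0) :
    CH (vv κ b t p s q T0) (Set.range (cC n m)) (m + 2) := by
  have h1 := CH_of (vv κ b t p s q T0) (cC n m) cC_inj (αα K)
    (fun B => sumchar h.hm b h.hb t p h.ht 0 1 (Or.inr rfl) B) (fun i => rfl) (by
      intro y hy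
      rcases y with _ | x | i | i
      · rcases vv_none_or h with h1 | h1
        · exact Or.inl h1
        · exact Or.inr h1.1
      · exact Or.inr rfl
      · exact absurd ⟨i, rfl⟩ hy
      · exact Or.inr rfl)
  rwa [Fintype.card_option, Fintype.card_option, Fintype.card_fin] at h1

theorem CH_D (h : Par k a n m κ b t p s q T0) :
    CH (vv κ b t p s q T0) (Set.range (cD n m)) (m + 2) := by
  have h1 := CH_of (vv κ b t p s q T0) (cD n m) cD_inj (ββ K)
    (fun B => sumchar h.hm b h.hb s q h.hs 1 0 (Or.inl rfl) B) (fun i => rfl) (by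
      intro y hy
      rcases y with _ | x | i | i
      · rcases vv_none_or h with h1 | h1
        · exact Or.inl h1
        · exact Or.inr h1.2
      · exact Or.inr rfl
      · exact Or.inr rfl
      · exact absurd ⟨i, rfl⟩ hy)
  rwa [Fintype.card_option, Fintype.card_option, Fintype.card_fin] at h1

theorem dis_CD : Disjoint (Set.range (cC n m)) (Set.range (cD n m)) := by
  rw [Set.disjoint_left]
  rintro _ ⟨i, rfl⟩ ⟨j, hj⟩
  simp [cC, cD] at hj

theorem finrank_W (h : Par k a n m κ b t p s q T0) : Module.finrank (ZMod 2) (WW K) = m + 2 := by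
  have hfd : FiniteDimensional (ZMod 2) K := by
    apply FiniteDimensional.of_finrank_pos
    rw [h.hfin]
    have := h.hkm
    omega
  rw [Module.finrank_prod, Module.finrank_prod, h.hfin, Module.finrank_self]

theorem fd_W (h : Par k a n m κ b t p s q T0) : FiniteDimensional (ZMod 2) (WW K) := by
  apply FiniteDimensional.of_finrank_pos
  rw [finrank_W h]
  omega

open Classical in
/-- indices of the Reed-Muller elements in `X` -/
noncomputable def Xf (n m : ℕ) (X : Set (EE n m)) : Finset (Finset ℕ) :=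
  (Finset.range n).powerset.filter
    (fun x => ∃ hx : x ∈ (Finset.range n).powerset, (some (Sum.inl ⟨x, hx⟩) : EE n m) ∈ X)

theorem Xf_sub (X : Set (EE n m)) : Xf n m X ⊆ (Finset.range n).powerset := by
  classical
  intro x hx
  unfold Xf at hx
  exact (Finset.mem_filter.mp hx).1

theorem Xf_compl (X : Set (EE n m)) : Xf n m Xᶜ = (Finset.range n).powerset \ Xf n m X := by
  classical
  ext x
  unfold Xf
  simp only [Finset.mem_filter, Finset.mem_sdiff, Set.mem_compl_iff]
  constructor
  · rintro ⟨h1, h2, h3⟩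
    refine ⟨h1, ?_⟩
    rintro ⟨_, h4, h5⟩
    exact h3 h5
  · rintro ⟨h1, h2⟩
    refine ⟨h1, h1, fun h3 => h2 ⟨h1, h1, h3⟩⟩

theorem Xf_image (X : Set (EE n m)) (κ : Finset ℕ → K) (b : Fin m → K) (t p s q : K)
    (T0 : Finset (E0 n m)) :
    (fun x => ((κ x, 1, 1) : WW K)) '' (Xf n m X : Set (Finset ℕ)) ⊆ vv κ b t p s q T0 '' X := by
  classical
  rintro _ ⟨x, hx, rfl⟩
  have hx' : x ∈ Xf n m X := hx
  unfold Xf at hx'
  obtain ⟨h1, h2, h3⟩ := Finset.mem_filter.mp hx'
  exact ⟨_, h3, rfl⟩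

theorem rk_le_fin (h : Par k a n m κ b t p s q T0) (X : Set (EE n m)) :
    rk a (Xf n m X) ≤
      Module.finrank (ZMod 2) (Submodule.span (ZMod 2) (vv κ b t p s q T0 '' X)) := by
  have hfd := fd_W h
  rw [← h.hκ _ (Xf_sub X)]
  exact Submodule.finrank_mono (Submodule.span_mono (Xf_image X κ b t p s q T0))

theorem rk_lt_fin (h : Par k a n m κ b t p s q T0) (X : Set (EE n m)) (y : EE n m) (hy : y ∈ X)
    (hyCD : y ∈ Set.range (cC n m) ∪ Set.range (cD n m)) :
    rk a (Xf n m X) + 1 ≤
      Module.finrank (ZMod 2) (Submodule.span (ZMod 2) (vv κ b t p s q T0 '' X)) := by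
  have hfd := fd_W h
  rw [← h.hκ _ (Xf_sub X)]
  apply Submodule.finrank_lt_finrank_of_lt
  refine lt_of_le_of_ne (Submodule.span_mono (Xf_image X κ b t p s q T0)) ?_
  intro heq
  have h1 : vv κ b t p s q T0 y ∈ Submodule.span (ZMod 2)
      ((fun x => ((κ x, 1, 1) : WW K)) '' (Xf n m X : Set (Finset ℕ))) := by
    rw [heq]
    exact Submodule.subset_span ⟨y, hy, rfl⟩
  have h2 : Submodule.span (ZMod 2) ((fun x => ((κ x, 1, 1) : WW K)) '' (Xf n m X : Set (Finset ℕ))) ≤
      LinearMap.ker (αα K + ββ K) := by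
    rw [Submodule.span_le]
    rintro _ ⟨x, _, rfl⟩
    show (1 : ZMod 2) + 1 = 0
    decide
  have h3 := h2 h1
  rw [LinearMap.mem_ker] at h3
  rcases hyCD with ⟨i, rfl⟩ | ⟨i, rfl⟩
  · have h4 : (0 : ZMod 2) + 1 = 0 := h3
    revert h4; decide
  · have h4 : (1 : ZMod 2) + 0 = 0 := h3
    revert h4; decide

theorem full_fin (h : Par k a n m κ b t p s q T0) (X : Set (EE n m))
    (hX : Set.range (cC n m) ∪ Set.range (cD n m) ⊆ X) :
    m + 2 ≤ Module.finrank (ZMod 2) (Submodule.span (ZMod 2) (vv κ b t p s q T0 '' X)) := by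
  have hfd := fd_W h
  have hC := CH_C h
  have hD := CH_D h
  have hc0 : cC n m none ∈ Set.range (cC n m) := ⟨none, rfl⟩
  have hd0 : cD n m none ∈ Set.range (cD n m) := ⟨none, rfl⟩
  have hd1 : cD n m none ∉ Set.range (cC n m) := fun hh => Set.disjoint_left.mp dis_CD hh hd0
  have h1 := exch_Z hC _ hc0 _ hd1 (hD.ne_zero (by omega) hd0)
  have h2 := fin_span h1
  have h3 : (insert (cD n m none) (Set.range (cC n m) \ {cC n m none})).ncard = m + 2 := by
    rw [Set.ncard_insert_of_notMem (fun hh => hd1 hh.1), Set.ncard_sdiff_singleton_add_one hc0,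
      hC.c]
  rw [h3] at h2
  rw [← h2]
  apply Submodule.finrank_mono
  apply Submodule.span_mono
  apply Set.image_mono
  rintro x (rfl | hx)
  · exact hX (Or.inr hd0)
  · exact hX (Or.inl hx.1)

theorem small_fin (h : Par k a n m κ b t p s q T0)
    (girth : ∀ T : Finset (EE n m), T.card ≤ k - 1 → ∑ e ∈ T, vv κ b t p s q T0 e = 0 → T = ∅)
    (X : Set (EE n m)) (j : ℕ) (hj : j < k) (hjX : j ≤ X.ncard) :
    j ≤ Module.finrank (ZMod 2) (Submodule.span (ZMod 2) (vv κ b t p s q T0 '' X)) := by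
  classical
  have hfd := fd_W h
  obtain ⟨T, hTX, hT⟩ := Set.exists_subset_card_eq hjX
  have h1 : LinearIndepOn (ZMod 2) (vv κ b t p s q T0) T := by
    rw [li_iff]
    intro S hS h0
    apply girth S _ h0
    have h2 : (S : Set (EE n m)).ncard ≤ T.ncard := Set.ncard_le_ncard hS (Set.toFinite _)
    rw [Set.ncard_coe_finset, hT] at h2
    omega
  have h2 := fin_span h1
  rw [hT] at h2
  rw [← h2]
  exact Submodule.finrank_mono (Submodule.span_mono (Set.image_mono hTX))

theorem conn_aux (h : Par k a n m κ b t p s q T0)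
    (girth : ∀ T : Finset (EE n m), T.card ≤ k - 1 → ∑ e ∈ T, vv κ b t p s q T0 e = 0 → T = ∅)
    (j : ℕ) (hj : j < k) (X : Set (EE n m)) (hX : j ≤ X.ncard)
    (hsmall : (Xf n m X).card ≤ j) :
    m + 2 + j ≤ Module.finrank (ZMod 2) (Submodule.span (ZMod 2) (vv κ b t p s q T0 '' X)) +
      Module.finrank (ZMod 2) (Submodule.span (ZMod 2) (vv κ b t p s q T0 '' Xᶜ)) := by
  have hk := h.hk
  have ha := h.ha
  have hn := h.hn
  have hkm := h.hkm
  have hpow : ((Finset.range n).powerset).card = 2 ^ n := by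
    rw [Finset.card_powerset, Finset.card_range]
  have h2n : n < 2 ^ n := Nat.lt_two_pow_self
  have hcompl : rk a (Finset.range n).powerset ≤ rk a (Xf n m Xᶜ) := by
    rw [Xf_compl]
    have h1 := rm_conn (Xf n m X).card a (Finset.range n) (by omega)
      (by rw [Finset.card_range]; omega) (Xf n m X) (Xf_sub X) le_rfl (by
        rw [Finset.card_sdiff_of_subset (Xf_sub X), hpow]; omega)
    have h2 : rk a (Xf n m X) ≤ (Xf n m X).card := by
      classical
      unfold rk
      rw [← Finset.coe_image]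
      exact le_trans (finrank_span_finset_le_card _) Finset.card_image_le
    omega
  rw [h.hrk] at hcompl
  by_cases hCD : ∃ y ∈ Xᶜ, y ∈ Set.range (cC n m) ∪ Set.range (cD n m)
  · obtain ⟨y, hy, hyCD⟩ := hCD
    have h1 := rk_lt_fin h Xᶜ y hy hyCD
    have h2 := small_fin h girth X j hj hX
    omega
  · push Not at hCD
    have h1 : Set.range (cC n m) ∪ Set.range (cD n m) ⊆ X := by
      intro y hy
      by_contra hyX
      exact hCD y hyX hy
    have h2 := full_fin h X h1
    have h3 := rk_le_fin h Xᶜ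
    omega

theorem conn (h : Par k a n m κ b t p s q T0)
    (girth : ∀ T : Finset (EE n m), T.card ≤ k - 1 → ∑ e ∈ T, vv κ b t p s q T0 e = 0 → T = ∅)
    (j : ℕ) (hj : j < k) (X : Set (EE n m)) (hX : j ≤ X.ncard) (hX' : j ≤ Xᶜ.ncard) :
    m + 2 + j ≤ Module.finrank (ZMod 2) (Submodule.span (ZMod 2) (vv κ b t p s q T0 '' X)) +
      Module.finrank (ZMod 2) (Submodule.span (ZMod 2) (vv κ b t p s q T0 '' Xᶜ)) := by
  have hk := h.hk
  have ha := h.ha
  have hn := h.hn
  by_cases h1 : (Xf n m X).card ≤ j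
  · exact conn_aux h girth j hj X hX h1
  by_cases h2 : (Xf n m Xᶜ).card ≤ j
  · have h3 := conn_aux h girth j hj Xᶜ hX' h2
    rw [compl_compl] at h3
    omega
  · have h3 := rm_conn (j + 1) a (Finset.range n) (by omega)
      (by rw [Finset.card_range]; omega) (Xf n m X) (Xf_sub X) (by omega) (by
        rw [← Xf_compl]; omega)
    rw [← Xf_compl, h.hrk] at h3
    have h4 := rk_le_fin h X
    have h5 := rk_le_fin h Xᶜ
    omega

end Pool.Agent.H20.Config
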