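import Mathlib

set_option autoImplicit false

namespace Pool.Agent.H20.Num

theorem exists_params (k L : ℕ) (hk : 1 ≤ k) : ∃ n a : ℕ, 2*k+1 ≤ a ∧ 4*k+a+4 ≤ n ∧
    Odd (∑ j ∈ Finset.range (a+1), n.choose j) ∧ L < ∑ j ∈ Finset.range (a+1), n.choose j ∧
    (2^n+1)^(2*k) * (((∑ j ∈ Finset.range (a+1), n.choose j) + 2)^(2*k) *
      ((∑ j ∈ Finset.range (a+1), n.choose j) + 2)^(2*k)) + 1 <
      2^((∑ j ∈ Finset.range (a+1), n.choose j) - 1) := by
  obtain ⟨s, hs⟩ : ∃ s, s = 20 * k + L + 20 := ⟨_, rfl⟩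
  obtain ⟨n, hn⟩ : ∃ n, n = 2 ^ s := ⟨_, rfl⟩
  have hns : s < n := by rw [hn]; exact Nat.lt_two_pow_self
  obtain ⟨a, ha⟩ : ∃ a, a = 2 * k + 1 := ⟨_, rfl⟩
  have h0 : ∑ j ∈ Finset.range (a+1), n.choose j = 1 + ∑ j ∈ Finset.range a, n.choose (j + 1) := by
    rw [Finset.sum_range_succ', Nat.choose_zero_right, add_comm]
  have heven : Even (∑ j ∈ Finset.range a, n.choose (j + 1)) := by
    rw [even_iff_two_dvd]
    apply Finset.dvd_sum
    intro j hj
    rw [Finset.mem_range] at hj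
    rw [hn]
    apply Nat.Prime.dvd_choose_pow Nat.prime_two (by omega)
    rw [← hn]; omega
  have hodd : Odd (∑ j ∈ Finset.range (a+1), n.choose j) := by
    rw [h0, add_comm]; exact heven.add_one
  obtain ⟨S, hS⟩ : ∃ S, S = ∑ j ∈ Finset.range (a+1), n.choose j := ⟨_, rfl⟩
  have hle : S ≤ 2 ^ n := by
    rw [hS, ← Nat.sum_range_choose]
    apply Finset.sum_le_sum_of_subset
    apply Finset.range_subset_range.mpr
    omega
  have hge : n + n.choose 2 ≤ S := by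
    rw [hS]
    have h1 : ∑ j ∈ Finset.range 3, n.choose j ≤ ∑ j ∈ Finset.range (a+1), n.choose j := by
      apply Finset.sum_le_sum_of_subset
      apply Finset.range_subset_range.mpr
      omega
    have h2 : ∑ j ∈ Finset.range 3, n.choose j = 1 + n + n.choose 2 := by
      simp [Finset.sum_range_succ]
    omega
  have hc2 : n * (n - 1) = 2 * n.choose 2 := by
    rw [Nat.choose_two_right, Nat.mul_div_cancel' (Nat.even_mul_pred_self n).two_dvd]
  have hc3 : (12 * k + 12) * n ≤ 2 * n.choose 2 := by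
    rw [← hc2, mul_comm]
    exact Nat.mul_le_mul_left n (by omega)
  have hc4 : (12 * k + 12) * n = 2 * ((6 * k + 6) * n) := by ring
  have hc5 : (6 * k + 6) * n = 6 * k * n + 6 * n := by ring
  rw [← hS] at hodd
  refine ⟨n, a, by omega, by omega, by rw [← hS]; exact hodd, by rw [← hS]; omega, ?_⟩
  rw [← hS]
  have h1 : (2 ^ n + 1) ^ (2 * k) ≤ (2 ^ (n + 1)) ^ (2 * k) := by
    apply Nat.pow_le_pow_left
    rw [pow_succ]
    have := Nat.one_le_two_pow (n := n)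
    omega
  have h2 : (S + 2) ^ (2 * k) ≤ (2 ^ (n + 1)) ^ (2 * k) := by
    apply Nat.pow_le_pow_left
    rw [pow_succ]
    have : 2 ≤ 2 ^ n := by
      calc 2 = 2 ^ 1 := rfl
        _ ≤ 2 ^ n := Nat.pow_le_pow_right (by norm_num) (by omega)
    omega
  have h3 : (2^n+1)^(2*k) * ((S + 2)^(2*k) * (S + 2)^(2*k)) ≤ 2 ^ (6 * k * n + 6 * k) := by
    calc (2^n+1)^(2*k) * ((S + 2)^(2*k) * (S + 2)^(2*k)) ≤
        (2 ^ (n + 1)) ^ (2 * k) * ((2 ^ (n + 1)) ^ (2 * k) * (2 ^ (n + 1)) ^ (2 * k)) :=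
          Nat.mul_le_mul h1 (Nat.mul_le_mul h2 h2)
      _ = 2 ^ (6 * k * n + 6 * k) := by
          rw [← pow_mul, ← pow_add, ← pow_add]
          congr 1
          ring
  calc (2^n+1)^(2*k) * ((S + 2)^(2*k) * (S + 2)^(2*k)) + 1 ≤ 2 ^ (6 * k * n + 6 * k) + 1 := by omega
    _ < 2 ^ (6 * k * n + 6 * k) + 2 ^ (6 * k * n + 6 * k) := by
        have : 1 < 2 ^ (6 * k * n + 6 * k) := Nat.one_lt_two_pow (by omega)
        omega
    _ = 2 ^ (6 * k * n + 6 * k + 1) := by rw [pow_succ]; ring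
    _ ≤ 2 ^ (S - 1) := Nat.pow_le_pow_right (by norm_num) (by omega)

end Pool.Agent.H20.Num
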