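import Mathlib

set_option autoImplicit false

namespace Pool.Agent.H20.Params

open Finset

/-- small finsets -/
noncomputable def sm (X : Type) [Fintype X] (N : ℕ) : Finset (Finset X) := by
  classical
  exact Finset.univ.filter (fun A => A.card ≤ N)

lemma mem_sm {X : Type} [Fintype X] {N : ℕ} {A : Finset X} : A ∈ sm X N ↔ A.card ≤ N := by
  classical
  simp [sm]

lemma sm_card (X : Type) [Fintype X] (N : ℕ) : (sm X N).card ≤ (Fintype.card X + 1) ^ N := by
  classical
  have h1 : sm X N ⊆ (Finset.univ : Finset (Fin N → Option X)).image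
      (fun f => Finset.univ.filter (fun x => ∃ i, f i = some x)) := by
    intro A hA
    rw [mem_sm] at hA
    rw [Finset.mem_image]
    refine ⟨fun i => if h : i.val < A.card then some (A.equivFin.symm ⟨i.val, h⟩ : X) else none,
      Finset.mem_univ _, ?_⟩
    ext x
    rw [Finset.mem_filter]
    constructor
    · rintro ⟨-, i, hi⟩
      dsimp only at hi
      split_ifs at hi with h
      rw [Option.some.injEq] at hi
      rw [← hi]
      exact (A.equivFin.symm ⟨i.val, h⟩).2
    · intro hx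
      refine ⟨Finset.mem_univ _, ⟨(A.equivFin ⟨x, hx⟩).val, lt_of_lt_of_le (A.equivFin ⟨x, hx⟩).isLt hA⟩, ?_⟩
      dsimp only
      rw [dif_pos (A.equivFin ⟨x, hx⟩).isLt]
      simp
  calc (sm X N).card ≤ _ := Finset.card_le_card h1
    _ ≤ (Finset.univ : Finset (Fin N → Option X)).card := Finset.card_image_le
    _ = (Fintype.card X + 1) ^ N := by
        rw [Finset.card_univ, Fintype.card_fun, Fintype.card_option, Fintype.card_fin]

lemma avoid {K T : Type} [Field K] [Fintype K] (s : Finset T) (bad : T → K)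
    (h : s.card + 1 < Fintype.card K) : ∃ x : K, x ≠ 0 ∧ ∀ i ∈ s, x ≠ bad i := by
  classical
  have h1 : (insert 0 (s.image bad)).card < (Finset.univ : Finset K).card := by
    rw [Finset.card_univ]
    calc (insert 0 (s.image bad)).card ≤ (s.image bad).card + 1 := Finset.card_insert_le _ _
      _ ≤ s.card + 1 := Nat.add_le_add_right Finset.card_image_le 1
      _ < _ := h
  obtain ⟨x, -, hx⟩ := Finset.exists_mem_notMem_of_card_lt_card h1
  rw [Finset.mem_insert, not_or] at hx
  refine ⟨x, hx.1, fun i hi hxi => hx.2 ?_⟩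
  rw [Finset.mem_image]
  exact ⟨i, hi, hxi.symm⟩

theorem choose_params {K : Type} [Field K] [Fintype K] [CharP K 2] {F ι : Type} [Fintype F] [Fintype ι]
    (κ : F → K) (p : ι → K) (N : ℕ)
    (hbig : (Fintype.card F + 1)^N * ((Fintype.card ι + 1)^N * (Fintype.card ι + 1)^N) + 1 < Fintype.card K) :
    ∃ t s p' q' : K, t ≠ 0 ∧ s ≠ 0 ∧ ∀ (A : Finset F) (B D : Finset ι), A.card ≤ N → B.card ≤ N →
      D.card ≤ N → (∑ i ∈ B, p i ≠ 0 ∨ ∑ i ∈ D, p i ≠ 0 ∨ Odd B.card ∨ Odd D.card) →
      ∑ x ∈ A, κ x + ∑ i ∈ B, (t * p i + p') + ∑ i ∈ D, (s * p i + q') ≠ 0 := by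
  classical
  have hcast : ∀ (B : Finset ι) (t q : K), ∑ i ∈ B, (t * p i + q) = t * ∑ i ∈ B, p i +
      (if Odd B.card then q else 0) := by
    intro B t q
    rw [Finset.sum_add_distrib, ← Finset.mul_sum, Finset.sum_const, nsmul_eq_mul]
    congr 1
    split_ifs with h
    · have : ((B.card : ℕ) : K) = 1 := by
        obtain ⟨r, hr⟩ := h
        rw [hr]; push_cast
        rw [CharTwo.two_eq_zero]; ring
      rw [this, one_mul]
    · have : ((B.card : ℕ) : K) = 0 := by
        rw [Nat.not_odd_iff_even] at h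
        obtain ⟨r, hr⟩ := h
        rw [hr, ← two_mul]; push_cast
        rw [CharTwo.two_eq_zero]; ring
      rw [this, zero_mul]
  have c1 := sm_card F N
  have c2 := sm_card ι N
  have c3 : 1 ≤ (Fintype.card ι + 1) ^ N := Nat.one_le_pow _ _ (by omega)
  have hT : ((sm F N) ×ˢ ((sm ι N) ×ˢ (sm ι N))).card + 1 < Fintype.card K := by
    rw [Finset.card_product, Finset.card_product]
    refine lt_of_le_of_lt ?_ hbig
    exact Nat.add_le_add_right (Nat.mul_le_mul c1 (Nat.mul_le_mul c2 c2)) 1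
  have hT1 : ((sm F N) ×ˢ (sm ι N)).card + 1 < Fintype.card K := by
    rw [Finset.card_product]
    refine lt_of_le_of_lt ?_ hbig
    apply Nat.add_le_add_right
    refine Nat.mul_le_mul c1 (c2.trans ?_)
    exact Nat.le_mul_of_pos_left _ c3
  obtain ⟨t, ht0, ht⟩ := avoid ((sm F N) ×ˢ (sm ι N))
    (fun q => -(∑ x ∈ q.1, κ x) / (∑ i ∈ q.2, p i)) hT1
  obtain ⟨p', -, hp'⟩ := avoid ((sm F N) ×ˢ (sm ι N))
    (fun q => -(∑ x ∈ q.1, κ x + t * ∑ i ∈ q.2, p i)) hT1
  obtain ⟨s, hs0, hs⟩ := avoid ((sm F N) ×ˢ ((sm ι N) ×ˢ (sm ι N)))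
    (fun q => -(∑ x ∈ q.1, κ x + ∑ i ∈ q.2.1, (t * p i + p')) / (∑ i ∈ q.2.2, p i)) hT
  obtain ⟨q', -, hq'⟩ := avoid ((sm F N) ×ˢ ((sm ι N) ×ˢ (sm ι N)))
    (fun q => -(∑ x ∈ q.1, κ x + ∑ i ∈ q.2.1, (t * p i + p') + s * ∑ i ∈ q.2.2, p i)) hT
  refine ⟨t, s, p', q', ht0, hs0, ?_⟩
  intro A B D hA hB hD hcond hzero
  have hAm : A ∈ sm F N := mem_sm.mpr hA
  have hBm : B ∈ sm ι N := mem_sm.mpr hB
  have hDm : D ∈ sm ι N := mem_sm.mpr hD
  have hAB : (A, B) ∈ (sm F N) ×ˢ (sm ι N) := Finset.mem_product.mpr ⟨hAm, hBm⟩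
  have hABD : (A, B, D) ∈ (sm F N) ×ˢ ((sm ι N) ×ˢ (sm ι N)) :=
    Finset.mem_product.mpr ⟨hAm, Finset.mem_product.mpr ⟨hBm, hDm⟩⟩
  rw [hcast D] at hzero
  by_cases hDo : Odd D.card
  · rw [if_pos hDo] at hzero
    apply hq' _ hABD
    simp only
    linear_combination hzero
  · rw [if_neg hDo, add_zero] at hzero
    by_cases hDs : ∑ i ∈ D, p i = 0
    · rw [hDs, mul_zero, add_zero, hcast B] at hzero
      by_cases hBo : Odd B.card
      · rw [if_pos hBo] at hzero
        apply hp' _ hAB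
        simp only
        linear_combination hzero
      · rw [if_neg hBo, add_zero] at hzero
        have hBs : ∑ i ∈ B, p i ≠ 0 := by
          rcases hcond with h | h | h | h
          · exact h
          · exact absurd hDs h
          · exact absurd h hBo
          · exact absurd h hDo
        apply ht _ hAB
        simp only
        rw [eq_div_iff hBs]
        linear_combination hzero
    · apply hs _ hABD
      simp only
      rw [eq_div_iff hDs]
      linear_combination hzero

end Pool.Agent.H20.Params
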