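import Mathlib
import Pool.Agent.H20.ConfigC
import Pool.Agent.H20.Params
import Pool.Agent.H20.Num

set_option autoImplicit false

open Set

namespace Pool.Agent.H20.Config

open Pool.Agent.H20.Relax Pool.Agent.H20.RM

theorem T0_exists {K : Type} [Field K] [Algebra (ZMod 2) K] {n m : ℕ} (κ : Finset ℕ → K)
    (b : Fin m → K) (t p s q : K) (k : ℕ) (hk : 1 ≤ k) (hkn : k ≤ 2 ^ n) :
    ∃ T0 : Finset (E0 n m), T0.card = k - 1 ∧
      (T0 = ∅ ∨ (αα K (∑ e ∈ T0, v0 κ b t p s q e) = 1 ∧
        ββ K (∑ e ∈ T0, v0 κ b t p s q e) = 1)) := by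
  classical
  have hcard : (Finset.univ : Finset (Fn n)).card = 2 ^ n := by
    rw [Finset.card_univ, Fintype.card_coe, Finset.card_powerset, Finset.card_range]
  have hA : ∀ c ≤ 2 ^ n, ∃ A : Finset (Fn n), A.card = c := by
    intro c hc
    obtain ⟨A, _, hA⟩ := Finset.exists_subset_card_eq (show c ≤ (Finset.univ : Finset (Fn n)).card by
      rw [hcard]; exact hc)
    exact ⟨A, hA⟩
  have hsum : ∀ (A : Finset (Fn n)) (B : Finset (Io m)),
      αα K (∑ e ∈ A.disjSum (B.disjSum B), v0 κ b t p s q e) = (A.card + B.card : ℕ) ∧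
      ββ K (∑ e ∈ A.disjSum (B.disjSum B), v0 κ b t p s q e) = (A.card + B.card : ℕ) := by
    intro A B
    have h1 : ∀ x : Fn n, αα K (v0 (m := m) κ b t p s q (Sum.inl x)) = 1 := fun x => rfl
    have h2 : ∀ x : Io m, αα K (v0 (n := n) κ b t p s q (Sum.inr (Sum.inl x))) = 0 := fun x => rfl
    have h3 : ∀ x : Io m, αα K (v0 (n := n) κ b t p s q (Sum.inr (Sum.inr x))) = 1 := fun x => rfl
    have h1' : ∀ x : Fn n, ββ K (v0 (m := m) κ b t p s q (Sum.inl x)) = 1 := fun x => rfl
    have h2' : ∀ x : Io m, ββ K (v0 (n := n) κ b t p s q (Sum.inr (Sum.inl x))) = 1 := fun x => rfl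
    have h3' : ∀ x : Io m, ββ K (v0 (n := n) κ b t p s q (Sum.inr (Sum.inr x))) = 0 := fun x => rfl
    constructor
    · rw [map_sum, Finset.sum_disjSum, Finset.sum_disjSum]
      simp only [h1, h2, h3]
      simp
    · rw [map_sum, Finset.sum_disjSum, Finset.sum_disjSum]
      simp only [h1', h2', h3']
      simp
  rcases Nat.eq_or_lt_of_le hk with h1 | h1
  · refine ⟨∅, by rw [← h1]; rfl, Or.inl rfl⟩
  · rcases Nat.even_or_odd (k - 1) with he | ho
    · obtain ⟨A, hAc⟩ := hA (k - 3) (by omega)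
      have hk3 : 3 ≤ k := by
        rcases he with ⟨c, hc⟩
        omega
      refine ⟨A.disjSum (({none} : Finset (Io m)).disjSum {none}), ?_, Or.inr ?_⟩
      · rw [Finset.card_disjSum, Finset.card_disjSum, hAc, Finset.card_singleton]
        omega
      · obtain ⟨h4, h5⟩ := hsum A {none}
        rw [h4, h5, hAc, Finset.card_singleton]
        have h6 : (((k - 3 + 1 : ℕ)) : ZMod 2) = 1 := by
          rw [ZMod.natCast_eq_one_iff_odd]
          rcases he with ⟨c, hc⟩
          exact ⟨c - 1, by omega⟩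
        exact ⟨h6, h6⟩
    · obtain ⟨A, hAc⟩ := hA (k - 1) (by omega)
      refine ⟨A.disjSum ((∅ : Finset (Io m)).disjSum ∅), ?_, Or.inr ?_⟩
      · rw [Finset.card_disjSum, Finset.card_disjSum, hAc, Finset.card_empty]
        omega
      · obtain ⟨h4, h5⟩ := hsum A ∅
        rw [h4, h5, hAc, Finset.card_empty, add_zero]
        have h6 : (((k - 1 : ℕ)) : ZMod 2) = 1 := by
          rw [ZMod.natCast_eq_one_iff_odd]
          exact ho
        exact ⟨h6, h6⟩

theorem exists_par (k L : ℕ) (hk : 1 ≤ k) : ∃ (n m a : ℕ) (K : Type) (_ : Field K)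
    (_ : Algebra (ZMod 2) K) (κ : Finset ℕ → K) (b : Fin m → K) (t p s q : K)
    (T0 : Finset (E0 n m)), Par k a n m κ b t p s q T0 ∧ L < m := by
  classical
  obtain ⟨n, a, ha, hn, hodd, hL, hbig⟩ := Pool.Agent.H20.Num.exists_params k (L + 2 * k + 4) hk
  obtain ⟨ρ, hρ⟩ : ∃ ρ, ρ = ∑ j ∈ Finset.range (a + 1), n.choose j := ⟨_, rfl⟩
  rw [← hρ] at hodd hL hbig
  obtain ⟨m, hm⟩ : ∃ m, ρ = m + 1 := ⟨ρ - 1, by omega⟩
  rw [hm] at hodd hL hbig
  have hm0 : m ≠ 0 := by omega
  have heven : Even m := by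
    rcases Nat.even_or_odd m with h | h
    · exact h
    · exfalso
      have : Even (m + 1) := h.add_one
      exact (Nat.not_even_iff_odd.mpr hodd) this
  have hfin : Module.finrank (ZMod 2) (GaloisField 2 m) = m := GaloisField.finrank 2 hm0
  have hrk : rk a (Finset.range n).powerset = m + 1 := by
    rw [rm_total, Finset.card_range, ← hρ, hm]
  haveI : Fintype (GaloisField 2 m) := Fintype.ofFinite _
  have hcardK : Fintype.card (GaloisField 2 m) = 2 ^ m := by
    rw [← Nat.card_eq_fintype_card, GaloisField.card 2 m hm0]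
  obtain ⟨κ, hκ⟩ := exists_kappa (K := GaloisField 2 m) a (Finset.range n) (by rw [hfin, hrk])
  let bb := Module.finBasisOfFinrankEq (ZMod 2) (GaloisField 2 m) hfin
  let b : Fin m → GaloisField 2 m := bb
  have hb : LinearIndependent (ZMod 2) b := bb.linearIndependent
  have hFn : Fintype.card (Fn n) = 2 ^ n := by
    rw [Fintype.card_coe, Finset.card_powerset, Finset.card_range]
  have hIo : Fintype.card (Io m) = m + 2 := by
    rw [Fintype.card_option, Fintype.card_option, Fintype.card_fin]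
  haveI : CharP (GaloisField 2 m) 2 :=
    charP_of_injective_algebraMap (algebraMap (ZMod 2) (GaloisField 2 m)).injective 2
  obtain ⟨t, s, p, q, ht, hs, hpar⟩ := Pool.Agent.H20.Params.choose_params
    (K := GaloisField 2 m) (F := Fn n) (ι := Io m) (fun x => κ x.1) (pfr b) (2 * k) (by
      rw [hFn, hIo, hcardK]
      exact hbig)
  have h2n : n < 2 ^ n := Nat.lt_two_pow_self
  obtain ⟨T0, hT0, hT0'⟩ := T0_exists (n := n) κ b t p s q k hk (by omega)
  refine ⟨n, m, a, GaloisField 2 m, inferInstance, inferInstance, κ, b, t, p, s, q, T0, ?_, by omega⟩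
  exact {
    hk := hk
    ha := ha
    hn := hn
    hm := heven
    hrk := hrk
    hkm := by omega
    hfin := hfin
    hb := hb
    hκ := hκ
    ht := ht
    hs := hs
    hpar := hpar
    hT0 := hT0
    hT0' := hT0' }

end Pool.Agent.H20.Config
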