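import Mathlib
import Pool.Agent.H20.Relax3

set_option autoImplicit false

open Set

namespace Pool.Agent.H20.Relax

theorem no_U26 {E : Type} [Finite E] {W : Type} [AddCommGroup W] [Module (ZMod 2) W] {v : E → W}
    {C D : Set E} {r : ℕ} (h : Cfg v C D r) (M' : Matroid E) (hM : M' ≤m relaxM h)
    (hcard : M'.E.encard = 6) (hu : ∀ I ⊆ M'.E, (M'.Indep I ↔ I.encard ≤ 2)) : False := by
  classical
  obtain ⟨I, hdis, -, hkey⟩ := minor_key hM
  -- elements to be removed
  obtain ⟨c, hc⟩ : ∃ c : E, (C ∩ M'.E).Nonempty → c ∈ C ∩ M'.E := by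
    by_cases hne : (C ∩ M'.E).Nonempty
    · obtain ⟨c, hc⟩ := hne
      exact ⟨c, fun _ => hc⟩
    · have : M'.E.Nonempty := by
        rw [← Set.encard_pos, hcard]; norm_num
      obtain ⟨c, -⟩ := this
      exact ⟨c, fun h => absurd h hne⟩
  obtain ⟨d, hd⟩ : ∃ d : E, (D ∩ M'.E).Nonempty → d ∈ D ∩ M'.E := by
    by_cases hne : (D ∩ M'.E).Nonempty
    · obtain ⟨d, hd⟩ := hne
      exact ⟨d, fun _ => hd⟩
    · exact ⟨c, fun h => absurd h hne⟩
  have hZ : ∀ (Z P : Set E) (e : E), ((Z ∩ M'.E).Nonempty → e ∈ Z ∩ M'.E) → P ⊆ M'.E → e ∉ P →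
      P.Nonempty → P ∪ I ≠ Z := by
    intro Z P e he hP heP hPne hcon
    have h1 : Z ∩ M'.E = P := by
      rw [← hcon]
      ext x
      constructor
      · rintro ⟨hx | hx, hxE⟩
        · exact hx
        · exact absurd hx (Set.disjoint_left.mp hdis hxE)
      · intro hx
        exact ⟨Or.inl hx, hP hx⟩
    rw [h1] at he
    exact heP (he hPne)
  have hLI : ∀ P : Set E, P ⊆ M'.E → c ∉ P → d ∉ P → P.Nonempty →
      (LinearIndepOn (ZMod 2) v (P ∪ I) ↔ P.encard ≤ 2) := by
    intro P hP hcP hdP hne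
    rw [← hu P hP, hkey P hP, relaxM_indep]
    constructor
    · exact fun h => Or.inl h
    · rintro (h1 | h1 | h1)
      · exact h1
      · exact absurd h1 (hZ C P c hc hP hcP hne)
      · exact absurd h1 (hZ D P d hd hP hdP hne)
  -- four elements
  have hR : 4 ≤ (M'.E \ {c, d}).ncard := by
    have h1 : M'.E.ncard = 6 := by
      rw [Set.ncard_def, hcard]; rfl
    have h2 := Set.le_ncard_sdiff ({c, d} : Set E) M'.E
    have h3 : ({c, d} : Set E).ncard ≤ 2 := by
      have := Set.ncard_insert_le c {d}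
      rw [Set.ncard_singleton] at this
      omega
    omega
  obtain ⟨Q, hQ, hQc⟩ := Set.exists_subset_card_eq hR
  obtain ⟨x, y, z, t, hxy, hxz, hxt, hyz, hyt, hzt, rfl⟩ : ∃ x y z t : E, x ≠ y ∧ x ≠ z ∧ x ≠ t ∧ y ≠ z ∧
      y ≠ t ∧ z ≠ t ∧ Q = {x, y, z, t} := by
    have hfin : Q.Finite := Set.toFinite Q
    have h4 : hfin.toFinset.card = 4 := by
      rw [← Set.ncard_eq_toFinset_card Q hfin]; exact hQc
    rw [Finset.card_eq_succ] at h4
    obtain ⟨x, s, hxs, hs, hs3⟩ := h4
    obtain ⟨y, z, t, hyz, hyt, hzt, hst⟩ := Finset.card_eq_three.mp hs3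
    rw [hst] at hxs hs
    simp only [Finset.mem_insert, Finset.mem_singleton, not_or] at hxs
    refine ⟨x, y, z, t, hxs.1, hxs.2.1, hxs.2.2, hyz, hyt, hzt, ?_⟩
    have h5 : (hfin.toFinset : Set E) = Q := hfin.coe_toFinset
    rw [← h5, ← hs]
    simp
  have hmem : ∀ e ∈ ({x, y, z, t} : Set E), e ∈ M'.E ∧ e ≠ c ∧ e ≠ d := by
    intro e he
    have := hQ he
    refine ⟨this.1, fun h => this.2 (Or.inl h), fun h => this.2 (Or.inr h)⟩
  have hx := hmem x (by simp)
  have hy := hmem y (by simp)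
  have hz := hmem z (by simp)
  have ht := hmem t (by simp)
  -- the quotient
  have hI : LinearIndepOn (ZMod 2) v I := by
    have h1 := (hLI {x} (by simpa using hx.1) (by simpa using hx.2.1.symm) (by simpa using hx.2.2.symm)
      ⟨x, rfl⟩).mpr (by rw [Set.encard_singleton]; norm_num)
    exact h1.mono Set.subset_union_right
  set w : E → W ⧸ Submodule.span (ZMod 2) (v '' I) := (Submodule.span (ZMod 2) (v '' I)).mkQ ∘ v with hw
  have hq : ∀ P : Set E, P ⊆ M'.E → c ∉ P → d ∉ P → P.Nonempty →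
      (LinearIndepOn (ZMod 2) w P ↔ P.encard ≤ 2) := by
    intro P hP hcP hdP hne
    rw [← hLI P hP hcP hdP hne, Set.union_comm,
      linearIndepOn_union_iff_quotient (hdis.mono_left hP).symm, and_iff_right hI]
  have pair : ∀ p q : E, (p ∈ M'.E ∧ p ≠ c ∧ p ≠ d) → (q ∈ M'.E ∧ q ≠ c ∧ q ≠ d) → p ≠ q →
      LinearIndepOn (ZMod 2) w {p, q} := by
    intro p q hp hq' hpq
    refine (hq {p, q} ?_ ?_ ?_ ⟨p, Or.inl rfl⟩).mpr ?_
    · rintro e (rfl | rfl)
      · exact hp.1
      · exact hq'.1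
    · rintro (h | h)
      · exact hp.2.1 h.symm
      · exact hq'.2.1 h.symm
    · rintro (h | h)
      · exact hp.2.2 h.symm
      · exact hq'.2.2 h.symm
    · rw [Set.encard_pair hpq]
  have hne : ∀ p q : E, (p ∈ M'.E ∧ p ≠ c ∧ p ≠ d) → (q ∈ M'.E ∧ q ≠ c ∧ q ≠ d) → p ≠ q →
      w p ≠ w q := by
    intro p q hp hq' hpq hcon
    exact hpq ((pair p q hp hq' hpq).injOn (Or.inl rfl) (Or.inr rfl) hcon)
  have triple : ∀ p : E, (p ∈ M'.E ∧ p ≠ c ∧ p ≠ d) → p ≠ x → p ≠ y → w p = w x + w y := by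
    intro p hp hpx hpy
    have h1 : ¬ LinearIndepOn (ZMod 2) w {p, x, y} := by
      intro hcon
      have h2 := (hq {p, x, y} ?_ ?_ ?_ ⟨p, Or.inl rfl⟩).mp hcon
      · have h3 : ({p, x, y} : Set E).encard = 3 := by
          rw [Set.encard_eq_three]
          exact ⟨p, x, y, hpx, hpy, hxy, rfl⟩
        rw [h3] at h2
        norm_num at h2
      · rintro e (rfl | rfl | rfl)
        · exact hp.1
        · exact hx.1
        · exact hy.1
      · rintro (h | h | h)
        · exact hp.2.1 h.symm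
        · exact hx.2.1 h.symm
        · exact hy.2.1 h.symm
      · rintro (h | h | h)
        · exact hp.2.2 h.symm
        · exact hx.2.2 h.symm
        · exact hy.2.2 h.symm
    have h4 : w p ∈ Submodule.span (ZMod 2) (w '' {x, y}) := by
      by_contra hcon
      exact h1 ((pair x y hx hy hxy).insert hcon)
    rw [Set.image_pair, Submodule.mem_span_pair] at h4
    obtain ⟨a, b, hab⟩ := h4
    have hp0 : w p ≠ 0 := ne_zero_of_LI (pair p x hp hx hpx) (Or.inl rfl)
    rcases zmod2_cases a with ha | ha <;> rcases zmod2_cases b with hb | hb <;>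
      rw [ha, hb] at hab
    · simp only [zero_smul, add_zero] at hab
      exact absurd hab.symm hp0
    · simp only [zero_smul, zero_add, one_smul] at hab
      exact absurd hab.symm (hne p y hp hy hpy)
    · simp only [zero_smul, add_zero, one_smul] at hab
      exact absurd hab.symm (hne p x hp hx hpx)
    · simp only [one_smul] at hab
      exact hab.symm
  have e1 := triple z hz hxz.symm hyz.symm
  have e2 := triple t ht hxt.symm hyt.symm
  exact hne z t hz ht hzt (e1.trans e2.symm)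

end Pool.Agent.H20.Relax
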