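import Mathlib
import Pool.Agent.H20.Relax3

set_option autoImplicit false

open Set

namespace Pool.Agent.H20.Relax

/-- `M` has a `j`-separation -/
def HasSep {α : Type} (M : Matroid α) (j : ℕ) : Prop :=
  ∃ X Y : Set α, X ∪ Y = M.E ∧ Disjoint X Y ∧ (j : ℕ∞) ≤ X.encard ∧ (j : ℕ∞) ≤ Y.encard ∧
    M.eRk X + M.eRk Y + 1 ≤ M.eRank + j

/-- the Tutte connectivity of `M` is exactly `k` -/
def TutteConnEq {α : Type} (M : Matroid α) (k : ℕ) : Prop :=
  1 ≤ k ∧ HasSep M k ∧ ∀ j, 1 ≤ j → j < k → ¬ HasSep M j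

theorem tutte_of {E : Type} [Finite E] {W : Type} [AddCommGroup W] [Module (ZMod 2) W]
    {v : E → W} {C D : Set E} {r k : ℕ} (h : Cfg v C D r) (hk : 1 ≤ k)
    (hlow : ∀ j < k, ∀ X : Set E, j ≤ X.ncard → j ≤ Xᶜ.ncard → r + j ≤
      Module.finrank (ZMod 2) (Submodule.span (ZMod 2) (v '' X)) +
      Module.finrank (ZMod 2) (Submodule.span (ZMod 2) (v '' Xᶜ)))
    (X0 : Set E) (hX0 : X0.ncard = k) (hX0' : k ≤ X0ᶜ.ncard)
    (hdep : ¬ LinearIndepOn (ZMod 2) v X0) (hC : X0 ≠ C) (hD : X0 ≠ D) :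
    TutteConnEq (relaxM h) k := by
  refine ⟨hk, ?_, ?_⟩
  · refine ⟨X0, X0ᶜ, Set.union_compl_self X0, disjoint_compl_right, ?_, ?_, ?_⟩
    · rw [← Set.Finite.cast_ncard_eq (Set.toFinite X0), hX0]
    · rw [← Set.Finite.cast_ncard_eq (Set.toFinite X0ᶜ)]
      exact_mod_cast hX0'
    · have hni : ¬ (relaxM h).Indep X0 := by
        rw [relaxM_indep]
        rintro (h1 | h1 | h1)
        · exact hdep h1
        · exact hC h1
        · exact hD h1
      have h1 : (relaxM h).eRk X0 < X0.encard := by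
        apply Matroid.eRk_lt_encard_of_dep_of_finite (Set.toFinite _)
        exact ⟨hni, Set.subset_univ _⟩
      rw [← Set.Finite.cast_ncard_eq (Set.toFinite X0), hX0] at h1
      have h2 : (relaxM h).eRk X0 + 1 ≤ k := Order.add_one_le_of_lt h1
      have h3 := (relaxM h).eRk_le_eRank X0ᶜ
      calc (relaxM h).eRk X0 + (relaxM h).eRk X0ᶜ + 1
          = (relaxM h).eRk X0ᶜ + ((relaxM h).eRk X0 + 1) := by ring
        _ ≤ (relaxM h).eRank + k := add_le_add h3 h2
  · rintro j hj1 hjk ⟨X, Y, hXY, hdis, hX, hY, hsep⟩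
    have hYX : Y = Xᶜ := by
      rw [relaxM_E] at hXY
      ext x
      constructor
      · intro hxY hxX
        exact Set.disjoint_left.mp hdis hxX hxY
      · intro hx
        have : x ∈ X ∪ Y := by rw [hXY]; exact Set.mem_univ x
        rcases this with h1 | h1
        · exact absurd h1 hx
        · exact h1
    subst hYX
    rw [← Set.Finite.cast_ncard_eq (Set.toFinite X)] at hX
    rw [← Set.Finite.cast_ncard_eq (Set.toFinite Xᶜ)] at hY
    have h1 := hlow j hjk X (by exact_mod_cast hX) (by exact_mod_cast hY)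
    have h2 := le_relaxM_eRk h X
    have h3 := le_relaxM_eRk h Xᶜ
    rw [relaxM_eRank] at hsep
    have h4 := (add_le_add (add_le_add h2 h3) (le_refl (1 : ℕ∞))).trans hsep
    have h5 : Module.finrank (ZMod 2) (Submodule.span (ZMod 2) (v '' X)) +
      Module.finrank (ZMod 2) (Submodule.span (ZMod 2) (v '' Xᶜ)) + 1 ≤ r + j := by
      exact_mod_cast h4
    omega

end Pool.Agent.H20.Relax
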