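import Mathlib
import Pool.Agent.H20.Relax4
import Pool.Agent.H20.Relax5
import Pool.Agent.H20.ConfigD
import Pool.Agent.H20.ConfigE
import Pool.Agent.H20.ConfigF
import Pool.Agent.H20.ConfigG

set_option autoImplicit false

open Set

namespace Pool.Agent.H20.Config

open Pool.Agent.H20.Relax Pool.Agent.H20.RM


/-- `N` is a doubly relaxed binary matroid of rank `r` and Tutte connectivity `k` -/
def GoodM (k r : ℕ) (E : Type) (N : Matroid E) : Prop :=
  ∃ (_ : Finite E) (W : Type) (_ : AddCommGroup W) (_ : Module (ZMod 2) W) (v : E → W)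
    (C D : Set E) (h : Cfg v C D r), N = relaxM h ∧ TutteConnEq N k

section
variable {K : Type} [Field K] [Algebra (ZMod 2) K] {k a n m : ℕ} {κ : Finset ℕ → K}
  {b : Fin m → K} {t p s q : K} {T0 : Finset (E0 n m)}

theorem cfg_of (h : Par k a n m κ b t p s q T0) :
    Cfg (vv κ b t p s q T0) (Set.range (cC n m)) (Set.range (cD n m)) (m + 2) where
  fr := finrank_W h
  fd := fd_W h
  two := by omega
  dis := dis_CD
  hC := CH_C h
  hD := CH_D h
  far := far h

theorem tutte_par (h : Par k a n m κ b t p s q T0) : TutteConnEq (relaxM (cfg_of h)) k := by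
  classical
  have hk := h.hk
  have hkm := h.hkm
  have hc : (Finset.insertNone T0).card = k := by
    rw [Finset.card_insertNone, h.hT0]
    omega
  apply tutte_of (cfg_of h) h.hk (conn h (girth h)) (Finset.insertNone T0 : Finset (EE n m))
  · rw [Set.ncard_coe_finset, hc]
  · have h1 := Set.ncard_add_ncard_compl ((Finset.insertNone T0 : Finset (EE n m)) : Set (EE n m))
    rw [Set.ncard_coe_finset, hc] at h1
    have h2 : (Set.range (cC n m)).ncard ≤ Nat.card (EE n m) := by
      rw [← Set.ncard_univ]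
      exact Set.ncard_le_ncard (Set.subset_univ _) (Set.toFinite _)
    rw [(CH_C h).c] at h2
    omega
  · rw [li_iff]
    intro hh
    have h1 := hh (Finset.insertNone T0) (fun x hx => hx) (by
      rw [Finset.sum_insertNone]
      exact two_zero _)
    have h2 : (none : EE n m) ∈ Finset.insertNone T0 := Finset.none_mem_insertNone
    rw [h1] at h2
    exact absurd h2 (Finset.notMem_empty _)
  · intro hh
    have h2 : (none : EE n m) ∈ ((Finset.insertNone T0 : Finset (EE n m)) : Set (EE n m)) :=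
      Finset.none_mem_insertNone
    rw [hh] at h2
    obtain ⟨i, hi⟩ := h2
    simp [cC] at hi
  · intro hh
    have h2 : (none : EE n m) ∈ ((Finset.insertNone T0 : Finset (EE n m)) : Set (EE n m)) :=
      Finset.none_mem_insertNone
    rw [hh] at h2
    obtain ⟨i, hi⟩ := h2
    simp [cD] at hi
end

theorem exists_good (k L : ℕ) (hk : 1 ≤ k) : ∃ (r : ℕ) (E : Type) (N : Matroid E), L < r ∧
    GoodM k r E N := by
  obtain ⟨n, m, a, K, fK, aK, κ, b, t, p, s, q, T0, h, hL⟩ := exists_par k L hk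
  exact ⟨m + 2, EE n m, relaxM (cfg_of h), by omega, inferInstance, WW K, inferInstance,
    inferInstance, _, _, _, cfg_of h, rfl, tutte_par h⟩

theorem GoodM.fin {k r : ℕ} {E : Type} {N : Matroid E} (h : GoodM k r E N) : Finite E := h.1

theorem GoodM.univ {k r : ℕ} {E : Type} {N : Matroid E} (h : GoodM k r E N) : N.E = Set.univ := by
  obtain ⟨_, W, _, _, v, C, D, hc, rfl, _⟩ := h
  rfl

theorem GoodM.tutte {k r : ℕ} {E : Type} {N : Matroid E} (h : GoodM k r E N) :
    TutteConnEq N k := by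
  obtain ⟨_, W, _, _, v, C, D, hc, rfl, h1⟩ := h
  exact h1

theorem GoodM.no_minor {k r k' r' : ℕ} {E E' : Type} {N : Matroid E} {N' : Matroid E'}
    (h : GoodM k r E N) (h' : GoodM k' r' E' N') (hr : r ≠ r') : ¬ IsoMinor N N' := by
  obtain ⟨_, W, _, _, v, C, D, hc, rfl, h1⟩ := h
  obtain ⟨_, W', _, _, v', C', D', hc', rfl, h1'⟩ := h'
  exact Relax.no_minor hc hc' hr

theorem GoodM.no_U26 {k r : ℕ} {E : Type} {N : Matroid E} (h : GoodM k r E N) (M' : Matroid E)
    (hM : M' ≤m N) (hcard : M'.E.encard = 6) : ¬ ∀ I ⊆ M'.E, (M'.Indep I ↔ I.encard ≤ 2) := by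
  obtain ⟨_, W, _, _, v, C, D, hc, rfl, h1⟩ := h
  intro hu
  exact Relax.no_U26 hc M' hM hcard hu

theorem exists_seq : ∃ (E : ℕ → Type) (N : ∀ i, Matroid (E i)) (ρ : ℕ → ℕ), StrictMono ρ ∧
    ∀ i, GoodM (i + 1) (ρ (i + 1)) (E i) (N i) := by
  choose R EE NN hR hG using fun (k : ℕ) (L : ℕ) => exists_good (k + 1) L (by omega)
  let ρ : ℕ → ℕ := fun i => Nat.rec 0 (fun i r => R i r) i
  have hρ : ∀ i, ρ (i + 1) = R i (ρ i) := fun i => rfl
  refine ⟨fun i => EE i (ρ i), fun i => NN i (ρ i), ρ, ?_, ?_⟩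
  · apply strictMono_nat_of_lt_succ
    intro i
    rw [hρ]
    exact hR i (ρ i)
  · intro i
    rw [hρ]
    exact hG i (ρ i)

end Pool.Agent.H20.Config
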