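import Mathlib

set_option autoImplicit false

/-!
Nonrepetitive colourings and subdivisions of graphs.
-/

namespace Pool.Agent.H20.Nonrep

/-- A vertex colouring `c` of the graph `H` is nonrepetitive if there is no path
`x 0, x 1, …, x (2 t - 1)` in `H` (pairwise distinct vertices, consecutive ones adjacent),
with `t ≥ 1`, such that `c (x i) = c (x (t + i))` for all `i < t`. -/
def IsNonrepetitive {W K : Type} (H : SimpleGraph W) (c : W → K) : Prop :=
  ¬ ∃ (t : ℕ) (x : ℕ → W), 1 ≤ t ∧ Set.InjOn x (Set.Iio (2 * t)) ∧
    (∀ i, i + 1 < 2 * t → H.Adj (x i) (x (i + 1))) ∧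
    ∀ i, i < t → c (x i) = c (x (t + i))

/-- The Thue chromatic number (nonrepetitive chromatic number) of `H`. -/
noncomputable def thueNumber {W : Type} (H : SimpleGraph W) : ℕ :=
  sInf {k : ℕ | ∃ c : W → Fin k, IsNonrepetitive H c}

variable {V : Type} [LinearOrder V]

/-- The edges of `G`, each edge `{v, w}` being written once, as the pair `(v, w)` with `v < w`. -/
abbrev Edge (G : SimpleGraph V) : Type := {p : V × V // p.1 < p.2 ∧ G.Adj p.1 p.2}

/-- The vertices of the subdivision in which the edge `e` receives `s e` division vertices. -/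
abbrev SubVert (G : SimpleGraph V) (s : Edge G → ℕ) : Type := V ⊕ (Σ e : Edge G, Fin (s e))

/-- The path replacing the edge `e = (v, w)`: its vertices are `node 0 = v`, then the
`s e` division vertices `node 1, …, node (s e)`, and `node (s e + 1) = w`. -/
def node {G : SimpleGraph V} (s : Edge G → ℕ) (e : Edge G) (j : ℕ) : SubVert G s :=
  if j = 0 then Sum.inl e.1.1
  else if h : j - 1 < s e then Sum.inr ⟨e, ⟨j - 1, h⟩⟩
  else Sum.inl e.1.2

/-- The subdivision of `G` in which the edge `e` is replaced by a path with `s e` division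
vertices. -/
def subdivision (G : SimpleGraph V) (s : Edge G → ℕ) : SimpleGraph (SubVert G s) :=
  SimpleGraph.fromRel (fun x y => ∃ e : Edge G, ∃ j ≤ s e, x = node s e j ∧ y = node s e (j + 1))

end Pool.Agent.H20.Nonrep
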