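import Mathlib
import Pool.Agent.H20.NonrepDefs

set_option autoImplicit false

namespace Pool.Agent.H20.Nonrep

/-! ### A square-free sequence on four letters -/

/-- The regular paperfolding sequence. -/
def pf (n : ℕ) : Bool := decide ((n / 2 ^ (padicValNat 2 n)) % 4 = 3)

theorem pf_eq (i c : ℕ) : pf (2 ^ i * (2 * c + 1)) = decide (c % 2 = 1) := by
  have h1 : padicValNat 2 (2 ^ i * (2 * c + 1)) = i := by
    have : Fact (Nat.Prime 2) := ⟨Nat.prime_two⟩
    rw [padicValNat.mul (by positivity) (by omega), padicValNat.prime_pow,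
      padicValNat.eq_zero_of_not_dvd (by omega)]
    rfl
  have h2 : 2 ^ i * (2 * c + 1) / 2 ^ i = 2 * c + 1 :=
    Nat.mul_div_cancel_left _ (by positivity)
  unfold pf
  rw [h1, h2]
  congr 1
  apply propext
  constructor <;> intro h <;> omega

theorem squarefree {q t : ℕ} (hq : 1 ≤ q) (ht : 1 ≤ t)
    (h : ∀ r, q ≤ r → r < q + t → pf r = pf (r + t) ∧ r % 2 = (r + t) % 2) : False := by
  have hpar : t % 2 = 0 := by
    have := (h q le_rfl (by omega)).2
    omega
  obtain ⟨a, b, hb, hab⟩ : ∃ a b, b % 2 = 1 ∧ t = 2 ^ a * b := by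
    obtain ⟨a, b, hb, hab⟩ := Nat.exists_eq_two_pow_mul_odd (n := t) (by omega)
    exact ⟨a, b, Nat.odd_iff.mp hb, hab⟩
  obtain ⟨a', rfl⟩ : ∃ a', a = a' + 1 := by
    cases a with
    | zero => simp at hab; omega
    | succ a' => exact ⟨a', rfl⟩
  -- choose r = 2^a' (2c+1) in [q, q + t)
  have hP : 0 < 2 ^ a' := by positivity
  set P := 2 ^ a' with hPdef
  have htP : t = 2 * P * b := by rw [hab, pow_succ]; ring
  have hb1 : 1 ≤ b := by omega
  have htP' : 2 * P ≤ t := by rw [htP]; nlinarith
  -- c = number with P (2c+1) ≥ q minimal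
  obtain ⟨c, hc1, hc2⟩ : ∃ c, q ≤ P * (2 * c + 1) ∧ P * (2 * c + 1) < q + 2 * P := by
    have hex : ∃ c, q ≤ P * (2 * c + 1) := ⟨q, by nlinarith⟩
    refine ⟨Nat.find hex, Nat.find_spec hex, ?_⟩
    rcases Nat.eq_zero_or_pos (Nat.find hex) with h0 | h0
    · rw [h0]; simp; omega
    · have h1 := Nat.find_min hex (m := Nat.find hex - 1) (by omega)
      push Not at h1
      obtain ⟨m, hm⟩ : ∃ m, Nat.find hex = m + 1 := ⟨Nat.find hex - 1, by omega⟩
      rw [hm] at h1 ⊢
      simp only [Nat.add_sub_cancel] at h1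
      nlinarith
  have h3 := (h (P * (2 * c + 1)) hc1 (by omega)).1
  have h4 : P * (2 * c + 1) + t = P * (2 * (c + b) + 1) := by rw [htP]; ring
  rw [h4, hPdef, pf_eq, pf_eq] at h3
  have h5 := decide_eq_decide.mp h3
  omega

/-! ### The colouring -/

/-- colours -/
abbrev Col : Type := Option (Option (Bool × Bool × Bool))

/-- the letter at distance `j` from a branch vertex of colour `a` -/
def code (a j : ℕ) : Col := some (some (pf j, decide (j % 2 = 1), a.testBit (j - 1)))

variable {V : Type} [LinearOrder V] {G : SimpleGraph V}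

def col (L : ℕ) (φ : V → ℕ) : SubVert G (fun _ => 2 * L + 1) → Col
  | Sum.inl _ => none
  | Sum.inr ⟨e, j⟩ =>
      if j.1 + 1 ≤ L then code (φ e.1.1) (j.1 + 1)
      else if j.1 = L then some none
      else code (φ e.1.2) (2 * L + 2 - (j.1 + 1))

theorem col_none {L : ℕ} {φ : V → ℕ} {x : SubVert G (fun _ => 2 * L + 1)}
    (h : col L φ x = none) : ∃ v, x = Sum.inl v := by
  rcases x with v | ⟨e, j⟩
  · exact ⟨v, rfl⟩
  · simp only [col, code] at h
    split_ifs at h

/-- The path `e` in direction `b`. -/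
def arc (d : ℕ) (e : Edge G) (b : Bool) (j : ℕ) : SubVert G (fun _ => d) :=
  if b then node (fun _ => d) e (d + 1 - j) else node (fun _ => d) e j

def start (e : Edge G) (b : Bool) : V := if b then e.1.2 else e.1.1

theorem start_adj (e : Edge G) (b : Bool) : G.Adj (start e b) (start e (!b)) := by
  cases b
  · exact e.2.2
  · exact e.2.2.symm

theorem node_zero (d : ℕ) (e : Edge G) : node (fun _ => d) e 0 = Sum.inl e.1.1 := by
  simp [node]

theorem node_last (d : ℕ) (e : Edge G) : node (fun _ => d) e (d + 1) = Sum.inl e.1.2 := by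
  simp [node]

theorem node_mid {d : ℕ} (e : Edge G) {j : ℕ} (h1 : 1 ≤ j) (h2 : j ≤ d) :
    node (fun _ => d) e j = Sum.inr ⟨e, ⟨j - 1, by show j - 1 < d; omega⟩⟩ := by
  have h3 : ¬ j = 0 := by omega
  have h4 : j - 1 < d := by omega
  simp only [node, if_neg h3, dif_pos h4]

theorem arc_zero (d : ℕ) (e : Edge G) (b : Bool) : arc d e b 0 = Sum.inl (start e b) := by
  cases b
  · simp [arc, start, node_zero]
  · simp [arc, start, node_last]

theorem arc_last (d : ℕ) (e : Edge G) (b : Bool) :
    arc d e b (d + 1) = Sum.inl (start e (!b)) := by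
  cases b
  · simp [arc, start, node_last]
  · simp [arc, start, node_zero]

theorem node_ne_inl {d : ℕ} (e : Edge G) {j : ℕ} (h1 : 1 ≤ j) (h2 : j ≤ d) (v : V) :
    node (fun _ => d) e j ≠ Sum.inl v := by
  rw [node_mid e h1 h2]
  simp

theorem arc_ne_inl {d : ℕ} (e : Edge G) (b : Bool) {j : ℕ} (h1 : 1 ≤ j) (h2 : j ≤ d) (v : V) :
    arc d e b j ≠ Sum.inl v := by
  cases b
  · simpa [arc] using node_ne_inl e h1 h2 v
  · simpa [arc] using node_ne_inl e (j := d + 1 - j) (by omega) (by omega) v

theorem node_inj {d : ℕ} {e e' : Edge G} {j j' : ℕ} (h1 : 1 ≤ j) (h2 : j ≤ d) (h2' : j' ≤ d + 1)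
    (h : node (fun _ => d) e j = node (fun _ => d) e' j') : e = e' ∧ j = j' := by
  rcases Nat.eq_zero_or_pos j' with h0 | h0
  · subst h0
    rw [node_zero] at h
    exact absurd h (node_ne_inl e h1 h2 _)
  · rcases Nat.lt_or_ge d j' with h3 | h3
    · obtain rfl : j' = d + 1 := by omega
      rw [node_last] at h
      exact absurd h (node_ne_inl e h1 h2 _)
    · rw [node_mid e h1 h2, node_mid e' h0 h3] at h
      have h4 := Sum.inr.inj h
      simp only [Sigma.mk.injEq] at h4
      obtain ⟨h5, h6⟩ := h4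
      subst h5
      have h7 := eq_of_heq h6
      simp only [Fin.mk.injEq] at h7
      exact ⟨rfl, by omega⟩

theorem adj_node {d : ℕ} {e : Edge G} {j : ℕ} (h1 : 1 ≤ j) (h2 : j ≤ d)
    {y : SubVert G (fun _ => d)} (h : (subdivision G (fun _ => d)).Adj (node (fun _ => d) e j) y) :
    y = node (fun _ => d) e (j - 1) ∨ y = node (fun _ => d) e (j + 1) := by
  rw [subdivision, SimpleGraph.fromRel_adj] at h
  obtain ⟨_, ⟨e', j', hj', hx, hy⟩ | ⟨e', j', hj', hy, hx⟩⟩ := h
  · obtain ⟨rfl, rfl⟩ := node_inj h1 h2 (by omega) hx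
    exact Or.inr hy
  · obtain ⟨rfl, rfl⟩ := node_inj h1 h2 (by omega) hx
    exact Or.inl hy

theorem adj_arc {d : ℕ} {e : Edge G} {b : Bool} {j : ℕ} (h1 : 1 ≤ j) (h2 : j ≤ d)
    {y : SubVert G (fun _ => d)} (h : (subdivision G (fun _ => d)).Adj (arc d e b j) y) :
    y = arc d e b (j - 1) ∨ y = arc d e b (j + 1) := by
  cases b
  · simpa [arc] using adj_node h1 h2 (by simpa [arc] using h)
  · have h3 := adj_node (e := e) (j := d + 1 - j) (by omega) (by omega) (y := y)
      (by simpa [arc] using h)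
    have h4 : d + 1 - (j - 1) = d + 1 - j + 1 := by omega
    have h5 : d + 1 - (j + 1) = d + 1 - j - 1 := by omega
    simp only [arc, if_true]
    rw [h4, h5]
    exact h3.symm

theorem adj_inl {d : ℕ} (hd : 1 ≤ d) {v : V} {y : SubVert G (fun _ => d)}
    (h : (subdivision G (fun _ => d)).Adj (Sum.inl v) y) :
    ∃ e b, start e b = v ∧ y = arc d e b 1 := by
  rw [subdivision, SimpleGraph.fromRel_adj] at h
  obtain ⟨_, ⟨e, j, hj, hx, hy⟩ | ⟨e, j, hj, hy, hx⟩⟩ := h
  · -- inl v = node e j with j ≤ d : j = 0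
    rcases Nat.eq_zero_or_pos j with h0 | h0
    · subst h0
      rw [node_zero] at hx
      refine ⟨e, false, (Sum.inl.inj hx).symm, ?_⟩
      simpa [arc] using hy
    · exact absurd hx.symm (node_ne_inl e h0 hj v)
  · rcases Nat.lt_or_ge j d with h0 | h0
    · exact absurd hx.symm (node_ne_inl e (by omega) (by omega) v)
    · have h1 : j = d := le_antisymm hj h0
      subst h1
      rw [node_last] at hx
      refine ⟨e, true, (Sum.inl.inj hx).symm, ?_⟩
      simpa [arc] using hy

/-! ### Colours along arcs -/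

theorem col_node_low {L : ℕ} {φ : V → ℕ} (e : Edge G) {j : ℕ} (h1 : 1 ≤ j) (h2 : j ≤ L) :
    col L φ (node (fun _ => 2 * L + 1) e j) = code (φ e.1.1) j := by
  rw [node_mid e h1 (by omega)]
  have h3 : j - 1 + 1 = j := by omega
  simp only [col, h3, if_pos h2]

theorem col_node_mid {L : ℕ} {φ : V → ℕ} (e : Edge G) :
    col L φ (node (fun _ => 2 * L + 1) e (L + 1)) = some none := by
  rw [node_mid e (by omega) (by omega)]
  simp [col]

theorem col_node_high {L : ℕ} {φ : V → ℕ} (e : Edge G) {j : ℕ} (h1 : L + 2 ≤ j)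
    (h2 : j ≤ 2 * L + 1) :
    col L φ (node (fun _ => 2 * L + 1) e j) = code (φ e.1.2) (2 * L + 2 - j) := by
  rw [node_mid e (by omega) (by omega)]
  have h3 : j - 1 + 1 = j := by omega
  have h4 : ¬ j ≤ L := by omega
  have h5 : ¬ j - 1 = L := by omega
  simp only [col, h3, if_neg h4, if_neg h5]

theorem col_arc_low {L : ℕ} {φ : V → ℕ} (e : Edge G) (b : Bool) {j : ℕ} (h1 : 1 ≤ j)
    (h2 : j ≤ L) :
    col L φ (arc (2 * L + 1) e b j) = code (φ (start e b)) j := by
  cases b
  · simpa [arc, start] using col_node_low e h1 h2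
  · have h3 := col_node_high (L := L) (φ := φ) e (j := 2 * L + 1 + 1 - j) (by omega) (by omega)
    have h4 : 2 * L + 2 - (2 * L + 1 + 1 - j) = j := by omega
    rw [h4] at h3
    simpa [arc, start] using h3

theorem col_arc_mid {L : ℕ} {φ : V → ℕ} (e : Edge G) (b : Bool) :
    col L φ (arc (2 * L + 1) e b (L + 1)) = some none := by
  cases b
  · simpa [arc] using col_node_mid e
  · have h4 : 2 * L + 1 + 1 - (L + 1) = L + 1 := by omega
    simp only [arc, if_true, h4]
    exact col_node_mid e

theorem col_arc_high {L : ℕ} {φ : V → ℕ} (e : Edge G) (b : Bool) {j : ℕ} (h1 : L + 2 ≤ j)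
    (h2 : j ≤ 2 * L + 1) :
    col L φ (arc (2 * L + 1) e b j) = code (φ (start e (!b))) (2 * L + 2 - j) := by
  cases b
  · simpa [arc, start] using col_node_high e h1 h2
  · have h3 := col_node_low (L := L) (φ := φ) e (j := 2 * L + 2 - j) (by omega) (by omega)
    simpa [arc, start] using h3

theorem code_ne_mid (a j : ℕ) : code a j ≠ some none := by simp [code]

theorem code_inj {a a' j j' : ℕ} (h : code a j = code a' j') :
    pf j = pf j' ∧ j % 2 = j' % 2 ∧ a.testBit (j - 1) = a'.testBit (j' - 1) := by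
  simp only [code, Option.some.injEq, Prod.mk.injEq] at h
  obtain ⟨h1, h2, h3⟩ := h
  refine ⟨h1, ?_, h3⟩
  have := decide_eq_decide.mp h2
  omega

/-! ### Paths -/

/-- The path follows the arc. -/
theorem follow {d : ℕ} (hd : 1 ≤ d) {N : ℕ} {x : ℕ → SubVert G (fun _ => d)}
    (hinj : Set.InjOn x (Set.Iio N))
    (hadj : ∀ i, i + 1 < N → (subdivision G (fun _ => d)).Adj (x i) (x (i + 1)))
    {p : ℕ} {v : V} (hp : x p = Sum.inl v) (hpN : p + 1 < N) :
    ∃ e b, start e b = v ∧ ∀ j, j ≤ d + 1 → p + j < N → x (p + j) = arc d e b j := by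
  have h1 := hadj p hpN
  rw [hp] at h1
  obtain ⟨e, b, hs, hy⟩ := adj_inl hd h1
  refine ⟨e, b, hs, ?_⟩
  have key : ∀ j, j ≤ d → p + (j + 1) < N →
      x (p + j) = arc d e b j ∧ x (p + (j + 1)) = arc d e b (j + 1) := by
    intro j
    induction j with
    | zero =>
      intro _ _
      refine ⟨?_, hy⟩
      rw [arc_zero, hs]
      exact hp
    | succ j ih =>
      intro hj hjN
      obtain ⟨h2, h3⟩ := ih (by omega) (by omega)
      refine ⟨h3, ?_⟩
      have h4 := hadj (p + (j + 1)) (by omega)
      rw [h3] at h4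
      rcases adj_arc (by omega) hj h4 with h5 | h5
      · exfalso
        have h6 : x (p + (j + 1) + 1) = x (p + j) := by
          rw [h5, h2]
          rfl
        have h7 := hinj (by simp only [Set.mem_Iio]; omega)
          (by simp only [Set.mem_Iio]; omega) h6
        omega
      · exact h5
  intro j hj hjN
  rcases Nat.eq_zero_or_pos j with h0 | h0
  · subst h0
    rw [arc_zero, hs]
    exact hp
  · obtain ⟨m, rfl⟩ : ∃ m, j = m + 1 := ⟨j - 1, by omega⟩
    exact (key m (by omega) hjN).2

theorem follow_back {d : ℕ} (hd : 1 ≤ d) {N : ℕ} {x : ℕ → SubVert G (fun _ => d)}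
    (hinj : Set.InjOn x (Set.Iio N))
    (hadj : ∀ i, i + 1 < N → (subdivision G (fun _ => d)).Adj (x i) (x (i + 1)))
    {p : ℕ} {v : V} (hp : x p = Sum.inl v) (hp1 : 1 ≤ p) (hpN : p < N) :
    ∃ e b, start e b = v ∧ ∀ j, j ≤ d + 1 → j ≤ p → x (p - j) = arc d e b j := by
  have h1 : Set.InjOn (fun i => x (N - 1 - i)) (Set.Iio N) := by
    intro i hi j hj hij
    simp only [Set.mem_Iio] at hi hj
    have := hinj (by simp only [Set.mem_Iio]; omega) (by simp only [Set.mem_Iio]; omega) hij
    omega
  have h2 : ∀ i, i + 1 < N →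
      (subdivision G (fun _ => d)).Adj (x (N - 1 - i)) (x (N - 1 - (i + 1))) := by
    intro i hi
    have h3 := hadj (N - 1 - (i + 1)) (by omega)
    have h4 : N - 1 - (i + 1) + 1 = N - 1 - i := by omega
    rw [h4] at h3
    exact h3.symm
  have h3 : N - 1 - (N - 1 - p) = p := by omega
  obtain ⟨e, b, hs, hx⟩ := follow (x := fun i => x (N - 1 - i)) hd h1 h2
    (p := N - 1 - p) (v := v) (by simp only [h3]; exact hp) (by omega)
  refine ⟨e, b, hs, fun j hj hjp => ?_⟩
  have h4 := hx j hj (by omega)
  have h5 : N - 1 - (N - 1 - p + j) = p - j := by omega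
  simp only [h5] at h4
  exact h4

/-- A path without branch vertices stays in an arc. -/
theorem inside {d : ℕ} {N : ℕ} (hN : 2 ≤ N) {x : ℕ → SubVert G (fun _ => d)}
    (hinj : Set.InjOn x (Set.Iio N))
    (hadj : ∀ i, i + 1 < N → (subdivision G (fun _ => d)).Adj (x i) (x (i + 1)))
    (hno : ∀ i, i < N → ∀ v, x i ≠ Sum.inl v) :
    ∃ e b q, 1 ≤ q ∧ q + (N - 1) ≤ d ∧ ∀ i, i < N → x i = arc d e b (q + i) := by
  obtain ⟨e, q, hq1, hqd, hx0⟩ : ∃ (e : Edge G) (q : ℕ), 1 ≤ q ∧ q ≤ d ∧
      x 0 = node (fun _ => d) e q := by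
    rcases hx : x 0 with v | ⟨e, j⟩
    · exact absurd hx (hno 0 (by omega) v)
    · refine ⟨e, j.1 + 1, by omega, j.2, ?_⟩
      rw [node_mid e (by omega) (by exact j.2)]
      rfl
  have h1 := hadj 0 (by omega)
  rw [hx0] at h1
  obtain ⟨b, q', hq1', hqd', hx0', hx1'⟩ : ∃ (b : Bool) (q' : ℕ), 1 ≤ q' ∧ q' ≤ d ∧
      x 0 = arc d e b q' ∧ x 1 = arc d e b (q' + 1) := by
    rcases adj_node hq1 hqd h1 with h2 | h2
    · refine ⟨true, d + 1 - q, by omega, by omega, ?_, ?_⟩
      · have h3 : d + 1 - (d + 1 - q) = q := by omega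
        simp only [arc, if_true, h3]
        exact hx0
      · have h3 : d + 1 - (d + 1 - q + 1) = q - 1 := by omega
        simp only [arc, if_true, h3]
        exact h2
    · refine ⟨false, q, hq1, hqd, ?_, ?_⟩
      · simpa [arc] using hx0
      · simpa [arc] using h2
  have key : ∀ i, i + 1 < N → x i = arc d e b (q' + i) ∧ x (i + 1) = arc d e b (q' + (i + 1)) ∧
      q' + i ≤ d ∧ q' + (i + 1) ≤ d := by
    intro i
    induction i with
    | zero =>
      intro h
      refine ⟨hx0', hx1', hqd', ?_⟩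
      by_contra hc
      have h2 : q' + (0 + 1) = d + 1 := by omega
      have h3 : x 1 = Sum.inl (start e (!b)) := by
        rw [hx1']
        have : q' + 1 = d + 1 := by omega
        rw [this, arc_last]
      exact hno 1 (by omega) _ h3
    | succ i ih =>
      intro h
      obtain ⟨h2, h3, h4, h5⟩ := ih (by omega)
      have h6 := hadj (i + 1) (by omega)
      rw [h3] at h6
      have h7 : x (i + 1 + 1) = arc d e b (q' + (i + 1 + 1)) := by
        rcases adj_arc (by omega) h5 h6 with h8 | h8
        · exfalso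
          have h9 : x (i + 1 + 1) = x i := by
            rw [h8, h2]
            rfl
          have h10 := hinj (by simp only [Set.mem_Iio]; omega)
            (by simp only [Set.mem_Iio]; omega) h9
          omega
        · exact h8
      refine ⟨h3, h7, h5, ?_⟩
      by_contra hc
      have h8 : q' + (i + 1 + 1) = d + 1 := by omega
      rw [h8, arc_last] at h7
      exact hno _ h _ h7
  refine ⟨e, b, q', hq1', ?_, ?_⟩
  · obtain ⟨m, rfl⟩ : ∃ m, N = m + 2 := ⟨N - 2, by omega⟩
    have := (key m (by omega)).2.2.2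
    omega
  · intro i hi
    rcases Nat.eq_zero_or_pos i with h0 | h0
    · subst h0; exact hx0'
    · obtain ⟨m, rfl⟩ : ∃ m, i = m + 1 := ⟨i - 1, by omega⟩
      exact (key m hi).2.1

/-- The colouring of the subdivision is nonrepetitive. -/
theorem col_nonrep {L k : ℕ} (hk : k ≤ 2 ^ L) {φ : V → Fin k} (hφ : IsNonrepetitive G φ) :
    IsNonrepetitive (subdivision G (fun _ => 2 * L + 1)) (col L (fun v => (φ v : ℕ))) := by
  classical
  rintro ⟨t, x, ht, hinj, hadj, hrep⟩
  set ψ : V → ℕ := fun v => (φ v : ℕ) with hψ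
  by_cases hex : ∃ p, p < 2 * t ∧ ∃ v, x p = Sum.inl v
  · -- some branch vertex on the path
    obtain ⟨hp2, v0, hv0⟩ := Nat.find_spec hex
    have hmin : ∀ q, q < Nat.find hex → ∀ v, x q ≠ Sum.inl v := by
      intro q hq v hv
      exact Nat.find_min hex hq ⟨by omega, v, hv⟩
    generalize hpdef : Nat.find hex = p at *
    have hpt : p < t := by
      by_contra hc
      have h1 := hrep (p - t) (by omega)
      have h2 : t + (p - t) = p := by omega
      rw [h2, hv0] at h1
      obtain ⟨v, hv⟩ := col_none h1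
      exact hmin (p - t) (by omega) v hv
    have hpd : p ≤ 2 * L + 1 := by
      by_contra hc
      obtain ⟨e, b, _, hx⟩ := follow_back (by omega) hinj hadj hv0 (by omega) hp2
      have h1 := hx (2 * L + 1 + 1) le_rfl (by omega)
      rw [arc_last] at h1
      exact hmin _ (by omega) _ h1
    have hbr : ∀ i, p + i * (2 * L + 2) < 2 * t → ∃ v, x (p + i * (2 * L + 2)) = Sum.inl v := by
      intro i
      induction i with
      | zero => intro _; exact ⟨v0, by simpa using hv0⟩
      | succ i ih =>
        intro hi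
        have hi' : p + (i + 1) * (2 * L + 2) = p + i * (2 * L + 2) + (2 * L + 1 + 1) := by ring
        rw [hi'] at hi ⊢
        obtain ⟨v, hv⟩ := ih (by omega)
        obtain ⟨e, b, _, hx⟩ := follow (by omega) hinj hadj hv (by omega)
        have h1 := hx (2 * L + 1 + 1) le_rfl hi
        rw [arc_last] at h1
        exact ⟨_, h1⟩
    -- t is a multiple of 2L+2
    obtain ⟨s, hs⟩ : ∃ s, t = s * (2 * L + 2) := by
      refine ⟨t / (2 * L + 2), ?_⟩
      have h1 := Nat.div_add_mod t (2 * L + 2)
      have h2 := Nat.mod_lt t (show 0 < 2 * L + 2 by omega)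
      generalize t / (2 * L + 2) = s at *
      generalize hj : t % (2 * L + 2) = j at *
      have h1' : s * (2 * L + 2) + j = t := by rw [← h1]; ring
      rcases Nat.eq_zero_or_pos j with h0 | h0
      · omega
      · exfalso
        have h3 := hrep p hpt
        rw [hv0] at h3
        obtain ⟨v, hv⟩ := col_none h3.symm
        obtain ⟨v', hv'⟩ := hbr s (by omega)
        obtain ⟨e, b, _, hx⟩ := follow (by omega) hinj hadj hv' (by omega)
        have h4 := hx j (by omega) (by omega)
        have h5 : p + s * (2 * L + 2) + j = t + p := by omega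
        rw [h5, hv] at h4
        exact arc_ne_inl e b h0 (by omega) v h4.symm
    have hs1 : 1 ≤ s := by
      rcases Nat.eq_zero_or_pos s with h0 | h0
      · subst h0; omega
      · exact h0
    have hmul : ∀ i, i < 2 * s → p + i * (2 * L + 2) < 2 * t := by
      intro i hi
      have h1 : (i + 1) * (2 * L + 2) ≤ (2 * s) * (2 * L + 2) := Nat.mul_le_mul_right _ hi
      have h2 : (i + 1) * (2 * L + 2) = i * (2 * L + 2) + (2 * L + 2) := by ring
      have h3 : (2 * s) * (2 * L + 2) = 2 * t := by rw [hs]; ring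
      omega
    have hmul' : ∀ i, i < s → p + i * (2 * L + 2) + (2 * L + 2) ≤ p + t := by
      intro i hi
      have h1 : (i + 1) * (2 * L + 2) ≤ s * (2 * L + 2) := Nat.mul_le_mul_right _ hi
      have h2 : (i + 1) * (2 * L + 2) = i * (2 * L + 2) + (2 * L + 2) := by ring
      omega
    have : Nonempty V := ⟨v0⟩
    choose! g hg using hbr
    refine hφ ⟨s, g, hs1, ?_, ?_, ?_⟩
    · intro i hi j hj hij
      simp only [Set.mem_Iio] at hi hj
      have h1 := hg i (hmul i hi)
      have h2 := hg j (hmul j hj)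
      rw [hij] at h1
      have h3 := hinj (by simp only [Set.mem_Iio]; exact hmul i hi)
        (by simp only [Set.mem_Iio]; exact hmul j hj) (h1.trans h2.symm)
      have h4 : i * (2 * L + 2) = j * (2 * L + 2) := by omega
      exact Nat.eq_of_mul_eq_mul_right (by omega) h4
    · intro i hi
      have h1 := hg i (hmul i (by omega))
      have h2 := hg (i + 1) (hmul (i + 1) hi)
      have h3 := hmul (i + 1) hi
      have h4 : p + (i + 1) * (2 * L + 2) = p + i * (2 * L + 2) + (2 * L + 1 + 1) := by ring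
      rw [h4] at h2 h3
      obtain ⟨e, b, hsv, hx⟩ := follow (by omega) hinj hadj h1 (by omega)
      have h5 := hx (2 * L + 1 + 1) le_rfl h3
      rw [arc_last, h2] at h5
      have h6 := Sum.inl.inj h5
      rw [← hsv, h6]
      exact start_adj e b
    · intro i hi
      have h1 := hg i (hmul i (by omega))
      have h2 := hg (s + i) (hmul (s + i) (by omega))
      have h3 := hmul (s + i) (by omega)
      have h4 : p + (s + i) * (2 * L + 2) = p + i * (2 * L + 2) + t := by rw [hs]; ring
      rw [h4] at h2 h3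
      have h5 := hmul' i hi
      have h6 := hmul i (by omega)
      have h7 : p ≤ p + i * (2 * L + 2) := Nat.le_add_right _ _
      generalize p + i * (2 * L + 2) = P at h1 h2 h3 h5 h6 h7
      have hbits : ∀ j, 1 ≤ j → j ≤ L →
          (ψ (g i)).testBit (j - 1) = (ψ (g (s + i))).testBit (j - 1) := by
        rcases Nat.lt_or_ge (2 * L + 1) (p + L) with hc | hc
        · obtain ⟨e, b, hsv, hx⟩ := follow_back (by omega) hinj hadj h1 (by omega) h6
          obtain ⟨e', b', hsv', hx'⟩ := follow_back (by omega) hinj hadj h2 (by omega) h3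
          intro j hj1 hj2
          have h8 := hrep (P - j) (by omega)
          have h9 : t + (P - j) = P + t - j := by omega
          rw [h9, hx j (by omega) (by omega), hx' j (by omega) (by omega),
            col_arc_low e b hj1 hj2, col_arc_low e' b' hj1 hj2, hsv, hsv'] at h8
          exact (code_inj h8).2.2
        · obtain ⟨e, b, hsv, hx⟩ := follow (by omega) hinj hadj h1 (by omega)
          intro j hj1 hj2
          obtain ⟨e', b', hsv', hx'⟩ := follow (by omega) hinj hadj h2 (by omega)
          have h8 := hrep (P + j) (by omega)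
          have h9 : t + (P + j) = P + t + j := by omega
          rw [h9, hx j (by omega) (by omega), hx' j (by omega) (by omega),
            col_arc_low e b hj1 hj2, col_arc_low e' b' hj1 hj2, hsv, hsv'] at h8
          exact (code_inj h8).2.2
      apply Fin.ext
      apply Nat.eq_of_testBit_eq
      intro m
      rcases Nat.lt_or_ge m L with hm | hm
      · exact hbits (m + 1) (by omega) (by omega)
      · have hpow : 2 ^ L ≤ 2 ^ m := Nat.pow_le_pow_right (by norm_num) hm
        rw [Nat.testBit_lt_two_pow (lt_of_lt_of_le (φ (g i)).2 (hk.trans hpow)),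
          Nat.testBit_lt_two_pow (lt_of_lt_of_le (φ (g (s + i))).2 (hk.trans hpow))]
  · -- no branch vertex
    push Not at hex
    obtain ⟨e, b, q, hq1, hqd, hx⟩ := inside (by omega) hinj hadj hex
    have hmid : ¬ (q ≤ L + 1 ∧ L + 1 < q + 2 * t) := by
      rintro ⟨h1, h2⟩
      rcases Nat.lt_or_ge (L + 1) (q + t) with h3 | h3
      · have h4 := hrep (L + 1 - q) (by omega)
        rw [hx _ (by omega), hx _ (by omega)] at h4
        have h5 : q + (L + 1 - q) = L + 1 := by omega
        have h6 : q + (t + (L + 1 - q)) = L + 1 + t := by omega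
        rw [h5, h6, col_arc_mid, col_arc_high e b (by omega) (by omega)] at h4
        exact code_ne_mid _ _ h4.symm
      · have h4 := hrep (L + 1 - q - t) (by omega)
        rw [hx _ (by omega), hx _ (by omega)] at h4
        have h5 : q + (L + 1 - q - t) = L + 1 - t := by omega
        have h6 : q + (t + (L + 1 - q - t)) = L + 1 := by omega
        rw [h5, h6, col_arc_mid, col_arc_low e b (by omega) (by omega)] at h4
        exact code_ne_mid _ _ h4
    rcases Nat.lt_or_ge L (q + 2 * t - 1) with h1 | h1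
    · -- q ≥ L + 2
      have h2 : L + 2 ≤ q := by omega
      refine squarefree (q := 2 * L + 2 - (q + 2 * t - 1)) (t := t) (by omega) ht ?_
      intro r hr1 hr2
      -- r = 2L+2 - (q + t + i), r + t = 2L+2 - (q+i)
      obtain ⟨i, hi⟩ : ∃ i, r + (q + t + i) = 2 * L + 2 := ⟨2 * L + 2 - r - q - t, by omega⟩
      have h4 := hrep i (by omega)
      rw [hx _ (by omega), hx _ (by omega), col_arc_high e b (by omega) (by omega),
        col_arc_high e b (by omega) (by omega)] at h4
      have h5 : 2 * L + 2 - (q + i) = r + t := by omega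
      have h6 : 2 * L + 2 - (q + (t + i)) = r := by omega
      rw [h5, h6] at h4
      obtain ⟨h7, h8, _⟩ := code_inj h4
      exact ⟨h7.symm, h8.symm⟩
    · refine squarefree (q := q) (t := t) hq1 ht ?_
      intro r hr1 hr2
      have h4 := hrep (r - q) (by omega)
      rw [hx _ (by omega), hx _ (by omega), col_arc_low e b (by omega) (by omega),
        col_arc_low e b (by omega) (by omega)] at h4
      have h5 : q + (r - q) = r := by omega
      have h6 : q + (t + (r - q)) = r + t := by omega
      rw [h5, h6] at h4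
      obtain ⟨h7, h8, _⟩ := code_inj h4
      exact ⟨h7, h8⟩

theorem thueNumber_le {W K : Type} [Fintype K] {n : ℕ} (hn : Fintype.card K = n)
    {H : SimpleGraph W} {c : W → K} (hc : IsNonrepetitive H c) : thueNumber H ≤ n := by
  subst hn
  refine Nat.sInf_le ⟨fun w => Fintype.equivFin K (c w), ?_⟩
  rintro ⟨t, x, ht, hinj, hadj, hrep⟩
  exact hc ⟨t, x, ht, hinj, hadj, fun i hi => (Fintype.equivFin K).injective (hrep i hi)⟩

theorem exists_thueNumber {W : Type} [Fintype W] (H : SimpleGraph W) :
    ∃ c : W → Fin (thueNumber H), IsNonrepetitive H c := by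
  have hne : {k : ℕ | ∃ c : W → Fin k, IsNonrepetitive H c}.Nonempty := by
    refine ⟨Fintype.card W, Fintype.equivFin W, ?_⟩
    rintro ⟨t, x, ht, hinj, hadj, hrep⟩
    have h1 := (Fintype.equivFin W).injective (hrep 0 (by omega))
    have h2 := hinj (by simp only [Set.mem_Iio]; omega) (by simp only [Set.mem_Iio]; omega) h1
    omega
  exact Nat.sInf_mem hne

theorem main {V : Type} [Fintype V] [LinearOrder V] (G : SimpleGraph V) :
    ∃ c : SubVert G (fun _ => 2 * Nat.clog 2 (thueNumber G) + 1) → Fin 10,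
      IsNonrepetitive (subdivision G (fun _ => 2 * Nat.clog 2 (thueNumber G) + 1)) c := by
  obtain ⟨φ, hφ⟩ := exists_thueNumber G
  have hc := col_nonrep (Nat.le_pow_clog (by norm_num) _) hφ
  have hcard : Fintype.card Col = 10 := by decide
  refine ⟨fun w => Fintype.equivFinOfCardEq hcard
    (col (Nat.clog 2 (thueNumber G)) (fun v => (φ v : ℕ)) w), ?_⟩
  rintro ⟨t, x, ht, hinj, hadj, hrep⟩
  exact hc ⟨t, x, ht, hinj, hadj,
    fun i hi => (Fintype.equivFinOfCardEq hcard).injective (hrep i hi)⟩

end Pool.Agent.H20.Nonrep
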