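import Mathlib

set_option autoImplicit false

namespace Pool.Agent.H20.Retr

/-- the elements which stay bad on every large set -/
def Ebad (U : Ultrafilter ℕ) (φ : Set ℕ → Set ℕ) (A : Set ℕ) : Set ℕ :=
  {a | ∀ C ∈ U, ∃ B, B ∉ U ∧ B ⊆ C ∧ a ∉ φ (A \ B)}

theorem diff_mem (U : Ultrafilter ℕ) {A B : Set ℕ} (hA : A ∈ U) (hB : B ∉ U) : A \ B ∈ U := by
  have h : Bᶜ ∈ U := Ultrafilter.compl_mem_iff_notMem.mpr hB
  exact Filter.inter_mem hA h

theorem union_notMem (U : Ultrafilter ℕ) {A B : Set ℕ} (hA : A ∉ U) (hB : B ∉ U) : A ∪ B ∉ U := by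
  intro h
  rcases Ultrafilter.union_mem_iff.mp h with h | h
  · exact hA h
  · exact hB h

theorem not_both (U : Ultrafilter ℕ) {A B : Set ℕ} (hA : A ∈ U) (hB : B ∈ U)
    (h : ∀ x, x ∈ A → x ∈ B → False) : False := by
  obtain ⟨x, hx⟩ := Ultrafilter.nonempty_of_mem (Filter.inter_mem hA hB)
  exact h x hx.1 hx.2

theorem Ebad_notMem (U : Ultrafilter ℕ) (φ : Set ℕ → Set ℕ)
    (hmono : ∀ A B : Set ℕ, A ∈ U → A ⊆ B → φ A ⊆ φ B)
    (hU : ∀ A ∈ U, φ A ∈ U) (A : Set ℕ) (hA : A ∈ U) : Ebad U φ A ∉ U := by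
  intro hE
  have hempty : (∅ : Set ℕ) ∉ U := Ultrafilter.empty_notMem
  -- generic contradiction
  have hcon : ∀ Z : Set ℕ, Z ∉ U → (∀ n ∈ Ebad U φ A, ∃ B, B ⊆ Z ∧ n ∉ φ (A \ B)) → False := by
    intro Z hZ h
    have h1 : A \ Z ∈ U := diff_mem U hA hZ
    refine not_both U hE (hU _ h1) ?_
    intro n hn hn2
    obtain ⟨B, hBZ, hB⟩ := h n hn
    exact hB (hmono _ _ h1 (Set.sdiff_subset_sdiff_right hBZ) hn2)
  have hc : ∀ P : Set ℕ, ∀ n : ℕ, ∃ B : Set ℕ, P ∉ U → (B ∉ U ∧ B ⊆ Pᶜ ∧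
      (n ∈ Ebad U φ A → n ∉ φ (A \ B))) := by
    intro P n
    by_cases hP : P ∉ U
    · by_cases hn : n ∈ Ebad U φ A
      · obtain ⟨B, h1, h2, h3⟩ := hn Pᶜ (Ultrafilter.compl_mem_iff_notMem.mpr hP)
        exact ⟨B, fun _ => ⟨h1, h2, fun _ => h3⟩⟩
      · exact ⟨∅, fun _ => ⟨hempty, Set.empty_subset _, fun h => absurd h hn⟩⟩
    · exact ⟨∅, fun h => absurd h hP⟩
  choose c hc using hc
  let P : ℕ → Set ℕ := fun n => Nat.rec ∅ (fun n p => p ∪ c p n ∪ c (p ∪ c p n) n) n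
  have hP0 : P 0 = ∅ := rfl
  have hPs : ∀ n, P (n + 1) = P n ∪ c (P n) n ∪ c (P n ∪ c (P n) n) n := fun n => rfl
  have hPU : ∀ n, P n ∉ U := by
    intro n
    induction n with
    | zero => rw [hP0]; exact hempty
    | succ n ih =>
      rw [hPs]
      have h1 := union_notMem U ih (hc _ n ih).1
      exact union_notMem U h1 (hc _ n h1).1
  have hPX : ∀ n, P n ∪ c (P n) n ∉ U := fun n => union_notMem U (hPU n) (hc _ n (hPU n)).1
  have hPm : Monotone P := monotone_nat_of_le_succ (by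
    intro n
    rw [hPs]
    intro x hx
    exact Or.inl (Or.inl hx))
  let X : Set ℕ := ⋃ n, c (P n) n
  let Y : Set ℕ := ⋃ n, c (P n ∪ c (P n) n) n
  have hdis : ∀ x, x ∈ X → x ∈ Y → False := by
    intro x hx hy
    obtain ⟨n, hn⟩ := Set.mem_iUnion.mp hx
    obtain ⟨m, hm⟩ := Set.mem_iUnion.mp hy
    rcases lt_or_ge m n with h | h
    · have h1 : x ∈ P n := by
        have h2 : x ∈ P (m + 1) := by rw [hPs]; exact Or.inr hm
        exact hPm (by omega : m + 1 ≤ n) h2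
      exact (hc _ n (hPU n)).2.1 hn h1
    · have h1 : x ∈ P m ∪ c (P m) m := by
        rcases eq_or_lt_of_le h with h | h
        · subst h; exact Or.inr hn
        · left
          have h2 : x ∈ P (n + 1) := by rw [hPs]; exact Or.inl (Or.inr hn)
          exact hPm (by omega : n + 1 ≤ m) h2
      exact (hc _ m (hPX m)).2.1 hm h1
  by_cases hXU : X ∈ U
  · have hYU : Y ∉ U := fun h => not_both U hXU h hdis
    refine hcon Y hYU ?_
    intro n hn
    exact ⟨c (P n ∪ c (P n) n) n, Set.subset_iUnion (fun n => c (P n ∪ c (P n) n) n) n,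
      (hc _ n (hPX n)).2.2 hn⟩
  · refine hcon X hXU ?_
    intro n hn
    exact ⟨c (P n) n, Set.subset_iUnion (fun n => c (P n) n) n, (hc _ n (hPU n)).2.2 hn⟩

theorem core (U : Ultrafilter ℕ) (hfin : ∀ s : Set ℕ, s.Finite → s ∉ U) (φ : Set ℕ → Set ℕ)
    (hmono : ∀ A B : Set ℕ, A ∈ U → A ⊆ B → φ A ⊆ φ B)
    (hU : ∀ A ∈ U, φ A ∈ U) :
    ∃ A ∈ U, ∃ W : Set ℕ, W.Infinite ∧ (∀ x, x ∈ W → x ∈ A → False) ∧
      ∀ w ∈ W, ∀ B : Set ℕ, B ∉ U → B ⊆ A ∪ (W \ {w}) → w ∈ φ Bᶜ := by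
  have key : ∀ K : Set ℕ, ∃ w : ℕ, ∃ C : Set ℕ, K ∈ U →
      (w ∈ K ∧ C ∈ U ∧ ∀ B, B ∉ U → B ⊆ C → w ∈ φ (K \ B)) := by
    intro K
    by_cases hK : K ∈ U
    · have h1 : K \ Ebad U φ K ∈ U := diff_mem U hK (Ebad_notMem U φ hmono hU K hK)
      obtain ⟨w, hw⟩ := Ultrafilter.nonempty_of_mem h1
      have hw2 : ¬ ∀ C ∈ U, ∃ B, B ∉ U ∧ B ⊆ C ∧ w ∉ φ (K \ B) := hw.2
      push Not at hw2
      obtain ⟨C, hC, hC2⟩ := hw2
      exact ⟨w, C, fun _ => ⟨hw.1, hC, hC2⟩⟩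
    · exact ⟨0, ∅, fun h => absurd h hK⟩
  choose w C hwC using key
  let K : ℕ → Set ℕ := fun n => Nat.rec Set.univ (fun n k => k ∩ C k ∩ {w k}ᶜ ∩ {n}ᶜ) n
  have hK0 : K 0 = Set.univ := rfl
  have hKs : ∀ n, K (n + 1) = K n ∩ C (K n) ∩ {w (K n)}ᶜ ∩ {n}ᶜ := fun n => rfl
  have hsing : ∀ n : ℕ, ({n}ᶜ : Set ℕ) ∈ U := fun n =>
    Ultrafilter.compl_mem_iff_notMem.mpr (hfin _ (Set.finite_singleton n))
  have hKU : ∀ n, K n ∈ U := by
    intro n
    induction n with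
    | zero => rw [hK0]; exact Filter.univ_mem
    | succ n ih =>
      rw [hKs]
      exact Filter.inter_mem (Filter.inter_mem (Filter.inter_mem ih (hwC _ ih).2.1) (hsing _))
        (hsing _)
  have hKa : Antitone K := antitone_nat_of_succ_le (by
    intro n
    rw [hKs]
    intro x hx
    exact hx.1.1.1)
  -- differences
  let D : ℕ → Set ℕ := fun s => K s \ K (s + 1)
  have hDdis : ∀ s t x, x ∈ D s → x ∈ D t → s = t := by
    intro s t x hs ht
    rcases lt_trichotomy s t with h | h | h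
    · exact absurd (hKa (by omega : s + 1 ≤ t) ht.1) hs.2
    · exact h
    · exact absurd (hKa (by omega : t + 1 ≤ s) hs.1) ht.2
  have hDcov : ∀ x, ∃ s, x ∈ D s := by
    intro x
    have h1 : ∃ t, x ∉ K t := ⟨x + 1, by
      rw [hKs]
      intro h
      exact h.2 rfl⟩
    obtain ⟨t, ht⟩ := h1
    clear_value K
    induction t with
    | zero => rw [hK0] at ht; exact absurd (Set.mem_univ _) ht
    | succ t ih =>
      by_cases h : x ∈ K t
      · exact ⟨t, h, ht⟩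
      · exact ih h
  have hwD : ∀ s, w (K s) ∈ D s := by
    intro s
    refine ⟨(hwC _ (hKU s)).1, ?_⟩
    rw [hKs]
    intro h
    exact h.1.2 rfl
  let AA : ℕ → Set ℕ := fun i => {x | ∃ s, s % 2 ≠ i ∧ x ∈ D s}
  have hAA : ∃ i, i < 2 ∧ AA i ∈ U := by
    have h1 : AA 0 ∪ AA 1 = Set.univ := by
      ext x
      simp only [Set.mem_univ, iff_true]
      obtain ⟨s, hs⟩ := hDcov x
      rcases Nat.mod_two_eq_zero_or_one s with h | h
      · right
        exact ⟨s, by omega, hs⟩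
      · left
        exact ⟨s, by omega, hs⟩
    have h2 : AA 0 ∪ AA 1 ∈ U := by rw [h1]; exact Filter.univ_mem
    rcases Ultrafilter.union_mem_iff.mp h2 with h | h
    · exact ⟨0, by norm_num, h⟩
    · exact ⟨1, by norm_num, h⟩
  obtain ⟨i, hi, hAi⟩ := hAA
  refine ⟨AA i, hAi, (fun s => w (K s)) '' {s | s % 2 = i}, ?_, ?_, ?_⟩
  · apply Set.Infinite.image
    · intro s _ t _ hst
      have hst' : w (K s) = w (K t) := hst
      refine hDdis s t (w (K s)) (hwD s) ?_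
      rw [hst']
      exact hwD t
    · apply Set.infinite_of_not_bddAbove
      rintro ⟨b, hb⟩
      have := hb (show 2 * b + 2 + i ∈ {s | s % 2 = i} by
        show (2 * b + 2 + i) % 2 = i
        omega)
      omega
  · rintro x ⟨s, hs, rfl⟩ ⟨t, ht, hxt⟩
    have h1 := hDdis s t _ (hwD s) hxt
    subst h1
    exact ht hs
  · rintro x ⟨s, hs, rfl⟩ B hB hBs
    have hs' : s % 2 = i := hs
    have h1 : ∀ x ∈ B, x ∈ K s → x ∈ K (s + 1) := by
      intro x hx hxs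
      rcases hBs hx with h | h
      · obtain ⟨t, ht, hxt⟩ := h
        rcases lt_trichotomy s t with h | h | h
        · exact hKa (by omega : s + 1 ≤ t) hxt.1
        · subst h; exact absurd hs' ht
        · exact absurd (hKa (by omega : t + 1 ≤ s) hxs) hxt.2
      · obtain ⟨⟨t, ht, rfl⟩, hne⟩ := h
        rcases lt_trichotomy s t with h | h | h
        · exact hKa (by omega : s + 1 ≤ t) (hwD t).1
        · subst h; exact absurd rfl hne
        · exact absurd (hKa (by omega : t + 1 ≤ s) hxs) (hwD t).2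
    have h2 : B ∩ K (s + 1) ∉ U := fun h => hB (Filter.mem_of_superset h Set.inter_subset_left)
    have h3 : B ∩ K (s + 1) ⊆ C (K s) := by
      intro x hx
      have := hx.2
      rw [hKs] at this
      exact this.1.1.2
    have h4 := (hwC _ (hKU s)).2.2 _ h2 h3
    refine hmono _ _ (diff_mem U (hKU s) h2) ?_ h4
    intro x hx hxB
    exact hx.2 ⟨hxB, h1 x hxB hx.1⟩

end Pool.Agent.H20.Retr
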