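import Mathlib

set_option autoImplicit false

/-! The topological ring: bounded-denominator sequences of rational matrices with the
measure topology (small = 2-adically small up to small normalised rank). -/

namespace Pool.Agent.H20.SemiRing

open Filter Finset

/-- Cast of integer matrices. -/
noncomputable def cst (n : ℕ) : Matrix (Fin n) (Fin n) ℤ →+* Matrix (Fin n) (Fin n) ℚ :=
  (Int.castRingHom ℚ).mapMatrix

theorem cst_apply (n : ℕ) (Y : Matrix (Fin n) (Fin n) ℤ) (i j : Fin n) :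
    cst n Y i j = (Y i j : ℚ) := rfl

theorem cst_smul (n : ℕ) (c : ℤ) (Y : Matrix (Fin n) (Fin n) ℤ) :
    cst n (c • Y) = (c : ℚ) • cst n Y := by
  ext i j
  rw [Matrix.smul_apply, cst_apply, cst_apply, Matrix.smul_apply, smul_eq_mul, smul_eq_mul,
    Int.cast_mul]

theorem rank_add_le' {n : ℕ} (A B : Matrix (Fin n) (Fin n) ℚ) :
    (A + B).rank ≤ A.rank + B.rank := by
  unfold Matrix.rank
  rw [Matrix.mulVecLin_add]
  refine le_trans (Submodule.finrank_mono (t := LinearMap.range A.mulVecLin ⊔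
    LinearMap.range B.mulVecLin) ?_) (Submodule.finrank_add_le_finrank_add_finrank _ _)
  rintro _ ⟨x, rfl⟩
  exact Submodule.add_mem_sup ⟨x, rfl⟩ ⟨x, rfl⟩

/-- Bounded sequences. -/
noncomputable def R1 : Subring (∀ n : ℕ, Matrix (Fin n) (Fin n) ℚ) where
  carrier := {x | ∃ s : ℕ, ∀ n, ∃ Y, (2 : ℚ) ^ s • x n = cst n Y}
  mul_mem' := by
    rintro a b ⟨s, hs⟩ ⟨t, ht⟩
    refine ⟨s + t, fun n => ?_⟩
    obtain ⟨Y, hY⟩ := hs n
    obtain ⟨Z, hZ⟩ := ht n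
    refine ⟨Y * Z, ?_⟩
    rw [map_mul, ← hY, ← hZ, Pi.mul_apply, smul_mul_smul_comm, pow_add]
  one_mem' := ⟨0, fun n => ⟨1, by simp⟩⟩
  add_mem' := by
    rintro a b ⟨s, hs⟩ ⟨t, ht⟩
    refine ⟨s + t, fun n => ?_⟩
    obtain ⟨Y, hY⟩ := hs n
    obtain ⟨Z, hZ⟩ := ht n
    refine ⟨(2 : ℤ) ^ t • Y + (2 : ℤ) ^ s • Z, ?_⟩
    have h1 : cst n ((2 : ℤ) ^ t • Y) = (2 : ℚ) ^ t • cst n Y := by
      rw [cst_smul]; push_cast; rfl
    have h2 : cst n ((2 : ℤ) ^ s • Z) = (2 : ℚ) ^ s • cst n Z := by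
      rw [cst_smul]; push_cast; rfl
    rw [map_add, h1, h2, ← hY, ← hZ, Pi.add_apply, smul_add, smul_smul, smul_smul, pow_add,
      mul_comm ((2 : ℚ) ^ t)]
  zero_mem' := ⟨0, fun n => ⟨0, by simp⟩⟩
  neg_mem' := by
    rintro a ⟨s, hs⟩
    refine ⟨s, fun n => ?_⟩
    obtain ⟨Y, hY⟩ := hs n
    exact ⟨-Y, by rw [map_neg, ← hY]; simp⟩

/-- The predicate small at level k. -/
def Sm (k n : ℕ) (x : Matrix (Fin n) (Fin n) ℚ) : Prop :=
  ∃ z : Matrix (Fin n) (Fin n) ℚ, z.rank * 2 ^ k < n ∧ ∃ Y, x = z + (2 : ℚ) ^ k • cst n Y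

theorem Sm.mono {k l n : ℕ} (h : k ≤ l) {x : Matrix (Fin n) (Fin n) ℚ} (hx : Sm l n x) :
    Sm k n x := by
  obtain ⟨z, hz, Y, rfl⟩ := hx
  refine ⟨z, ?_, (2 : ℤ) ^ (l - k) • Y, ?_⟩
  · have : 2 ^ k ≤ 2 ^ l := Nat.pow_le_pow_right (by norm_num) h
    calc z.rank * 2 ^ k ≤ z.rank * 2 ^ l := Nat.mul_le_mul_left _ this
      _ < n := hz
  · have h1 : cst n ((2 : ℤ) ^ (l - k) • Y) = (2 : ℚ) ^ (l - k) • cst n Y := by
      rw [cst_smul]; push_cast; rfl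
    rw [h1, smul_smul, ← pow_add]
    congr 3
    omega

theorem rank_neg' {n : ℕ} (z : Matrix (Fin n) (Fin n) ℚ) : (-z).rank = z.rank := by
  have : -z = (-1 : ℚ) • z := by simp
  apply le_antisymm
  · have : -z = (-1 : Matrix (Fin n) (Fin n) ℚ) * z := by simp
    rw [this]
    exact Matrix.rank_mul_le_right _ _
  · have : z = (-1 : Matrix (Fin n) (Fin n) ℚ) * (-z) := by simp
    rw [this]
    refine (Matrix.rank_mul_le_right _ _).trans ?_
    simp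

theorem Sm.neg {k n : ℕ} {x : Matrix (Fin n) (Fin n) ℚ} (hx : Sm k n x) : Sm k n (-x) := by
  obtain ⟨z, hz, Y, rfl⟩ := hx
  refine ⟨-z, by rwa [rank_neg'], -Y, ?_⟩
  rw [map_neg, smul_neg, neg_add]

theorem Sm.add {k n : ℕ} {x y : Matrix (Fin n) (Fin n) ℚ} (hx : Sm (k + 1) n x)
    (hy : Sm (k + 1) n y) : Sm k n (x + y) := by
  obtain ⟨z, hz, Y, rfl⟩ := hx
  obtain ⟨w, hw, Z, rfl⟩ := hy
  refine ⟨z + w, ?_, (2 : ℤ) • (Y + Z), ?_⟩
  · have h1 := rank_add_le' z w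
    have h2 : (z + w).rank * 2 ^ (k + 1) ≤ (z.rank + w.rank) * 2 ^ (k + 1) :=
      Nat.mul_le_mul_right _ h1
    rw [add_mul] at h2
    have h3 : (z + w).rank * 2 ^ (k + 1) = 2 * ((z + w).rank * 2 ^ k) := by
      rw [pow_succ]
      ring
    omega
  · have h1 : cst n ((2 : ℤ) • (Y + Z)) = (2 : ℚ) • (cst n Y + cst n Z) := by
      rw [cst_smul, map_add]; push_cast; rfl
    rw [h1, smul_smul, ← pow_succ, smul_add]
    abel

theorem Sm.mul {k n : ℕ} {x y : Matrix (Fin n) (Fin n) ℚ} (hx : Sm (k + 1) n x)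
    (hy : Sm (k + 1) n y) : Sm k n (x * y) := by
  obtain ⟨z, hz, Y, rfl⟩ := hx
  obtain ⟨w, hw, Z, rfl⟩ := hy
  refine ⟨z * (w + (2 : ℚ) ^ (k + 1) • cst n Z) + (2 : ℚ) ^ (k + 1) • cst n Y * w, ?_,
    (2 : ℤ) ^ (k + 2) • (Y * Z), ?_⟩
  · have h1 := rank_add_le' (z * (w + (2 : ℚ) ^ (k + 1) • cst n Z))
      ((2 : ℚ) ^ (k + 1) • cst n Y * w)
    have h4 := Matrix.rank_mul_le_left z (w + (2 : ℚ) ^ (k + 1) • cst n Z)
    have h5 := Matrix.rank_mul_le_right ((2 : ℚ) ^ (k + 1) • cst n Y) w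
    set Q := (z * (w + (2 : ℚ) ^ (k + 1) • cst n Z) + (2 : ℚ) ^ (k + 1) • cst n Y * w)
    have h2 : Q.rank * 2 ^ (k + 1) ≤ (z.rank + w.rank) * 2 ^ (k + 1) :=
      Nat.mul_le_mul_right _ (h1.trans (add_le_add h4 h5))
    rw [add_mul] at h2
    have h3 : Q.rank * 2 ^ (k + 1) = 2 * (Q.rank * 2 ^ k) := by
      rw [pow_succ]
      ring
    omega
  · have h1 : cst n ((2 : ℤ) ^ (k + 2) • (Y * Z)) = (2 : ℚ) ^ (k + 2) • (cst n Y * cst n Z) := by
      rw [cst_smul, map_mul]; push_cast; rfl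
    rw [h1, smul_smul, ← pow_add]
    have h2 : (2 : ℚ) ^ (k + 1) • cst n Y * (2 : ℚ) ^ (k + 1) • cst n Z =
        (2 : ℚ) ^ (k + (k + 2)) • (cst n Y * cst n Z) := by
      rw [smul_mul_smul_comm, ← pow_add]
      congr 2
      omega
    rw [← h2, add_mul, mul_add, mul_add]
    abel

theorem Sm.left {k s n : ℕ} {c x : Matrix (Fin n) (Fin n) ℚ} (hc : ∃ Y, (2 : ℚ) ^ s • c = cst n Y)
    (hx : Sm (k + s) n x) : Sm k n (c * x) := by
  obtain ⟨Y, hY⟩ := hc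
  obtain ⟨z, hz, Z, rfl⟩ := hx
  refine ⟨c * z, ?_, Y * Z, ?_⟩
  · have h1 := Matrix.rank_mul_le_right c z
    calc (c * z).rank * 2 ^ k ≤ z.rank * 2 ^ (k + s) :=
          Nat.mul_le_mul h1 (Nat.pow_le_pow_right (by norm_num) (by omega))
      _ < n := hz
  · rw [map_mul, ← hY, mul_add, Matrix.mul_smul, Matrix.smul_mul, smul_smul, pow_add]

theorem Sm.right {k s n : ℕ} {c x : Matrix (Fin n) (Fin n) ℚ} (hc : ∃ Y, (2 : ℚ) ^ s • c = cst n Y)
    (hx : Sm (k + s) n x) : Sm k n (x * c) := by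
  obtain ⟨Y, hY⟩ := hc
  obtain ⟨z, hz, Z, rfl⟩ := hx
  refine ⟨z * c, ?_, Z * Y, ?_⟩
  · have h1 := Matrix.rank_mul_le_left z c
    calc (z * c).rank * 2 ^ k ≤ z.rank * 2 ^ (k + s) :=
          Nat.mul_le_mul h1 (Nat.pow_le_pow_right (by norm_num) (by omega))
      _ < n := hz
  · rw [map_mul, ← hY, add_mul, Matrix.mul_smul, Matrix.smul_mul, smul_smul, pow_add]

/-- Basic neighbourhoods of `0`. -/
def Nb (k : ℕ) : Set R1 := {x | ∀ᶠ n in atTop, Sm k n (x.1 n)}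

theorem Nb_mono {k l : ℕ} (h : k ≤ l) : Nb l ⊆ Nb k := by
  intro x hx
  filter_upwards [hx] with n hn
  exact hn.mono h

noncomputable def basis : RingFilterBasis R1 where
  sets := Set.range Nb
  nonempty := ⟨_, ⟨0, rfl⟩⟩
  inter_sets := by
    rintro _ _ ⟨k, rfl⟩ ⟨l, rfl⟩
    exact ⟨_, ⟨max k l, rfl⟩, fun x hx => ⟨Nb_mono (le_max_left _ _) hx,
      Nb_mono (le_max_right _ _) hx⟩⟩
  zero' := by
    rintro _ ⟨k, rfl⟩
    show ∀ᶠ n in atTop, Sm k n ((0 : R1).1 n)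
    filter_upwards [eventually_gt_atTop 0] with n hn
    exact ⟨0, by simpa using hn, 0, by simp⟩
  add' := by
    rintro _ ⟨k, rfl⟩
    refine ⟨_, ⟨k + 1, rfl⟩, ?_⟩
    rintro _ ⟨x, hx, y, hy, rfl⟩
    show ∀ᶠ n in atTop, Sm k n ((x + y).1 n)
    filter_upwards [hx, hy] with n h1 h2
    exact h1.add h2
  neg' := by
    rintro _ ⟨k, rfl⟩
    refine ⟨_, ⟨k, rfl⟩, ?_⟩
    intro x hx
    show ∀ᶠ n in atTop, Sm k n ((-x).1 n)
    filter_upwards [hx] with n h1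
    exact h1.neg
  conj' := by
    rintro x₀ _ ⟨k, rfl⟩
    exact ⟨_, ⟨k, rfl⟩, fun x hx => by simpa using hx⟩
  mul' := by
    rintro _ ⟨k, rfl⟩
    refine ⟨_, ⟨k + 1, rfl⟩, ?_⟩
    rintro _ ⟨x, hx, y, hy, rfl⟩
    show ∀ᶠ n in atTop, Sm k n ((x * y).1 n)
    filter_upwards [hx, hy] with n h1 h2
    exact h1.mul h2
  mul_left' := by
    rintro x₀ _ ⟨k, rfl⟩
    obtain ⟨s, hs⟩ := x₀.2
    refine ⟨_, ⟨k + s, rfl⟩, ?_⟩
    intro x hx
    show ∀ᶠ n in atTop, Sm k n ((x₀ * x).1 n)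
    filter_upwards [hx] with n h1
    exact Sm.left (hs n) h1
  mul_right' := by
    rintro x₀ _ ⟨k, rfl⟩
    obtain ⟨s, hs⟩ := x₀.2
    refine ⟨_, ⟨k + s, rfl⟩, ?_⟩
    intro x hx
    show ∀ᶠ n in atTop, Sm k n ((x * x₀).1 n)
    filter_upwards [hx] with n h1
    exact Sm.right (hs n) h1

noncomputable instance topR1 : TopologicalSpace R1 := basis.topology

instance ringR1 : IsTopologicalRing R1 := basis.isTopologicalRing

theorem mem_nhds_iff' (U : Set R1) : U ∈ nhds (0 : R1) ↔ ∃ k, Nb k ⊆ U := by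
  have h := basis.toAddGroupFilterBasis.nhds_zero_hasBasis
  rw [show (nhds (0 : R1)) = @nhds R1 basis.toAddGroupFilterBasis.topology 0 from rfl, h.mem_iff]
  constructor
  · rintro ⟨V, ⟨k, rfl⟩, hV⟩
    exact ⟨k, hV⟩
  · rintro ⟨k, hk⟩
    exact ⟨_, ⟨k, rfl⟩, hk⟩

theorem one_notMem : (1 : R1) ∉ Nb 1 := by
  intro h
  have h' : ∀ᶠ n in atTop, Sm 1 n (1 : Matrix (Fin n) (Fin n) ℚ) := h
  obtain ⟨n, hn, z, hz, Y, hY⟩ := ((eventually_gt_atTop 0).and h').exists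
  have hz1 : z = cst n (1 - (2 : ℤ) • Y) := by
    have h1 : cst n ((2 : ℤ) • Y) = (2 : ℚ) ^ 1 • cst n Y := by
      rw [cst_smul, pow_one]; push_cast; rfl
    rw [map_sub, map_one, h1, hY]
    simp
  have hdet : ((1 : Matrix (Fin n) (Fin n) ℤ) - (2 : ℤ) • Y).det ≠ 0 := by
    intro h0
    have h1 : (Int.castRingHom (ZMod 2)) ((1 : Matrix (Fin n) (Fin n) ℤ) - (2 : ℤ) • Y).det = 1 := by
      rw [RingHom.map_det]
      have : (Int.castRingHom (ZMod 2)).mapMatrix ((1 : Matrix (Fin n) (Fin n) ℤ) - (2 : ℤ) • Y) =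
          1 := by
        rw [map_sub, map_one]
        have h2 : (Int.castRingHom (ZMod 2)).mapMatrix ((2 : ℤ) • Y) = 0 := by
          ext i j
          have h3 : ((2 : ℤ) : ZMod 2) = 0 := by decide
          simp only [RingHom.mapMatrix_apply, Matrix.map_apply, Matrix.smul_apply, smul_eq_mul,
            map_mul, Matrix.zero_apply]
          simp only [eq_intCast, h3, zero_mul]
        rw [h2, sub_zero]
      rw [this, Matrix.det_one]
    rw [h0, map_zero] at h1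
    exact zero_ne_one h1
  have hzdet : z.det ≠ 0 := by
    rw [hz1]
    have : (cst n (1 - (2 : ℤ) • Y)).det = (Int.castRingHom ℚ) (1 - (2 : ℤ) • Y).det := by
      rw [RingHom.map_det]
      rfl
    rw [this]
    simpa using hdet
  have hrank : z.rank = n := by
    have hu : IsUnit z := (Matrix.isUnit_iff_isUnit_det z).mpr (isUnit_iff_ne_zero.mpr hzdet)
    rw [Matrix.rank_of_isUnit z hu]
    simp
  rw [hrank] at hz
  omega

end Pool.Agent.H20.SemiRing
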