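import Pool.Agent.H20.SemiA

set_option autoImplicit false

namespace Pool.Agent.H20.SemiRing

open Filter Finset

/-- The block matrix unit. -/
def uu (n r i : ℕ) : Matrix (Fin n) (Fin n) ℤ :=
  fun s t => if (t : ℕ) < r ∧ (s : ℕ) = i * r + t then 1 else 0

def qq (n r : ℕ) : Matrix (Fin n) (Fin n) ℤ :=
  Matrix.diagonal (fun t => if (t : ℕ) < r then 1 else 0)

theorem uqu (n r i : ℕ) (hr : r ≤ n) (s s' : Fin n) :
    (uu n r i * qq n r * (uu n r i).transpose) s s' =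
      if s = s' ∧ i * r ≤ (s : ℕ) ∧ (s : ℕ) < (i + 1) * r then 1 else 0 := by
  rw [Matrix.mul_apply]
  have h1 : ∀ t : Fin n, (uu n r i * qq n r) s t * (uu n r i).transpose t s' =
      if (s = s' ∧ (t : ℕ) < r ∧ (s : ℕ) = i * r + t) then 1 else 0 := by
    intro t
    rw [qq, Matrix.mul_diagonal, Matrix.transpose_apply]
    simp only [uu]
    by_cases h1 : (t : ℕ) < r
    · by_cases h2 : (s : ℕ) = i * r + t
      · by_cases h3 : (s' : ℕ) = i * r + t
        · have : s = s' := Fin.ext (h2.trans h3.symm)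
          simp [h1, h2, h3, this]
        · have : ¬ s = s' := fun h => h3 (h ▸ h2)
          simp [h3, this]
      · simp [h2]
    · simp [h1]
  rw [Finset.sum_congr rfl (fun t _ => h1 t)]
  by_cases hs : s = s' ∧ i * r ≤ (s : ℕ) ∧ (s : ℕ) < (i + 1) * r
  · rw [if_pos hs]
    obtain ⟨h2, h3, h4⟩ := hs
    rw [add_mul, one_mul] at h4
    have hlt : (s : ℕ) - i * r < n := by omega
    rw [Finset.sum_eq_single (⟨(s : ℕ) - i * r, hlt⟩ : Fin n)]
    · rw [if_pos ⟨h2, by simp only; omega, by simp only; omega⟩]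
    · intro t _ ht
      rw [if_neg]
      rintro ⟨_, _, h5⟩
      exact ht (Fin.ext (by simp only; omega))
    · intro h
      exact absurd (Finset.mem_univ _) h
  · rw [if_neg hs]
    apply Finset.sum_eq_zero
    intro t _
    rw [if_neg]
    rintro ⟨h2, h3, h4⟩
    apply hs
    refine ⟨h2, by omega, ?_⟩
    rw [add_mul, one_mul]
    omega

theorem sum_uqu (n r N : ℕ) (hr : r ≤ n) (hN : n ≤ N * r) :
    ∑ i ∈ range N, uu n r i * qq n r * (uu n r i).transpose = 1 := by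
  ext s s'
  rw [Matrix.sum_apply, Finset.sum_congr rfl (fun i _ => uqu n r i hr s s')]
  by_cases h : s = s'
  · subst h
    have hs := s.2
    have hr0 : 0 < r := by
      rcases Nat.eq_zero_or_pos r with h0 | h0
      · subst h0
        omega
      · exact h0
    rw [Matrix.one_apply_eq, Finset.sum_eq_single ((s : ℕ) / r)]
    · rw [if_pos]
      refine ⟨rfl, Nat.div_mul_le_self _ _, ?_⟩
      have := Nat.lt_div_mul_add (a := (s : ℕ)) hr0
      rw [add_mul, one_mul]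
      exact this
    · intro i _ hi
      rw [if_neg]
      rintro ⟨_, h1, h2⟩
      apply hi
      exact (Nat.div_eq_of_lt_le h1 h2).symm
    · intro hmem
      exfalso
      apply hmem
      rw [Finset.mem_range]
      exact Nat.div_lt_of_lt_mul (by rw [mul_comm]; omega)
  · rw [Matrix.one_apply_ne h]
    apply Finset.sum_eq_zero
    intro i _
    rw [if_neg]
    rintro ⟨h1, _⟩
    exact h h1

theorem cst_transpose (n : ℕ) (Y : Matrix (Fin n) (Fin n) ℤ) :
    cst n Y.transpose = (cst n Y).transpose := rfl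

theorem rank_qq (n r : ℕ) (c : ℚ) : (c • cst n (qq n r)).rank ≤ r := by
  have h1 : c • cst n (qq n r) = (c • (1 : Matrix (Fin n) (Fin n) ℚ)) * cst n (qq n r) := by
    rw [Matrix.smul_mul, one_mul]
  rw [h1]
  refine (Matrix.rank_mul_le_right _ _).trans ?_
  have h2 : cst n (qq n r) = Matrix.diagonal (fun t : Fin n => if (t : ℕ) < r then (1 : ℚ) else 0) := by
    ext i j
    rw [cst_apply, qq, Matrix.diagonal_apply, Matrix.diagonal_apply]
    split_ifs <;> simp
  rw [h2, Matrix.rank_diagonal]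
  have hlt : ∀ i : {i : Fin n // (if (i : ℕ) < r then (1 : ℚ) else 0) ≠ 0}, ((i : Fin n) : ℕ) < r := by
    rintro ⟨i, hi⟩
    by_contra hc
    exact hi (if_neg hc)
  have := Fintype.card_le_of_injective
    (fun i : {i : Fin n // (if (i : ℕ) < r then (1 : ℚ) else 0) ≠ 0} => (⟨(i : Fin n), hlt i⟩ : Fin r))
    (by
      intro i j h
      apply Subtype.ext
      apply Fin.ext
      have := congrArg (fun z : Fin r => z.val) h
      exact this)
  simpa using this

theorem star1 (k : ℕ) : ∃ N : ℕ, ∀ l, ∃ a ∈ Nb k, ∃ b f : ℕ → R1,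
    (∀ i, b i ∈ Nb l ∧ f i ∈ Nb l) ∧ ∑ i ∈ range N, b i * a * f i = 1 := by
  refine ⟨2 ^ (k + 1), fun l => ?_⟩
  set N := 2 ^ (k + 1) with hN
  have hN1 : 1 ≤ N := Nat.one_le_two_pow
  let r : ℕ → ℕ := fun n => (n + N - 1) / N
  have hr1 : ∀ n, n ≤ N * r n := by
    intro n
    have h := Nat.lt_div_mul_add (a := n + N - 1) (b := N) (by omega)
    have h2 : N * r n = (n + N - 1) / N * N := by rw [mul_comm]
    omega
  have hr2 : ∀ n, r n * N ≤ n + N - 1 := fun n => Nat.div_mul_le_self _ _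
  have hr3 : ∀ n, r n ≤ n := by
    intro n
    rcases Nat.eq_zero_or_pos n with h0 | h0
    · subst h0
      have : r 0 = 0 := Nat.div_eq_of_lt (by omega)
      omega
    · apply Nat.div_le_of_le_mul
      have key : ∀ a b : ℕ, 1 ≤ a → 1 ≤ b → a + b - 1 ≤ b * a := by
        intro a b ha hb
        obtain ⟨a', rfl⟩ := Nat.exists_eq_add_of_le ha
        obtain ⟨b', rfl⟩ := Nat.exists_eq_add_of_le hb
        have : (1 + b') * (1 + a') = 1 + a' + b' + a' * b' := by ring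
        omega
      exact key n N h0 hN1
  let a : R1 := ⟨fun n => ((2 : ℚ) ^ (2 * l))⁻¹ • cst n (qq n (r n)), ⟨2 * l, fun n => ⟨qq n (r n), by
    rw [smul_smul, mul_inv_cancel₀ (by positivity), one_smul]⟩⟩⟩
  let b : ℕ → R1 := fun i => ⟨fun n => (2 : ℚ) ^ l • cst n (uu n (r n) i), ⟨0, fun n =>
    ⟨(2 : ℤ) ^ l • uu n (r n) i, by rw [cst_smul, pow_zero, one_smul]; push_cast; rfl⟩⟩⟩
  let f : ℕ → R1 := fun i => ⟨fun n => (2 : ℚ) ^ l • cst n (uu n (r n) i).transpose, ⟨0, fun n =>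
    ⟨(2 : ℤ) ^ l • (uu n (r n) i).transpose, by
      rw [cst_smul, pow_zero, one_smul]; push_cast; rfl⟩⟩⟩
  refine ⟨a, ?_, b, f, fun i => ⟨?_, ?_⟩, ?_⟩
  · show ∀ᶠ n in atTop, Sm k n (((2 : ℚ) ^ (2 * l))⁻¹ • cst n (qq n (r n)))
    filter_upwards [eventually_ge_atTop (2 ^ (k + 1))] with n hn
    refine ⟨_, ?_, 0, by simp; rfl⟩
    have h1 := rank_qq n (r n) ((2 : ℚ) ^ (2 * l))⁻¹
    have h2 : (((2 : ℚ) ^ (2 * l))⁻¹ • cst n (qq n (r n))).rank * 2 ^ k ≤ r n * 2 ^ k :=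
      Nat.mul_le_mul_right _ h1
    have h3 := hr2 n
    have h4 : r n * N = 2 * (r n * 2 ^ k) := by
      rw [hN, pow_succ]
      ring
    omega
  · show ∀ᶠ n in atTop, Sm l n ((2 : ℚ) ^ l • cst n (uu n (r n) i))
    filter_upwards [eventually_gt_atTop 0] with n hn
    exact ⟨0, by simpa using hn, _, by rw [zero_add]⟩
  · show ∀ᶠ n in atTop, Sm l n ((2 : ℚ) ^ l • cst n (uu n (r n) i).transpose)
    filter_upwards [eventually_gt_atTop 0] with n hn
    exact ⟨0, by simpa using hn, _, by rw [zero_add]⟩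
  · apply Subtype.ext
    funext n
    have h1 : (∑ i ∈ range N, b i * a * f i : R1).1 n =
        ∑ i ∈ range N, ((2 : ℚ) ^ l • cst n (uu n (r n) i)) *
          (((2 : ℚ) ^ (2 * l))⁻¹ • cst n (qq n (r n))) *
          ((2 : ℚ) ^ l • cst n (uu n (r n) i).transpose) := by
      rw [AddSubmonoidClass.coe_finsetSum, Finset.sum_apply]
      rfl
    rw [h1]
    have h2 : ∀ i ∈ range N, ((2 : ℚ) ^ l • cst n (uu n (r n) i)) *
          (((2 : ℚ) ^ (2 * l))⁻¹ • cst n (qq n (r n))) *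
          ((2 : ℚ) ^ l • cst n (uu n (r n) i).transpose) =
          cst n (uu n (r n) i * qq n (r n) * (uu n (r n) i).transpose) := by
      intro i _
      rw [map_mul, map_mul, smul_mul_smul_comm, smul_mul_smul_comm]
      have : (2 : ℚ) ^ l * ((2 : ℚ) ^ (2 * l))⁻¹ * (2 : ℚ) ^ l = 1 := by
        rw [two_mul, pow_add]
        field_simp
      rw [this, one_smul]
    rw [Finset.sum_congr rfl h2, ← map_sum, sum_uqu n (r n) N (hr3 n) (hr1 n), map_one]
    rfl

/-- The property (*). -/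
theorem star (U : Set R1) (hU : U ∈ nhds (0 : R1)) : ∃ N : ℕ, ∀ U' ∈ nhds (0 : R1), ∃ a ∈ U,
    ∃ b f : ℕ → R1, (∀ i, b i ∈ U' ∧ f i ∈ U') ∧ ∑ i ∈ range N, b i * a * f i = 1 := by
  obtain ⟨k, hk⟩ := (mem_nhds_iff' U).mp hU
  obtain ⟨N, hN⟩ := star1 k
  refine ⟨N, fun U' hU' => ?_⟩
  obtain ⟨l, hl⟩ := (mem_nhds_iff' U').mp hU'
  obtain ⟨a, ha, b, f, hbf, h⟩ := hN l
  exact ⟨a, hk ha, b, f, fun i => ⟨hl (hbf i).1, hl (hbf i).2⟩, h⟩

end Pool.Agent.H20.SemiRing
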