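import Pool.Agent.H20.SemiB

set_option autoImplicit false

namespace Pool.Agent.H20.SemiRing

open Filter Finset

/-- The monoid of self-maps of `Option ℕ`. -/
abbrev GG : Type := Function.End (Option ℕ)

def hh (i : ℕ) : GG := fun o => o.map (fun n => Nat.pair i n)

def ggm (i : ℕ) : GG := fun o => o.bind (fun m => if (Nat.unpair m).1 = i then some (Nat.unpair m).2
  else none)

def zz : GG := fun _ => none

theorem gh (i j : ℕ) : ggm i * hh j = if i = j then 1 else zz := by
  funext o
  have h1 : (ggm i * hh j) o = ggm i (hh j o) := rfl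
  rw [h1]
  cases o with
  | none =>
    split_ifs
    · rfl
    · rfl
  | some n =>
    by_cases h : i = j
    · subst h
      rw [if_pos rfl]
      simp [ggm, hh]
      rfl
    · rw [if_neg h]
      have : ¬ j = i := fun h' => h h'.symm
      simp [ggm, hh, zz, this]

theorem zz_mul : zz * zz = zz := rfl

theorem zz_ne : zz ≠ (1 : GG) := by
  intro h
  have := congrFun h (some 0)
  have h2 : (1 : GG) (some 0) = some 0 := rfl
  rw [h2] at this
  simp [zz] at this

theorem mul_nhds {A : Type} [Ring A] [TopologicalSpace A] [IsTopologicalRing A] {V : Set A}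
    (hV : V ∈ nhds (0 : A)) : ∃ W ∈ nhds (0 : A), ∀ x ∈ W, ∀ y ∈ W, x * y ∈ V := by
  have hm : Filter.Tendsto (fun p : A × A => p.1 * p.2) (nhds (0, 0)) (nhds 0) := by
    have := (continuous_mul (M := A)).tendsto (0, 0)
    simp only [mul_zero] at this
    exact this
  have := hm hV
  rw [Filter.mem_map, nhds_prod_eq] at this
  obtain ⟨V1, hV1, V2, hV2, hVV⟩ := Filter.mem_prod_iff.mp this
  refine ⟨V1 ∩ V2, Filter.inter_mem hV1 hV2, fun x hx y hy => ?_⟩
  exact hVV (Set.mk_mem_prod hx.1 hy.2)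

theorem sub_nhds {A : Type} [Ring A] [TopologicalSpace A] [IsTopologicalRing A] {V : Set A}
    (hV : V ∈ nhds (0 : A)) : ∃ W ∈ nhds (0 : A), ∀ x ∈ W, ∀ y ∈ W, x - y ∈ V := by
  have hm : Filter.Tendsto (fun p : A × A => p.1 - p.2) (nhds (0, 0)) (nhds 0) := by
    have := (continuous_sub (G := A)).tendsto (0, 0)
    simp only [sub_zero] at this
    exact this
  have := hm hV
  rw [Filter.mem_map, nhds_prod_eq] at this
  obtain ⟨V1, hV1, V2, hV2, hVV⟩ := Filter.mem_prod_iff.mp this
  refine ⟨V1 ∩ V2, Filter.inter_mem hV1 hV2, fun x hx y hy => ?_⟩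
  exact hVV (Set.mk_mem_prod hx.1 hy.2)

theorem mul3_nhds {A : Type} [Ring A] [TopologicalSpace A] [IsTopologicalRing A] {V : Set A}
    (hV : V ∈ nhds (0 : A)) :
    ∃ W ∈ nhds (0 : A), ∀ x ∈ W, ∀ y ∈ W, ∀ w ∈ W, x * y * w ∈ V := by
  obtain ⟨W1, h1, h1'⟩ := mul_nhds hV
  obtain ⟨W2, h2, h2'⟩ := mul_nhds h1
  exact ⟨W1 ∩ W2, Filter.inter_mem h1 h2, fun x hx y hy w hw => h1' _ (h2' x hx.2 y hy.2) w hw.1⟩

theorem sum_nhds {A : Type} [Ring A] [TopologicalSpace A] [IsTopologicalRing A] (M : ℕ) :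
    ∀ W ∈ nhds (0 : A), ∃ W' ∈ nhds (0 : A),
      ∀ s : ℕ → A, (∀ i, i < M → s i ∈ W') → ∑ i ∈ range M, s i ∈ W := by
  induction M with
  | zero =>
    intro W hW
    exact ⟨W, hW, fun s _ => by simpa using mem_of_mem_nhds hW⟩
  | succ M ih =>
    intro W hW
    obtain ⟨Y, hY, hYY⟩ := exists_nhds_zero_half hW
    obtain ⟨W', hW', h'⟩ := ih Y hY
    refine ⟨W' ∩ Y, Filter.inter_mem hW' hY, fun s hs => ?_⟩
    rw [Finset.sum_range_succ]
    exact hYY _ (h' s (fun i hi => (hs i (by omega)).1)) _ (hs M (by omega)).2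

/-- Abstract form: property (*) forces non-Hausdorffness. -/
theorem abstract {R : Type} [Ring R] [Nontrivial R] (τ₀ : TopologicalSpace R)
    (hstar : ∀ U ∈ @nhds R τ₀ 0, ∃ N : ℕ, ∀ U' ∈ @nhds R τ₀ 0, ∃ a ∈ U,
      ∃ b f : ℕ → R, (∀ i, b i ∈ U' ∧ f i ∈ U') ∧ ∑ i ∈ range N, b i * a * f i = 1)
    (τ : TopologicalSpace (MonoidAlgebra R GG)) (h2 : @T2Space _ τ)
    (hr : @IsTopologicalRing _ τ _)
    (hc : @Continuous R (MonoidAlgebra R GG) τ₀ τ (fun r => MonoidAlgebra.single (1 : GG) r)) :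
    False := by
  letI := τ₀
  letI := τ
  -- continuity of `r ↦ single g r`
  have hcg : ∀ g : GG, Continuous (fun r : R => (MonoidAlgebra.single g r : MonoidAlgebra R GG)) := by
    intro g
    have : (fun r : R => (MonoidAlgebra.single g r : MonoidAlgebra R GG)) =
        fun r => MonoidAlgebra.single (1 : GG) r * MonoidAlgebra.single g (1 : R) := by
      funext r
      rw [MonoidAlgebra.single_mul_single, one_mul, mul_one]
    rw [this]
    exact hc.mul continuous_const
  set c : MonoidAlgebra R GG := MonoidAlgebra.single (1 : GG) (1 : R) -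
    MonoidAlgebra.single zz (1 : R) with hcdef
  have hcne : c ≠ 0 := by
    intro h
    have h3 := congrArg (fun z : MonoidAlgebra R GG => z.coeff (1 : GG)) h
    simp [hcdef, MonoidAlgebra.coeff_single, Finsupp.single_apply, zz_ne] at h3
  obtain ⟨V, hV, hVc⟩ := sub_nhds (V := {c}ᶜ) (isOpen_compl_singleton.mem_nhds
    (by simpa using hcne.symm))
  obtain ⟨W, hW, hWV⟩ := mul3_nhds hV
  -- the set `U`
  have hU : {r : R | MonoidAlgebra.single (1 : GG) r ∈ W} ∈ nhds (0 : R) := by
    have := (hcg 1).tendsto 0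
    rw [MonoidAlgebra.single_zero] at this
    exact this hW
  obtain ⟨N, hN⟩ := hstar _ hU
  obtain ⟨W', hW', hW's⟩ := sum_nhds N W hW
  have hU' : {r : R | (∀ i ∈ Finset.range N, MonoidAlgebra.single (ggm i) r ∈ W' ∧
      MonoidAlgebra.single (hh i) r ∈ W') ∧ MonoidAlgebra.single zz r ∈ W'} ∈ nhds (0 : R) := by
    have hone : ∀ g : GG, ∀ᶠ r in nhds (0 : R), MonoidAlgebra.single g r ∈ W' := by
      intro g
      have := (hcg g).tendsto 0
      rw [MonoidAlgebra.single_zero] at this
      exact this hW'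
    have h1 : ∀ᶠ r in nhds (0 : R), ∀ i ∈ Finset.range N, MonoidAlgebra.single (ggm i) r ∈ W' ∧
      MonoidAlgebra.single (hh i) r ∈ W' := by
      rw [Filter.eventually_all_finset]
      intro i _
      exact (hone _).and (hone _)
    exact h1.and (hone _)
  obtain ⟨a, ha, b, f, hbf, hsum1⟩ := hN _ hU'
  -- the three factors
  set B := ∑ i ∈ range N, (MonoidAlgebra.single (ggm i) (b i) : MonoidAlgebra R GG) with hB
  set F := ∑ i ∈ range N, (MonoidAlgebra.single (hh i) (f i) : MonoidAlgebra R GG) with hF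
  set B' := ∑ i ∈ range N, (MonoidAlgebra.single zz (b i) : MonoidAlgebra R GG) with hB'
  set F' := ∑ i ∈ range N, (MonoidAlgebra.single zz (f i) : MonoidAlgebra R GG) with hF'
  have hBW : B ∈ W := hW's _ (fun i hi => ((hbf i).1.1 i (Finset.mem_range.mpr hi)).1)
  have hFW : F ∈ W := hW's _ (fun i hi => ((hbf i).2.1 i (Finset.mem_range.mpr hi)).2)
  have hB'W : B' ∈ W := hW's _ (fun i _ => (hbf i).1.2)
  have hF'W : F' ∈ W := hW's _ (fun i _ => (hbf i).2.2)
  have h1 := hWV B hBW _ ha F hFW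
  have h2' := hWV B' hB'W _ ha F' hF'W
  refine hVc _ h1 _ h2' ?_
  show B * MonoidAlgebra.single (1 : GG) a * F - B' * MonoidAlgebra.single (1 : GG) a * F' = c
  have e1 : B * MonoidAlgebra.single (1 : GG) a * F =
      ∑ i ∈ range N, ∑ j ∈ range N, MonoidAlgebra.single (ggm i * hh j) (b i * a * f j) := by
    rw [hB, hF, Finset.sum_mul, Finset.sum_mul_sum]
    apply Finset.sum_congr rfl
    intro i _
    apply Finset.sum_congr rfl
    intro j _
    rw [MonoidAlgebra.single_mul_single, MonoidAlgebra.single_mul_single, mul_one]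
  have e2 : B' * MonoidAlgebra.single (1 : GG) a * F' =
      ∑ i ∈ range N, ∑ j ∈ range N, MonoidAlgebra.single zz (b i * a * f j) := by
    rw [hB', hF', Finset.sum_mul, Finset.sum_mul_sum]
    apply Finset.sum_congr rfl
    intro i _
    apply Finset.sum_congr rfl
    intro j _
    rw [MonoidAlgebra.single_mul_single, MonoidAlgebra.single_mul_single, mul_one, zz_mul]
  rw [e1, e2, ← Finset.sum_sub_distrib]
  have e3 : ∀ i ∈ range N, (∑ j ∈ range N, MonoidAlgebra.single (ggm i * hh j) (b i * a * f j) -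
      ∑ j ∈ range N, (MonoidAlgebra.single zz (b i * a * f j) : MonoidAlgebra R GG)) =
      MonoidAlgebra.single (1 : GG) (b i * a * f i) - MonoidAlgebra.single zz (b i * a * f i) := by
    intro i hi
    rw [← Finset.sum_sub_distrib, Finset.sum_eq_single i]
    · rw [gh, if_pos rfl]
    · intro j _ hj
      rw [gh, if_neg (Ne.symm hj), sub_self]
    · intro h
      exact absurd hi h
  rw [Finset.sum_congr rfl e3, Finset.sum_sub_distrib, hcdef]
  have e4 : ∀ g : GG, ∑ i ∈ range N, (MonoidAlgebra.single g (b i * a * f i) : MonoidAlgebra R GG) =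
      MonoidAlgebra.single g 1 := by
    intro g
    rw [← hsum1]
    exact (map_sum (MonoidAlgebra.singleAddHom (R := R) g) (fun i => b i * a * f i) (range N)).symm
  rw [e4, e4]

theorem final : ∃ (R : Type) (_ : Ring R) (τ₀ : TopologicalSpace R),
    @IsTopologicalRing R τ₀ _ ∧ @T2Space R τ₀ ∧ ∃ (G : Type) (_ : Monoid G),
      ¬ ∃ τ : TopologicalSpace (MonoidAlgebra R G), @IsTopologicalRing (MonoidAlgebra R G) τ _ ∧
        @T2Space (MonoidAlgebra R G) τ ∧
        TopologicalSpace.induced (fun r : R => MonoidAlgebra.single (1 : G) r) τ = τ₀ := by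
  have hnt : Nontrivial (SeparationQuotient R1) := by
    refine ⟨⟨0, 1, ?_⟩⟩
    intro h
    have h1 : SeparationQuotient.mk (0 : R1) = SeparationQuotient.mk 1 := h
    rw [SeparationQuotient.mk_eq_mk] at h1
    have h2 : Nb 1 ∈ nhds (0 : R1) := (mem_nhds_iff' _).mpr ⟨1, subset_rfl⟩
    have h3 : (1 : R1) ∈ Nb 1 := by
      rw [h1.nhds_eq] at h2
      exact mem_of_mem_nhds h2
    exact one_notMem h3
  refine ⟨SeparationQuotient R1, inferInstance, inferInstance, inferInstance, inferInstance, GG,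
    inferInstance, ?_⟩
  rintro ⟨τ, hr, h2, hind⟩
  refine abstract (R := SeparationQuotient R1) inferInstance ?_ τ h2 hr ?_
  · intro U hU
    have hmk : Filter.Tendsto (SeparationQuotient.mk : R1 → SeparationQuotient R1) (nhds 0)
        (nhds 0) := SeparationQuotient.continuous_mk.tendsto 0
    obtain ⟨N, hN⟩ := star _ (hmk hU)
    refine ⟨N, fun U' hU' => ?_⟩
    obtain ⟨a, ha, b, f, hbf, h⟩ := hN _ (hmk hU')
    refine ⟨SeparationQuotient.mk a, ha, fun i => SeparationQuotient.mk (b i),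
      fun i => SeparationQuotient.mk (f i), fun i => hbf i, ?_⟩
    have h1 := congrArg (SeparationQuotient.mkRingHom : R1 →+* SeparationQuotient R1) h
    rw [map_sum, map_one] at h1
    rw [← h1]
    apply Finset.sum_congr rfl
    intro i _
    rfl
  · rw [← hind]
    exact continuous_induced_dom

end Pool.Agent.H20.SemiRing
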