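import Mathlib

set_option autoImplicit false

/-!
Splittable large covers, Menger's property and some cardinal characteristics of the continuum.
-/

namespace Pool.Agent.H20.Split

/-- `Large Z` is the collection `Λ(Z)` of large open covers of `Z`: families of open sets
that cover `Z`, do not contain `Z` itself, and such that every point of `Z` lies in infinitely
many members. -/
def Large (Z : Type) [TopologicalSpace Z] : Set (Set (Set Z)) :=
  {U | (∀ u ∈ U, IsOpen u) ∧ ⋃₀ U = Set.univ ∧ Set.univ ∉ U ∧ ∀ z, {u | u ∈ U ∧ z ∈ u}.Infinite}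

/-- `Split(Λ,Λ)`. -/
def SplitLL (Z : Type) [TopologicalSpace Z] : Prop :=
  ∀ U ∈ Large Z, ∃ V W : Set (Set Z), Disjoint V W ∧ V ∪ W = U ∧
    (∃ V', V' ⊆ V ∧ V' ∈ Large Z) ∧ (∃ W', W' ⊆ W ∧ W' ∈ Large Z)

/-- Menger's property. -/
def Menger (Z : Type) [TopologicalSpace Z] : Prop :=
  ∀ U : ℕ → Set (Set Z), (∀ n, (∀ u ∈ U n, IsOpen u) ∧ ⋃₀ (U n) = Set.univ) →
    ∃ F : ℕ → Set (Set Z), (∀ n, (F n).Finite ∧ F n ⊆ U n) ∧ ⋃₀ (⋃ n, F n) = Set.univ

/-- `D` is dominating: every function is eventually below some member of `D`. -/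
def IsDominating (D : Set (ℕ → ℕ)) : Prop :=
  ∀ f : ℕ → ℕ, ∃ g ∈ D, ∀ᶠ n in Filter.atTop, f n ≤ g n

/-- The dominating number. -/
noncomputable def dNum : Cardinal.{0} :=
  sInf {κ | ∃ D : Set (ℕ → ℕ), IsDominating D ∧ Cardinal.mk D = κ}

/-- `A` splits `S`. -/
def Splits (A S : Set ℕ) : Prop := (S ∩ A).Infinite ∧ (S \ A).Infinite

/-- `R` is a reaping (unsplittable) family of infinite sets. -/
def IsReaping (R : Set (Set ℕ)) : Prop :=
  (∀ S ∈ R, S.Infinite) ∧ ¬ ∃ A : Set ℕ, ∀ S ∈ R, Splits A S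

/-- The reaping number. -/
noncomputable def rNum : Cardinal.{0} :=
  sInf {κ | ∃ R : Set (Set ℕ), IsReaping R ∧ Cardinal.mk R = κ}

/-- `B` is a base of a nonprincipal ultrafilter on `ℕ`. -/
def IsUltraBase (B : Set (Set ℕ)) : Prop :=
  ∃ U : Ultrafilter ℕ, (∀ s ∈ U, s.Infinite) ∧ (∀ b ∈ B, b ∈ U) ∧ ∀ s ∈ U, ∃ b ∈ B, b ⊆ s

/-- The ultrafilter number. -/
noncomputable def uNum : Cardinal.{0} :=
  sInf {κ | ∃ B : Set (Set ℕ), IsUltraBase B ∧ Cardinal.mk B = κ}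

/-- `G` is a groupwise dense family of infinite sets: it is closed under almost subsets and for
every partition of `ℕ` into finite intervals it contains the union of some infinitely many of
the intervals. -/
def GroupwiseDense (G : Set (Set ℕ)) : Prop :=
  (∀ a ∈ G, a.Infinite) ∧
  (∀ a ∈ G, ∀ b : Set ℕ, b.Infinite → (b \ a).Finite → b ∈ G) ∧
  ∀ p : ℕ → ℕ, StrictMono p → p 0 = 0 →
    ∃ K : Set ℕ, K.Infinite ∧ (⋃ k ∈ K, Set.Ico (p k) (p (k + 1))) ∈ G

/-- The groupwise density number. -/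
noncomputable def gNum : Cardinal.{0} :=
  sInf {κ | ∃ F : Set (Set (Set ℕ)), (∀ G ∈ F, GroupwiseDense G) ∧ ⋂₀ F = ∅ ∧
    Cardinal.mk F = κ}

end Pool.Agent.H20.Split
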