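import Mathlib
import Pool.Agent.H20.SplitDefs

set_option autoImplicit false

namespace Pool.Agent.H20.Split

open Set

theorem mk_large {Z : Type} [TopologicalSpace Z] {U : Set (Set Z)} (h1 : ∀ u ∈ U, IsOpen u)
    (h2 : Set.univ ∉ U) (h3 : ∀ z, {u | u ∈ U ∧ z ∈ u}.Infinite) : U ∈ Large Z := by
  refine ⟨h1, ?_, h2, h3⟩
  rw [Set.sUnion_eq_univ_iff]
  intro z
  obtain ⟨u, hu, hz⟩ := (h3 z).nonempty
  exact ⟨u, hu, hz⟩

theorem Splits.mono {A S T : Set ℕ} (h : Splits A S) (hST : S ⊆ T) : Splits A T :=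
  ⟨h.1.mono (Set.inter_subset_inter_left _ hST), h.2.mono (Set.sdiff_subset_sdiff_left hST)⟩

/-- Every large cover of a second countable space contains a countable large cover. -/
theorem exists_countable_large {Z : Type} [TopologicalSpace Z] [SecondCountableTopology Z]
    {U : Set (Set Z)} (hU : U ∈ Large Z) : ∃ U', U' ⊆ U ∧ U'.Countable ∧ U' ∈ Large Z := by
  classical
  have h1 : ∀ B : Set Z, ∃ C : Set (Set Z), C ⊆ {u | u ∈ U ∧ B ⊆ u} ∧ C.Countable ∧
      ({u | u ∈ U ∧ B ⊆ u}.Infinite → C.Infinite) ∧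
      ({u | u ∈ U ∧ B ⊆ u}.Finite → C = {u | u ∈ U ∧ B ⊆ u}) := by
    intro B
    by_cases hf : {u | u ∈ U ∧ B ⊆ u}.Finite
    · exact ⟨_, subset_rfl, hf.countable, fun h => h, fun _ => rfl⟩
    · have hinf : {u | u ∈ U ∧ B ⊆ u}.Infinite := hf
      refine ⟨Set.range (fun n => ((Set.Infinite.natEmbedding _ hinf n) : Set Z)), ?_,
        Set.countable_range _, fun _ => ?_, fun h => absurd h hf⟩
      · rintro _ ⟨n, rfl⟩
        exact (Set.Infinite.natEmbedding _ hinf n).2
      · apply Set.infinite_range_of_injective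
        intro a b hab
        exact (Set.Infinite.natEmbedding _ hinf).injective (Subtype.ext hab)
  choose C hC1 hC2 hC3 hC4 using h1
  refine ⟨⋃ B ∈ TopologicalSpace.countableBasis Z, C B, ?_, ?_, ?_⟩
  · intro u hu
    simp only [Set.mem_iUnion] at hu
    obtain ⟨B, _, hB⟩ := hu
    exact (hC1 B hB).1
  · exact (TopologicalSpace.countable_countableBasis Z).biUnion (fun B _ => hC2 B)
  · have hsub : (⋃ B ∈ TopologicalSpace.countableBasis Z, C B) ⊆ U := by
      intro u hu
      simp only [Set.mem_iUnion] at hu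
      obtain ⟨B, _, hB⟩ := hu
      exact (hC1 B hB).1
    refine mk_large (fun u hu => hU.1 u (hsub hu)) (fun h => hU.2.2.1 (hsub h)) (fun z => ?_)
    by_cases hex : ∃ B ∈ TopologicalSpace.countableBasis Z, z ∈ B ∧
        {u | u ∈ U ∧ B ⊆ u}.Infinite
    · obtain ⟨B, hB, hz, hinf⟩ := hex
      refine (hC3 B hinf).mono (fun u hu => ⟨?_, (hC1 B hu).2 hz⟩)
      simp only [Set.mem_iUnion]
      exact ⟨B, hB, hu⟩
    · push Not at hex
      refine (hU.2.2.2 z).mono (fun u hu => ⟨?_, hu.2⟩)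
      obtain ⟨B, hB, hz, hBu⟩ :=
        (TopologicalSpace.isBasis_countableBasis Z).exists_subset_of_mem_open hu.2 (hU.1 u hu.1)
      have h2 := hex B hB hz
      simp only [Set.mem_iUnion]
      refine ⟨B, hB, ?_⟩
      rw [hC4 B h2]
      exact ⟨hu.1, hBu⟩

/-- A criterion for `Split(Λ,Λ)`. -/
theorem splitLL_of_seq {Z : Type} [TopologicalSpace Z] [SecondCountableTopology Z]
    (h : ∀ U : ℕ → Set Z, (∀ n, IsOpen (U n)) → (∀ z, {n | z ∈ U n}.Infinite) →
      ∃ A : Set ℕ, ∀ z, Splits A {n | z ∈ U n}) : SplitLL Z := by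
  classical
  intro U hU
  rcases isEmpty_or_nonempty Z with hZ | ⟨⟨z0⟩⟩
  · have hUe : U = ∅ := by
      rw [Set.eq_empty_iff_forall_notMem]
      intro u hu
      have : u = Set.univ := Set.eq_univ_of_forall (fun z => (hZ.false z).elim)
      rw [this] at hu
      exact hU.2.2.1 hu
    refine ⟨∅, ∅, Set.disjoint_empty _, by rw [hUe, Set.union_empty], ⟨∅, subset_rfl, ?_⟩,
      ⟨∅, subset_rfl, ?_⟩⟩
    · rw [← hUe]; exact hU
    · rw [← hUe]; exact hU
  · obtain ⟨U', hsub, hcnt, hL⟩ := exists_countable_large hU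
    have hinf : U'.Infinite := (hL.2.2.2 z0).mono (fun u hu => hu.1)
    have : Countable U' := hcnt.to_subtype
    have : Infinite U' := hinf.to_subtype
    obtain ⟨e⟩ : Nonempty (ℕ ≃ U') := inferInstance
    have htr : ∀ z, {n : ℕ | z ∈ ((e n : Set Z))}.Infinite := by
      intro z
      have h1 := hL.2.2.2 z
      intro hfin
      apply h1
      refine (hfin.image (fun n => ((e n : Set Z)))).subset ?_
      rintro u ⟨hu, hz⟩
      refine ⟨e.symm ⟨u, hu⟩, ?_, ?_⟩
      · simpa using hz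
      · simp
    obtain ⟨A, hA⟩ := h (fun n => ((e n : Set Z))) (fun n => hL.1 _ (e n).2) htr
    have hinj : Function.Injective (fun n => ((e n : Set Z))) := fun a b hab =>
      e.injective (Subtype.ext hab)
    have key : ∀ S : Set ℕ, (∀ z, ({n : ℕ | z ∈ ((e n : Set Z))} ∩ S).Infinite) →
        (fun n => ((e n : Set Z))) '' S ∈ Large Z := by
      intro S hS
      refine mk_large ?_ ?_ ?_
      · rintro _ ⟨n, _, rfl⟩
        exact hL.1 _ (e n).2
      · rintro ⟨n, _, hn⟩
        apply hL.2.2.1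
        rw [← hn]
        exact (e n).2
      · intro z
        refine ((hS z).image hinj.injOn).mono ?_
        rintro _ ⟨n, ⟨hn1, hn2⟩, rfl⟩
        exact ⟨⟨n, hn2, rfl⟩, hn1⟩
    refine ⟨(fun n => ((e n : Set Z))) '' A, U \ (fun n => ((e n : Set Z))) '' A,
      Set.disjoint_sdiff_right, Set.union_sdiff_cancel ?_, ⟨_, subset_rfl, key A fun z => (hA z).1⟩,
      ⟨(fun n => ((e n : Set Z))) '' Aᶜ, ?_, key Aᶜ fun z => ?_⟩⟩
    · rintro _ ⟨n, _, rfl⟩
      exact hsub (e n).2
    · rintro _ ⟨n, hn, rfl⟩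
      refine ⟨hsub (e n).2, ?_⟩
      rintro ⟨m, hm, hmn⟩
      have := hinj hmn
      subst this
      exact hn hm
    · have := (hA z).2
      rwa [Set.sdiff_eq] at this

/-- Countably many infinite sets are split by one set. -/
theorem exists_splits_countable (S : ℕ → Set ℕ) (hS : ∀ i, (S i).Infinite) :
    ∃ C : Set ℕ, ∀ i, Splits C (S i) := by
  classical
  have hnext : ∀ (i m : ℕ), ∃ n, n ∈ S i ∧ m < n := by
    intro i m
    obtain ⟨n, hn, hmn⟩ := (hS i).exists_gt m
    exact ⟨n, hn, hmn⟩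
  choose nx hnx1 hnx2 using hnext
  let c : ℕ → ℕ := fun r => Nat.rec (nx (Nat.unpair 0).1 0)
    (fun r prev => nx (Nat.unpair (r + 1)).1 prev) r
  have hc0 : c 0 = nx (Nat.unpair 0).1 0 := rfl
  have hcs : ∀ r, c (r + 1) = nx (Nat.unpair (r + 1)).1 (c r) := fun r => rfl
  have hmem : ∀ r, c r ∈ S (Nat.unpair r).1 := by
    intro r
    cases r with
    | zero => rw [hc0]; exact hnx1 _ _
    | succ r => rw [hcs]; exact hnx1 _ _
  have hmono : StrictMono c := strictMono_nat_of_lt_succ (fun r => by rw [hcs]; exact hnx2 _ _)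
  refine ⟨{n | ∃ r, c r = n ∧ (Nat.unpair r).2 % 2 = 0}, fun i => ⟨?_, ?_⟩⟩
  · have h1 : Function.Injective (fun j : ℕ => c (Nat.pair i (2 * j))) := by
      intro a b hab
      have := hmono.injective hab
      rw [Nat.pair_eq_pair] at this
      omega
    refine (Set.infinite_range_of_injective h1).mono ?_
    rintro _ ⟨j, rfl⟩
    refine ⟨?_, ⟨Nat.pair i (2 * j), rfl, ?_⟩⟩
    · have := hmem (Nat.pair i (2 * j))
      simpa using this
    · simp
  · have h1 : Function.Injective (fun j : ℕ => c (Nat.pair i (2 * j + 1))) := by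
      intro a b hab
      have := hmono.injective hab
      rw [Nat.pair_eq_pair] at this
      omega
    refine (Set.infinite_range_of_injective h1).mono ?_
    rintro _ ⟨j, rfl⟩
    refine ⟨?_, ?_⟩
    · have := hmem (Nat.pair i (2 * j + 1))
      simpa using this
    · rintro ⟨r, hr, hr2⟩
      have := hmono.injective hr
      subst this
      rw [Nat.unpair_pair] at hr2
      simp only at hr2
      omega

/-- The indexed form of `Split(Λ,Λ)`. -/
theorem indexed {Z : Type} [TopologicalSpace Z] [T1Space Z] (hZ : SplitLL Z)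
    (W : ℕ → Set Z) (hW : ∀ n, IsOpen (W n)) (hinf : ∀ z, {n | z ∈ W n}.Infinite) :
    ∃ B : Set ℕ, ∀ z, Splits B {n | z ∈ W n} := by
  classical
  let cls : ℕ → Set ℕ := fun k => {j | W j = W k}
  let G : Set Z := ⋃ k ∈ {k | (cls k).Infinite}, W k
  obtain ⟨C, hC⟩ := exists_splits_countable (fun i => if (cls i).Infinite then cls i else Set.univ)
    (by
      intro i
      split_ifs with h
      · exact h
      · exact Set.infinite_univ)
  have hC' : ∀ k, (cls k).Infinite → Splits C (cls k) := by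
    intro k hk
    have := hC k
    simp only [if_pos hk] at this
    exact this
  have hclsInf : ∀ k j, (cls k).Infinite → j ∈ cls k → (cls j).Infinite := by
    intro k j hk hj
    have : cls j = cls k := by
      ext l
      simp only [cls, Set.mem_ofPred_eq] at hj ⊢
      rw [hj]
    rw [this]; exact hk
  by_cases hGu : G = Set.univ
  · refine ⟨C, fun z => ?_⟩
    have hz : z ∈ G := by rw [hGu]; trivial
    simp only [G, Set.mem_iUnion, Set.mem_ofPred_eq] at hz
    obtain ⟨k, hk, hzk⟩ := hz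
    refine (hC' k hk).mono ?_
    intro j hj
    have hj' : W j = W k := hj
    show z ∈ W j
    rw [hj']; exact hzk
  · obtain ⟨z0, hz0⟩ := (Set.ne_univ_iff_exists_notMem G).mp hGu
    set N : Set ℕ := {k | ¬ (cls k).Infinite} with hN
    set 𝒲 : Set (Set Z) := W '' N with h𝒲
    have hGopen : IsOpen G := isOpen_biUnion (fun k _ => hW k)
    have hnotG : ∀ z, z ∉ G → ∀ k, z ∈ W k → k ∈ N := by
      intro z hz k hk hinfk
      apply hz
      simp only [G, Set.mem_iUnion, Set.mem_ofPred_eq]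
      exact ⟨k, hinfk, hk⟩
    have hmany : ∀ z, z ∉ G → {w | w ∈ 𝒲 ∧ z ∈ w}.Infinite := by
      intro z hz hfin
      apply hinf z
      have h1 : {n | z ∈ W n} ⊆ ⋃ w ∈ {w | w ∈ 𝒲 ∧ z ∈ w}, {n | n ∈ N ∧ W n = w} := by
        intro n hn
        simp only [Set.mem_iUnion]
        exact ⟨W n, ⟨⟨n, hnotG z hz n hn, rfl⟩, hn⟩, hnotG z hz n hn, rfl⟩
      refine Set.Finite.subset (hfin.biUnion ?_) h1
      rintro w ⟨⟨k, hk, rfl⟩, _⟩
      have h2 : (cls k).Finite := Set.not_infinite.mp hk
      exact h2.subset (fun n hn => hn.2)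
    have h𝒲inf : 𝒲.Infinite := (hmany z0 hz0).mono (fun w hw => hw.1)
    have hcount : 𝒲.Countable := (Set.to_countable N).image W
    obtain ⟨T, hT1, hT2, hT3, hT4⟩ : ∃ T : Set Z → Set Z, (∀ w ∈ 𝒲, IsOpen (T w)) ∧
        (∀ w ∈ 𝒲, ∀ z, z ∉ G → (z ∈ T w ↔ z ∈ w)) ∧
        (∀ S : Set Z, {w | w ∈ 𝒲 ∧ T w = S}.Finite) ∧
        (∀ z ∈ G, {w | w ∈ 𝒲 ∧ z ∉ T w}.Finite) := by
      by_cases hGf : G.Finite
      · refine ⟨fun w => w ∪ G, ?_, ?_, ?_, ?_⟩
        · rintro w ⟨k, _, rfl⟩
          exact (hW k).union hGopen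
        · intro w _ z hz
          simp [hz]
        · intro S
          refine (hGf.powerset.image (fun R => (S \ G) ∪ R)).subset ?_
          rintro w ⟨_, hw⟩
          refine ⟨w ∩ G, Set.inter_subset_right, ?_⟩
          ext z
          simp only [← hw, Set.mem_union, Set.mem_sdiff, Set.mem_inter_iff]
          tauto
        · intro z hz
          convert Set.finite_empty
          ext w
          simp [hz]
      · have hGinf : G.Infinite := hGf
        have : Countable 𝒲 := hcount.to_subtype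
        obtain ⟨ι, hι⟩ := exists_injective_nat 𝒲
        let γ : Set Z → Z := fun w => if h : w ∈ 𝒲 then
          (Set.Infinite.natEmbedding G hGinf (ι ⟨w, h⟩) : Z) else z0
        have hγG : ∀ w ∈ 𝒲, γ w ∈ G := by
          intro w hw
          simp only [γ, dif_pos hw]
          exact (Set.Infinite.natEmbedding G hGinf (ι ⟨w, hw⟩)).2
        have hγinj : ∀ w ∈ 𝒲, ∀ w' ∈ 𝒲, γ w = γ w' → w = w' := by
          intro w hw w' hw' h
          simp only [γ, dif_pos hw, dif_pos hw'] at h
          have h2 := hι ((Set.Infinite.natEmbedding G hGinf).injective (Subtype.ext h))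
          exact congrArg Subtype.val h2
        refine ⟨fun w => (w ∪ G) \ {γ w}, ?_, ?_, ?_, ?_⟩
        · rintro w ⟨k, _, rfl⟩
          exact ((hW k).union hGopen).sdiff isClosed_singleton
        · intro w hw z hz
          have : z ≠ γ w := by
            rintro rfl
            exact hz (hγG w hw)
          simp [hz, this]
        · intro S
          apply Set.Subsingleton.finite
          rintro w ⟨hw, hS⟩ w' ⟨hw', hS'⟩
          by_contra hne
          have h1 : γ w ∉ S := by rw [← hS]; simp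
          apply h1
          rw [← hS']
          refine ⟨Or.inr (hγG w hw), ?_⟩
          intro h2
          exact hne (hγinj w hw w' hw' h2)
        · intro z hz
          apply Set.Subsingleton.finite
          rintro w ⟨hw, hw2⟩ w' ⟨hw', hw2'⟩
          have h1 : z = γ w := by
            by_contra h
            exact hw2 ⟨Or.inr hz, h⟩
          have h2 : z = γ w' := by
            by_contra h
            exact hw2' ⟨Or.inr hz, h⟩
          exact hγinj w hw w' hw' (h1.symm.trans h2)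
    have himg : ∀ Q : Set (Set Z), Q ⊆ 𝒲 → Q.Infinite → (T '' Q).Infinite := by
      intro Q hQ hQi hfin
      apply hQi
      refine Set.Finite.subset (hfin.biUnion (fun S _ => hT3 S)) ?_
      intro w hw
      simp only [Set.mem_iUnion]
      exact ⟨T w, ⟨w, hw, rfl⟩, hQ hw, rfl⟩
    have hlarge : (T '' 𝒲) \ {Set.univ} ∈ Large Z := by
      refine mk_large ?_ (fun h => h.2 rfl) ?_
      · rintro _ ⟨⟨w, hw, rfl⟩, _⟩
        exact hT1 w hw
      · intro z
        have h1 : {w | w ∈ 𝒲 ∧ z ∈ T w}.Infinite := by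
          by_cases hz : z ∈ G
          · have h2 := h𝒲inf.sdiff (hT4 z hz)
            refine h2.mono ?_
            rintro w ⟨hw, hw2⟩
            refine ⟨hw, ?_⟩
            by_contra h
            exact hw2 ⟨hw, h⟩
          · refine (hmany z hz).mono ?_
            rintro w ⟨hw, hw2⟩
            exact ⟨hw, (hT2 w hw z hz).mpr hw2⟩
        have h2 := himg _ (fun w hw => hw.1) h1
        refine (h2.sdiff (Set.finite_singleton Set.univ)).mono ?_
        rintro _ ⟨⟨w, hw, rfl⟩, hne⟩
        exact ⟨⟨⟨w, hw.1, rfl⟩, hne⟩, hw.2⟩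
    obtain ⟨V, W', hdisj, hVW, ⟨V', hV', hVL⟩, ⟨W'', hW'', hWL⟩⟩ := hZ _ hlarge
    refine ⟨{k | k ∈ N ∧ T (W k) ∈ V} ∪ {k | (cls k).Infinite ∧ k ∈ C}, fun z => ?_⟩
    by_cases hz : z ∈ G
    · simp only [G, Set.mem_iUnion, Set.mem_ofPred_eq] at hz
      obtain ⟨k, hk, hzk⟩ := hz
      have hzj : ∀ j ∈ cls k, z ∈ W j := by
        intro j hj
        have hj' : W j = W k := hj
        rw [hj']; exact hzk
      constructor
      · refine (hC' k hk).1.mono ?_
        rintro j ⟨hj, hjC⟩
        exact ⟨hzj j hj, Or.inr ⟨hclsInf k j hk hj, hjC⟩⟩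
      · refine (hC' k hk).2.mono ?_
        rintro j ⟨hj, hjC⟩
        refine ⟨hzj j hj, ?_⟩
        rintro (h | h)
        · exact h.1 (hclsInf k j hk hj)
        · exact hjC h.2
    · have hrep : ∀ v ∈ V ∪ W', z ∈ v → ∃ k ∈ N, z ∈ W k ∧ T (W k) = v := by
        intro v hv hzv
        rw [hVW] at hv
        obtain ⟨⟨w, hw, rfl⟩, _⟩ := hv
        have hw' := hw
        obtain ⟨k, hk, rfl⟩ := hw'
        exact ⟨k, hk, (hT2 _ hw z hz).mp hzv, rfl⟩
      constructor
      · refine Set.Infinite.of_image (fun k => T (W k)) ((hVL.2.2.2 z).mono ?_)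
        rintro v ⟨hv, hzv⟩
        obtain ⟨k, hk, hzk, rfl⟩ := hrep v (Or.inl (hV' hv)) hzv
        exact ⟨k, ⟨hzk, Or.inl ⟨hk, hV' hv⟩⟩, rfl⟩
      · refine Set.Infinite.of_image (fun k => T (W k)) ((hWL.2.2.2 z).mono ?_)
        rintro v ⟨hv, hzv⟩
        obtain ⟨k, hk, hzk, rfl⟩ := hrep v (Or.inr (hW'' hv)) hzv
        refine ⟨k, ⟨hzk, ?_⟩, rfl⟩
        rintro (h | h)
        · exact (Set.disjoint_left.mp hdisj h.2) (hW'' hv)
        · exact hk h.1

end Pool.Agent.H20.Split
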