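import Mathlib
import Pool.Agent.H20.SplitDefs
import Pool.Agent.H20.SplitBasic

set_option autoImplicit false

namespace Pool.Agent.H20.Split

open Set Filter Topology

/-! ### Menger's property and sequences of increasing covers -/

theorem menger_seq {Y : Type} [TopologicalSpace Y] (hY : Menger Y) (G : ℕ → ℕ → Set Y)
    (ho : ∀ m k, IsOpen (G m k)) (hmono : ∀ m k l, k ≤ l → G m k ⊆ G m l)
    (hcov : ∀ m y, ∃ k, y ∈ G m k) :
    ∃ h : ℕ → ℕ, ∀ y, ∃ m, y ∈ G m (h m) := by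
  classical
  obtain ⟨F, hF, hFc⟩ := hY (fun n => Set.range (G n)) (by
    intro n
    refine ⟨?_, ?_⟩
    · rintro _ ⟨k, rfl⟩
      exact ho n k
    · rw [Set.sUnion_eq_univ_iff]
      intro y
      obtain ⟨k, hk⟩ := hcov n y
      exact ⟨G n k, ⟨k, rfl⟩, hk⟩)
  have hb : ∀ n, ∃ k, ∀ u ∈ F n, u ⊆ G n k := by
    intro n
    have h1 : ∀ u : Set Y, ∃ i, u ∈ F n → u = G n i := by
      intro u
      by_cases hu : u ∈ F n
      · obtain ⟨i, hi⟩ := (hF n).2 hu
        exact ⟨i, fun _ => hi.symm⟩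
      · exact ⟨0, fun h => absurd h hu⟩
    choose i hi using h1
    obtain ⟨b, hb⟩ := ((hF n).1.image i).bddAbove
    refine ⟨b, fun u hu => ?_⟩
    rw [hi u hu]
    exact hmono n _ _ (hb ⟨u, hu, rfl⟩)
  choose h hh using hb
  refine ⟨h, fun y => ?_⟩
  have hy : y ∈ ⋃₀ (⋃ n, F n) := by rw [hFc]; trivial
  obtain ⟨u, hu, hyu⟩ := hy
  simp only [Set.mem_iUnion] at hu
  obtain ⟨n, hn⟩ := hu
  exact ⟨n, hh n u hn hyu⟩

theorem menger_seq_inf {Y : Type} [TopologicalSpace Y] (hY : Menger Y) (G : ℕ → ℕ → Set Y)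
    (ho : ∀ m k, IsOpen (G m k)) (hmono : ∀ m k l, k ≤ l → G m k ⊆ G m l)
    (hcov : ∀ m y, ∃ k, y ∈ G m k) :
    ∃ h : ℕ → ℕ, ∀ y, ∀ N, ∃ m, N ≤ m ∧ y ∈ G m (h m) := by
  have h1 : ∀ j, ∃ h : ℕ → ℕ, ∀ y, ∃ m, y ∈ G (j + m) (h m) := fun j =>
    menger_seq hY (fun m k => G (j + m) k) (fun m k => ho _ _) (fun m k l hkl => hmono _ _ _ hkl)
      (fun m y => hcov _ y)
  choose h hh using h1
  refine ⟨fun m => ∑ j ∈ Finset.range (m + 1), h j (m - j), fun y N => ?_⟩
  obtain ⟨m, hm⟩ := hh N y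
  refine ⟨N + m, Nat.le_add_right _ _, hmono _ _ _ ?_ hm⟩
  have h2 : h N m = h N (N + m - N) := by rw [Nat.add_sub_cancel_left]
  rw [h2]
  exact Finset.single_le_sum (f := fun j => h j (N + m - j)) (fun _ _ => Nat.zero_le _)
    (Finset.mem_range.mpr (by omega))

theorem not_menger {Y : Type} [TopologicalSpace Y] [SecondCountableTopology Y]
    (hY : ¬ Menger Y) :
    ∃ O : ℕ → ℕ → Set Y, (∀ m k, IsOpen (O m k)) ∧ (∀ m k l, k ≤ l → O m k ⊆ O m l) ∧
      (∀ m y, ∃ k, y ∈ O m k) ∧ ∀ h : ℕ → ℕ, ∃ y, ∀ m, y ∉ O m (h m) := by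
  classical
  rcases isEmpty_or_nonempty Y with hE | ⟨⟨y0⟩⟩
  · exfalso
    apply hY
    intro U hU
    refine ⟨fun _ => ∅, fun n => ⟨Set.finite_empty, Set.empty_subset _⟩, ?_⟩
    exact Set.eq_univ_of_forall (fun y => (hE.false y).elim)
  · simp only [Menger] at hY
    push Not at hY
    obtain ⟨U, hU, hno⟩ := hY
    have h1 : ∀ n, ∃ t : ℕ → Set Y, (∀ i, t i ∈ U n) ∧ ∀ y, ∃ i, y ∈ t i := by
      intro n
      obtain ⟨T, hTc, hTs, hTU⟩ :=
        TopologicalSpace.isOpen_sUnion_countable (U n) (fun u hu => (hU n).1 u hu)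
      rw [(hU n).2] at hTU
      have hne : T.Nonempty := by
        have : y0 ∈ ⋃₀ T := by rw [hTU]; trivial
        obtain ⟨u, hu, _⟩ := this
        exact ⟨u, hu⟩
      obtain ⟨t, ht⟩ := hTc.exists_eq_range hne
      refine ⟨t, fun i => hTs (by rw [ht]; exact ⟨i, rfl⟩), fun y => ?_⟩
      have : y ∈ ⋃₀ T := by rw [hTU]; trivial
      obtain ⟨u, hu, hyu⟩ := this
      rw [ht] at hu
      obtain ⟨i, rfl⟩ := hu
      exact ⟨i, hyu⟩
    choose t ht1 ht2 using h1
    refine ⟨fun n k => ⋃ i ∈ Finset.range (k + 1), t n i, ?_, ?_, ?_, ?_⟩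
    · intro m k
      exact isOpen_biUnion (fun i _ => (hU m).1 _ (ht1 m i))
    · intro m k l hkl
      refine Set.biUnion_subset_biUnion_left ?_
      intro i hi
      simp only [Finset.coe_range, Set.mem_Iio] at hi ⊢
      omega
    · intro m y
      obtain ⟨i, hi⟩ := ht2 m y
      refine ⟨i, ?_⟩
      simp only [Set.mem_iUnion]
      exact ⟨i, Finset.mem_range.mpr (Nat.lt_succ_self i), hi⟩
    · intro h
      by_contra hcon
      push Not at hcon
      refine hno (fun n => t n '' (Finset.range (h n + 1) : Set ℕ)) (fun n => ⟨?_, ?_⟩) ?_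
      · exact (Finset.finite_toSet _).image _
      · rintro _ ⟨i, _, rfl⟩
        exact ht1 n i
      · rw [Set.sUnion_eq_univ_iff]
        intro y
        obtain ⟨m, hm⟩ := hcon y
        simp only [Set.mem_iUnion] at hm
        obtain ⟨i, hi, hyi⟩ := hm
        refine ⟨t m i, ?_, hyi⟩
        simp only [Set.mem_iUnion]
        exact ⟨m, i, by simpa using hi, rfl⟩

/-! ### Products with the Cantor set -/

theorem not_split_of_not_menger {Y : Type} [TopologicalSpace Y] [SecondCountableTopology Y]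
    (hY : ¬ Menger Y) : ¬ SplitLL ((ℕ → Bool) × Y) := by
  classical
  obtain ⟨O, hO, hmono, hcov, hdom⟩ := not_menger hY
  let U : ℕ → Set ((ℕ → Bool) × Y) := fun n =>
    {z | z.1 n = true ∨ ∃ i, i ≤ n ∧ ∃ k, n ≤ k ∧ z.2 ∈ O i k ∧
      ∀ j, i ≤ j → j ≤ k → z.1 j = false}
  have hUo : ∀ n, IsOpen (U n) := by
    intro n
    have h1 : U n = {z : (ℕ → Bool) × Y | z.1 n = true} ∪ ⋃ i ∈ {i | i ≤ n}, ⋃ k ∈ {k | n ≤ k},
        ((Prod.snd ⁻¹' O i k) ∩ ⋂ j ∈ Finset.Icc i k,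
          {z : (ℕ → Bool) × Y | z.1 j = false}) := by
      ext z
      simp only [U, Set.mem_ofPred_eq, Set.mem_union, Set.mem_iUnion, Set.mem_inter_iff,
        Set.mem_preimage, Set.mem_iInter, Finset.mem_Icc, and_imp, exists_prop]
    rw [h1]
    have h2 : ∀ (j : ℕ) (b : Bool), IsOpen {z : (ℕ → Bool) × Y | z.1 j = b} := by
      intro j b
      have : Continuous (fun z : (ℕ → Bool) × Y => z.1 j) :=
        (continuous_apply j).comp continuous_fst
      exact (isOpen_discrete {b}).preimage this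
    refine (h2 n true).union (isOpen_biUnion fun i _ => isOpen_biUnion fun k _ => ?_)
    exact ((hO i k).preimage continuous_snd).inter
      (isOpen_biInter_finset (fun j _ => h2 j false))
  have hinf : ∀ z, {n | z ∈ U n}.Infinite := by
    intro z
    apply Set.infinite_of_forall_exists_gt
    intro N
    obtain ⟨k0, hk0⟩ := hcov (N + 1) z.2
    have hk : z.2 ∈ O (N + 1) (max k0 (N + 1)) := hmono _ _ _ (le_max_left _ _) hk0
    by_cases hex : ∃ j, N + 1 ≤ j ∧ j ≤ max k0 (N + 1) ∧ z.1 j = true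
    · obtain ⟨j, hj1, _, hj3⟩ := hex
      exact ⟨j, Or.inl hj3, by omega⟩
    · push Not at hex
      refine ⟨N + 1, Or.inr ⟨N + 1, le_rfl, max k0 (N + 1), le_max_right _ _, hk, ?_⟩, by omega⟩
      intro j hj1 hj2
      have := hex j hj1 hj2
      simpa using this
  have hsep : ∀ m, ∃ z, (∀ n, n ≠ m → z ∈ U n) ∧ z ∉ U m := by
    intro m
    obtain ⟨y, hy⟩ := hdom (fun i => i + 1)
    refine ⟨(fun j => decide (j ≠ m), y), fun n hn => Or.inl (by simpa using hn), ?_⟩
    rintro (h | ⟨i, him, k, hmk, hyO, hall⟩)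
    · simp at h
    · have h1 := hall i le_rfl (him.trans hmk)
      have h2 := hall k (him.trans hmk) le_rfl
      simp only [ne_eq, decide_not, Bool.not_eq_eq_eq_not, Bool.not_false,
        decide_eq_true_eq] at h1 h2
      subst h1
      subst h2
      exact hy k (hmono _ _ _ (Nat.le_succ _) hyO)
  have hinj : Function.Injective U := by
    intro n m hnm
    by_contra hne
    obtain ⟨z, hz1, hz2⟩ := hsep m
    apply hz2
    rw [← hnm]
    exact hz1 n hne
  have hL : Set.range U ∈ Large ((ℕ → Bool) × Y) := by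
    refine mk_large ?_ ?_ ?_
    · rintro _ ⟨n, rfl⟩
      exact hUo n
    · rintro ⟨m, hm⟩
      obtain ⟨z, _, hz2⟩ := hsep m
      rw [hm] at hz2
      exact hz2 trivial
    · intro z
      refine ((hinf z).image hinj.injOn).mono ?_
      rintro _ ⟨n, hn, rfl⟩
      exact ⟨⟨n, rfl⟩, hn⟩
  intro hS
  obtain ⟨V, W, hdisj, hVW, ⟨V', hV', hVL⟩, ⟨W', hW', hWL⟩⟩ := hS _ hL
  obtain ⟨y1, _⟩ := hdom (fun i => i)
  have hunb : ∀ i, ∃ n, i ≤ n ∧ U n ∉ V := by
    intro i
    by_contra hcon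
    push Not at hcon
    apply hWL.2.2.2 ((fun _ => true), y1)
    refine ((Set.finite_Iio i).image U).subset ?_
    rintro w ⟨hw, _⟩
    have hw1 : w ∈ V ∪ W := Or.inr (hW' hw)
    rw [hVW] at hw1
    obtain ⟨n, rfl⟩ := hw1
    refine ⟨n, ?_, rfl⟩
    simp only [Set.mem_Iio]
    by_contra hn
    exact (Set.disjoint_left.mp hdisj (hcon n (not_lt.mp hn))) (hW' hw)
  choose h hh1 hh2 using hunb
  obtain ⟨y, hy⟩ := hdom h
  obtain ⟨v, hv, hzv⟩ := (hVL.2.2.2 ((fun j => decide (U j ∉ V)), y)).nonempty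
  have hv1 : v ∈ V ∪ W := Or.inl (hV' hv)
  rw [hVW] at hv1
  obtain ⟨n, rfl⟩ := hv1
  rcases hzv with h1 | ⟨i, hin, k, hnk, hyO, hall⟩
  · simp only [decide_eq_true_eq] at h1
    exact h1 (hV' hv)
  · have hk : k < h i := by
      by_contra hc
      have h2 := hall (h i) (hh1 i) (not_lt.mp hc)
      simp only [decide_eq_false_iff_not, not_not] at h2
      exact hh2 i h2
    exact hy i (hmono _ _ _ hk.le hyO)

/-! ### The positive result for spaces with Menger's property -/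

theorem split_prod_of_menger {X Y : Type} [TopologicalSpace X] [CompactSpace X]
    [SecondCountableTopology X] [TopologicalSpace Y] [SecondCountableTopology Y] [T1Space Y]
    (hM : Menger Y) (hS : SplitLL Y) : SplitLL (X × Y) := by
  classical
  apply splitLL_of_seq
  intro U hU hinf
  rcases isEmpty_or_nonempty X with hE | ⟨⟨x0⟩⟩
  · exact ⟨∅, fun z => (hE.false z.1).elim⟩
  let O : ℕ → ℕ → Set Y := fun m k => {y | ∀ x, ∃ n, m ≤ n ∧ n < k ∧ (x, y) ∈ U n}
  have hOo : ∀ m k, IsOpen (O m k) := by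
    intro m k
    have h1 : O m k = (Prod.snd '' ((⋃ n ∈ {n | m ≤ n ∧ n < k}, U n)ᶜ))ᶜ := by
      ext y
      simp only [O, Set.mem_ofPred_eq, Set.mem_compl_iff, Set.mem_image, Set.mem_iUnion,
        Prod.exists, exists_eq_right, not_exists, not_and, exists_prop]
      constructor
      · intro h x
        obtain ⟨n, h1, h2, h3⟩ := h x
        intro h4
        exact h4 n ⟨h1, h2⟩ h3
      · intro h x
        have := h x
        push Not at this
        obtain ⟨n, ⟨h1, h2⟩, h3⟩ := this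
        exact ⟨n, h1, h2, h3⟩
    rw [h1, isOpen_compl_iff]
    exact isClosedMap_snd_of_compactSpace _ (isOpen_biUnion (fun n _ => hU n)).isClosed_compl
  have hOm : ∀ m m' k k', m' ≤ m → k ≤ k' → O m k ⊆ O m' k' := by
    intro m m' k k' hm hk y hy x
    obtain ⟨n, h1, h2, h3⟩ := hy x
    exact ⟨n, by omega, by omega, h3⟩
  have hOc : ∀ m y, ∃ k, y ∈ O m k := by
    intro m y
    obtain ⟨k, hk⟩ := isCompact_univ.elim_directed_cover
      (fun k : ℕ => {x : X | ∃ n, m ≤ n ∧ n < k ∧ (x, y) ∈ U n}) (by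
        intro k
        have : {x : X | ∃ n, m ≤ n ∧ n < k ∧ (x, y) ∈ U n} =
            ⋃ n ∈ {n | m ≤ n ∧ n < k}, (fun x => (x, y)) ⁻¹' U n := by
          ext x
          simp only [Set.mem_ofPred_eq, Set.mem_iUnion, Set.mem_preimage, exists_prop]
          constructor
          · rintro ⟨n, h1, h2, h3⟩; exact ⟨n, ⟨h1, h2⟩, h3⟩
          · rintro ⟨n, ⟨h1, h2⟩, h3⟩; exact ⟨n, h1, h2, h3⟩
        rw [this]
        exact isOpen_biUnion (fun n _ => (hU n).preimage (by fun_prop))) (by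
        intro x _
        obtain ⟨n, hn, hmn⟩ := (hinf (x, y)).exists_gt m
        simp only [Set.mem_iUnion]
        exact ⟨n + 1, n, hmn.le, Nat.lt_succ_self n, hn⟩) (by
        refine directed_of_isDirected_le ?_
        intro k l hkl x hx
        obtain ⟨n, h1, h2, h3⟩ := hx
        exact ⟨n, h1, by omega, h3⟩)
    exact ⟨k, fun x => hk (Set.mem_univ x)⟩
  have hOlt : ∀ m k y, y ∈ O m k → m < k := by
    intro m k y hy
    obtain ⟨n, h1, h2, _⟩ := hy x0
    omega
  let G : ℕ → ℕ → Set Y := fun m k => {y | ∃ l, y ∈ O m l ∧ y ∈ O l k}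
  obtain ⟨h, hh⟩ := menger_seq_inf hM G (by
      intro m k
      have : G m k = ⋃ l, O m l ∩ O l k := by
        ext y
        simp only [G, Set.mem_ofPred_eq, Set.mem_iUnion, Set.mem_inter_iff]
      rw [this]
      exact isOpen_iUnion (fun l => (hOo m l).inter (hOo l k))) (by
      intro m k l hkl y hy
      obtain ⟨i, h1, h2⟩ := hy
      exact ⟨i, h1, hOm _ _ _ _ le_rfl hkl h2⟩) (by
      intro m y
      obtain ⟨l, hl⟩ := hOc m y
      obtain ⟨k, hk⟩ := hOc l y
      exact ⟨k, l, hl, hk⟩)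
  let H : ℕ → ℕ := fun m => m + 1 + ∑ i ∈ Finset.range (m + 1), h i
  have hHmono : ∀ m m', m ≤ m' → H m ≤ H m' := by
    intro m m' hmm
    have : ∑ i ∈ Finset.range (m + 1), h i ≤ ∑ i ∈ Finset.range (m' + 1), h i :=
      Finset.sum_le_sum_of_subset (Finset.range_mono (by omega))
    simp only [H]
    omega
  have hHh : ∀ m, h m ≤ H m := by
    intro m
    have : h m ≤ ∑ i ∈ Finset.range (m + 1), h i :=
      Finset.single_le_sum (fun _ _ => Nat.zero_le _) (Finset.mem_range.mpr (by omega))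
    simp only [H]
    omega
  let a : ℕ → ℕ := fun k => Nat.rec 0 (fun _ prev => H prev) k
  have ha0 : a 0 = 0 := rfl
  have has : ∀ k, a (k + 1) = H (a k) := fun k => rfl
  have hamono : StrictMono a := strictMono_nat_of_lt_succ (fun k => by
    rw [has]; simp only [H]; omega)
  have hW : ∀ y N, ∃ k, N ≤ k ∧ y ∈ O (a k) (a (k + 1)) := by
    intro y N
    obtain ⟨m, hm, l, hl1, hl2⟩ := hh y (a N)
    have hex : ∃ k, m < a k := ⟨m + 1, by
      have := hamono.le_apply (x := m + 1)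
      omega⟩
    obtain ⟨K, hk1, hkmin⟩ : ∃ K, m < a K ∧ ∀ j, j < K → a j ≤ m := by
      have hd : DecidablePred (fun k => m < a k) := fun k => Classical.dec _
      exact ⟨Nat.find hex, Nat.find_spec hex, fun j hj => not_lt.mp (Nat.find_min hex hj)⟩
    obtain ⟨k, rfl⟩ : ∃ k, K = k + 1 := by
      rcases Nat.eq_zero_or_pos K with h0 | h0
      · rw [h0, ha0] at hk1
        omega
      · exact ⟨K - 1, by omega⟩
    have hk2 := hkmin k (Nat.lt_succ_self k)
    have hNk : N ≤ k := by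
      by_contra hc
      have : a (k + 1) ≤ a N := hamono.monotone (show k + 1 ≤ N by omega)
      omega
    rcases le_or_gt l (a (k + 1)) with hl | hl
    · exact ⟨k, hNk, hOm _ _ _ _ hk2 hl hl1⟩
    · refine ⟨k + 1, by omega, hOm _ _ _ _ hl.le ?_ hl2⟩
      rw [has (k + 1)]
      exact (hHh m).trans (hHmono _ _ hk1.le)
  obtain ⟨B, hB⟩ := indexed hS (fun k => O (a k) (a (k + 1))) (fun k => hOo _ _) (by
    intro y hfin
    obtain ⟨b, hb⟩ := hfin.bddAbove
    obtain ⟨k, hk1, hk2⟩ := hW y (b + 1)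
    have := hb hk2
    omega)
  have huniq : ∀ k k' n, a k ≤ n → n < a (k + 1) → a k' ≤ n → n < a (k' + 1) → k = k' := by
    intro k k' n h1 h2 h3 h4
    have h5 : k < k' + 1 := hamono.lt_iff_lt.mp (lt_of_le_of_lt h1 h4)
    have h6 : k' < k + 1 := hamono.lt_iff_lt.mp (lt_of_le_of_lt h3 h2)
    omega
  refine ⟨{n | ∃ k ∈ B, a k ≤ n ∧ n < a (k + 1)}, fun z => ⟨?_, ?_⟩⟩
  · intro hfin
    obtain ⟨b, hb⟩ := hfin.bddAbove
    obtain ⟨k, ⟨hk1, hk2⟩, hk3⟩ := (hB z.2).1.exists_gt b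
    obtain ⟨n, hn1, hn2, hn3⟩ := hk1 z.1
    have h1 : n ≤ b := hb ⟨hn3, k, hk2, hn1, hn2⟩
    have := hamono.le_apply (x := k)
    omega
  · intro hfin
    obtain ⟨b, hb⟩ := hfin.bddAbove
    obtain ⟨k, ⟨hk1, hk2⟩, hk3⟩ := (hB z.2).2.exists_gt b
    obtain ⟨n, hn1, hn2, hn3⟩ := hk1 z.1
    have h1 : n ≤ b := by
      refine hb ⟨hn3, ?_⟩
      rintro ⟨k', hk', h4, h5⟩
      have := huniq k k' n hn1 hn2 h4 h5
      subst this
      exact hk2 hk'
    have := hamono.le_apply (x := k)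
    omega

end Pool.Agent.H20.Split
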