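import Mathlib
import Pool.Agent.H20.SplitDefs
import Pool.Agent.H20.SplitBasic
import Pool.Agent.H20.SplitMain

set_option autoImplicit false

namespace Pool.Agent.H20.Split

open Set Filter Topology

/-! ### `d < r` -/

theorem exists_of_d_lt_r (h : dNum < rNum) :
    ∃ D : Set (ℕ → ℕ), SplitLL D ∧ ¬ Menger D := by
  classical
  have hne : {κ : Cardinal.{0} | ∃ D : Set (ℕ → ℕ), IsDominating D ∧ Cardinal.mk D = κ}.Nonempty :=
    ⟨_, Set.univ, fun f => ⟨f, trivial, Filter.Eventually.of_forall fun _ => le_rfl⟩, rfl⟩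
  obtain ⟨D, hD, hDc⟩ := csInf_mem hne
  refine ⟨D, ?_, ?_⟩
  · apply splitLL_of_seq
    intro U hU hinf
    by_contra hcon
    have hR : IsReaping (Set.range (fun y : D => {n | y ∈ U n})) := by
      refine ⟨?_, ?_⟩
      · rintro _ ⟨y, rfl⟩
        exact hinf y
      · rintro ⟨A, hA⟩
        exact hcon ⟨A, fun z => hA _ ⟨z, rfl⟩⟩
    have h1 : rNum ≤ Cardinal.mk (Set.range (fun y : D => {n | y ∈ U n})) :=
      csInf_le' ⟨_, hR, rfl⟩
    have h2 : Cardinal.mk (Set.range (fun y : D => {n | y ∈ U n})) ≤ Cardinal.mk D :=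
      Cardinal.mk_range_le
    have h3 : Cardinal.mk D = dNum := hDc
    rw [h3] at h2
    exact absurd h (not_lt.mpr (h1.trans h2))
  · intro hM
    obtain ⟨g, hg⟩ := menger_seq_inf hM (fun m k => {y : D | y.1 m ≤ k}) (by
      intro m k
      have : Continuous (fun y : D => y.1 m) := (continuous_apply m).comp continuous_subtype_val
      exact (isOpen_discrete (Set.Iic k)).preimage this) (by
      intro m k l hkl y hy
      exact le_trans hy hkl) (by
      intro m y
      exact ⟨y.1 m, le_refl (y.1 m)⟩)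
    obtain ⟨f, hf, hfe⟩ := hD (fun n => g n + 1)
    obtain ⟨N, hN⟩ := Filter.eventually_atTop.mp hfe
    obtain ⟨m, hm1, hm2⟩ := hg ⟨f, hf⟩ N
    have h1 := hN m hm1
    have h2 : f m ≤ g m := hm2
    omega

/-! ### `u < g` -/

/-- Continuous real functions from increasing covers. -/
theorem exists_rho {Y : Type} [TopologicalSpace Y] [TopologicalSpace.MetrizableSpace Y]
    (O : ℕ → Set Y) (ho : ∀ k, IsOpen (O k)) (hmono : ∀ k l, k ≤ l → O k ⊆ O l)
    (hcov : ∀ y, ∃ k, y ∈ O k) :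
    ∃ ρ : Y → ℝ, Continuous ρ ∧ (∀ y, 0 ≤ ρ y) ∧ ∀ k y, y ∉ O k → (k : ℝ) ≤ ρ y := by
  classical
  let _ := TopologicalSpace.metrizableSpaceMetric Y
  let δ : ℕ → Y → ℝ := fun k y => if (O k)ᶜ.Nonempty then min 1 (Metric.infDist y (O k)ᶜ) else 1
  have hδc : ∀ k, Continuous (δ k) := by
    intro k
    by_cases h : (O k)ᶜ.Nonempty
    · simp only [δ, if_pos h]
      exact continuous_const.min (Metric.continuous_infDist_pt _)
    · simp only [δ, if_neg h]
      exact continuous_const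
  have hδ0 : ∀ k y, 0 ≤ δ k y := by
    intro k y
    by_cases h : (O k)ᶜ.Nonempty
    · simp only [δ, if_pos h]
      exact le_min zero_le_one Metric.infDist_nonneg
    · simp only [δ, if_neg h]
      exact zero_le_one
  have hδ1 : ∀ k y, δ k y ≤ 1 := by
    intro k y
    by_cases h : (O k)ᶜ.Nonempty
    · simp only [δ, if_pos h]
      exact min_le_left _ _
    · simp only [δ, if_neg h]
      exact le_rfl
  have hδpos : ∀ k y, y ∈ O k → 0 < δ k y := by
    intro k y hy
    by_cases h : (O k)ᶜ.Nonempty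
    · simp only [δ, if_pos h]
      refine lt_min zero_lt_one ?_
      exact ((ho k).isClosed_compl.notMem_iff_infDist_pos h).mp (by simpa using hy)
    · simp only [δ, if_neg h]
      exact zero_lt_one
  have hδz : ∀ k y, y ∉ O k → δ k y = 0 := by
    intro k y hy
    have h : (O k)ᶜ.Nonempty := ⟨y, hy⟩
    simp only [δ, if_pos h]
    rw [Metric.infDist_zero_of_mem hy]
    simp
  have hgeo : Summable (fun k : ℕ => ((1 : ℝ) / 2) ^ k) := summable_geometric_two
  have hterm : ∀ k y, ((1 : ℝ) / 2) ^ k * δ k y ≤ ((1 : ℝ) / 2) ^ k := fun k y => by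
    have : (0 : ℝ) ≤ (1 / 2) ^ k := by positivity
    nlinarith [hδ1 k y]
  have hterm0 : ∀ k y, 0 ≤ ((1 : ℝ) / 2) ^ k * δ k y := fun k y => by
    have : (0 : ℝ) ≤ (1 / 2) ^ k := by positivity
    exact mul_nonneg this (hδ0 k y)
  have hsum : ∀ y, Summable (fun k => ((1 : ℝ) / 2) ^ k * δ k y) := fun y =>
    Summable.of_nonneg_of_le (fun k => hterm0 k y) (fun k => hterm k y) hgeo
  have hcont : Continuous (fun y => ∑' k, ((1 : ℝ) / 2) ^ k * δ k y) := by
    refine continuous_tsum (fun k => continuous_const.mul (hδc k)) hgeo (fun k y => ?_)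
    rw [Real.norm_of_nonneg (hterm0 k y)]
    exact hterm k y
  have hpos : ∀ y, 0 < ∑' k, ((1 : ℝ) / 2) ^ k * δ k y := by
    intro y
    obtain ⟨k, hk⟩ := hcov y
    refine (hsum y).tsum_pos (fun k => hterm0 k y) k ?_
    have : (0 : ℝ) < (1 / 2) ^ k := by positivity
    exact mul_pos this (hδpos k y hk)
  refine ⟨fun y => (∑' k, ((1 : ℝ) / 2) ^ k * δ k y)⁻¹,
    hcont.inv₀ (fun y => (hpos y).ne'), fun y => (inv_pos.mpr (hpos y)).le, ?_⟩
  intro k y hy
  have h1 : ∑' j, ((1 : ℝ) / 2) ^ j * δ j y ≤ (1 / 2) ^ k := by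
    rw [← (hsum y).sum_add_tsum_nat_add (k + 1)]
    have h2 : ∑ j ∈ Finset.range (k + 1), ((1 : ℝ) / 2) ^ j * δ j y = 0 := by
      refine Finset.sum_eq_zero (fun j hj => ?_)
      rw [hδz j y, mul_zero]
      intro hyj
      exact hy (hmono j k (by rw [Finset.mem_range] at hj; omega) hyj)
    rw [h2, zero_add]
    have h3 : Summable (fun j => ((1 : ℝ) / 2) ^ (j + (k + 1)) * δ (j + (k + 1)) y) :=
      (summable_nat_add_iff (f := fun j => ((1 : ℝ) / 2) ^ j * δ j y) (k + 1)).mpr (hsum y)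
    have h4 : Summable (fun j : ℕ => ((1 : ℝ) / 2) ^ (j + (k + 1))) :=
      (summable_nat_add_iff (f := fun j => ((1 : ℝ) / 2) ^ j) (k + 1)).mpr hgeo
    refine (h3.tsum_le_tsum (fun j => hterm _ y) h4).trans ?_
    have h5 : ∀ j : ℕ, ((1 : ℝ) / 2) ^ (j + (k + 1)) = (1 / 2) ^ (k + 1) * (1 / 2) ^ j := by
      intro j; rw [pow_add]; ring
    simp_rw [h5]
    rw [tsum_mul_left, tsum_geometric_two, pow_succ]
    linarith [show (0 : ℝ) ≤ (1 / 2) ^ k by positivity]
  have h2 : (k : ℝ) ≤ 2 ^ k := by exact_mod_cast (Nat.lt_two_pow_self (n := k)).le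
  refine h2.trans ?_
  rw [le_inv_comm₀ (by positivity) (hpos y)]
  refine h1.trans (le_of_eq ?_)
  rw [one_div, inv_pow]

/-- The family of infinite sets used with groupwise density. -/
def GU {Y : Type} (T : Y → Set ℕ) (u : Set ℕ) : Set (Set ℕ) :=
  {a | a.Infinite ∧ ∃ y, ∃ N, ∀ c ∈ a, ∀ d ∈ a, N ≤ c → c < d →
    (∃ t ∈ T y, c ≤ t ∧ t < d) → ∃ v ∈ u, c ≤ v ∧ v < d}

theorem groupwiseDense_GU {Y : Type} (T : Y → Set ℕ) (u : Set ℕ) (hu : u.Infinite)
    (hT : ∀ p : ℕ → ℕ, StrictMono p → p 0 = 0 →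
      ∃ y, {k | ∀ n, p k ≤ n → n < p (k + 1) → n ∉ T y}.Infinite) :
    GroupwiseDense (GU T u) := by
  classical
  refine ⟨fun a ha => ha.1, ?_, ?_⟩
  · rintro a ⟨_, y, N, hy⟩ b hb hba
    obtain ⟨M, hM⟩ := hba.bddAbove
    refine ⟨hb, y, max N (M + 1), fun c hc d hd hNc hcd ht => ?_⟩
    have hca : c ∈ a := by
      by_contra h
      have := hM ⟨hc, h⟩
      omega
    have hda : d ∈ a := by
      by_contra h
      have := hM ⟨hd, h⟩
      omega
    exact hy c hca d hda (by omega) hcd ht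
  · intro p hp hp0
    obtain ⟨y, hy⟩ := hT p hp hp0
    have hnext : ∀ k, ∃ k', (∀ n, p k' ≤ n → n < p (k' + 1) → n ∉ T y) ∧ k < k' ∧
        ∃ v ∈ u, p (k + 1) ≤ v ∧ v < p k' := by
      intro k
      obtain ⟨v, hv, hv2⟩ := hu.exists_gt (p (k + 1))
      obtain ⟨k', hk', hk2⟩ := hy.exists_gt (max k v)
      refine ⟨k', hk', by omega, v, hv, hv2.le, ?_⟩
      have := hp.le_apply (x := k')
      omega
    choose nx hnx1 hnx2 hnx3 using hnext
    let κ : ℕ → ℕ := fun j => Nat.rec (nx 0) (fun _ prev => nx prev) j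
    have hκs : ∀ j, κ (j + 1) = nx (κ j) := fun j => rfl
    have hκmono : StrictMono κ := strictMono_nat_of_lt_succ (fun j => by
      rw [hκs]; exact hnx2 _)
    have hκmiss : ∀ j, ∀ n, p (κ j) ≤ n → n < p (κ j + 1) → n ∉ T y := by
      intro j
      cases j with
      | zero => exact hnx1 0
      | succ j => rw [hκs]; exact hnx1 _
    have hκu : ∀ i j, i < j → ∃ v ∈ u, p (κ i + 1) ≤ v ∧ v < p (κ j) := by
      intro i j hij
      obtain ⟨v, hv, hv1, hv2⟩ := hnx3 (κ i)
      refine ⟨v, hv, hv1, lt_of_lt_of_le hv2 ?_⟩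
      rw [← hκs]
      exact hp.monotone (hκmono.monotone hij)
    refine ⟨Set.range κ, Set.infinite_range_of_injective hκmono.injective, ?_, y, 0, ?_⟩
    · refine (Set.infinite_range_of_injective (hp.comp hκmono).injective).mono ?_
      rintro _ ⟨j, rfl⟩
      simp only [Set.mem_iUnion]
      refine ⟨κ j, ⟨j, rfl⟩, le_rfl, ?_⟩
      exact hp (Nat.lt_succ_self _)
    · intro c hc d hd _ hcd ht
      simp only [Set.mem_iUnion] at hc hd
      obtain ⟨_, ⟨i, rfl⟩, hc1, hc2⟩ := hc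
      obtain ⟨_, ⟨j, rfl⟩, hd1, hd2⟩ := hd
      rcases lt_trichotomy i j with hij | hij | hij
      · obtain ⟨v, hv, hv1, hv2⟩ := hκu i j hij
        exact ⟨v, hv, by omega, by omega⟩
      · subst hij
        obtain ⟨t, htT, ht1, ht2⟩ := ht
        exact absurd htT (hκmiss i t (by omega) (by omega))
      · exfalso
        have h1 : p (κ j + 1) ≤ p (κ i) := hp.monotone (hκmono hij)
        omega

theorem menger_of_u_lt_g (hug : uNum < gNum) {Y : Type} [TopologicalSpace Y]
    [TopologicalSpace.MetrizableSpace Y] [SecondCountableTopology Y] (hS : SplitLL Y) :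
    Menger Y := by
  classical
  by_contra hM
  obtain ⟨O, hO, hmono, hcov, hdom⟩ := not_menger hM
  have h1 := fun m => exists_rho (O m) (hO m) (hmono m) (hcov m)
  choose ρ hρc hρ0 hρ using h1
  let T : Y → Set ℕ := fun y => {n | |ρ (Nat.unpair n).1 y - ((Nat.unpair n).2 : ℝ)| < 1}
  have hTinf : ∀ y, (T y).Infinite := by
    intro y
    have h2 : Function.Injective (fun m : ℕ => Nat.pair m ⌊ρ m y⌋₊) := by
      intro a b hab
      have := (Nat.pair_eq_pair.mp hab).1
      exact this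
    refine (Set.infinite_range_of_injective h2).mono ?_
    rintro _ ⟨m, rfl⟩
    simp only [T, Set.mem_ofPred_eq, Nat.unpair_pair]
    have h3 := Nat.floor_le (hρ0 m y)
    have h4 := Nat.lt_floor_add_one (ρ m y)
    rw [abs_lt]
    constructor <;> linarith
  have hTp : ∀ p : ℕ → ℕ, StrictMono p → p 0 = 0 →
      ∃ y, {k | ∀ n, p k ≤ n → n < p (k + 1) → n ∉ T y}.Infinite := by
    intro p hp _
    obtain ⟨y, hy⟩ := hdom (fun m => p (4 * m + 4) + 1)
    refine ⟨y, ?_⟩
    intro hfin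
    obtain ⟨M', hM'⟩ := hfin.bddAbove
    -- every block from M on is hit
    have hhit : ∀ k, M' + 1 ≤ k → ∃ n, p k ≤ n ∧ n < p (k + 1) ∧ n ∈ T y := by
      intro k hk
      by_contra hcon
      push Not at hcon
      have := hM' hcon
      omega
    choose! ν hν1 hν2 hν3 using hhit
    set M := M' + 1 with hMdef
    have hcard := Finset.card_le_card_of_injOn (s := Finset.Ico M (4 * M + 4))
      (t := Finset.range (M + 1) ×ˢ Finset.range 2)
      (fun k => ((Nat.unpair (ν k)).1, (Nat.unpair (ν k)).2 % 2)) (by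
        intro k hk
        simp only [Finset.coe_Ico, Set.mem_Ico] at hk
        simp only [Finset.coe_product, Finset.coe_range, Set.mem_prod, Set.mem_Iio]
        refine ⟨?_, Nat.mod_lt _ (by norm_num)⟩
        have h2 : |ρ (Nat.unpair (ν k)).1 y - ((Nat.unpair (ν k)).2 : ℝ)| < 1 := hν3 k hk.1
        have h3 := hρ (Nat.unpair (ν k)).1 _ y (hy (Nat.unpair (ν k)).1)
        have h4 : ((p (4 * (Nat.unpair (ν k)).1 + 4) + 1 : ℕ) : ℝ) - 1 <
            ((Nat.unpair (ν k)).2 : ℝ) := by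
          have h5 := (abs_lt.mp h2).2
          linarith
        have h5 : p (4 * (Nat.unpair (ν k)).1 + 4) < (Nat.unpair (ν k)).2 := by
          push_cast at h4
          have h6 : (p (4 * (Nat.unpair (ν k)).1 + 4) : ℝ) < ((Nat.unpair (ν k)).2 : ℝ) := by
            linarith
          exact_mod_cast h6
        have h6 := Nat.unpair_right_le (ν k)
        have h7 : p (4 * (Nat.unpair (ν k)).1 + 4) < p (k + 1) :=
          lt_of_lt_of_le h5 (h6.trans (hν2 k hk.1).le)
        have h8 := hp.lt_iff_lt.mp h7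
        omega) (by
        intro k hk l hl hkl
        simp only [Finset.coe_Ico, Set.mem_Ico] at hk hl
        simp only [Prod.mk.injEq] at hkl
        obtain ⟨h2, h3⟩ := hkl
        have h4 := hν3 k hk.1
        have h5 := hν3 l hl.1
        have h6 : (Nat.unpair (ν k)).2 = (Nat.unpair (ν l)).2 := by
          simp only [T, Set.mem_ofPred_eq] at h4 h5
          rw [h2] at h4
          rw [abs_lt] at h4 h5
          have h7 : ((Nat.unpair (ν k)).2 : ℝ) < ((Nat.unpair (ν l)).2 : ℝ) + 2 := by linarith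
          have h8 : ((Nat.unpair (ν l)).2 : ℝ) < ((Nat.unpair (ν k)).2 : ℝ) + 2 := by linarith
          have h7' : (Nat.unpair (ν k)).2 < (Nat.unpair (ν l)).2 + 2 := by exact_mod_cast h7
          have h8' : (Nat.unpair (ν l)).2 < (Nat.unpair (ν k)).2 + 2 := by exact_mod_cast h8
          omega
        have h7 : ν k = ν l := by
          rw [← Nat.pair_unpair (ν k), ← Nat.pair_unpair (ν l), h2, h6]
        have h8 := hν1 k hk.1
        have h9 := hν2 k hk.1
        have h10 := hν1 l hl.1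
        have h11 := hν2 l hl.1
        rw [h7] at h8 h9
        have h12 : k < l + 1 := hp.lt_iff_lt.mp (lt_of_le_of_lt h8 h11)
        have h13 : l < k + 1 := hp.lt_iff_lt.mp (lt_of_le_of_lt h10 h9)
        omega)
    rw [Nat.card_Ico, Finset.card_product, Finset.card_range, Finset.card_range] at hcard
    omega
  -- the ultrafilter
  have hne : {κ : Cardinal.{0} | ∃ B : Set (Set ℕ), IsUltraBase B ∧
      Cardinal.mk B = κ}.Nonempty := by
    refine ⟨_, {s | s ∈ Filter.hyperfilter ℕ}, ⟨Filter.hyperfilter ℕ, ?_, fun b hb => hb,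
      fun s hs => ⟨s, hs, subset_rfl⟩⟩, rfl⟩
    intro s hs hfin
    exact Filter.notMem_hyperfilter_of_finite hfin hs
  obtain ⟨B, ⟨U, hUinf, hBU, hUB⟩, hBc⟩ := csInf_mem hne
  have hex : ∃ a, ∀ b ∈ B, a ∈ GU T b := by
    by_contra hcon
    have h2 : ⋂₀ (GU T '' B) = ∅ := by
      rw [Set.eq_empty_iff_forall_notMem]
      intro a ha
      exact hcon ⟨a, fun b hb => ha _ ⟨b, hb, rfl⟩⟩
    have h3 : gNum ≤ Cardinal.mk (GU T '' B) := by
      refine csInf_le' ⟨_, ?_, h2, rfl⟩
      rintro _ ⟨b, hb, rfl⟩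
      exact groupwiseDense_GU T b (hUinf b (hBU b hb)) hTp
    have h4 : Cardinal.mk (GU T '' B) ≤ Cardinal.mk B := Cardinal.mk_image_le
    have h5 : Cardinal.mk B = uNum := hBc
    rw [h5] at h4
    exact absurd hug (not_lt.mpr (h3.trans h4))
  obtain ⟨a, ha⟩ := hex
  have hainf : a.Infinite := by
    obtain ⟨b, hb, _⟩ := hUB Set.univ Filter.univ_mem
    exact (ha b hb).1
  have : Infinite a := hainf.to_subtype
  let q : ℕ → ℕ := fun i => (Nat.orderEmbeddingOfSet a i : ℕ)
  have hqa : ∀ i, q i ∈ a := by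
    intro i
    rw [← Nat.orderEmbeddingOfSet_range a]
    exact ⟨i, rfl⟩
  have hq : StrictMono q := (Nat.orderEmbeddingOfSet a).strictMono
  have huniq : ∀ k k' n, q k ≤ n → n < q (k + 1) → q k' ≤ n → n < q (k' + 1) → k = k' := by
    intro k k' n h1 h2 h3 h4
    have h5 : k < k' + 1 := hq.lt_iff_lt.mp (lt_of_le_of_lt h1 h4)
    have h6 : k' < k + 1 := hq.lt_iff_lt.mp (lt_of_le_of_lt h3 h2)
    omega
  obtain ⟨B', hB'⟩ := indexed hS (fun i => {y | ∃ n, q i ≤ n ∧ n < q (i + 1) ∧ n ∈ T y}) (by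
      intro i
      have h2 : {y | ∃ n, q i ≤ n ∧ n < q (i + 1) ∧ n ∈ T y} =
          ⋃ n ∈ {n | q i ≤ n ∧ n < q (i + 1)}, {y | n ∈ T y} := by
        ext y
        simp only [Set.mem_ofPred_eq, Set.mem_iUnion, exists_prop]
        constructor
        · rintro ⟨n, h1, h2, h3⟩; exact ⟨n, ⟨h1, h2⟩, h3⟩
        · rintro ⟨n, ⟨h1, h2⟩, h3⟩; exact ⟨n, h1, h2, h3⟩
      rw [h2]
      refine isOpen_biUnion (fun n _ => ?_)
      have h3 : Continuous (fun y => |ρ (Nat.unpair n).1 y - ((Nat.unpair n).2 : ℝ)|) :=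
        ((hρc _).sub continuous_const).abs
      exact isOpen_Iio.preimage h3) (by
      intro y
      apply Set.infinite_of_forall_exists_gt
      intro N
      obtain ⟨n, hn, hn2⟩ := (hTinf y).exists_gt (q (N + 1))
      have hex : ∃ k, n < q k := ⟨n + 1, by
        have := hq.le_apply (x := n + 1)
        omega⟩
      obtain ⟨K, hk1, hkmin⟩ : ∃ K, n < q K ∧ ∀ j, j < K → q j ≤ n := by
        have hd : DecidablePred (fun k => n < q k) := fun k => Classical.dec _
        exact ⟨Nat.find hex, Nat.find_spec hex, fun j hj => not_lt.mp (Nat.find_min hex hj)⟩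
      have hNK : N + 1 < K := by
        by_contra hc
        have : q K ≤ q (N + 1) := hq.monotone (by omega)
        omega
      obtain ⟨k, rfl⟩ : ∃ k, K = k + 1 := ⟨K - 1, by omega⟩
      exact ⟨k, ⟨n, hkmin k (Nat.lt_succ_self k), hk1, hn⟩, by omega⟩)
  have key : ∀ S : Set ℕ, (∀ y, ({i | ∃ n, q i ≤ n ∧ n < q (i + 1) ∧ n ∈ T y} \ S).Infinite) →
      {n | ∃ i ∈ S, q i ≤ n ∧ n < q (i + 1)} ∉ U := by
    intro S hSs hmem
    obtain ⟨b, hb, hbS⟩ := hUB _ hmem
    obtain ⟨_, y, N, hy⟩ := ha b hb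
    obtain ⟨i, ⟨⟨n, hn1, hn2, hn3⟩, hiS⟩, hi⟩ := (hSs y).exists_gt N
    have hqi := hq.le_apply (x := i)
    obtain ⟨v, hv, hv1, hv2⟩ := hy (q i) (hqa i) (q (i + 1)) (hqa (i + 1)) (by omega)
      (hq (Nat.lt_succ_self i)) ⟨n, hn3, hn1, hn2⟩
    obtain ⟨i', hi', h2, h3⟩ := hbS hv
    have := huniq i i' v hv1 hv2 h2 h3
    subst this
    exact hiS hi'
  have hk1 := key B' (fun y => (hB' y).2)
  have hk2 := key B'ᶜ (fun y => by
    have := (hB' y).1
    rwa [Set.sdiff_eq, compl_compl])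
  rw [← Ultrafilter.compl_mem_iff_notMem] at hk1 hk2
  have h3 := Filter.inter_mem hk1 hk2
  have h4 : Set.Iio (q 0) ∈ U := by
    refine Filter.mem_of_superset h3 ?_
    intro n hn
    simp only [Set.mem_inter_iff, Set.mem_compl_iff, Set.mem_ofPred_eq, not_exists, not_and,
      not_lt] at hn
    simp only [Set.mem_Iio]
    by_contra hc
    have hex : ∃ k, n < q k := ⟨n + 1, by
      have := hq.le_apply (x := n + 1)
      omega⟩
    obtain ⟨K, hk1, hkmin⟩ : ∃ K, n < q K ∧ ∀ j, j < K → q j ≤ n := by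
      have hd : DecidablePred (fun k => n < q k) := fun k => Classical.dec _
      exact ⟨Nat.find hex, Nat.find_spec hex, fun j hj => not_lt.mp (Nat.find_min hex hj)⟩
    obtain ⟨k, rfl⟩ : ∃ k, K = k + 1 := by
      rcases Nat.eq_zero_or_pos K with h0 | h0
      · subst h0
        omega
      · exact ⟨K - 1, by omega⟩
    have hk := hkmin k (Nat.lt_succ_self k)
    by_cases hkB : k ∈ B'
    · have := hn.1 k hkB hk
      omega
    · have := hn.2 k hkB hk
      omega
  exact hUinf _ h4 (Set.finite_Iio _)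

end Pool.Agent.H20.Split
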