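import Mathlib

set_option autoImplicit false

/-! A division ring containing infinitely many commuting pairs `x n, t n` with
`t n * x n = x n ^ 3 * t n`. -/

namespace Pool.Agent.H20.TopDiv

open Finset Pointwise

/-- The monoid `{x^e t^l}` with `t x = x^3 t`. -/
@[ext] structure BS where
  l : ℕ
  e : ℕ

namespace BS

instance : Mul BS := ⟨fun a b => ⟨a.l + b.l, a.e + 3 ^ a.l * b.e⟩⟩
instance : One BS := ⟨⟨0, 0⟩⟩

@[simp] theorem mul_l (a b : BS) : (a * b).l = a.l + b.l := rfl
@[simp] theorem mul_e (a b : BS) : (a * b).e = a.e + 3 ^ a.l * b.e := rfl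
@[simp] theorem one_l : (1 : BS).l = 0 := rfl
@[simp] theorem one_e : (1 : BS).e = 0 := rfl

instance : Monoid BS where
  mul_assoc a b c := by
    ext
    · simp [add_assoc]
    · simp only [mul_e, mul_l, pow_add]
      ring
  one_mul a := by ext <;> simp
  mul_one a := by ext <;> simp

instance : LinearOrder BS :=
  LinearOrder.lift' (fun b : BS => toLex (b.l, b.e)) (by
    intro a b h
    have h' : (a.l, a.e) = (b.l, b.e) := toLex.injective h
    ext
    · exact (Prod.mk.inj h').1
    · exact (Prod.mk.inj h').2)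

theorem lt_iff (a b : BS) : a < b ↔ a.l < b.l ∨ (a.l = b.l ∧ a.e < b.e) := by
  have h : a < b ↔ toLex (a.l, a.e) < toLex (b.l, b.e) := Iff.rfl
  rw [h, Prod.Lex.toLex_lt_toLex]

instance : MulLeftStrictMono BS where
  elim := by
    intro c a b hab
    change c * a < c * b
    have hab' : a < b := hab
    rw [lt_iff] at hab' ⊢
    rcases hab' with h | ⟨h1, h2⟩
    · left
      simpa using h
    · right
      refine ⟨by simp [h1], ?_⟩
      simp only [mul_e]
      have : 3 ^ c.l * a.e < 3 ^ c.l * b.e := Nat.mul_lt_mul_of_pos_left h2 (by positivity)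
      omega

instance : IsRightCancelMul BS where
  mul_right_cancel := by
    intro b a c h
    have h' : a * b = c * b := h
    have hl : a.l = c.l := by
      have := congrArg BS.l h'
      simpa using this
    have he := congrArg BS.e h'
    simp only [mul_e, hl] at he
    ext
    · exact hl
    · omega

instance : UniqueProds BS := inferInstance

end BS

/-- Finitely supported families. -/
def G : Submonoid (ℕ → BS) where
  carrier := {f | ∃ N, ∀ n, N ≤ n → f n = 1}
  mul_mem' := by
    rintro f g ⟨N, hN⟩ ⟨M, hM⟩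
    refine ⟨max N M, fun n hn => ?_⟩
    simp [hN n (le_of_max_le_left hn), hM n (le_of_max_le_right hn)]
  one_mem' := ⟨0, fun n _ => rfl⟩

instance : UniqueProds G :=
  UniqueProds.of_injective_mulHom (G.subtype : G →ₙ* (ℕ → BS)) Subtype.val_injective inferInstance

abbrev A := MonoidAlgebra ℚ G

instance : NoZeroDivisors A := inferInstance
instance : Nontrivial A := inferInstance
instance : IsDomain A := inferInstance



noncomputable def P {M : Type} [DecidableEq M] (V : Finset M) (u : V → ℚ) : MonoidAlgebra ℚ M :=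
  MonoidAlgebra.ofCoeff (Finsupp.onFinset V (fun g => if h : g ∈ V then u ⟨g, h⟩ else 0)
    (by intro a ha; by_contra hc; exact ha (by simp [hc])))

theorem P_coeff {M : Type} [DecidableEq M] (V : Finset M) (u : V → ℚ) (g : M) :
    (P V u).coeff g = if h : g ∈ V then u ⟨g, h⟩ else 0 := rfl

theorem P_add {M : Type} [DecidableEq M] (V : Finset M) (u v : V → ℚ) :
    P V (u + v) = P V u + P V v := by
  apply MonoidAlgebra.ext
  ext g
  simp only [MonoidAlgebra.coeff_add, Finsupp.add_apply, P_coeff]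
  split_ifs <;> simp

theorem P_smul {M : Type} [DecidableEq M] (V : Finset M) (c : ℚ) (u : V → ℚ) :
    P V (c • u) = c • P V u := by
  apply MonoidAlgebra.ext
  ext g
  simp only [MonoidAlgebra.coeff_smul, Finsupp.smul_apply, P_coeff]
  split_ifs <;> simp

theorem P_supp {M : Type} [DecidableEq M] (V : Finset M) (u : V → ℚ) :
    (P V u).coeff.support ⊆ V := by
  intro g hg
  rw [Finsupp.mem_support_iff, P_coeff] at hg
  by_contra hc
  exact hg (by simp [hc])

theorem P_eq_zero {M : Type} [DecidableEq M] (V : Finset M) (u : V → ℚ) (h : P V u = 0) :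
    u = 0 := by
  funext x
  have := P_coeff V u x
  rw [h] at this
  simp at this
  simpa using this.symm

theorem ore_of_folner {M : Type} [Monoid M] [DecidableEq M] [UniqueProds M]
    (h : ∀ S : Finset M, ∃ V : Finset M, (V * S).card < 2 * V.card)
    (r s : MonoidAlgebra ℚ M) (hs : s ≠ 0) :
    ∃ r' s' : MonoidAlgebra ℚ M, s' ≠ 0 ∧ s' * r = r' * s := by
  classical
  obtain ⟨V, hV⟩ := h (r.coeff.support ∪ s.coeff.support)
  set S := r.coeff.support ∪ s.coeff.support with hS
  let L : ((V → ℚ) × (V → ℚ)) →ₗ[ℚ] ((V * S : Finset M) → ℚ) :=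
    { toFun := fun p y => (P V p.1 * r - P V p.2 * s).coeff y
      map_add' := by
        intro p q
        funext y
        have : P V (p + q).1 * r - P V (p + q).2 * s =
          (P V p.1 * r - P V p.2 * s) + (P V q.1 * r - P V q.2 * s) := by
          rw [Prod.fst_add, Prod.snd_add, P_add, P_add, add_mul, add_mul]
          abel
        simp only [this, MonoidAlgebra.coeff_add, Finsupp.add_apply, Pi.add_apply]
      map_smul' := by
        intro c p
        funext y
        have : P V (c • p).1 * r - P V (c • p).2 * s = c • (P V p.1 * r - P V p.2 * s) := by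
          rw [Prod.smul_fst, Prod.smul_snd, P_smul, P_smul, smul_mul_assoc, smul_mul_assoc,
            smul_sub]
        simp only [this, MonoidAlgebra.coeff_smul, Finsupp.smul_apply, Pi.smul_apply,
          RingHom.id_apply] }
  have hker : LinearMap.ker L ≠ ⊥ := by
    apply LinearMap.ker_ne_bot_of_finrank_lt
    simp only [Module.finrank_prod, Module.finrank_fintype_fun_eq_card, Fintype.card_coe]
    omega
  obtain ⟨p, hp, hp0⟩ := (Submodule.ne_bot_iff _).mp hker
  rw [LinearMap.mem_ker] at hp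
  have hz : P V p.1 * r - P V p.2 * s = 0 := by
    apply MonoidAlgebra.ext
    ext g
    by_cases hg : g ∈ V * S
    · have := congrFun hp ⟨g, hg⟩
      simpa [L] using this
    · have h1 : g ∉ (P V p.1 * r).coeff.support := by
        intro hc
        apply hg
        have := MonoidAlgebra.support_coeff_mul_subset _ _ hc
        exact Finset.mul_subset_mul (P_supp V _) (Finset.subset_union_left) this
      have h2 : g ∉ (P V p.2 * s).coeff.support := by
        intro hc
        apply hg
        have := MonoidAlgebra.support_coeff_mul_subset _ _ hc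
        exact Finset.mul_subset_mul (P_supp V _) (Finset.subset_union_right) this
      rw [Finsupp.notMem_support_iff] at h1 h2
      simp [MonoidAlgebra.coeff_sub, h1, h2]
  refine ⟨P V p.2, P V p.1, ?_, sub_eq_zero.mp hz⟩
  intro h0
  rw [h0, zero_mul, zero_sub, neg_eq_zero] at hz
  rcases mul_eq_zero.mp hz with h1 | h1
  · apply hp0
    have e1 := P_eq_zero V _ h0
    have e2 := P_eq_zero V _ h1
    exact Prod.ext e1 e2
  · exact hs h1

/-- The box of elements supported in `[0,N)` with `l < M`, `e < R`. -/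
def mkBox {N M R : ℕ} (f : Fin N → Fin M × Fin R) : G :=
  ⟨fun n => if h : n < N then ⟨(f ⟨n, h⟩).1, (f ⟨n, h⟩).2⟩ else 1,
    ⟨N, fun n hn => by simp [Nat.not_lt.mpr hn]⟩⟩

theorem mkBox_inj {N M R : ℕ} : Function.Injective (mkBox (N := N) (M := M) (R := R)) := by
  intro f g h
  funext ⟨i, hi⟩
  have h1 := congrFun (congrArg Subtype.val h) i
  simp only [mkBox, hi, dif_pos] at h1
  have h2 := congrArg BS.l h1
  have h3 := congrArg BS.e h1
  simp only at h2 h3
  exact Prod.ext (Fin.ext h2) (Fin.ext h3)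

open Classical in
noncomputable def box (N M R : ℕ) : Finset G :=
  (Finset.univ : Finset (Fin N → Fin M × Fin R)).image mkBox

theorem card_box (N M R : ℕ) : (box N M R).card = (M * R) ^ N := by
  classical
  unfold box
  rw [Finset.card_image_of_injective _ mkBox_inj]
  simp

theorem mem_box {N M R : ℕ} (g : G) : g ∈ box N M R ↔
    (∀ n, N ≤ n → g.1 n = 1) ∧ (∀ n, n < N → (g.1 n).l < M ∧ (g.1 n).e < R) := by
  classical
  unfold box
  rw [Finset.mem_image]
  constructor
  · rintro ⟨f, -, rfl⟩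
    refine ⟨fun n hn => by simp [mkBox, Nat.not_lt.mpr hn], fun n hn => ?_⟩
    simp [mkBox, hn]
  · rintro ⟨h1, h2⟩
    refine ⟨fun i => (⟨(g.1 i).l, (h2 i i.2).1⟩, ⟨(g.1 i).e, (h2 i i.2).2⟩), Finset.mem_univ _, ?_⟩
    apply Subtype.ext
    funext n
    by_cases hn : n < N
    · simp [mkBox, hn]
    · simp only [mkBox, hn, dif_neg, not_false_eq_true]
      exact (h1 n (Nat.not_lt.mp hn)).symm

theorem bern (N : ℕ) (hN : 1 ≤ N) : (4 * N + 1) ^ (2 * N) < 2 * (4 * N) ^ (2 * N) := by
  have h1 := one_add_mul_le_pow (a := (-1 / (4 * (N : ℝ) + 1))) (by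
    have : (0 : ℝ) < 4 * (N : ℝ) + 1 := by positivity
    rw [le_div_iff₀ this]
    nlinarith [(Nat.cast_nonneg N : (0 : ℝ) ≤ N)]) (2 * N)
  have hpos : (0 : ℝ) < 4 * (N : ℝ) + 1 := by positivity
  have e1 : (1 : ℝ) + -1 / (4 * (N : ℝ) + 1) = (4 * N) / (4 * N + 1) := by
    field_simp
    ring
  rw [e1, div_pow] at h1
  have h2 : (1 : ℝ) / 2 < 1 + ((2 * N : ℕ) : ℝ) * (-1 / (4 * (N : ℝ) + 1)) := by
    push_cast
    rw [← sub_pos]
    have : (1 : ℝ) + 2 * (N : ℝ) * (-1 / (4 * (N : ℝ) + 1)) - 1 / 2 = (1 / 2) / (4 * N + 1) := by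
      field_simp
      ring
    rw [this]
    positivity
  have h3 : (1 : ℝ) / 2 < (4 * (N : ℝ)) ^ (2 * N) / (4 * (N : ℝ) + 1) ^ (2 * N) :=
    lt_of_lt_of_le h2 h1
  rw [div_lt_div_iff₀ (by norm_num) (by positivity)] at h3
  have h4 : ((4 * (N : ℝ) + 1)) ^ (2 * N) < 2 * (4 * (N : ℝ)) ^ (2 * N) := by linarith
  exact_mod_cast h4

open Classical in
theorem folnerG (S : Finset G) : ∃ V : Finset G, (V * S).card < 2 * V.card := by
  -- bounds
  have hN : ∃ N, 1 ≤ N ∧ ∀ s ∈ S, ∀ n, N ≤ n → s.1 n = 1 := by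
    induction S using Finset.induction_on with
    | empty => exact ⟨1, le_rfl, by simp⟩
    | insert a S _ ih =>
      obtain ⟨N, hN1, hN⟩ := ih
      obtain ⟨K, hK⟩ := a.2
      refine ⟨max N K, le_trans hN1 (le_max_left _ _), ?_⟩
      intro s hs n hn
      rcases Finset.mem_insert.mp hs with rfl | hs
      · exact hK n (le_trans (le_max_right _ _) hn)
      · exact hN s hs n (le_trans (le_max_left _ _) hn)
  obtain ⟨N, hN1, hN⟩ := hN
  have hb : ∃ b, 1 ≤ b ∧ ∀ s ∈ S, ∀ n, n < N → (s.1 n).l ≤ b ∧ (s.1 n).e ≤ b := by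
    refine ⟨1 + ∑ s ∈ S, ∑ n ∈ Finset.range N, ((s.1 n).l + (s.1 n).e), by omega, ?_⟩
    intro s hs n hn
    have h1 : (s.1 n).l + (s.1 n).e ≤ ∑ n ∈ Finset.range N, ((s.1 n).l + (s.1 n).e) :=
      Finset.single_le_sum (f := fun n => (s.1 n).l + (s.1 n).e) (fun _ _ => Nat.zero_le _)
        (Finset.mem_range.mpr hn)
    have h2 : ∑ n ∈ Finset.range N, ((s.1 n).l + (s.1 n).e) ≤
        ∑ s ∈ S, ∑ n ∈ Finset.range N, ((s.1 n).l + (s.1 n).e) :=
      Finset.single_le_sum (f := fun s : G => ∑ n ∈ Finset.range N, ((s.1 n).l + (s.1 n).e))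
        (fun _ _ => Nat.zero_le _) hs
    omega
  obtain ⟨b, hb1, hb⟩ := hb
  set T := 4 * N with hT
  set M := b * T with hM
  set R := 3 ^ M * b * T with hR
  refine ⟨box N M R, ?_⟩
  have hsub : box N M R * S ⊆ box N (M + b) (R + 3 ^ M * b) := by
    intro g hg
    obtain ⟨v, hv, s, hs, rfl⟩ := Finset.mem_mul.mp hg
    rw [mem_box] at hv ⊢
    constructor
    · intro n hn
      have : (v * s).1 n = v.1 n * s.1 n := rfl
      rw [this, hv.1 n hn, hN s hs n hn, one_mul]
    · intro n hn
      have h0 : (v * s).1 n = v.1 n * s.1 n := rfl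
      rw [h0, BS.mul_l, BS.mul_e]
      obtain ⟨hl, he⟩ := hv.2 n hn
      obtain ⟨hl', he'⟩ := hb s hs n hn
      refine ⟨by omega, ?_⟩
      have : 3 ^ (v.1 n).l * (s.1 n).e ≤ 3 ^ M * b :=
        Nat.mul_le_mul (Nat.pow_le_pow_right (by norm_num) hl.le) he'
      omega
  refine lt_of_le_of_lt (Finset.card_le_card hsub) ?_
  rw [card_box, card_box]
  have e1 : (M + b) * (R + 3 ^ M * b) = (b * (3 ^ M * b)) * (T + 1) ^ 2 := by
    rw [hR]
    have : M + b = b * (T + 1) := by rw [hM]; ring
    rw [this]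
    ring
  have e2 : M * R = (b * (3 ^ M * b)) * T ^ 2 := by
    rw [hR]
    have : b * T * (3 ^ M * b * T) = b * (3 ^ M * b) * T ^ 2 := by ring
    rw [← this]
  rw [e1, e2, mul_pow, mul_pow _ (T ^ 2), ← pow_mul, ← pow_mul]
  have h1 := bern N hN1
  have h2 : 0 < (b * (3 ^ M * b)) ^ N := by positivity
  calc (b * (3 ^ M * b)) ^ N * (T + 1) ^ (2 * N)
      < (b * (3 ^ M * b)) ^ N * (2 * T ^ (2 * N)) := Nat.mul_lt_mul_of_pos_left h1 h2
    _ = 2 * ((b * (3 ^ M * b)) ^ N * T ^ (2 * N)) := by ring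

open nonZeroDivisors

noncomputable instance oreA : OreLocalization.OreSet A⁰ :=
  Classical.choice (OreLocalization.nonempty_oreSet_iff_of_noZeroDivisors.mpr (by
    classical
    intro r s
    obtain ⟨r', s', h1, h2⟩ := ore_of_folner (M := G) (fun S => by
      obtain ⟨V, hV⟩ := folnerG S
      refine ⟨V, ?_⟩
      convert hV) r (s : A) (nonZeroDivisors.ne_zero s.2)
    exact ⟨r', ⟨s', mem_nonZeroDivisors_of_ne_zero h1⟩, h2⟩))

/-- The big division ring. -/
abbrev Om : Type := OreLocalization A⁰ A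

noncomputable instance : DivisionRing Om := inferInstance

/-- the generators in `G` -/
def gx (n : ℕ) : G := ⟨fun m => if m = n then ⟨0, 1⟩ else 1, ⟨n + 1, fun m hm => by
  have : m ≠ n := by omega
  simp [this]⟩⟩

def gt (n : ℕ) : G := ⟨fun m => if m = n then ⟨1, 0⟩ else 1, ⟨n + 1, fun m hm => by
  have : m ≠ n := by omega
  simp [this]⟩⟩

theorem gx_val (n m : ℕ) : (gx n).1 m = if m = n then ⟨0, 1⟩ else 1 := rfl
theorem gt_val (n m : ℕ) : (gt n).1 m = if m = n then ⟨1, 0⟩ else 1 := rfl

theorem G_mul_val (a b : G) (m : ℕ) : (a * b).1 m = a.1 m * b.1 m := rfl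

theorem comm_of {a b : G} {n m : ℕ} (hnm : n ≠ m) (ha : ∀ k, k ≠ n → a.1 k = 1)
    (hb : ∀ k, k ≠ m → b.1 k = 1) : a * b = b * a := by
  apply Subtype.ext
  funext k
  rw [G_mul_val, G_mul_val]
  by_cases hk : k = n
  · have : k ≠ m := by omega
    rw [hb k this, one_mul, mul_one]
  · rw [ha k hk, one_mul, mul_one]

theorem gt_gx (n : ℕ) : gt n * gx n = gx n ^ 3 * gt n := by
  apply Subtype.ext
  funext k
  have h3 : (gx n ^ 3 : G) = gx n * gx n * gx n := by rw [pow_succ, pow_two]
  rw [h3]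
  simp only [G_mul_val, gx_val, gt_val]
  by_cases hk : k = n
  · simp only [hk, if_true]
    ext <;> simp
  · simp [hk]

noncomputable def emb : A →+* Om := OreLocalization.numeratorRingHom

end Pool.Agent.H20.TopDiv
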