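import Pool.Agent.H20.TopDivA

set_option autoImplicit false

/-! Independence over the centraliser of a pair `x, t` with `t x = x^3 t`. -/

namespace Pool.Agent.H20.TopDiv

open Finset

section pair

variable {D : Type} [DivisionRing D]

theorem t_pow_x {x t : D} (hxt : t * x = x ^ 3 * t) (l e : ℕ) :
    t ^ l * x ^ e = x ^ (3 ^ l * e) * t ^ l := by
  have h1 : ∀ e : ℕ, t * x ^ e = x ^ (3 * e) * t := by
    intro e
    induction e with
    | zero => simp
    | succ e ih =>
      calc t * x ^ (e + 1) = (t * x ^ e) * x := by rw [pow_succ, mul_assoc]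
        _ = x ^ (3 * e) * (t * x) := by rw [ih, mul_assoc]
        _ = x ^ (3 * e) * x ^ 3 * t := by rw [hxt, mul_assoc]
        _ = x ^ (3 * (e + 1)) * t := by rw [← pow_add]; ring_nf
  induction l generalizing e with
  | zero => simp
  | succ l ih =>
    calc t ^ (l + 1) * x ^ e = t ^ l * (t * x ^ e) := by rw [pow_succ, mul_assoc]
      _ = t ^ l * x ^ (3 * e) * t := by rw [h1, mul_assoc]
      _ = x ^ (3 ^ l * (3 * e)) * t ^ l * t := by rw [ih]
      _ = x ^ (3 ^ (l + 1) * e) * t ^ (l + 1) := by
        rw [mul_assoc, ← pow_succ]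
        congr 2
        ring

/-- Independence of powers of `t`. -/
theorem indep_t {x t : D} (hxt : t * x = x ^ 3 * t) (ht : t ≠ 0)
    (hx : ∀ i j : ℕ, x ^ i = x ^ j → i = j) (L : ℕ) :
    ∀ g : ℕ → D, (∀ l, Commute (g l) x) → ∑ l ∈ range L, g l * t ^ l = 0 → ∀ l, l < L → g l = 0 := by
  induction L with
  | zero => intro g _ _ l hl; omega
  | succ L ih =>
    intro g hg hsum
    have hA : ∑ l ∈ range (L + 1), g l * x ^ (3 ^ l) * t ^ l = 0 := by
      have : (∑ l ∈ range (L + 1), g l * t ^ l) * x = 0 := by rw [hsum, zero_mul]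
      rw [Finset.sum_mul] at this
      rw [← this]
      apply Finset.sum_congr rfl
      intro l _
      have h := t_pow_x hxt l 1
      rw [pow_one, mul_one] at h
      rw [mul_assoc, mul_assoc, h]
    have hB : ∑ l ∈ range (L + 1), g l * x ^ (3 ^ L) * t ^ l = 0 := by
      have : x ^ (3 ^ L) * (∑ l ∈ range (L + 1), g l * t ^ l) = 0 := by rw [hsum, mul_zero]
      rw [Finset.mul_sum] at this
      rw [← this]
      apply Finset.sum_congr rfl
      intro l _
      rw [← mul_assoc, ((hg l).pow_right (3 ^ L)).eq]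
    have hC : ∑ l ∈ range L, (g l * (x ^ (3 ^ l) - x ^ (3 ^ L))) * t ^ l = 0 := by
      have h := sub_eq_zero.mpr (hA.trans hB.symm)
      rw [← Finset.sum_sub_distrib, Finset.sum_range_succ, sub_self, add_zero] at h
      rw [← h]
      apply Finset.sum_congr rfl
      intro l _
      rw [mul_sub, sub_mul]
    have hz := ih (fun l => g l * (x ^ (3 ^ l) - x ^ (3 ^ L))) (fun l =>
      (hg l).mul_left (((Commute.refl x).pow_left _).sub_left ((Commute.refl x).pow_left _))) hC
    have hlow : ∀ l, l < L → g l = 0 := by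
      intro l hl
      rcases mul_eq_zero.mp (hz l hl) with h | h
      · exact h
      · exfalso
        have h' := hx _ _ (sub_eq_zero.mp h)
        exact absurd (Nat.pow_right_injective (le_refl 2 |>.trans (by norm_num : 2 ≤ 3)) h') (by omega)
    intro l hl
    rcases Nat.lt_succ_iff_lt_or_eq.mp hl with h | rfl
    · exact hlow l h
    · rw [Finset.sum_range_succ, Finset.sum_eq_zero (fun i hi => by
        rw [hlow i (Finset.mem_range.mp hi), zero_mul]), zero_add] at hsum
      rcases mul_eq_zero.mp hsum with h | h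
      · exact h
      · exact absurd h (pow_ne_zero _ ht)

/-- A polynomial with infinitely many roots commuting with the coefficients vanishes. -/
theorem indep_poly (E : ℕ) : ∀ (y : ℕ → D) (Λ : ℕ → D), Function.Injective Λ →
    (∀ i j, Commute (Λ i) (Λ j)) → (∀ e j, Commute (y e) (Λ j)) →
    (∀ j, ∑ e ∈ range E, y e * Λ j ^ e = 0) → ∀ e, e < E → y e = 0 := by
  induction E with
  | zero => intro y Λ _ _ _ _ e he; omega
  | succ E ih =>
    intro y Λ hinj hcomm hy h0
    set a := Λ 0 with ha
    let z : ℕ → D := fun i => ∑ e ∈ range (E + 1), if i < e then y e * a ^ (e - 1 - i) else 0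
    have hzrec : ∀ i, i < E → z i = y (i + 1) + z (i + 1) * a := by
      intro i hi
      have h1 : ∀ e ∈ range (E + 1), (if i < e then y e * a ^ (e - 1 - i) else 0) =
          (if e = i + 1 then y (i + 1) else 0) +
          (if i + 1 < e then y e * a ^ (e - 1 - (i + 1)) else 0) * a := by
        intro e _
        by_cases h1 : i < e
        · by_cases h2 : e = i + 1
          · subst h2
            simp
          · have h3 : i + 1 < e := by omega
            simp only [h1, h2, h3, if_true, if_false, zero_add]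
            rw [mul_assoc, ← pow_succ]
            congr 2
            omega
        · have h2 : ¬ e = i + 1 := by omega
          have h3 : ¬ i + 1 < e := by omega
          simp [h1, h2, h3]
      simp only [z]
      rw [Finset.sum_congr rfl h1, Finset.sum_add_distrib, ← Finset.sum_mul]
      congr 1
      rw [Finset.sum_ite_eq' (range (E + 1)) (i + 1)]
      simp [hi]
    have hzE : z E = 0 := by
      simp only [z]
      apply Finset.sum_eq_zero
      intro e he
      have := Finset.mem_range.mp he
      rw [if_neg (by omega)]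
    have hcz : ∀ i j, Commute (z i) (Λ j) := by
      intro i j
      simp only [z]
      apply Commute.sum_left
      intro e _
      split_ifs
      · exact (hy e j).mul_left ((hcomm 0 j).pow_left _)
      · exact Commute.zero_left _
    have hroot : ∀ j, ∑ i ∈ range E, z i * Λ (j + 1) ^ i = 0 := by
      intro j
      set μ := Λ (j + 1) with hμ
      have hne : μ - a ≠ 0 := by
        intro h
        have := hinj (sub_eq_zero.mp h)
        omega
      have hca : Commute μ a := hcomm _ _
      have h1 : (∑ i ∈ range E, z i * μ ^ i) * (μ - a) = 0 := by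
        have h2 : ∑ i ∈ range E, z i * μ ^ i =
            ∑ e ∈ range (E + 1), y e * ∑ i ∈ range e, μ ^ i * a ^ (e - 1 - i) := by
          simp only [z, Finset.sum_mul]
          rw [Finset.sum_comm]
          apply Finset.sum_congr rfl
          intro e he
          have he' : e ≤ E := Nat.lt_succ_iff.mp (Finset.mem_range.mp he)
          rw [Finset.mul_sum]
          rw [← Finset.sum_subset (Finset.range_subset_range.mpr he') (by
            intro i hi hi'
            have : ¬ i < e := by simpa using hi'
            rw [if_neg this, zero_mul])]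
          apply Finset.sum_congr rfl
          intro i hi
          rw [if_pos (Finset.mem_range.mp hi), mul_assoc,
            ((hca.pow_left i).pow_right (e - 1 - i)).eq]
        rw [h2, Finset.sum_mul]
        have h3 : ∀ e ∈ range (E + 1), (y e * ∑ i ∈ range e, μ ^ i * a ^ (e - 1 - i)) * (μ - a) =
            y e * μ ^ e - y e * a ^ e := by
          intro e _
          rw [mul_assoc, hca.geom_sum₂_mul, mul_sub]
        rw [Finset.sum_congr rfl h3, Finset.sum_sub_distrib, h0 (j + 1), h0 0, sub_self]
      exact (mul_eq_zero.mp h1).resolve_right hne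
    have hz := ih z (fun j => Λ (j + 1)) (fun i j h => by have := hinj h; omega)
      (fun i j => hcomm _ _) (fun e j => hcz e (j + 1)) hroot
    have hz' : ∀ i, i ≤ E → z i = 0 := by
      intro i hi
      rcases Nat.lt_or_eq_of_le hi with h | rfl
      · exact hz i h
      · exact hzE
    have hy' : ∀ i, i < E → y (i + 1) = 0 := by
      intro i hi
      have := hzrec i hi
      rw [hz' i hi.le, hz' (i + 1) hi, zero_mul, add_zero] at this
      exact this.symm
    intro e he
    cases e with
    | succ e => exact hy' e (by omega)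
    | zero =>
      have := h0 0
      rw [Finset.sum_range_succ', Finset.sum_eq_zero (fun i hi => by
        rw [hy' i (Finset.mem_range.mp hi), zero_mul]), zero_add] at this
      simpa using this

/-- Independence of powers of `x` over the centraliser of `x, t`. -/
theorem indep_x {x t : D} (hxt : t * x = x ^ 3 * t) (ht : t ≠ 0)
    (hx : ∀ i j : ℕ, x ^ i = x ^ j → i = j) (T : Finset ℕ) (y : ℕ → D)
    (hy : ∀ e, Commute (y e) x) (hy' : ∀ e, Commute (y e) t)
    (h0 : ∑ e ∈ T, y e * x ^ e = 0) : ∀ e ∈ T, y e = 0 := by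
  classical
  obtain ⟨E, hE⟩ : ∃ E, T ⊆ range E := ⟨T.sup id + 1, fun e he => by
    rw [Finset.mem_range]
    have := Finset.le_sup (f := id) he
    simp at this
    omega⟩
  have hroot : ∀ j, ∑ e ∈ range E, (if e ∈ T then y e else 0) * (x ^ (3 ^ j)) ^ e = 0 := by
    intro j
    have h1 : ∑ e ∈ range E, (if e ∈ T then y e else 0) * (x ^ (3 ^ j)) ^ e =
        ∑ e ∈ T, y e * (x ^ (3 ^ j)) ^ e := by
      rw [← Finset.sum_subset hE (by
        intro e _ he
        rw [if_neg he, zero_mul])]
      apply Finset.sum_congr rfl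
      intro e he
      rw [if_pos he]
    rw [h1]
    have h2 : (∑ e ∈ T, y e * (x ^ (3 ^ j)) ^ e) * t ^ j = t ^ j * ∑ e ∈ T, y e * x ^ e := by
      rw [Finset.sum_mul, Finset.mul_sum]
      apply Finset.sum_congr rfl
      intro e _
      rw [← mul_assoc, ← ((hy' e).pow_right j).eq, mul_assoc, mul_assoc, t_pow_x hxt, ← pow_mul]
    rw [h0, mul_zero] at h2
    exact (mul_eq_zero.mp h2).resolve_right (pow_ne_zero _ ht)
  have := indep_poly E (fun e => if e ∈ T then y e else 0) (fun j => x ^ (3 ^ j))
    (by
      intro i j h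
      exact Nat.pow_right_injective (le_refl 2 |>.trans (by norm_num : 2 ≤ 3)) (hx _ _ h))
    (fun i j => (Commute.refl x).pow_pow _ _)
    (by
      intro e j
      split_ifs
      · exact (hy e).pow_right _
      · exact Commute.zero_left _)
    hroot
  intro e he
  have h := this e (Finset.mem_range.mp (hE he))
  simpa [he] using h


/-- `q` and all its conjugates by powers of `t` commute with `x`. -/
def Qp (x t q : D) : Prop := ∀ l : ℕ, Commute (t ^ l * q * (t ^ l)⁻¹) x

theorem Qp.comm {x t q : D} (h : Qp x t q) : Commute q x := by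
  have := h 0
  simpa using this

theorem Qp.mul {x t p q : D} (ht : t ≠ 0) (hp : Qp x t p) (hq : Qp x t q) : Qp x t (p * q) := by
  intro l
  have h : t ^ l * (p * q) * (t ^ l)⁻¹ = (t ^ l * p * (t ^ l)⁻¹) * (t ^ l * q * (t ^ l)⁻¹) := by
    have h0 : (t ^ l)⁻¹ * t ^ l = 1 := inv_mul_cancel₀ (pow_ne_zero _ ht)
    calc t ^ l * (p * q) * (t ^ l)⁻¹ = t ^ l * p * 1 * q * (t ^ l)⁻¹ := by
          rw [mul_one]; simp only [mul_assoc]
      _ = _ := by rw [← h0]; simp only [mul_assoc]
  rw [h]
  exact (hp l).mul_left (hq l)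

theorem Qp.conj {x t q : D} (hq : Qp x t q) (k : ℕ) : Qp x t (t ^ k * q * (t ^ k)⁻¹) := by
  intro l
  have h : t ^ l * (t ^ k * q * (t ^ k)⁻¹) * (t ^ l)⁻¹ = t ^ (l + k) * q * (t ^ (l + k))⁻¹ := by
    rw [pow_add, mul_inv_rev]
    simp only [mul_assoc]
  rw [h]
  exact hq _

theorem Qp.add {x t p q : D} (hp : Qp x t p) (hq : Qp x t q) : Qp x t (p + q) := by
  intro l
  rw [mul_add, add_mul]
  exact (hp l).add_left (hq l)

theorem Qp.zero {x t : D} : Qp x t 0 := by
  intro l
  simp

theorem Qp.neg {x t q : D} (hq : Qp x t q) : Qp x t (-q) := by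
  intro l
  rw [mul_neg, neg_mul]
  exact (hq l).neg_left

theorem Qp.of_comm {x t q : D} (ht : t ≠ 0) (h1 : Commute q x) (h2 : Commute q t) : Qp x t q := by
  intro l
  have : t ^ l * q * (t ^ l)⁻¹ = q := by
    rw [← (h2.pow_right l).eq, mul_assoc, mul_inv_cancel₀ (pow_ne_zero _ ht), mul_one]
  rw [this]
  exact h1

theorem Qp.x_pow {x t : D} (hxt : t * x = x ^ 3 * t) (ht : t ≠ 0) (e : ℕ) : Qp x t (x ^ e) := by
  intro l
  rw [t_pow_x hxt, mul_assoc, mul_inv_cancel₀ (pow_ne_zero _ ht), mul_one]
  exact (Commute.refl x).pow_left _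

/-- The filtration by degree in `t`. -/
def F (x t : D) (L : ℕ) : AddSubgroup D :=
  AddSubgroup.closure {z | ∃ q l, Qp x t q ∧ l < L ∧ z = q * t ^ l}

theorem F_mono {x t : D} {L L' : ℕ} (h : L ≤ L') : F x t L ≤ F x t L' := by
  apply AddSubgroup.closure_mono
  rintro z ⟨q, l, hq, hl, rfl⟩
  exact ⟨q, l, hq, by omega, rfl⟩

theorem F_gen {x t q : D} {l L : ℕ} (hq : Qp x t q) (hl : l < L) : q * t ^ l ∈ F x t L :=
  AddSubgroup.subset_closure ⟨q, l, hq, hl, rfl⟩

theorem F_mul {x t : D} (ht : t ≠ 0) {L L' K : ℕ} (hK : L + L' ≤ K + 1) {z w : D}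
    (hz : z ∈ F x t L) (hw : w ∈ F x t L') : z * w ∈ F x t K := by
  unfold F at hz
  induction hz using AddSubgroup.closure_induction with
  | zero => rw [zero_mul]; exact zero_mem _
  | add a b _ _ iha ihb => rw [add_mul]; exact add_mem iha ihb
  | neg a _ iha => rw [neg_mul]; exact neg_mem iha
  | mem a ha =>
    obtain ⟨q, l, hq, hl, rfl⟩ := ha
    unfold F at hw
    induction hw using AddSubgroup.closure_induction with
    | zero => rw [mul_zero]; exact zero_mem _
    | add a b _ _ iha ihb => rw [mul_add]; exact add_mem iha ihb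
    | neg a _ iha => rw [mul_neg]; exact neg_mem iha
    | mem b hb =>
      obtain ⟨p, l', hp, hl', rfl⟩ := hb
      have h : q * t ^ l * (p * t ^ l') = (q * (t ^ l * p * (t ^ l)⁻¹)) * t ^ (l + l') := by
        have h0 : (t ^ l)⁻¹ * t ^ l = 1 := inv_mul_cancel₀ (pow_ne_zero _ ht)
        rw [pow_add]
        calc q * t ^ l * (p * t ^ l') = q * t ^ l * p * 1 * t ^ l' := by
              rw [mul_one]; simp only [mul_assoc]
          _ = _ := by rw [← h0]; simp only [mul_assoc]
      rw [h]
      exact F_gen (hq.mul ht (hp.conj l)) (by omega)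

theorem F_normal {x t : D} {L : ℕ} {z : D} (hz : z ∈ F x t L) :
    ∃ g : ℕ → D, (∀ l, Qp x t (g l)) ∧ z = ∑ l ∈ range L, g l * t ^ l := by
  unfold F at hz
  induction hz using AddSubgroup.closure_induction with
  | zero => exact ⟨fun _ => 0, fun _ => Qp.zero, by simp⟩
  | add a b _ _ iha ihb =>
    obtain ⟨g, hg, rfl⟩ := iha
    obtain ⟨h, hh, rfl⟩ := ihb
    refine ⟨fun l => g l + h l, fun l => (hg l).add (hh l), ?_⟩
    rw [← Finset.sum_add_distrib]
    exact Finset.sum_congr rfl (fun l _ => by rw [add_mul])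
  | neg a _ iha =>
    obtain ⟨g, hg, rfl⟩ := iha
    refine ⟨fun l => - g l, fun l => (hg l).neg, ?_⟩
    rw [← Finset.sum_neg_distrib]
    exact Finset.sum_congr rfl (fun l _ => by rw [neg_mul])
  | mem a ha =>
    obtain ⟨q, l, hq, hl, rfl⟩ := ha
    refine ⟨fun k => if k = l then q else 0, fun k => ?_, ?_⟩
    · show Qp x t (if k = l then q else 0)
      split_ifs
      · exact hq
      · exact Qp.zero
    · simp [hl]

theorem F_top {x t : D} (hxt : t * x = x ^ 3 * t) (ht : t ≠ 0)
    (hx : ∀ i j : ℕ, x ^ i = x ^ j → i = j) {L : ℕ} {q : D} (hq : Qp x t q)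
    (h : q * t ^ L ∈ F x t L) : q = 0 := by
  obtain ⟨g, hg, hsum⟩ := F_normal h
  have h1 : ∑ l ∈ range (L + 1), (if l = L then -q else g l) * t ^ l = 0 := by
    rw [Finset.sum_range_succ, if_pos rfl, neg_mul, hsum, ← sub_eq_add_neg, sub_eq_zero]
    apply Finset.sum_congr rfl
    intro l hl
    rw [if_neg (Finset.mem_range.mp hl).ne]
  have := indep_t hxt ht hx (L + 1) _ (by
    intro l
    split_ifs
    · exact hq.neg.comm
    · exact (hg l).comm) h1 L (by omega)
  simpa using this

/-- The four small elements. -/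
def sm (x t : D) : Fin 4 → D := ![t, (1 + t) * (x * t), x ^ 2 * t, x ^ 2 * t * (x * t) - 1]

def ld : Fin 4 → BS := ![⟨1, 0⟩, ⟨2, 3⟩, ⟨1, 2⟩, ⟨2, 5⟩]

def mon (x t : D) (g : BS) : D := x ^ g.e * t ^ g.l

theorem mon_mul {x t : D} (hxt : t * x = x ^ 3 * t) (g h : BS) :
    mon x t (g * h) = mon x t g * mon x t h := by
  simp only [mon, BS.mul_e, BS.mul_l, pow_add]
  calc x ^ g.e * x ^ (3 ^ g.l * h.e) * (t ^ g.l * t ^ h.l)
      = x ^ g.e * (x ^ (3 ^ g.l * h.e) * t ^ g.l) * t ^ h.l := by simp only [mul_assoc]
    _ = x ^ g.e * t ^ g.l * (x ^ h.e * t ^ h.l) := by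
        rw [← t_pow_x hxt]; simp only [mul_assoc]

theorem mon_mem {x t : D} (hxt : t * x = x ^ 3 * t) (ht : t ≠ 0) (g : BS) {L : ℕ}
    (hL : g.l < L) : mon x t g ∈ F x t L := F_gen (Qp.x_pow hxt ht g.e) hL

theorem sm_lead {x t : D} (hxt : t * x = x ^ 3 * t) (ht : t ≠ 0) (i : Fin 4) :
    sm x t i - mon x t (ld i) ∈ F x t (ld i).l := by
  have h1 := t_pow_x hxt 1 1
  simp only [pow_one, mul_one] at h1
  fin_cases i
  · simp [sm, ld, mon]
  · have h : sm x t 1 - mon x t (ld 1) = x ^ 1 * t ^ 1 := by
      simp only [sm, ld, mon, Matrix.cons_val_one, Matrix.cons_val_zero, pow_one]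
      rw [add_mul, one_mul, ← mul_assoc t x t, h1, mul_assoc, ← pow_two]
      abel
    change sm x t 1 - mon x t (ld 1) ∈ _
    rw [h]
    exact F_gen (Qp.x_pow hxt ht 1) (by simp [ld])
  · simp [sm, ld, mon]
  · have h : sm x t 3 - mon x t (ld 3) = - (x ^ 0 * t ^ 0) := by
      simp only [sm, ld, mon, Matrix.cons_val, pow_zero, mul_one]
      have : x ^ 2 * t * (x * t) = x ^ 5 * t ^ 2 := by
        calc x ^ 2 * t * (x * t) = x ^ 2 * (t * x) * t := by simp only [mul_assoc]
          _ = x ^ 5 * t ^ 2 := by
            rw [h1, ← mul_assoc, ← pow_add, mul_assoc, ← pow_two]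
      rw [this]
      abel
    change sm x t 3 - mon x t (ld 3) ∈ _
    rw [h]
    exact neg_mem (F_gen (Qp.x_pow hxt ht 0) (by simp [ld]))

def ev (x t : D) (w : List (Fin 4)) : D := (w.map (sm x t)).prod

def lead (w : List (Fin 4)) : BS := (w.map ld).prod

theorem ev_lead {x t : D} (hxt : t * x = x ^ 3 * t) (ht : t ≠ 0) (w : List (Fin 4)) :
    ev x t w - mon x t (lead w) ∈ F x t (lead w).l := by
  induction w with
  | nil => simp [ev, lead, mon]
  | cons i w ih =>
    have h1 : ev x t (i :: w) = sm x t i * ev x t w := by simp [ev]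
    have h2 : lead (i :: w) = ld i * lead w := by simp [lead]
    rw [h1, h2, mon_mul hxt, BS.mul_l]
    have h3 : sm x t i * ev x t w - mon x t (ld i) * mon x t (lead w) =
        mon x t (ld i) * (ev x t w - mon x t (lead w)) +
        (sm x t i - mon x t (ld i)) * mon x t (lead w) +
        (sm x t i - mon x t (ld i)) * (ev x t w - mon x t (lead w)) := by
      noncomm_ring
    rw [h3]
    refine add_mem (add_mem ?_ ?_) ?_
    · exact F_mul ht (by omega) (mon_mem hxt ht (ld i) (Nat.lt_succ_self _)) ih
    · exact F_mul ht (by omega) (sm_lead hxt ht i)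
        (mon_mem hxt ht (lead w) (Nat.lt_succ_self _))
    · exact F_mul ht (by omega) (sm_lead hxt ht i) ih

theorem lead_mod (w : List (Fin 4)) : (lead w).e % 3 ≠ 1 := by
  cases w with
  | nil => simp [lead]
  | cons i w =>
    have h2 : lead (i :: w) = ld i * lead w := by simp [lead]
    rw [h2, BS.mul_e]
    fin_cases i <;> simp [ld] <;> omega

theorem lead_inj : ∀ w w' : List (Fin 4), lead w = lead w' → w = w' := by
  intro w
  induction w with
  | nil =>
    intro w' h
    cases w' with
    | nil => rfl
    | cons i w' =>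
      exfalso
      have h2 : lead (i :: w') = ld i * lead w' := by simp [lead]
      rw [h2] at h
      have := congrArg BS.l h
      simp only [BS.mul_l, lead, List.map_nil, List.prod_nil, BS.one_l] at this
      fin_cases i <;> simp [ld] at this <;> omega
  | cons i w ih =>
    intro w' h
    have h1 : lead (i :: w) = ld i * lead w := by simp [lead]
    cases w' with
    | nil =>
      exfalso
      rw [h1] at h
      have := congrArg BS.l h
      simp only [BS.mul_l, lead, List.map_nil, List.prod_nil, BS.one_l] at this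
      fin_cases i <;> simp [ld] at this <;> omega
    | cons j w' =>
      have h2 : lead (j :: w') = ld j * lead w' := by simp [lead]
      rw [h1, h2] at h
      have hl := congrArg BS.l h
      have he := congrArg BS.e h
      simp only [BS.mul_l, BS.mul_e] at hl he
      have m1 := lead_mod w
      have m2 := lead_mod w'
      have key : i = j := by
        fin_cases i <;> fin_cases j <;> simp [ld] at hl he ⊢ <;> omega
      subst key
      congr 1
      apply ih
      ext
      · omega
      · have : 3 ^ (ld i).l * (lead w).e = 3 ^ (ld i).l * (lead w').e := by omega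
        exact Nat.eq_of_mul_eq_mul_left (by positivity) this

/-- The key independence statement. -/
theorem key_indep {x t : D} (hxt : t * x = x ^ 3 * t) (ht : t ≠ 0)
    (hx : ∀ i j : ℕ, x ^ i = x ^ j → i = j) (f : List (Fin 4) →₀ D)
    (hf1 : ∀ w, Commute (f w) x) (hf2 : ∀ w, Commute (f w) t) (hf0 : f [] = 0) (z : D)
    (hz1 : Commute z x) (hz2 : Commute z t)
    (hz : z = ∑ w ∈ f.support, f w * ev x t w) : z = 0 := by
  classical
  by_cases hfz : f.support = ∅
  · rw [hz, hfz, Finset.sum_empty]
  exfalso
  obtain ⟨w0, hw0, hmax⟩ := Finset.exists_max_image f.support (fun w => (lead w).l)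
    (Finset.nonempty_iff_ne_empty.mpr hfz)
  set L := (lead w0).l with hL
  have hLpos : 1 ≤ L := by
    cases w0 with
    | nil => exact absurd hf0 (Finsupp.mem_support_iff.mp hw0)
    | cons i w =>
      have h2 : lead (i :: w) = ld i * lead w := by simp [lead]
      rw [hL, h2, BS.mul_l]
      fin_cases i <;> simp [ld] <;> omega
  set W := f.support.filter (fun w => (lead w).l = L) with hW
  have hQf : ∀ w, Qp x t (f w) := fun w => Qp.of_comm ht (hf1 w) (hf2 w)
  have hq : Qp x t (∑ w ∈ W, f w * x ^ (lead w).e) := by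
    have : ∀ T : Finset (List (Fin 4)), Qp x t (∑ w ∈ T, f w * x ^ (lead w).e) := by
      intro T
      induction T using Finset.induction_on with
      | empty => simpa using Qp.zero
      | insert a T ha ih =>
        rw [Finset.sum_insert ha]
        exact ((hQf a).mul ht (Qp.x_pow hxt ht _)).add ih
    exact this W
  have hfev : ∀ w, f w * (ev x t w - mon x t (lead w)) ∈ F x t (lead w).l := by
    intro w
    have h1 : f w ∈ F x t 1 := by
      have := F_gen (hQf w) (Nat.lt_succ_self 0)
      simpa using this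
    exact F_mul ht (by omega) h1 (ev_lead hxt ht w)
  have hfmon : ∀ w, f w * mon x t (lead w) = (f w * x ^ (lead w).e) * t ^ (lead w).l := by
    intro w
    simp [mon, mul_assoc]
  have hmem : (∑ w ∈ W, f w * x ^ (lead w).e) * t ^ L ∈ F x t L := by
    have h1 : (∑ w ∈ W, f w * x ^ (lead w).e) * t ^ L = ∑ w ∈ W, f w * mon x t (lead w) := by
      rw [Finset.sum_mul]
      apply Finset.sum_congr rfl
      intro w hw
      rw [hfmon, (Finset.mem_filter.mp hw).2]
    have h2 : ∑ w ∈ W, f w * mon x t (lead w) = z -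
        ∑ w ∈ W, f w * (ev x t w - mon x t (lead w)) -
        ∑ w ∈ f.support.filter (fun w => ¬ (lead w).l = L), f w * ev x t w := by
      rw [hz, ← Finset.sum_filter_add_sum_filter_not f.support (fun w => (lead w).l = L)]
      have : ∑ w ∈ W, f w * (ev x t w - mon x t (lead w)) =
          ∑ w ∈ W, f w * ev x t w - ∑ w ∈ W, f w * mon x t (lead w) := by
        rw [← Finset.sum_sub_distrib]
        exact Finset.sum_congr rfl (fun w _ => by rw [mul_sub])
      rw [this]
      abel
    rw [h1, h2]
    refine sub_mem (sub_mem ?_ ?_) ?_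
    · have := F_gen (L := L) (Qp.of_comm ht hz1 hz2) (show 0 < L by omega)
      simpa using this
    · apply sum_mem
      intro w hw
      have := hfev w
      rwa [(Finset.mem_filter.mp hw).2] at this
    · apply sum_mem
      intro w hw
      obtain ⟨hw1, hw2⟩ := Finset.mem_filter.mp hw
      have hlt : (lead w).l < L := lt_of_le_of_ne (hmax w hw1) hw2
      have h3 : f w * ev x t w = f w * (ev x t w - mon x t (lead w)) +
          (f w * x ^ (lead w).e) * t ^ (lead w).l := by
        rw [← hfmon, mul_sub]
        abel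
      rw [h3]
      exact add_mem (F_mono hlt.le (hfev w)) (F_gen ((hQf w).mul ht (Qp.x_pow hxt ht _)) hlt)
  have h0 := F_top hxt ht hx hq hmem
  -- group by exponent
  set T := W.image (fun w => (lead w).e) with hT
  have h1 : ∑ e ∈ T, (∑ w ∈ W.filter (fun w => (lead w).e = e), f w) * x ^ e = 0 := by
    rw [← h0, ← Finset.sum_fiberwise_of_maps_to (s := W) (t := T) (g := fun w => (lead w).e)
      (fun w hw => Finset.mem_image_of_mem _ hw)]
    apply Finset.sum_congr rfl
    intro e _
    rw [Finset.sum_mul]
    apply Finset.sum_congr rfl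
    intro w hw
    rw [(Finset.mem_filter.mp hw).2]
  have h2 := indep_x hxt ht hx T _ (fun e => Commute.sum_left _ _ _ (fun w _ => hf1 w))
    (fun e => Commute.sum_left _ _ _ (fun w _ => hf2 w)) h1
  have hw0W : w0 ∈ W := Finset.mem_filter.mpr ⟨hw0, rfl⟩
  have h3 := h2 (lead w0).e (Finset.mem_image_of_mem (fun w => (lead w).e) hw0W)
  have h4 : W.filter (fun w => (lead w).e = (lead w0).e) = {w0} := by
    ext w
    simp only [Finset.mem_filter, Finset.mem_singleton]
    constructor
    · rintro ⟨hw, he⟩
      apply lead_inj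
      ext
      · exact (Finset.mem_filter.mp hw).2
      · exact he
    · rintro rfl
      exact ⟨hw0W, rfl⟩
  rw [h4, Finset.sum_singleton] at h3
  exact Finsupp.mem_support_iff.mp hw0 h3

end pair

end Pool.Agent.H20.TopDiv
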