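import Pool.Agent.H20.TopDivB

set_option autoImplicit false

/-! The ring topology. -/

namespace Pool.Agent.H20.TopDiv

open Finset

theorem comm_ev {D : Type} [DivisionRing D] {x t y : D} (h1 : Commute y x) (h2 : Commute y t)
    (w : List (Fin 4)) : Commute y (ev x t w) := by
  have hs : ∀ i, Commute y (sm x t i) := by
    intro i
    fin_cases i
    · exact h2
    · exact ((Commute.one_right y).add_right h2).mul_right (h1.mul_right h2)
    · exact (h1.pow_right 2).mul_right h2
    · exact (((h1.pow_right 2).mul_right h2).mul_right (h1.mul_right h2)).sub_right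
        (Commute.one_right y)
  induction w with
  | nil => exact Commute.one_right y
  | cons i w ih =>
    have h1 : ev x t (i :: w) = sm x t i * ev x t w := by simp [ev]
    rw [h1]
    exact (hs i).mul_right ih

theorem ev_append {D : Type} [DivisionRing D] (x t : D) (w w' : List (Fin 4)) :
    ev x t (w ++ w') = ev x t w * ev x t w' := by
  simp [ev]

structure Sys (D : Type) [DivisionRing D] where
  x : ℕ → D
  t : ℕ → D
  h1 : ∀ n, t n * x n = x n ^ 3 * t n
  h2 : ∀ n, t n ≠ 0
  h3 : ∀ n (i j : ℕ), x n ^ i = x n ^ j → i = j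
  h4 : ∀ n m, n ≠ m → Commute (x n) (x m) ∧ Commute (t n) (t m) ∧ Commute (x n) (t m)
  h7 : ∀ y : D, ∃ n, ∀ m, n ≤ m → Commute y (x m) ∧ Commute y (t m)

variable {D : Type} [DivisionRing D] (S : Sys D)

def Cp (n : ℕ) (y : D) : Prop := ∀ m, n ≤ m → Commute y (S.x m) ∧ Commute y (S.t m)

variable {S}

theorem Cp.mono {n m : ℕ} {y : D} (h : Cp S n y) (hnm : n ≤ m) : Cp S m y :=
  fun k hk => h k (hnm.trans hk)

theorem Cp.mul {n : ℕ} {y z : D} (h : Cp S n y) (h' : Cp S n z) : Cp S n (y * z) :=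
  fun k hk => ⟨(h k hk).1.mul_left (h' k hk).1, (h k hk).2.mul_left (h' k hk).2⟩

theorem Cp.add {n : ℕ} {y z : D} (h : Cp S n y) (h' : Cp S n z) : Cp S n (y + z) :=
  fun k hk => ⟨(h k hk).1.add_left (h' k hk).1, (h k hk).2.add_left (h' k hk).2⟩

theorem Cp.neg {n : ℕ} {y : D} (h : Cp S n y) : Cp S n (-y) :=
  fun k hk => ⟨(h k hk).1.neg_left, (h k hk).2.neg_left⟩

theorem Cp.inv {n : ℕ} {y : D} (h : Cp S n y) : Cp S n y⁻¹ :=
  fun k hk => ⟨(h k hk).1.inv_left₀, (h k hk).2.inv_left₀⟩

theorem Cp.one (n : ℕ) : Cp S n 1 := fun _ _ => ⟨Commute.one_left _, Commute.one_left _⟩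

theorem Cp.zero (n : ℕ) : Cp S n 0 := fun _ _ => ⟨Commute.zero_left _, Commute.zero_left _⟩

theorem Cp.ev {n m : ℕ} (h : n < m) (w : List (Fin 4)) : Cp S m (ev (S.x n) (S.t n) w) := by
  intro k hk
  have hne : n ≠ k := by omega
  obtain ⟨a, b, c⟩ := S.h4 n k hne
  obtain ⟨a', b', c'⟩ := S.h4 k n (Ne.symm hne)
  exact ⟨(comm_ev a' c' w).symm, (comm_ev c.symm b' w).symm⟩

variable (S)

/-- The ideal part at level `n`. -/
def J (n : ℕ) : AddSubgroup D :=
  AddSubgroup.closure {z | ∃ y w, Cp S n y ∧ w ≠ [] ∧ z = y * ev (S.x n) (S.t n) w}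

def K (m N : ℕ) : AddSubgroup D :=
  AddSubgroup.closure {z | ∃ n y w, m ≤ n ∧ n < N ∧ Cp S n y ∧ w ≠ [] ∧
    z = y * ev (S.x n) (S.t n) w}

def I (m : ℕ) : AddSubgroup D :=
  AddSubgroup.closure {z | ∃ n y w, m ≤ n ∧ Cp S n y ∧ w ≠ [] ∧ z = y * ev (S.x n) (S.t n) w}

variable {S}

theorem J_zero {n : ℕ} {z : D} (hz : z ∈ J S n) (hc : Cp S n z) : z = 0 := by
  classical
  have hrep : ∃ f : List (Fin 4) →₀ D, (∀ w, Cp S n (f w)) ∧ f [] = 0 ∧
      z = ∑ w ∈ f.support, f w * ev (S.x n) (S.t n) w := by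
    clear hc
    unfold J at hz
    induction hz using AddSubgroup.closure_induction with
    | zero => exact ⟨0, fun w => Cp.zero n, rfl, by simp⟩
    | add a b _ _ iha ihb =>
      obtain ⟨f, hf, hf0, rfl⟩ := iha
      obtain ⟨g, hg, hg0, rfl⟩ := ihb
      refine ⟨f + g, fun w => (hf w).add (hg w), by simp [hf0, hg0], ?_⟩
      have h := Finsupp.sum_add_index' (f := f) (g := g)
        (h := fun w y => y * ev (S.x n) (S.t n) w) (by simp) (by intros; rw [add_mul])
      simpa [Finsupp.sum] using h.symm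
    | neg a _ iha =>
      obtain ⟨f, hf, hf0, rfl⟩ := iha
      refine ⟨-f, fun w => (hf w).neg, by simp [hf0], ?_⟩
      rw [Finsupp.support_neg, ← Finset.sum_neg_distrib]
      exact Finset.sum_congr rfl (fun w _ => by simp)
    | mem a ha =>
      obtain ⟨y, w, hy, hw, rfl⟩ := ha
      refine ⟨Finsupp.single w y, ?_, ?_, ?_⟩
      · intro w'
        rw [Finsupp.single_apply]
        split_ifs
        · exact hy
        · exact Cp.zero n
      · rw [Finsupp.single_apply, if_neg hw]
      · have h := Finsupp.sum_single_index (a := w) (b := y)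
          (h := fun w y => y * ev (S.x n) (S.t n) w) (by simp)
        simpa [Finsupp.sum] using h.symm
  obtain ⟨f, hf, hf0, hsum⟩ := hrep
  exact key_indep (S.h1 n) (S.h2 n) (S.h3 n) f (fun w => (hf w n le_rfl).1)
    (fun w => (hf w n le_rfl).2) hf0 z (hc n le_rfl).1 (hc n le_rfl).2 hsum

theorem K_Cp {m N : ℕ} {z : D} (hz : z ∈ K S m N) : Cp S N z := by
  unfold K at hz
  induction hz using AddSubgroup.closure_induction with
  | zero => exact Cp.zero _
  | add a b _ _ iha ihb => exact iha.add ihb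
  | neg a _ iha => exact iha.neg
  | mem a ha =>
    obtain ⟨n, y, w, -, hn, hy, -, rfl⟩ := ha
    exact (hy.mono hn.le).mul (Cp.ev hn w)

theorem K_succ {m N : ℕ} {z : D} (hz : z ∈ K S m (N + 1)) :
    ∃ k ∈ K S m N, ∃ j ∈ J S N, z = k + j := by
  unfold K at hz
  induction hz using AddSubgroup.closure_induction with
  | zero => exact ⟨0, zero_mem _, 0, zero_mem _, by simp⟩
  | add a b _ _ iha ihb =>
    obtain ⟨k, hk, j, hj, rfl⟩ := iha
    obtain ⟨k', hk', j', hj', rfl⟩ := ihb
    exact ⟨k + k', add_mem hk hk', j + j', add_mem hj hj', by abel⟩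
  | neg a _ iha =>
    obtain ⟨k, hk, j, hj, rfl⟩ := iha
    exact ⟨-k, neg_mem hk, -j, neg_mem hj, by abel⟩
  | mem a ha =>
    obtain ⟨n, y, w, hm, hn, hy, hw, rfl⟩ := ha
    rcases Nat.lt_succ_iff_lt_or_eq.mp hn with h | rfl
    · exact ⟨_, AddSubgroup.subset_closure ⟨n, y, w, hm, h, hy, hw, rfl⟩, 0, zero_mem _, by simp⟩
    · exact ⟨0, zero_mem _, _, AddSubgroup.subset_closure ⟨y, w, hy, hw, rfl⟩, by simp⟩

theorem K_one {m : ℕ} (N : ℕ) : (1 : D) ∉ K S m N := by
  induction N with
  | zero =>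
    intro h
    have : K S m 0 = ⊥ := by
      unfold K
      rw [AddSubgroup.closure_eq_bot_iff]
      rintro z ⟨n, y, w, -, hn, -⟩
      omega
    rw [this, AddSubgroup.mem_bot] at h
    exact one_ne_zero h
  | succ N ih =>
    intro h
    obtain ⟨k, hk, j, hj, he⟩ := K_succ h
    have hj0 : j = 0 := by
      apply J_zero hj
      have : j = 1 + -k := by rw [he]; abel
      rw [this]
      exact (Cp.one N).add (K_Cp hk).neg
    rw [hj0, add_zero] at he
    rw [he] at ih
    exact ih hk

theorem I_K {m : ℕ} {z : D} (hz : z ∈ I S m) : ∃ N, z ∈ K S m N := by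
  have hmono : ∀ {N N' : ℕ}, N ≤ N' → K S m N ≤ K S m N' := by
    intro N N' h
    apply AddSubgroup.closure_mono
    rintro z ⟨n, y, w, hm, hn, hr⟩
    exact ⟨n, y, w, hm, lt_of_lt_of_le hn h, hr⟩
  unfold I at hz
  induction hz using AddSubgroup.closure_induction with
  | zero => exact ⟨0, zero_mem _⟩
  | add a b _ _ iha ihb =>
    obtain ⟨N, hN⟩ := iha
    obtain ⟨N', hN'⟩ := ihb
    exact ⟨max N N', add_mem (hmono (le_max_left _ _) hN) (hmono (le_max_right _ _) hN')⟩
  | neg a _ iha =>
    obtain ⟨N, hN⟩ := iha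
    exact ⟨N, neg_mem hN⟩
  | mem a ha =>
    obtain ⟨n, y, w, hm, hr⟩ := ha
    exact ⟨n + 1, AddSubgroup.subset_closure ⟨n, y, w, hm, Nat.lt_succ_self n, hr⟩⟩

theorem I_one {m : ℕ} : (1 : D) ∉ I S m := fun h => by
  obtain ⟨N, hN⟩ := I_K h
  exact K_one N hN

theorem I_anti {m m' : ℕ} (h : m ≤ m') : I S m' ≤ I S m := by
  apply AddSubgroup.closure_mono
  rintro z ⟨n, y, w, hm, hr⟩
  exact ⟨n, y, w, h.trans hm, hr⟩

theorem I_left {m : ℕ} {y z : D} (hy : Cp S m y) (hz : z ∈ I S m) : y * z ∈ I S m := by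
  unfold I at hz
  induction hz using AddSubgroup.closure_induction with
  | zero => rw [mul_zero]; exact zero_mem _
  | add a b _ _ iha ihb => rw [mul_add]; exact add_mem iha ihb
  | neg a _ iha => rw [mul_neg]; exact neg_mem iha
  | mem a ha =>
    obtain ⟨n, y', w, hm, hy', hw, rfl⟩ := ha
    rw [← mul_assoc]
    exact AddSubgroup.subset_closure ⟨n, y * y', w, hm, (hy.mono hm).mul hy', hw, rfl⟩

theorem I_right {m : ℕ} {y z : D} (hy : Cp S m y) (hz : z ∈ I S m) : z * y ∈ I S m := by
  unfold I at hz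
  induction hz using AddSubgroup.closure_induction with
  | zero => rw [zero_mul]; exact zero_mem _
  | add a b _ _ iha ihb => rw [add_mul]; exact add_mem iha ihb
  | neg a _ iha => rw [neg_mul]; exact neg_mem iha
  | mem a ha =>
    obtain ⟨n, y', w, hm, hy', hw, rfl⟩ := ha
    have hc : Commute y (ev (S.x n) (S.t n) w) := comm_ev (hy n hm).1 (hy n hm).2 w
    rw [mul_assoc, ← hc.eq, ← mul_assoc]
    exact AddSubgroup.subset_closure ⟨n, y' * y, w, hm, hy'.mul (hy.mono hm), hw, rfl⟩

theorem I_mul {m : ℕ} {z z' : D} (hz : z ∈ I S m) (hz' : z' ∈ I S m) : z * z' ∈ I S m := by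
  unfold I at hz
  induction hz using AddSubgroup.closure_induction with
  | zero => rw [zero_mul]; exact zero_mem _
  | add a b _ _ iha ihb => rw [add_mul]; exact add_mem iha ihb
  | neg a _ iha => rw [neg_mul]; exact neg_mem iha
  | mem a ha =>
    obtain ⟨n, y, w, hm, hy, hw, rfl⟩ := ha
    unfold I at hz'
    induction hz' using AddSubgroup.closure_induction with
    | zero => rw [mul_zero]; exact zero_mem _
    | add a b _ _ iha ihb => rw [mul_add]; exact add_mem iha ihb
    | neg a _ iha => rw [mul_neg]; exact neg_mem iha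
    | mem b hb =>
      obtain ⟨n', y', w', hm', hy', hw', rfl⟩ := hb
      rcases lt_trichotomy n n' with h | rfl | h
      · have h1 : y * ev (S.x n) (S.t n) w * (y' * ev (S.x n') (S.t n') w') =
            (y * ev (S.x n) (S.t n) w * y') * ev (S.x n') (S.t n') w' := by
          simp only [mul_assoc]
        rw [h1]
        exact AddSubgroup.subset_closure ⟨n', _, w', hm',
          ((hy.mono h.le).mul (Cp.ev h w)).mul hy', hw', rfl⟩
      · have hc : Commute y' (ev (S.x n) (S.t n) w) :=
          comm_ev (hy' n le_rfl).1 (hy' n le_rfl).2 w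
        have h1 : y * ev (S.x n) (S.t n) w * (y' * ev (S.x n) (S.t n) w') =
            (y * y') * ev (S.x n) (S.t n) (w ++ w') := by
          rw [ev_append]
          calc y * ev (S.x n) (S.t n) w * (y' * ev (S.x n) (S.t n) w')
              = y * (ev (S.x n) (S.t n) w * y') * ev (S.x n) (S.t n) w' := by
                simp only [mul_assoc]
            _ = _ := by rw [← hc.eq]; simp only [mul_assoc]
        rw [h1]
        exact AddSubgroup.subset_closure ⟨n, _, _, hm, hy.mul hy', by simp [hw], rfl⟩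
      · have hq : Cp S n (y' * ev (S.x n') (S.t n') w') := (hy'.mono h.le).mul (Cp.ev h w')
        have hc : Commute (y' * ev (S.x n') (S.t n') w') (ev (S.x n) (S.t n) w) :=
          comm_ev (hq n le_rfl).1 (hq n le_rfl).2 w
        have h1 : y * ev (S.x n) (S.t n) w * (y' * ev (S.x n') (S.t n') w') =
            (y * (y' * ev (S.x n') (S.t n') w')) * ev (S.x n) (S.t n) w := by
          rw [mul_assoc, ← hc.eq]
          simp only [mul_assoc]
        rw [h1]
        exact AddSubgroup.subset_closure ⟨n, _, _, hm, hy.mul hq, hw, rfl⟩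

variable (S)

theorem basisI : RingSubgroupsBasis (I S) where
  inter := fun i j => ⟨max i j, le_inf (I_anti (le_max_left _ _)) (I_anti (le_max_right _ _))⟩
  mul := fun i => ⟨i, by
    rintro z ⟨a, ha, b, hb, rfl⟩
    exact I_mul ha hb⟩
  leftMul := fun x i => by
    obtain ⟨n, hn⟩ := S.h7 x
    refine ⟨max i n, fun z hz => ?_⟩
    exact I_anti (le_max_left i n) (I_left (Cp.mono (S := S) (n := n) hn (le_max_right i n)) hz)
  rightMul := fun x i => by
    obtain ⟨n, hn⟩ := S.h7 x
    refine ⟨max i n, fun z hz => ?_⟩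
    exact I_anti (le_max_left i n) (I_right (Cp.mono (S := S) (n := n) hn (le_max_right i n)) hz)

/-- The topology. -/
def tau : TopologicalSpace D := (basisI S).topology

theorem tau_ring : @IsTopologicalRing D (tau S) _ :=
  (basisI S).toRingFilterBasis.isTopologicalRing

theorem tau_t2 : @T2Space D (tau S) := by
  letI := tau S
  haveI := tau_ring S
  apply IsTopologicalAddGroup.t2Space_of_zero_sep
  intro z hz
  obtain ⟨n, hn⟩ := S.h7 z
  refine ⟨I S n, ?_, ?_⟩
  · exact (basisI S).hasBasis_nhds_zero.mem_of_mem trivial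
  · intro hmem
    have : z⁻¹ * z ∈ I S n := I_left (Cp.inv (S := S) (n := n) hn) hmem
    rw [inv_mul_cancel₀ hz] at this
    exact I_one this

theorem no_field_topology (σ : TopologicalSpace D) (hσ : tau S ≤ σ)
    (hr : @IsTopologicalRing D σ _) (h2 : @T2Space D σ)
    (hinv : ∀ x : D, x ≠ 0 → @ContinuousAt D D σ σ (fun y => y⁻¹) x) : False := by
  have hlim : ∀ i : Fin 4, Filter.Tendsto (fun n => sm (S.x n) (S.t n) i) Filter.atTop
      (@nhds D σ 0) := by
    intro i
    have h1 : Filter.Tendsto (fun n => sm (S.x n) (S.t n) i) Filter.atTop (@nhds D (tau S) 0) := by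
      refine ((basisI S).hasBasis_nhds_zero).tendsto_right_iff.mpr ?_
      intro m _
      filter_upwards [Filter.eventually_ge_atTop m] with n hn
      exact AddSubgroup.subset_closure ⟨n, 1, [i], hn, Cp.one n, by simp, by simp [ev]⟩
    exact h1.mono_right (nhds_mono hσ)
  letI := σ
  have hb : Filter.Tendsto (fun n => S.t n) Filter.atTop (nhds 0) := hlim 0
  have ha : Filter.Tendsto (fun n => (1 + S.t n) * (S.x n * S.t n)) Filter.atTop (nhds 0) := hlim 1
  have hd : Filter.Tendsto (fun n => S.x n ^ 2 * S.t n) Filter.atTop (nhds 0) := hlim 2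
  have hc : Filter.Tendsto (fun n => S.x n ^ 2 * S.t n * (S.x n * S.t n) - 1) Filter.atTop
      (nhds 0) := hlim 3
  have h1 : Filter.Tendsto (fun n => 1 + S.t n) Filter.atTop (nhds 1) := by
    simpa using hb.const_add 1
  have h2' : Filter.Tendsto (fun n => (1 + S.t n)⁻¹) Filter.atTop (nhds 1) := by
    have h := (hinv 1 one_ne_zero).tendsto.comp h1
    rw [inv_one] at h
    exact h
  have hp : Filter.Tendsto (fun n => S.x n * S.t n) Filter.atTop (nhds 0) := by
    have h := h2'.mul ha
    rw [mul_zero] at h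
    refine h.congr (fun n => ?_)
    have hne : 1 + S.t n ≠ 0 := by
      intro h0
      have ht : S.t n = -1 := by
        rw [add_comm] at h0
        exact eq_neg_of_add_eq_zero_left h0
      have h3 := S.h1 n
      rw [ht, neg_mul, one_mul, mul_neg, mul_one, neg_inj] at h3
      have := S.h3 n 1 3 (by simpa using h3)
      omega
    rw [← mul_assoc, inv_mul_cancel₀ hne, one_mul]
  have hdp := hd.mul hp
  rw [mul_zero] at hdp
  have hc' : Filter.Tendsto (fun n => S.x n ^ 2 * S.t n * (S.x n * S.t n) - 1) Filter.atTop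
      (nhds (0 - 1)) := hdp.sub_const 1
  have := tendsto_nhds_unique hc hc'
  simp at this

end Pool.Agent.H20.TopDiv
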