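import Pool.Agent.H20.TopDivC

set_option autoImplicit false

/-! The concrete division ring. -/

namespace Pool.Agent.H20.TopDiv

open nonZeroDivisors

theorem emb_inj : Function.Injective emb := by
  apply OreLocalization.numeratorHom_inj
  intro a ha
  exact ha.1

noncomputable def phi : G →* Om := emb.toMonoidHom.comp (MonoidAlgebra.of ℚ G)

theorem phi_inj : Function.Injective phi := by
  intro a b h
  exact MonoidAlgebra.of_injective (emb_inj h)

noncomputable def X (n : ℕ) : Om := phi (gx n)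
noncomputable def TT (n : ℕ) : Om := phi (gt n)

theorem X_T (n : ℕ) : TT n * X n = X n ^ 3 * TT n := by
  simp only [X, TT, ← map_mul, ← map_pow, gt_gx]

theorem phi_ne (g : G) : phi g ≠ 0 := by
  intro h
  have h1 : emb (MonoidAlgebra.of ℚ G g) = emb 0 := by rw [map_zero]; exact h
  have h2 := emb_inj h1
  have h3 := congrArg (fun z : A => z.coeff g) h2
  simp [MonoidAlgebra.of] at h3

theorem gx_pow (n k : ℕ) : ((gx n) ^ k).1 n = ⟨0, k⟩ := by
  induction k with
  | zero => rfl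
  | succ k ih =>
    rw [pow_succ, G_mul_val, ih, gx_val, if_pos rfl]
    ext <;> simp

theorem X_pow_inj (n i j : ℕ) (h : X n ^ i = X n ^ j) : i = j := by
  simp only [X, ← map_pow] at h
  have h1 := phi_inj h
  have h2 := gx_pow n i
  rw [h1, gx_pow] at h2
  exact (congrArg BS.e h2).symm

theorem comm_XX {n m : ℕ} (h : n ≠ m) : Commute (X n) (X m) := by
  show X n * X m = X m * X n
  simp only [X, ← map_mul]
  rw [comm_of h (fun k hk => by rw [gx_val, if_neg hk]) (fun k hk => by rw [gx_val, if_neg hk])]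

theorem comm_TT {n m : ℕ} (h : n ≠ m) : Commute (TT n) (TT m) := by
  show TT n * TT m = TT m * TT n
  simp only [TT, ← map_mul]
  rw [comm_of h (fun k hk => by rw [gt_val, if_neg hk]) (fun k hk => by rw [gt_val, if_neg hk])]

theorem comm_XT {n m : ℕ} (h : n ≠ m) : Commute (X n) (TT m) := by
  show X n * TT m = TT m * X n
  simp only [X, TT, ← map_mul]
  rw [comm_of h (fun k hk => by rw [gx_val, if_neg hk]) (fun k hk => by rw [gt_val, if_neg hk])]

/-- The division ring of elements commuting with almost all pairs. -/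
noncomputable def DD : Subfield Om where
  carrier := {y | ∃ n, ∀ m, n ≤ m → Commute y (X m) ∧ Commute y (TT m)}
  mul_mem' := by
    rintro a b ⟨n, hn⟩ ⟨k, hk⟩
    exact ⟨max n k, fun m hm =>
      ⟨(hn m (le_of_max_le_left hm)).1.mul_left (hk m (le_of_max_le_right hm)).1,
       (hn m (le_of_max_le_left hm)).2.mul_left (hk m (le_of_max_le_right hm)).2⟩⟩
  one_mem' := ⟨0, fun m _ => ⟨Commute.one_left _, Commute.one_left _⟩⟩
  add_mem' := by
    rintro a b ⟨n, hn⟩ ⟨k, hk⟩
    exact ⟨max n k, fun m hm =>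
      ⟨(hn m (le_of_max_le_left hm)).1.add_left (hk m (le_of_max_le_right hm)).1,
       (hn m (le_of_max_le_left hm)).2.add_left (hk m (le_of_max_le_right hm)).2⟩⟩
  zero_mem' := ⟨0, fun m _ => ⟨Commute.zero_left _, Commute.zero_left _⟩⟩
  neg_mem' := by
    rintro a ⟨n, hn⟩
    exact ⟨n, fun m hm => ⟨(hn m hm).1.neg_left, (hn m hm).2.neg_left⟩⟩
  inv_mem' := by
    rintro a ⟨n, hn⟩
    exact ⟨n, fun m hm => ⟨(hn m hm).1.inv_left₀, (hn m hm).2.inv_left₀⟩⟩

theorem X_mem (n : ℕ) : X n ∈ DD :=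
  ⟨n + 1, fun m hm => ⟨comm_XX (by omega), comm_XT (by omega)⟩⟩

theorem T_mem (n : ℕ) : TT n ∈ DD :=
  ⟨n + 1, fun m hm => ⟨(comm_XT (n := m) (m := n) (by omega)).symm, comm_TT (by omega)⟩⟩

theorem comm_coe {a b : DD} (h : Commute (a : Om) (b : Om)) : Commute a b :=
  Subtype.ext h.eq

noncomputable def sysDD : Sys DD where
  x n := ⟨X n, X_mem n⟩
  t n := ⟨TT n, T_mem n⟩
  h1 n := Subtype.ext (X_T n)
  h2 n := by
    intro h
    exact phi_ne (gt n) (congrArg Subtype.val h)
  h3 n i j h := X_pow_inj n i j (congrArg Subtype.val h)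
  h4 n m h := ⟨comm_coe (comm_XX h), comm_coe (comm_TT h), comm_coe (comm_XT h)⟩
  h7 y := by
    obtain ⟨n, hn⟩ := y.2
    exact ⟨n, fun m hm => ⟨comm_coe (hn m hm).1, comm_coe (hn m hm).2⟩⟩

theorem final : ¬ (∀ (K : Type) [DivisionRing K] (τ : TopologicalSpace K),
      @IsTopologicalRing K τ _ → @T2Space K τ →
      ∃ σ : TopologicalSpace K, τ ≤ σ ∧ @IsTopologicalRing K σ _ ∧ @T2Space K σ ∧
        ∀ x : K, x ≠ 0 → @ContinuousAt K K σ σ (fun y => y⁻¹) x) := by
  intro H
  obtain ⟨σ, h1, h2, h3, h4⟩ := H DD (tau sysDD) (tau_ring sysDD) (tau_t2 sysDD)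
  exact no_field_topology sysDD σ h1 h2 h3 h4

end Pool.Agent.H20.TopDiv
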