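import Mathlib
import Pool.Agent.H20.Relax3

set_option autoImplicit false

open Set

namespace Pool.Agent.H20.Relax

/-- the uniform matroid `U_{2,6}` exists -/
theorem exists_unif (r n : ℕ) (hr : r ≤ n) : ∃ U : Matroid (Fin n), U.E = Set.univ ∧
    ∀ B : Set (Fin n), U.IsBase B ↔ B.ncard = r := by
  refine ⟨Matroid.ofExistsFiniteIsBase Set.univ (fun B => B.ncard = r) ?_ ?_
    (fun _ _ => Set.subset_univ _), rfl, fun B => Iff.rfl⟩
  · have h1 : r ≤ (Set.univ : Set (Fin n)).ncard := by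
      rw [Set.ncard_univ, Nat.card_eq_fintype_card, Fintype.card_fin]
      exact hr
    obtain ⟨B, _, hB⟩ := Set.exists_subset_card_eq h1
    exact ⟨B, hB, Set.toFinite _⟩
  · rintro X Y hX hY a ha
    obtain ⟨b, hbY, hbX⟩ : ∃ b ∈ Y, b ∉ X := by
      by_contra hcon
      push Not at hcon
      have h1 : Y = X := Set.eq_of_subset_of_ncard_le hcon (by rw [hX, hY])
      exact ha.2 (h1 ▸ ha.1)
    refine ⟨b, ⟨hbY, hbX⟩, ?_⟩
    show (insert b (X \ {a})).ncard = r
    rw [Set.ncard_insert_of_notMem (fun h => hbX h.1), Set.ncard_sdiff_singleton_add_one ha.1, hX]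

theorem unif_minor {β : Type} [Finite β] {U : Matroid (Fin 6)} (hUE : U.E = Set.univ)
    (hU : ∀ B : Set (Fin 6), U.IsBase B ↔ B.ncard = 2) {M : Matroid β} (h : IsoMinor U M) :
    ∃ M' : Matroid β, M' ≤m M ∧ M'.E.encard = 6 ∧ ∀ I ⊆ M'.E, (M'.Indep I ↔ I.encard ≤ 2) := by
  obtain ⟨M', hM, f, hf, hfI⟩ := h
  rw [hUE] at hf hfI
  have hinj : Function.Injective f := fun a b hab =>
    hf.injOn (Set.mem_univ a) (Set.mem_univ b) hab
  have hE : M'.E = Set.range f := by
    rw [← hf.image_eq, Set.image_univ]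
  refine ⟨M', hM, ?_, ?_⟩
  · rw [hE, ← Set.image_univ, hinj.encard_image, Set.encard_univ, ENat.card_eq_coe_fintype_card,
      Fintype.card_fin]
    rfl
  · intro I hI
    rw [hE] at hI
    obtain ⟨J, rfl⟩ := Set.subset_range_iff_exists_image_eq.mp hI
    rw [← hfI J (Set.subset_univ _), hinj.encard_image]
    rw [← Set.Finite.cast_ncard_eq (Set.toFinite J)]
    constructor
    · intro hJ
      obtain ⟨B, hB, hJB⟩ := hJ.exists_isBase_superset
      have h1 := (hU B).mp hB
      have h2 := Set.ncard_le_ncard hJB (Set.toFinite _)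
      rw [h1] at h2
      exact_mod_cast h2
    · intro hJ
      have hJ' : J.ncard ≤ 2 := by exact_mod_cast hJ
      obtain ⟨B, hJB, _, hB⟩ := Set.exists_subsuperset_card_eq (Set.subset_univ J) hJ' (by
        rw [Set.ncard_univ, Nat.card_eq_fintype_card, Fintype.card_fin]; omega)
      exact ((hU B).mpr hB).indep.subset hJB

end Pool.Agent.H20.Relax
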