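import Mathlib

set_option autoImplicit false

namespace Pool.Agent.H20.Visc

open Set Filter Topology Metric

variable {n : ℕ}

abbrev En (n : ℕ) : Type := EuclideanSpace ℝ (Fin n)

/-- the supersolution property for the first order equation `u_t + G(x,u) = 0` -/
def Sup (T : ℝ) (G : En n → ℝ → ℝ) (u : ℝ → En n → ℝ) : Prop :=
  ∀ φ : ℝ × En n → ℝ, ContDiff ℝ ((⊤ : ℕ∞) : WithTop ℕ∞) φ → ∀ t₀ ∈ Ioo 0 T, ∀ x₀ : En n,
    IsLocalMin (fun q : ℝ × En n => u q.1 q.2 - φ q) (t₀, x₀) →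
      deriv (fun t => φ (t, x₀)) t₀ + G x₀ (u t₀ x₀) ≤ 0

theorem mono_lemma {T : ℝ} {G : En n → ℝ → ℝ} {u : ℝ → En n → ℝ}
    (hu : ContinuousOn (fun q : ℝ × En n => u q.1 q.2) (Icc 0 T ×ˢ univ))
    (hS : Sup T G u) {a b s r : ℝ} {x₀ : En n} (ha : 0 ≤ a) (hab : a < b) (hb : b ≤ T)
    (hr : 0 < r)
    (hG : ∀ t ∈ Icc a b, ∀ x ∈ closedBall x₀ r, s < G x (u t x)) :
    u b x₀ + s * (b - a) ≤ u a x₀ := by
  by_contra hcon
  push Not at hcon
  set ε := (u b x₀ + s * (b - a) - u a x₀) / 2 with hε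
  have hε0 : 0 < ε := by rw [hε]; linarith
  have hsub : ∀ t ∈ Icc a b, ∀ x : En n, (t, x) ∈ Icc 0 T ×ˢ (univ : Set (En n)) := by
    intro t ht x
    exact ⟨⟨ha.trans ht.1, ht.2.trans hb⟩, mem_univ _⟩
  -- the compact cylinder
  set Cyl : Set (ℝ × En n) := Icc a b ×ˢ closedBall x₀ r with hCyl
  have hCylc : IsCompact Cyl := isCompact_Icc.prod (isCompact_closedBall x₀ r)
  have huC : ContinuousOn (fun q : ℝ × En n => u q.1 q.2) Cyl :=
    hu.mono fun q hq => hsub q.1 hq.1 q.2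
  obtain ⟨B, hB⟩ := (hCylc.image_of_continuousOn huC).isBounded.exists_norm_le
  have hB' : ∀ t ∈ Icc a b, ∀ x ∈ closedBall x₀ r, |u t x| ≤ B := by
    intro t ht x hx
    exact hB _ ⟨(t, x), ⟨ht, hx⟩, rfl⟩
  have hB0 : 0 ≤ B := (abs_nonneg _).trans (hB' a (left_mem_Icc.2 hab.le) x₀ (mem_closedBall_self hr.le))
  -- continuity in time at `a`
  have hcont_t : ContinuousOn (fun t => u t x₀ + s * t) (Icc a b) := by
    apply ContinuousOn.add _ (by fun_prop)
    exact hu.comp (f := fun t : ℝ => (t, x₀)) (by fun_prop) (fun t ht => hsub t ht x₀)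
  obtain ⟨a', ha', hda'⟩ : ∃ a' ∈ Ioo a b, |(u a' x₀ + s * a') - (u a x₀ + s * a)| < ε / 4 := by
    have h1 := hcont_t a (left_mem_Icc.2 hab.le)
    rw [Metric.continuousWithinAt_iff] at h1
    obtain ⟨δ, hδ, h2⟩ := h1 (ε / 4) (by positivity)
    refine ⟨a + min (δ / 2) ((b - a) / 2), ⟨?_, ?_⟩, ?_⟩
    · have : 0 < min (δ / 2) ((b - a) / 2) := lt_min (by positivity) (by linarith)
      linarith
    · have := min_le_right (δ / 2) ((b - a) / 2)
      linarith
    · have h3 : 0 < min (δ / 2) ((b - a) / 2) := lt_min (by positivity) (by linarith)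
      have h4 := min_le_right (δ / 2) ((b - a) / 2)
      have h5 := min_le_left (δ / 2) ((b - a) / 2)
      have h6 := @h2 (a + min (δ / 2) ((b - a) / 2)) ⟨by linarith, by linarith⟩ (by
        rw [Real.dist_eq, add_sub_cancel_left, abs_of_pos h3]; linarith)
      rwa [Real.dist_eq] at h6
  set N := 2 / (a' - a) with hN
  have ha'a : 0 < a' - a := by linarith [ha'.1]
  have hN0 : 0 < N := by positivity
  have hexp : Real.exp (-N * (a' - a)) ≤ 1 / 4 := by
    have h1 : -N * (a' - a) = -2 := by rw [hN]; field_simp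
    rw [h1, Real.exp_neg]
    have h2 : (4 : ℝ) ≤ Real.exp 2 := by
      have h3 := Real.add_one_le_exp (1 : ℝ)
      have h4 : Real.exp 2 = Real.exp 1 * Real.exp 1 := by rw [← Real.exp_add]; norm_num
      rw [h4]; nlinarith
    rw [inv_eq_one_div]
    exact one_div_le_one_div_of_le (by norm_num) h2
  -- continuity in space at `a` and at `b`
  have hcx : ∀ t ∈ Icc a b, ∃ δ > 0, ∀ x : En n, dist x x₀ < δ → |u t x - u t x₀| < ε / 4 := by
    intro t ht
    have h1 : Continuous (fun x : En n => u t x) := by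
      rw [← continuousOn_univ]
      exact hu.comp (f := fun x : En n => (t, x)) (by fun_prop) (fun x _ => hsub t ht x)
    have h2 := h1.continuousAt (x := x₀)
    rw [Metric.continuousAt_iff] at h2
    obtain ⟨δ, hδ, h3⟩ := h2 (ε / 4) (by positivity)
    exact ⟨δ, hδ, fun x hx => by simpa [Real.dist_eq] using h3 hx⟩
  obtain ⟨δ₁, hδ₁, hx1⟩ := hcx a (left_mem_Icc.2 hab.le)
  obtain ⟨δ₂, hδ₂, hx2⟩ := hcx b (right_mem_Icc.2 hab.le)
  set δ := min r (min δ₁ δ₂) with hδ
  have hδ0 : 0 < δ := lt_min hr (lt_min hδ₁ hδ₂)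
  have hδr : δ ≤ r := min_le_left _ _
  have hδ1 : δ ≤ δ₁ := (min_le_right _ _).trans (min_le_left _ _)
  have hδ2 : δ ≤ δ₂ := (min_le_right _ _).trans (min_le_right _ _)
  set M := 4 * B + 4 * |s| * (|a| + |b|) + 4 * ε + 1 with hM
  have hM0 : 0 < M := by positivity
  set K := M / δ ^ 2 with hK
  have hK0 : 0 < K := by positivity
  have hKδ : ∀ x : En n, δ ≤ dist x x₀ → M ≤ K * ‖x - x₀‖ ^ 2 := by
    intro x hx
    rw [← dist_eq_norm]
    calc M = K * δ ^ 2 := by rw [hK]; field_simp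
      _ ≤ K * dist x x₀ ^ 2 := by gcongr
  set θ : ℝ × En n → ℝ := fun q => s * q.1 + K * ‖q.2 - x₀‖ ^ 2 + ε * Real.exp (-N * (q.1 - a))
    with hθ
  have hθcont : Continuous θ := by rw [hθ]; fun_prop
  obtain ⟨⟨t₁, x₁⟩, hmem, hmin⟩ := hCylc.exists_isMinOn (f := fun q => u q.1 q.2 + θ q)
    ⟨(a, x₀), ⟨left_mem_Icc.2 hab.le, mem_closedBall_self hr.le⟩⟩
    (huC.add hθcont.continuousOn)
  have ht₁ : t₁ ∈ Icc a b := hmem.1
  have hx₁ : x₁ ∈ closedBall x₀ r := hmem.2
  have hup : u t₁ x₁ + θ (t₁, x₁) < u a x₀ + s * a + ε / 2 := by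
    have h1 : u t₁ x₁ + θ (t₁, x₁) ≤ u a' x₀ + θ (a', x₀) :=
      hmin (show (a', x₀) ∈ Cyl from ⟨⟨ha'.1.le, ha'.2.le⟩, mem_closedBall_self hr.le⟩)
    have h2 : θ (a', x₀) = s * a' + ε * Real.exp (-N * (a' - a)) := by
      simp [hθ]
    rw [h2] at h1
    have h3 : ε * Real.exp (-N * (a' - a)) ≤ ε * (1 / 4) := mul_le_mul_of_nonneg_left hexp hε0.le
    have h4 := (abs_lt.1 hda').2
    linarith
  have hexp0 : ∀ t, 0 < ε * Real.exp (-N * (t - a)) := fun t => by positivity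
  have hθ1 : θ (t₁, x₁) = s * t₁ + K * ‖x₁ - x₀‖ ^ 2 + ε * Real.exp (-N * (t₁ - a)) := rfl
  have hKnn : 0 ≤ K * ‖x₁ - x₀‖ ^ 2 := by positivity
  -- the case of large distance
  have hfar : dist x₁ x₀ < δ := by
    by_contra hge
    push Not at hge
    have h1 := hKδ x₁ hge
    have h2 := hB' t₁ ht₁ x₁ hx₁
    have h3 := hB' a (left_mem_Icc.2 hab.le) x₀ (mem_closedBall_self hr.le)
    have h4 := (abs_le.1 h2).1
    have h5 := (abs_le.1 h3).2
    have h6 : s * a - s * t₁ ≤ |s| * (|a| + |b|) * 2 := by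
      have e1 : s * a ≤ |s| * |a| := by rw [← abs_mul]; exact le_abs_self _
      have e2 : -(s * t₁) ≤ |s| * |t₁| := by rw [← abs_mul]; exact neg_le_abs _
      have e3 : |t₁| ≤ |a| + |b| := by
        have h7 : 0 ≤ t₁ := ha.trans ht₁.1
        rw [abs_of_nonneg h7]
        have h8 : t₁ ≤ |b| := ht₁.2.trans (le_abs_self b)
        linarith [abs_nonneg a]
      have e4 : |s| * |t₁| ≤ |s| * (|a| + |b|) := mul_le_mul_of_nonneg_left e3 (abs_nonneg _)
      have e5 : |s| * |a| ≤ |s| * (|a| + |b|) := mul_le_mul_of_nonneg_left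
        (by linarith [abs_nonneg b]) (abs_nonneg _)
      linarith
    have h7 := hexp0 t₁
    have h8 : 0 ≤ |s| * (|a| + |b|) := by positivity
    rw [hθ1] at hup
    nlinarith
  have hx1' := hx1 x₁ (lt_of_lt_of_le hfar hδ1)
  have hx2' := hx2 x₁ (lt_of_lt_of_le hfar hδ2)
  have hta : t₁ ≠ a := by
    intro h
    rw [h] at hup hθ1
    rw [hθ1] at hup
    simp only [sub_self, mul_zero, Real.exp_zero, mul_one] at hup
    have := (abs_lt.1 hx1').1
    linarith
  have htb : t₁ ≠ b := by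
    intro h
    rw [h] at hup hθ1
    rw [hθ1] at hup
    have h1 := (abs_lt.1 hx2').1
    have h2 := hexp0 b
    have h3 : u b x₀ + s * (b - a) - u a x₀ = 2 * ε := by rw [hε]; ring
    linarith
  have ht₁' : t₁ ∈ Ioo a b := ⟨lt_of_le_of_ne ht₁.1 (Ne.symm hta), lt_of_le_of_ne ht₁.2 htb⟩
  have hnhds : Cyl ∈ 𝓝 (t₁, x₁) := by
    apply prod_mem_nhds (Icc_mem_nhds ht₁'.1 ht₁'.2)
    exact closedBall_mem_nhds_of_mem (mem_ball.2 (lt_of_lt_of_le hfar hδr))
  have hloc : IsLocalMin (fun q : ℝ × En n => u q.1 q.2 - (-θ q)) (t₁, x₁) := by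
    have h1 : IsLocalMin (fun q : ℝ × En n => u q.1 q.2 + θ q) (t₁, x₁) := hmin.isLocalMin hnhds
    simpa only [sub_neg_eq_add] using h1
  have hsmooth : ContDiff ℝ ((⊤ : ℕ∞) : WithTop ℕ∞) (fun q => -θ q) := by
    apply ContDiff.neg
    rw [hθ]
    apply ContDiff.add
    · apply ContDiff.add
      · exact contDiff_const.mul contDiff_fst
      · exact contDiff_const.mul ((contDiff_snd.sub contDiff_const).norm_sq ℝ)
    · apply contDiff_const.mul
      apply Real.contDiff_exp.comp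
      exact contDiff_const.mul (contDiff_fst.sub contDiff_const)
  have hfin := hS (fun q => -θ q) hsmooth t₁ ⟨by linarith [ht₁'.1], by linarith [ht₁'.2]⟩ x₁ hloc
  have hder : deriv (fun t => -θ (t, x₁)) t₁ = -s + ε * N * Real.exp (-N * (t₁ - a)) := by
    have h1 : HasDerivAt (fun t : ℝ => -(s * t + K * ‖x₁ - x₀‖ ^ 2 +
        ε * Real.exp (-N * (t - a)))) (-(s * 1 + 0 + ε * (Real.exp (-N * (t₁ - a)) * (-N * 1)))) t₁ := by
      apply HasDerivAt.neg
      apply HasDerivAt.add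
      · exact ((hasDerivAt_id t₁).const_mul s).add (hasDerivAt_const t₁ _)
      · apply HasDerivAt.const_mul
        apply HasDerivAt.exp
        apply HasDerivAt.const_mul
        exact (hasDerivAt_id t₁).sub_const a
    have h2 := h1.deriv
    have h3 : (fun t => -θ (t, x₁)) = (fun t : ℝ => -(s * t + K * ‖x₁ - x₀‖ ^ 2 +
        ε * Real.exp (-N * (t - a)))) := rfl
    rw [h3, h2]
    ring
  rw [hder] at hfin
  have hGlt := hG t₁ ht₁ x₁ hx₁
  have hpos : 0 < ε * N * Real.exp (-N * (t₁ - a)) := by positivity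
  linarith

/-- the nonlinearity -/
noncomputable def GG (i : Fin n) (x : En n) (y : ℝ) : ℝ :=
  2 * (Real.sqrt y - Real.sqrt (-y)) + x i

theorem GG_cont (i : Fin n) : Continuous (fun q : En n × ℝ => GG i q.1 q.2) := by
  unfold GG
  fun_prop

theorem lower_bound {T : ℝ} (i : Fin n) {u : ℝ → En n → ℝ}
    (hu : ContinuousOn (fun q : ℝ × En n => u q.1 q.2) (Icc 0 T ×ˢ univ))
    (hS : Sup T (GG i) u) (hT : 0 ≤ T) (hterm : ∀ x, u T x = 0) (x₀ : En n) (hx₀ : 0 < x₀ i) :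
    T ^ 2 ≤ u 0 x₀ := by
  have hcont_t : ContinuousOn (fun t => u t x₀) (Icc 0 T) :=
    hu.comp (f := fun t : ℝ => (t, x₀)) (by fun_prop) (fun t ht => ⟨ht, mem_univ _⟩)
  have hcont_r : ContinuousOn (fun r => u (T - r) x₀) (Icc 0 T) := by
    refine hcont_t.comp (f := fun r : ℝ => T - r) (by fun_prop) ?_
    intro r hr
    exact ⟨by linarith [hr.2], by linarith [hr.1]⟩
  set S : Set ℝ := {r | r ^ 2 ≤ u (T - r) x₀} with hSdef
  have hclosed : IsClosed (S ∩ Icc 0 T) := by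
    have h1 : IsClosed {r ∈ Icc (0 : ℝ) T | r ^ 2 ≤ u (T - r) x₀} :=
      isClosed_Icc.isClosed_le (by fun_prop) hcont_r
    have h2 : S ∩ Icc 0 T = {r ∈ Icc (0 : ℝ) T | r ^ 2 ≤ u (T - r) x₀} := by
      ext r; constructor
      · rintro ⟨h, h'⟩; exact ⟨h', h⟩
      · rintro ⟨h, h'⟩; exact ⟨h', h⟩
    rw [h2]; exact h1
  have h0 : (0 : ℝ) ∈ S := by
    show (0 : ℝ) ^ 2 ≤ u (T - 0) x₀
    rw [sub_zero, hterm]; norm_num
  have hall : Icc 0 T ⊆ S := by
    apply hclosed.Icc_subset_of_forall_exists_gt h0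
    rintro r ⟨hrS, hr0, hrT⟩ y hy
    have hrS' : r ^ 2 ≤ u (T - r) x₀ := hrS
    have hy' : r < y := hy
    set s := 2 * r + x₀ i / 2 with hs
    -- `G` is larger than `s` near the point
    have hGr : s < GG i x₀ (u (T - r) x₀) := by
      unfold GG
      have h1 : r ≤ Real.sqrt (u (T - r) x₀) := Real.le_sqrt_of_sq_le hrS'
      have h2 : Real.sqrt (-(u (T - r) x₀)) = 0 := by
        apply Real.sqrt_eq_zero_of_nonpos
        nlinarith [sq_nonneg r]
      rw [h2, hs]; linarith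
    have hGc : ContinuousOn (fun q : ℝ × En n => GG i q.2 (u q.1 q.2)) (Icc 0 T ×ˢ univ) := by
      exact (GG_cont i).comp_continuousOn (continuousOn_snd.prodMk hu)
    have hmemr : ((T - r, x₀) : ℝ × En n) ∈ Icc 0 T ×ˢ (univ : Set (En n)) :=
      ⟨⟨by linarith, by linarith⟩, mem_univ _⟩
    have h1 := hGc _ hmemr
    rw [Metric.continuousWithinAt_iff] at h1
    obtain ⟨δ, hδ, h2⟩ := h1 (GG i x₀ (u (T - r) x₀) - s) (by linarith)
    set η := min (min (δ / 2) (x₀ i / 2)) (min (T - r) (y - r)) with hη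
    have hη0 : 0 < η := lt_min (lt_min (by positivity) (by positivity))
      (lt_min (by linarith) (by linarith))
    have hη1 : η ≤ δ / 2 := (min_le_left _ _).trans (min_le_left _ _)
    have hη2 : η ≤ x₀ i / 2 := (min_le_left _ _).trans (min_le_right _ _)
    have hη3 : η ≤ T - r := (min_le_right _ _).trans (min_le_left _ _)
    have hη4 : η ≤ y - r := (min_le_right _ _).trans (min_le_right _ _)
    refine ⟨r + η, ?_, by linarith, by linarith⟩
    show (r + η) ^ 2 ≤ u (T - (r + η)) x₀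
    have h3 := mono_lemma (a := T - (r + η)) (b := T - r) (s := s) (r := δ / 2) (x₀ := x₀) hu hS
      (by linarith) (by linarith) (by linarith) (by positivity) (by
        intro t ht x hx
        have h4 := @h2 (t, x) ⟨⟨by linarith [ht.1], by linarith [ht.2]⟩, mem_univ _⟩ (by
          rw [Prod.dist_eq]
          apply max_lt
          · show dist t (T - r) < δ
            rw [Real.dist_eq, abs_lt]
            constructor
            · linarith [ht.1]
            · linarith [ht.2]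
          · show dist x x₀ < δ
            have := mem_closedBall.1 hx
            linarith)
        rw [Real.dist_eq] at h4
        have h5 := (abs_lt.1 h4).1
        simp only at h5
        linarith)
    have h6 : T - r - (T - (r + η)) = η := by ring
    rw [h6] at h3
    nlinarith
  have := hall (right_mem_Icc.2 hT)
  have h1 : T ^ 2 ≤ u (T - T) x₀ := this
  rwa [sub_self] at h1

theorem no_solution {T : ℝ} (hT : 0 < T) (i : Fin n) {u : ℝ → En n → ℝ}
    (hu : ContinuousOn (fun q : ℝ × En n => u q.1 q.2) (Icc 0 T ×ˢ univ))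
    (hterm : ∀ x, u T x = 0) (hS : Sup T (GG i) u)
    (hS' : ∀ φ : ℝ × En n → ℝ, ContDiff ℝ ((⊤ : ℕ∞) : WithTop ℕ∞) φ → ∀ t₀ ∈ Ioo 0 T,
      ∀ x₀ : En n, IsLocalMax (fun q : ℝ × En n => u q.1 q.2 - φ q) (t₀, x₀) →
      0 ≤ deriv (fun t => φ (t, x₀)) t₀ + GG i x₀ (u t₀ x₀)) : False := by
  -- reflected function
  set w : ℝ → En n → ℝ := fun t x => -u t (-x) with hw
  have hwc : ContinuousOn (fun q : ℝ × En n => w q.1 q.2) (Icc 0 T ×ˢ univ) := by
    apply ContinuousOn.neg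
    exact hu.comp (f := fun q : ℝ × En n => (q.1, -q.2)) (by fun_prop)
      (fun q hq => ⟨hq.1, mem_univ _⟩)
  have hwS : Sup T (GG i) w := by
    intro φ hφ t₀ ht₀ x₀ hmin
    have h1 : ContDiff ℝ ((⊤ : ℕ∞) : WithTop ℕ∞) (fun q : ℝ × En n => -φ (q.1, -q.2)) :=
      (hφ.comp (contDiff_fst.prodMk contDiff_snd.neg)).neg
    have h2 : IsLocalMax (fun q : ℝ × En n => u q.1 q.2 - (-φ (q.1, -q.2))) (t₀, -x₀) := by
      have hcont : ContinuousAt (fun q : ℝ × En n => ((q.1, -q.2) : ℝ × En n)) (t₀, -x₀) := by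
        fun_prop
      have h3 : ∀ᶠ q in 𝓝 ((t₀, x₀) : ℝ × En n), w t₀ x₀ - φ (t₀, x₀) ≤ w q.1 q.2 - φ q := hmin
      have h4 : Tendsto (fun q : ℝ × En n => ((q.1, -q.2) : ℝ × En n)) (𝓝 (t₀, -x₀))
          (𝓝 (t₀, x₀)) := by
        have := hcont.tendsto
        simpa using this
      have h5 := h4.eventually h3
      refine h5.mono ?_
      intro q hq
      show u q.1 q.2 - (-φ (q.1, -q.2)) ≤ u t₀ (-x₀) - (-φ (t₀, - -x₀))
      simp only [hw, neg_neg] at hq ⊢
      linarith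
    have h3 := hS' _ h1 t₀ ht₀ (-x₀) h2
    have h5 : deriv (fun t => -φ (t, - -x₀)) t₀ = -deriv (fun t => φ (t, x₀)) t₀ := by
      simp only [neg_neg]
      exact deriv.fun_neg
    have h6 : deriv (fun t => (fun q : ℝ × En n => -φ (q.1, -q.2)) (t, -x₀)) t₀ =
        -deriv (fun t => φ (t, x₀)) t₀ := h5
    rw [h6] at h3
    have h7 : GG i (-x₀) (u t₀ (-x₀)) = - GG i x₀ (w t₀ x₀) := by
      unfold GG
      simp only [hw, neg_neg, PiLp.neg_apply]
      ring
    rw [h7] at h3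
    linarith
  have hwterm : ∀ x, w T x = 0 := by intro x; simp [hw, hterm]
  -- the two one-sided bounds
  have hA : ∀ x : En n, 0 < x i → T ^ 2 ≤ u 0 x := fun x hx =>
    lower_bound i hu hS hT.le hterm x hx
  have hB : ∀ x : En n, x i < 0 → u 0 x ≤ -T ^ 2 := by
    intro x hx
    have h1 := lower_bound i hwc hwS hT.le hwterm (-x) (by simpa using hx)
    simp only [hw, neg_neg] at h1
    linarith
  -- contradiction with continuity at the origin
  have hcx : Continuous (fun c : ℝ => u 0 (c • EuclideanSpace.single i (1 : ℝ))) := by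
    rw [← continuousOn_univ]
    exact hu.comp (f := fun c : ℝ => ((0 : ℝ), c • EuclideanSpace.single i (1 : ℝ)))
      (by fun_prop) (fun c _ => ⟨⟨le_refl _, hT.le⟩, mem_univ _⟩)
  have hcoord : ∀ c : ℝ, (c • EuclideanSpace.single i (1 : ℝ) : En n) i = c := by
    intro c; simp
  have h1 : T ^ 2 ≤ u 0 ((0 : ℝ) • EuclideanSpace.single i (1 : ℝ)) := by
    have ht : Tendsto (fun c : ℝ => u 0 (c • EuclideanSpace.single i (1 : ℝ))) (𝓝[>] 0)
        (𝓝 (u 0 ((0 : ℝ) • EuclideanSpace.single i (1 : ℝ)))) :=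
      (hcx.tendsto 0).mono_left nhdsWithin_le_nhds
    refine ge_of_tendsto ht ?_
    filter_upwards [self_mem_nhdsWithin] with c hc
    apply hA
    rw [hcoord]; exact hc
  have h2 : u 0 ((0 : ℝ) • EuclideanSpace.single i (1 : ℝ)) ≤ -T ^ 2 := by
    have ht : Tendsto (fun c : ℝ => u 0 (c • EuclideanSpace.single i (1 : ℝ))) (𝓝[<] 0)
        (𝓝 (u 0 ((0 : ℝ) • EuclideanSpace.single i (1 : ℝ)))) :=
      (hcx.tendsto 0).mono_left nhdsWithin_le_nhds
    refine le_of_tendsto ht ?_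
    filter_upwards [self_mem_nhdsWithin] with c hc
    apply hB
    rw [hcoord]; exact hc
  nlinarith [sq_pos_of_pos hT]

end Pool.Agent.H20.Visc
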